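import Pool.Agent.Work.MP_0890ba_co.BD.Defs

/-!
# From multiple list colourings to the strong fractional choice number
-/

namespace BDP

open Pool.Agent.Work.MP_0890ba_co

variable {V : Type} {G : SimpleGraph V}

/-- More colours do not hurt. -/
theorem choosable_mono {a a' b : ℕ} (h : Choosable G a b) (ha : a ≤ a') : Choosable G a' b := by
  intro L hL
  have h1 : ∀ v, ∃ L' : Finset ℤ, L' ⊆ L v ∧ L'.card = a := fun v =>
    Finset.exists_subset_card_eq (by rw [hL v]; exact ha)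
  choose L' hL' hL'c using h1
  obtain ⟨S, hS, hd⟩ := h L' hL'c
  exact ⟨S, fun v => ⟨(hS v).1.trans (hL' v), (hS v).2⟩, hd⟩

/-- The gain: a positive number which depends only on `b₀` and `γ < 5`. -/
noncomputable def gain (b₀ : ℕ) (γ : ℝ) : ℝ := min (1 / ((b₀ : ℝ) + 1)) (5 - γ)

theorem gain_pos (b₀ : ℕ) {γ : ℝ} (hγ : γ < 5) : 0 < gain b₀ γ :=
  lt_min (by positivity) (by linarith)

/-- A graph which is `(5 b, b)`-choosable for all `b`, and `(a, b)`-choosable for `b ≥ b₀` and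
`a ≥ γ b`, has strong fractional choice number at most `5 - gain b₀ γ`. -/
theorem chsf_le_gain {b₀ : ℕ} {γ : ℝ} (h1 : ∀ a b : ℕ, b₀ ≤ b → γ * b ≤ a → Choosable G a b)
    (h5 : ∀ b, Choosable G (5 * b) b) : chsf G ≤ ((5 - gain b₀ γ : ℝ) : EReal) := by
  unfold chsf
  refine iInf₂_le (5 - gain b₀ γ) ?_
  intro a b hb _ hr
  have hb' : (0 : ℝ) < b := by exact_mod_cast hb
  rw [le_div_iff₀ hb'] at hr
  rcases Nat.lt_or_ge b b₀ with h2 | h2
  · have h3 : gain b₀ γ * b < 1 := by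
      have h4 : gain b₀ γ ≤ 1 / ((b₀ : ℝ) + 1) := min_le_left _ _
      have h5 : (b : ℝ) < (b₀ : ℝ) + 1 := by
        have : (b : ℝ) < b₀ := by exact_mod_cast h2
        linarith
      have h6 : (0 : ℝ) < (b₀ : ℝ) + 1 := by positivity
      calc gain b₀ γ * b ≤ 1 / ((b₀ : ℝ) + 1) * b := mul_le_mul_of_nonneg_right h4 hb'.le
        _ < 1 / ((b₀ : ℝ) + 1) * ((b₀ : ℝ) + 1) := mul_lt_mul_of_pos_left h5 (by positivity)
        _ = 1 := by field_simp
    have h4 : (5 : ℝ) * b - 1 < a := by nlinarith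
    have h7 : 5 * b ≤ a := by
      have h8 : ((5 * b : ℕ) : ℝ) < ((a + 1 : ℕ) : ℝ) := by
        push_cast
        linarith
      have h9 : 5 * b < a + 1 := by exact_mod_cast h8
      omega
    exact choosable_mono (h5 b) h7
  · refine h1 a b h2 ?_
    have h3 : gain b₀ γ ≤ 5 - γ := min_le_right _ _
    nlinarith

end BDP
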