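import Pool.Agent.Work.MP_0890ba_co.BD.Basic

/-!
# Shrinking one part of a minor to a single vertex
-/

namespace BDP

variable {V : Type} {G : SimpleGraph V}

/-- There is an edge between `K` and `L`. -/
def Touch (G : SimpleGraph V) (K L : Set V) : Prop := ∃ x ∈ K, ∃ y ∈ L, G.Adj x y

theorem Touch.mono {K K' L L' : Set V} (h : Touch G K L) (hK : K ⊆ K') (hL : L ⊆ L') :
    Touch G K' L' := by
  obtain ⟨x, hx, y, hy, h1⟩ := h
  exact ⟨x, hK hx, y, hL hy, h1⟩

theorem Touch.symm {K L : Set V} (h : Touch G K L) : Touch G L K := by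
  obtain ⟨x, hx, y, hy, h1⟩ := h
  exact ⟨y, hy, x, hx, h1.symm⟩

/-- The last but one vertex of a shortest walk. -/
theorem dist_pred {H : SimpleGraph V} {r x : V} (hr : H.Reachable r x) (h : H.dist r x ≠ 0) :
    ∃ u, H.Adj u x ∧ H.Reachable r u ∧ H.dist r u + 1 = H.dist r x := by
  obtain ⟨q, hq⟩ := hr.symm.exists_walk_length_eq_dist
  rw [SimpleGraph.dist_comm] at hq
  cases q with
  | nil =>
    simp only [SimpleGraph.Walk.length_nil] at hq
    exact (h hq.symm).elim
  | @cons _ u _ hadj q =>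
    rw [SimpleGraph.Walk.length_cons] at hq
    refine ⟨u, hadj.symm, ⟨q.reverse⟩, ?_⟩
    have h1 : H.dist r u ≤ q.length := by
      rw [SimpleGraph.dist_comm]
      exact SimpleGraph.dist_le q
    have hru : H.Reachable r u := ⟨q.reverse⟩
    obtain ⟨w, hw⟩ := hru.exists_walk_length_eq_dist
    have h2 : H.dist r x ≤ (w.concat hadj.symm).length := SimpleGraph.dist_le _
    rw [SimpleGraph.Walk.length_concat] at h2
    omega

/-- A connected set with another vertex than `r` has a vertex different from `r` whose removal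
leaves it connected. -/
theorem exists_noncut {K : Set V} (hfin : K.Finite) (hK : Conn G K) {r x : V} (hr : r ∈ K)
    (hx : x ∈ K) (hne : x ≠ r) : ∃ v ∈ K, v ≠ r ∧ Conn G (K \ {v}) := by
  obtain ⟨v, hvK, hv⟩ := Set.exists_max_image K (fun z => (res G K).dist r z) hfin ⟨r, hr⟩
  have hpos : (res G K).dist r x ≠ 0 := by
    intro h0
    exact hne ((((hK r hr x hx).dist_eq_zero_iff).1 h0).symm)
  have hvr : v ≠ r := by
    rintro rfl
    have := hv x hx
    simp only [SimpleGraph.dist_self] at this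
    omega
  refine ⟨v, hvK, hvr, ?_⟩
  have key : ∀ (n : ℕ) (z : V), z ∈ K → z ≠ v → (res G K).dist r z = n →
      (res G (K \ {v})).Reachable r z := by
    intro n
    induction n with
    | zero =>
      intro z hz _ hd
      rw [(hK r hr z hz).dist_eq_zero_iff] at hd
      rw [hd]
    | succ n ih =>
      intro z hz hzv hd
      obtain ⟨u, h1, _, h3⟩ := dist_pred (hK r hr z hz) (by omega)
      have huv : u ≠ v := by
        rintro rfl
        have := hv z hz
        omega
      have huK : u ∈ K := h1.2.1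
      have h4 := ih u huK huv (by omega)
      refine h4.trans (SimpleGraph.Adj.reachable ?_)
      exact ⟨h1.1, ⟨huK, huv⟩, ⟨hz, hzv⟩⟩
  exact Conn.of_center (c := r) (fun z hz => key _ z hz.1 hz.2 rfl)

/-- A vertex of a connected set with another vertex has a neighbour in it. -/
theorem exists_nbr {K : Set V} (hK : Conn G K) {v x : V} (hv : v ∈ K) (hx : x ∈ K) (hne : x ≠ v) :
    ∃ w ∈ K, w ≠ v ∧ G.Adj v w := by
  obtain ⟨q⟩ := hK v hv x hx
  cases q with
  | nil => exact (hne rfl).elim
  | @cons _ u _ hadj q => exact ⟨u, hadj.2.2, hadj.1.ne', hadj.1⟩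

theorem conn_insert {K : Set V} (hK : Conn G K) {v y : V} (hy : y ∈ K) (h : G.Adj v y) :
    Conn G (insert v K) := by
  have h1 : (res G (insert v K)).Reachable y v :=
    SimpleGraph.Adj.reachable ⟨h.symm, Set.mem_insert_of_mem v hy, Set.mem_insert v K⟩
  refine Conn.of_center (c := y) ?_
  rintro x (rfl | hx)
  · exact h1
  · exact (hK y hy x hx).mono (res_mono (Set.subset_insert v K))

theorem conn_singleton (v : V) : Conn G {v} := by
  intro x hx y hy
  rw [Set.mem_singleton_iff] at hx hy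
  rw [hx, hy]

theorem conn_union {K L : Set V} (hK : Conn G K) (hL : Conn G L) (h : Touch G K L) :
    Conn G (K ∪ L) := by
  obtain ⟨x, hx, y, hy, h1⟩ := h
  refine Conn.of_center (c := x) ?_
  rintro z (hz | hz)
  · exact (hK x hx z hz).mono (res_mono Set.subset_union_left)
  · refine SimpleGraph.Reachable.trans (SimpleGraph.Adj.reachable (v := y) ?_)
      ((hL y hy z hz).mono (res_mono Set.subset_union_right))
    exact ⟨h1, Or.inl hx, Or.inr hy⟩

/-- The part `K` of a minor with neighbouring parts `A i` either can be shrunk to one vertex `p`,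
the rest going to the parts `A i`, or can be split into two neighbouring parts, each of which
touches two of the parts `A i`, four parts in all. -/
theorem shrink {ι : Type} : ∀ (n : ℕ) (K : Set V) (A : ι → Set V), K.Finite → K.ncard = n →
    K.Nonempty → Conn G K → (∀ i, Conn G (A i)) → (∀ i j, i ≠ j → Disjoint (A i) (A j)) →
    (∀ i, Disjoint K (A i)) → (∀ i, Touch G K (A i)) →
    (∃ p ∈ K, ∃ D : ι → Set V, (∀ i, A i ⊆ D i) ∧ (∀ i, D i ⊆ A i ∪ K) ∧ (∀ i, p ∉ D i) ∧
      (∀ i, Conn G (D i)) ∧ (∀ i j, i ≠ j → Disjoint (D i) (D j)) ∧ ∀ i, ∃ y ∈ D i, G.Adj p y) ∨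
    (∃ (P Q : Set V) (D : ι → Set V), P ⊆ K ∧ Q ⊆ K ∧ P.Nonempty ∧ Q.Nonempty ∧ Conn G P ∧
      Conn G Q ∧ Disjoint P Q ∧ Touch G P Q ∧ (∀ i, A i ⊆ D i) ∧ (∀ i, D i ⊆ A i ∪ K) ∧
      (∀ i, Disjoint P (D i)) ∧ (∀ i, Disjoint Q (D i)) ∧ (∀ i, Conn G (D i)) ∧
      (∀ i j, i ≠ j → Disjoint (D i) (D j)) ∧ ∃ i j k l, i ≠ j ∧ k ≠ l ∧ i ≠ k ∧ i ≠ l ∧ j ≠ k ∧
      j ≠ l ∧ Touch G P (D i) ∧ Touch G P (D j) ∧ Touch G Q (D k) ∧ Touch G Q (D l)) := by
  classical
  intro n
  induction n with
  | zero =>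
    intro K A hfin hn hne
    exfalso
    rw [Set.ncard_eq_zero hfin] at hn
    exact hne.ne_empty hn
  | succ n ih =>
    intro K A hfin hn hne hK hA hdis hKA hT
    -- moving a vertex which is the only contact of at most one part
    have move : ∀ v ∈ K, (∃ x ∈ K, x ≠ v) → Conn G (K \ {v}) →
        (∀ i j, (∀ x ∈ K, ∀ y ∈ A i, G.Adj x y → x = v) →
          (∀ x ∈ K, ∀ y ∈ A j, G.Adj x y → x = v) → i = j) →
        (∃ p ∈ K, ∃ D : ι → Set V, (∀ i, A i ⊆ D i) ∧ (∀ i, D i ⊆ A i ∪ K) ∧ (∀ i, p ∉ D i) ∧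
          (∀ i, Conn G (D i)) ∧ (∀ i j, i ≠ j → Disjoint (D i) (D j)) ∧
          ∀ i, ∃ y ∈ D i, G.Adj p y) ∨
        (∃ (P Q : Set V) (D : ι → Set V), P ⊆ K ∧ Q ⊆ K ∧ P.Nonempty ∧ Q.Nonempty ∧ Conn G P ∧
          Conn G Q ∧ Disjoint P Q ∧ Touch G P Q ∧ (∀ i, A i ⊆ D i) ∧ (∀ i, D i ⊆ A i ∪ K) ∧
          (∀ i, Disjoint P (D i)) ∧ (∀ i, Disjoint Q (D i)) ∧ (∀ i, Conn G (D i)) ∧
          (∀ i j, i ≠ j → Disjoint (D i) (D j)) ∧ ∃ i j k l, i ≠ j ∧ k ≠ l ∧ i ≠ k ∧ i ≠ l ∧
          j ≠ k ∧ j ≠ l ∧ Touch G P (D i) ∧ Touch G P (D j) ∧ Touch G Q (D k) ∧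
          Touch G Q (D l)) := by
      intro v hv hother hconn hcrit
      obtain ⟨x₀, hx₀, hx₀v⟩ := hother
      set cr : ι → Prop := fun i => ∀ x ∈ K, ∀ y ∈ A i, G.Adj x y → x = v with hcr
      set A' : ι → Set V := fun i => if cr i then insert v (A i) else A i with hA'
      have hsub : ∀ i, A i ⊆ A' i := by
        intro i
        by_cases h : cr i
        · simp only [hA', if_pos h]
          exact Set.subset_insert v (A i)
        · simp only [hA', if_neg h]
          exact subset_rfl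
      have hsup : ∀ i, A' i ⊆ insert v (A i) := by
        intro i
        by_cases h : cr i
        · simp only [hA', if_pos h]
          exact subset_rfl
        · simp only [hA', if_neg h]
          exact Set.subset_insert v (A i)
      have hKv : K \ {v} ⊆ K := Set.sdiff_subset
      have hvA : ∀ i, v ∉ A i := fun i hvi => Set.disjoint_left.1 (hKA i) hv hvi
      have hmem : ∀ i, v ∈ A' i → cr i := by
        intro i hvi
        by_contra h
        simp only [hA', if_neg h] at hvi
        exact hvA i hvi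
      have hres := ih (K \ {v}) A' (hfin.subset hKv) (by
          rw [Set.ncard_sdiff_singleton_of_mem hv]
          omega) ⟨x₀, hx₀, hx₀v⟩ hconn (by
          intro i
          by_cases h : cr i
          · simp only [hA', if_pos h]
            obtain ⟨x, hx, y, hy, h1⟩ := hT i
            rw [h x hx y hy h1] at h1
            exact conn_insert (hA i) hy h1
          · simp only [hA', if_neg h]
            exact hA i) (by
          intro i j hij
          rw [Set.disjoint_left]
          intro z hz hz'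
          rcases hsup i hz with rfl | h1
          · exact hij (hcrit i j (hmem i hz) (hmem j hz'))
          · rcases hsup j hz' with rfl | h2
            · exact hvA i h1
            · exact Set.disjoint_left.1 (hdis i j hij) h1 h2) (by
          intro i
          rw [Set.disjoint_left]
          intro z hz hz'
          rcases hsup i hz' with h1 | h1
          · exact hz.2 h1
          · exact Set.disjoint_left.1 (hKA i) hz.1 h1) (by
          intro i
          by_cases h : cr i
          · obtain ⟨w, hw, hwv, h1⟩ := exists_nbr hK hv hx₀ hx₀v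
            refine ⟨w, ⟨hw, hwv⟩, v, ?_, h1.symm⟩
            simp only [hA', if_pos h]
            exact Set.mem_insert v (A i)
          · simp only [hcr] at h
            push Not at h
            obtain ⟨x, hx, y, hy, h1, h2⟩ := h
            exact ⟨x, ⟨hx, h2⟩, y, hsub i hy, h1⟩)
      have hD : ∀ {D : ι → Set V}, (∀ i, D i ⊆ A' i ∪ K \ {v}) → ∀ i, D i ⊆ A i ∪ K := by
        intro D hD i z hz
        rcases hD i hz with h1 | h1
        · rcases hsup i h1 with rfl | h2
          · exact Or.inr hv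
          · exact Or.inl h2
        · exact Or.inr h1.1
      rcases hres with ⟨p, hp, D, h1, h2, h3⟩ | ⟨P, Q, D, h1, h2, h3, h4, h5, h6, h7, h8, h9, h10,
        h11⟩
      · exact Or.inl ⟨p, hp.1, D, fun i => (hsub i).trans (h1 i), hD h2, h3⟩
      · exact Or.inr ⟨P, Q, D, h1.trans hKv, h2.trans hKv, h3, h4, h5, h6, h7, h8,
          fun i => (hsub i).trans (h9 i), hD h10, h11⟩
    obtain ⟨p, hp⟩ := hne
    by_cases hone : ∃ x ∈ K, x ≠ p
    · obtain ⟨x, hx, hxp⟩ := hone
      obtain ⟨v, hv, hvp, hcv⟩ := exists_noncut hfin hK hp hx hxp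
      obtain ⟨u, hu, huv, hcu⟩ := exists_noncut hfin hK hv hp hvp.symm
      by_cases h1 : ∀ i j, (∀ x ∈ K, ∀ y ∈ A i, G.Adj x y → x = v) →
          (∀ x ∈ K, ∀ y ∈ A j, G.Adj x y → x = v) → i = j
      · exact move v hv ⟨u, hu, huv⟩ hcv h1
      by_cases h2 : ∀ i j, (∀ x ∈ K, ∀ y ∈ A i, G.Adj x y → x = u) →
          (∀ x ∈ K, ∀ y ∈ A j, G.Adj x y → x = u) → i = j
      · exact move u hu ⟨v, hv, huv.symm⟩ hcu h2
      · right
        push Not at h1 h2
        obtain ⟨i, j, hi, hj, hij⟩ := h1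
        obtain ⟨k, l, hk, hl, hkl⟩ := h2
        have hne : ∀ a b, (∀ x ∈ K, ∀ y ∈ A a, G.Adj x y → x = v) →
            (∀ x ∈ K, ∀ y ∈ A b, G.Adj x y → x = u) → a ≠ b := by
          rintro a b ha hb rfl
          obtain ⟨x, hx, y, hy, h3⟩ := hT a
          exact huv ((hb x hx y hy h3).symm.trans (ha x hx y hy h3))
        have tv : ∀ a, (∀ x ∈ K, ∀ y ∈ A a, G.Adj x y → x = v) → Touch G {v} (A a) := by
          intro a ha
          obtain ⟨x, hx, y, hy, h3⟩ := hT a
          exact ⟨x, ha x hx y hy h3, y, hy, h3⟩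
        have tu : ∀ a, (∀ x ∈ K, ∀ y ∈ A a, G.Adj x y → x = u) → Touch G (K \ {v}) (A a) := by
          intro a ha
          obtain ⟨x, hx, y, hy, h3⟩ := hT a
          refine ⟨x, ⟨hx, ?_⟩, y, hy, h3⟩
          rw [ha x hx y hy h3]
          exact huv
        refine ⟨{v}, K \ {v}, A, Set.singleton_subset_iff.2 hv, Set.sdiff_subset, ⟨v, rfl⟩,
          ⟨u, hu, huv⟩, conn_singleton v, hcv, Set.disjoint_sdiff_right, ?_, fun i => subset_rfl,
          fun i => Set.subset_union_left, ?_, fun i => (hKA i).mono_left Set.sdiff_subset, hA, hdis,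
          i, j, k, l, hij, hkl, hne i k hi hk, hne i l hi hl, hne j k hj hk, hne j l hj hl,
          tv i hi, tv j hj, tu k hk, tu l hl⟩
        · obtain ⟨w, hw, hwv, h3⟩ := exists_nbr hK hv hu huv
          exact ⟨v, rfl, w, ⟨hw, hwv⟩, h3⟩
        · intro a
          exact (hKA a).mono_left (Set.singleton_subset_iff.2 hv)
    · left
      push Not at hone
      refine ⟨p, hp, A, fun i => subset_rfl, fun i => Set.subset_union_left,
        fun i hpi => Set.disjoint_left.1 (hKA i) hp hpi, hA, hdis, fun i => ?_⟩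
      obtain ⟨x, hx, y, hy, h3⟩ := hT i
      rw [hone x hx] at h3
      exact ⟨y, hy, h3⟩

end BDP
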