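import Pool.Agent.Work.MP_0890ba_co.BD.Par
import Pool.Agent.Work.MP_0890ba_co.BD.Shrink

/-!
# A plane straight line graph has no `K₃,₃` minor
-/

namespace BDP

open Pool.Agent.Work.MP_0890ba_co

variable {V : Type} {G : SimpleGraph V}

/-- A walk inside a connected set. -/
theorem walk_in {K : Set V} (hK : Conn G K) {a b : V} (ha : a ∈ K) (hb : b ∈ K) :
    ∃ w : G.Walk a b, ∀ v ∈ w.support, v ∈ K := by
  obtain ⟨q⟩ := hK a ha b hb
  have key : ∀ {a b : V} (q : (res G K).Walk a b), a ∈ K →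
      ∃ w : G.Walk a b, ∀ v ∈ w.support, v ∈ K := by
    intro a b q
    induction q with
    | nil =>
      intro ha
      refine ⟨SimpleGraph.Walk.nil, fun v hv => ?_⟩
      rw [SimpleGraph.Walk.support_nil, List.mem_singleton] at hv
      rw [hv]
      exact ha
    | cons hadj q ih =>
      intro ha
      obtain ⟨w, hw⟩ := ih hadj.2.2
      refine ⟨SimpleGraph.Walk.cons hadj.1 w, fun v hv => ?_⟩
      rw [SimpleGraph.Walk.support_cons, List.mem_cons] at hv
      rcases hv with rfl | hv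
      · exact ha
      · exact hw v hv
  exact key q ha

/-- The parity argument: the vertex `p` and the connected sets `B₁`, `B₂` cannot all be joined to
three connected sets `D i`. -/
theorem no_star {f : V → ℝ × ℝ} (hf : IsPlaneDrawing G f)
    (hg : ∀ v w, v ≠ w → (f v).1 ≠ (f w).1) (p : V) (D : Fin 3 → Set V) (B₁ B₂ : Set V)
    (hD : ∀ i, Conn G (D i)) (hB₁ : Conn G B₁) (hB₂ : Conn G B₂)
    (hDD : ∀ i j, i ≠ j → Disjoint (D i) (D j)) (hD₁ : ∀ i, Disjoint (D i) B₁)
    (hD₂ : ∀ i, Disjoint (D i) B₂) (h₁₂ : Disjoint B₁ B₂) (hp : ∀ i, p ∉ D i) (hp₁ : p ∉ B₁)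
    (hp₂ : p ∉ B₂) (y : Fin 3 → V) (hy : ∀ i, y i ∈ D i) (hadj : ∀ i, G.Adj p (y i))
    (ht₁ : ∀ i, Touch G (D i) B₁) (ht₂ : ∀ i, Touch G (D i) B₂) : False := by
  obtain ⟨-, -, q, hq, -⟩ := ht₁ 0
  obtain ⟨-, -, b, hb, -⟩ := ht₂ 0
  have hw : ∀ i, ∃ w : G.Walk (y i) q, ∀ v ∈ w.support, v ∈ D i ∪ B₁ := fun i =>
    walk_in (conn_union (hD i) hB₁ (ht₁ i)) (Or.inl (hy i)) (Or.inr hq)
  have hr : ∀ i, ∃ r : G.Walk (y i) b, ∀ v ∈ r.support, v ∈ D i ∪ B₂ := fun i =>
    walk_in (conn_union (hD i) hB₂ (ht₂ i)) (Or.inl (hy i)) (Or.inr hb)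
  choose w hw using hw
  choose r hr using hr
  -- the walks from `p` to `q`
  have hav : ∀ i j, i ≠ j → ∀ v ∈ (r i).support,
      v ∉ (SimpleGraph.Walk.cons (hadj j) (w j)).support := by
    intro i j hij v hv hv2
    rw [SimpleGraph.Walk.support_cons, List.mem_cons] at hv2
    rcases hr i v hv with h1 | h1
    · rcases hv2 with rfl | h2
      · exact hp i h1
      · rcases hw j v h2 with h3 | h3
        · exact Set.disjoint_left.1 (hDD i j hij) h1 h3
        · exact Set.disjoint_left.1 (hD₁ i) h1 h3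
    · rcases hv2 with rfl | h2
      · exact hp₂ h1
      · rcases hw j v h2 with h3 | h3
        · exact Set.disjoint_left.1 (hD₂ j) h3 h1
        · exact Set.disjoint_left.1 h₁₂ h3 h1
  have hconst : ∀ i j k, i ≠ j → i ≠ k →
      walkUp f (SimpleGraph.Walk.cons (hadj j) (w j)) (f (y i)) +
        walkUp f (SimpleGraph.Walk.cons (hadj k) (w k)) (f (y i)) =
      walkUp f (SimpleGraph.Walk.cons (hadj j) (w j)) (f b) +
        walkUp f (SimpleGraph.Walk.cons (hadj k) (w k)) (f b) := by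
    intro i j k hij hik
    exact par_const hf hg _ _ (r i) (fun v hv => ⟨hav i j hij v hv, hav i k hik v hv⟩)
  have hedge : ∀ i j, i ≠ j → walkUp f (w j) (f p) + walkUp f (w j) (f (y i)) =
      dn (f p) (f (y i)) (f (y j)) + dn (f p) (f (y i)) (f q) := by
    intro i j hij
    apply par_edge hf hg (hadj i) (w j)
    · intro h
      rcases hw j p h with h1 | h1
      · exact hp j h1
      · exact hp₁ h1
    · intro h
      rcases hw j (y i) h with h1 | h1
      · exact Set.disjoint_left.1 (hDD i j hij) (hy i) h1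
      · exact Set.disjoint_left.1 (hD₁ i) (hy i) h1
  have hyy : ∀ i j, i ≠ j → y i ≠ y j := by
    intro i j hij h
    apply Set.disjoint_left.1 (hDD i j hij) (hy i)
    rw [h]
    exact hy j
  have hyp : ∀ i, y i ≠ p := fun i h => hp i (h ▸ hy i)
  have htwo := ident_two (f p) (fun i => f (y i)) (fun i => hg _ _ (hyp i))
    (fun i j hij => hg _ _ (hyy i j hij)) (by
      intro i j hij hs
      rcases hf.vertex p (y j) (y i) (hadj j) hs with h | h
      · exact hyp i h
      · exact hyy i j hij h)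
  have e0 : (Finset.univ.erase (0 : Fin 3)) = {1, 2} := by decide
  have e1 : (Finset.univ.erase (1 : Fin 3)) = {0, 2} := by decide
  have e2 : (Finset.univ.erase (2 : Fin 3)) = {0, 1} := by decide
  rw [Fin.sum_univ_three, e0, e1, e2, Finset.sum_pair (by decide), Finset.sum_pair (by decide),
    Finset.sum_pair (by decide)] at htwo
  have c0 := hconst 0 1 2 (by decide) (by decide)
  have c1 := hconst 1 0 2 (by decide) (by decide)
  have c2 := hconst 2 0 1 (by decide) (by decide)
  simp only [walkUp_cons] at c0 c1 c2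
  have g01 := hedge 0 1 (by decide)
  have g02 := hedge 0 2 (by decide)
  have g10 := hedge 1 0 (by decide)
  have g12 := hedge 1 2 (by decide)
  have g20 := hedge 2 0 (by decide)
  have g21 := hedge 2 1 (by decide)
  have b0 := add_self_zmod (up (f p) (f (y 0)) (f b) + walkUp f (w 0) (f b))
  have b1 := add_self_zmod (up (f p) (f (y 1)) (f b) + walkUp f (w 1) (f b))
  have b2 := add_self_zmod (up (f p) (f (y 2)) (f b) + walkUp f (w 2) (f b))
  have t0 := add_self_zmod (walkUp f (w 0) (f p))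
  have t1 := add_self_zmod (walkUp f (w 1) (f p))
  have t2 := add_self_zmod (walkUp f (w 2) (f p))
  have d0 := add_self_zmod (dn (f p) (f (y 0)) (f q))
  have d1 := add_self_zmod (dn (f p) (f (y 1)) (f q))
  have d2 := add_self_zmod (dn (f p) (f (y 2)) (f q))
  have hfin : (1 : ZMod 2) = 0 := by
    linear_combination c0 + c1 + c2 - htwo - (g01 + g02 + g10 + g12 + g20 + g21) +
      (b0 + b1 + b2) + (t0 + t1 + t2) - (d0 + d1 + d2)
  exact one_ne_zero hfin

/-- A planar graph has no `K₃,₃` minor. -/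
theorem not_hasK3Minor [Finite V] (G : SimpleGraph V) (h : Planar G) : ¬ HasK3Minor 3 G := by
  rintro ⟨B, A, hB, hA, hBB, hAA, hBA, hT⟩
  obtain ⟨f₀, hf₀⟩ := h
  obtain ⟨f, hf, hg⟩ := exists_generic hf₀
  have cB : ∀ i, Conn G (B i) := fun i => conn_of_connected (hB i)
  have cA : ∀ i, Conn G (A i) := fun i => conn_of_connected (hA i)
  have hne : (B 0).Nonempty := Set.nonempty_coe_sort.1 (hB 0).nonempty
  rcases shrink _ (B 0) A (Set.toFinite _) rfl hne (cB 0) cA hAA (fun i => hBA 0 i)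
    (fun i => hT 0 i) with ⟨p, hp, D, h1, h2, h3, h4, h5, h6⟩ |
    ⟨P, Q, D, -, -, -, -, -, -, -, -, -, -, -, -, -, -, i, j, k, l, h1, h2, h3, h4, h5, h6, -⟩
  · choose y hy hadj using h6
    have hdis : ∀ (m : Fin 3), m ≠ 0 → ∀ i, Disjoint (D i) (B m) := by
      intro m hm i
      refine Set.disjoint_of_subset_left (h2 i) (Disjoint.union_left ?_ ?_)
      · exact (hBA m i).symm
      · exact hBB 0 m hm.symm
    have htouch : ∀ (m : Fin 3), ∀ i, Touch G (D i) (B m) := by
      intro m i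
      obtain ⟨x, hx, z, hz, hxz⟩ := hT m i
      exact ⟨z, h1 i hz, x, hx, hxz.symm⟩
    exact no_star hf hg p D (B 1) (B 2) h4 (cB 1) (cB 2) h5 (hdis 1 (by decide))
      (hdis 2 (by decide)) (hBB 1 2 (by decide)) h3
      (fun h => Set.disjoint_left.1 (hBB 0 1 (by decide)) hp h)
      (fun h => Set.disjoint_left.1 (hBB 0 2 (by decide)) hp h) y hy hadj (htouch 1) (htouch 2)
  · simp only [ne_eq, Fin.ext_iff] at h1 h2 h3 h4 h5 h6
    omega

end BDP
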