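import Pool.Agent.Work.MP_0890ba_co.BD.DefsT
import Pool.Agent.Work.MP_0890ba_co.BD.Planar33

/-!
# A plane straight line graph has no `K₅` minor
-/

namespace BDP

open Pool.Agent.Work.MP_0890ba_co

variable {V : Type} {G : SimpleGraph V}

/-- The parity argument: four pairwise touching connected sets cannot all be joined to one more
vertex `p`. -/
theorem no_star_five {f : V → ℝ × ℝ} (hf : IsPlaneDrawing G f)
    (hg : ∀ v w, v ≠ w → (f v).1 ≠ (f w).1) (p : V) (E : Set V) (D : Fin 3 → Set V)
    (hE : Conn G E) (hD : ∀ i, Conn G (D i)) (hDD : ∀ i j, i ≠ j → Disjoint (D i) (D j))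
    (hED : ∀ i, Disjoint E (D i)) (hpE : p ∉ E) (hp : ∀ i, p ∉ D i) (x : V) (hx : x ∈ E)
    (y : Fin 3 → V) (hy : ∀ i, y i ∈ D i) (hpx : G.Adj p x) (hadj : ∀ i, G.Adj p (y i))
    (hET : ∀ i, Touch G E (D i)) (hDT : ∀ i j, i ≠ j → Touch G (D i) (D j)) : False := by
  have hw : ∀ i, ∃ w : G.Walk x (y i), ∀ v ∈ w.support, v ∈ E ∪ D i := fun i =>
    walk_in (conn_union hE (hD i) (hET i)) (Or.inl hx) (Or.inr (hy i))
  choose w hw using hw
  have hyy : ∀ i j, i ≠ j → y i ≠ y j := by
    intro i j hij h
    apply Set.disjoint_left.1 (hDD i j hij) (hy i)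
    rw [h]
    exact hy j
  have hyp : ∀ i, y i ≠ p := fun i h => hp i (h ▸ hy i)
  have hconst : ∀ j k l, j ≠ k → j ≠ l → k ≠ l →
      walkUp f (SimpleGraph.Walk.cons hpx (w j)) (f (y k)) +
        walkUp f (SimpleGraph.Walk.cons (hadj j) SimpleGraph.Walk.nil) (f (y k)) =
      walkUp f (SimpleGraph.Walk.cons hpx (w j)) (f (y l)) +
        walkUp f (SimpleGraph.Walk.cons (hadj j) SimpleGraph.Walk.nil) (f (y l)) := by
    intro j k l hjk hjl hkl
    obtain ⟨q, hq⟩ := walk_in (conn_union (hD k) (hD l) (hDT k l hkl)) (Or.inl (hy k))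
      (Or.inr (hy l))
    refine par_const hf hg _ _ q (fun v hv => ?_)
    have hvp : v ≠ p := by
      rintro rfl
      rcases hq v hv with h | h
      · exact hp k h
      · exact hp l h
    have hvE : v ∉ E := by
      intro h1
      rcases hq v hv with h | h
      · exact Set.disjoint_left.1 (hED k) h1 h
      · exact Set.disjoint_left.1 (hED l) h1 h
    have hvD : v ∉ D j := by
      intro h1
      rcases hq v hv with h | h
      · exact Set.disjoint_left.1 (hDD j k hjk) h1 h
      · exact Set.disjoint_left.1 (hDD j l hjl) h1 h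
    constructor
    · intro h
      rw [SimpleGraph.Walk.support_cons, List.mem_cons] at h
      rcases h with h | h
      · exact hvp h
      · rcases hw j v h with h1 | h1
        · exact hvE h1
        · exact hvD h1
    · intro h
      rw [SimpleGraph.Walk.support_cons, List.mem_cons, SimpleGraph.Walk.support_nil,
        List.mem_singleton] at h
      rcases h with h | h
      · exact hvp h
      · apply hvD
        rw [h]
        exact hy j
  have hedge : ∀ j k, j ≠ k → walkUp f (w j) (f p) + walkUp f (w j) (f (y k)) =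
      dn (f p) (f (y k)) (f x) + dn (f p) (f (y k)) (f (y j)) := by
    intro j k hjk
    apply par_edge hf hg (hadj k) (w j)
    · intro h
      rcases hw j p h with h1 | h1
      · exact hpE h1
      · exact hp j h1
    · intro h
      rcases hw j (y k) h with h1 | h1
      · exact Set.disjoint_left.1 (hED k) h1 (hy k)
      · exact Set.disjoint_left.1 (hDD j k hjk) h1 (hy k)
  have htwo := ident_two (f p) (fun i => f (y i)) (fun i => hg _ _ (hyp i))
    (fun i j hij => hg _ _ (hyy i j hij)) (by
      intro i j hij hs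
      rcases hf.vertex p (y j) (y i) (hadj j) hs with h | h
      · exact hyp i h
      · exact hyy i j hij h)
  have e0 : (Finset.univ.erase (0 : Fin 3)) = {1, 2} := by decide
  have e1 : (Finset.univ.erase (1 : Fin 3)) = {0, 2} := by decide
  have e2 : (Finset.univ.erase (2 : Fin 3)) = {0, 1} := by decide
  rw [Fin.sum_univ_three, e0, e1, e2, Finset.sum_pair (by decide), Finset.sum_pair (by decide),
    Finset.sum_pair (by decide)] at htwo
  have c0 := hconst 0 1 2 (by decide) (by decide) (by decide)
  have c1 := hconst 1 0 2 (by decide) (by decide) (by decide)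
  have c2 := hconst 2 0 1 (by decide) (by decide) (by decide)
  simp only [walkUp_cons, walkUp_nil, add_zero] at c0 c1 c2
  have g01 := hedge 0 1 (by decide)
  have g02 := hedge 0 2 (by decide)
  have g10 := hedge 1 0 (by decide)
  have g12 := hedge 1 2 (by decide)
  have g20 := hedge 2 0 (by decide)
  have g21 := hedge 2 1 (by decide)
  have r0 := add_self_zmod (up (f p) (f x) (f (y 2)) + walkUp f (w 0) (f (y 2)) +
    up (f p) (f (y 0)) (f (y 2)))
  have r1 := add_self_zmod (up (f p) (f x) (f (y 2)) + walkUp f (w 1) (f (y 2)) +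
    up (f p) (f (y 1)) (f (y 2)))
  have r2 := add_self_zmod (up (f p) (f x) (f (y 1)) + walkUp f (w 2) (f (y 1)) +
    up (f p) (f (y 2)) (f (y 1)))
  have t0 := add_self_zmod (walkUp f (w 0) (f p))
  have t1 := add_self_zmod (walkUp f (w 1) (f p))
  have t2 := add_self_zmod (walkUp f (w 2) (f p))
  have u0 := add_self_zmod (up (f p) (f x) (f (y 0)))
  have u1 := add_self_zmod (up (f p) (f x) (f (y 1)))
  have u2 := add_self_zmod (up (f p) (f x) (f (y 2)))
  have d0 := add_self_zmod (dn (f p) (f (y 0)) (f x))
  have d1 := add_self_zmod (dn (f p) (f (y 1)) (f x))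
  have d2 := add_self_zmod (dn (f p) (f (y 2)) (f x))
  have hfin : (1 : ZMod 2) = 0 := by
    linear_combination c0 + c1 + c2 - htwo - (g01 + g02 + g10 + g12 + g20 + g21) +
      (r0 + r1 + r2) + (t0 + t1 + t2) - (u0 + u1 + u2) - (d0 + d1 + d2)
  exact one_ne_zero hfin

/-- A planar graph has no `K₅` minor. -/
theorem not_hasK5Minor [Finite V] (G : SimpleGraph V) (h : Planar G) : ¬ HasK5Minor G := by
  rintro ⟨A, hA, hAA, hT⟩
  obtain ⟨f₀, hf₀⟩ := id h
  obtain ⟨f, hf, hg⟩ := exists_generic hf₀
  have cA : ∀ i, Conn G (A i) := fun i => conn_of_connected (hA i)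
  have hne : ∀ i, (A i).Nonempty := fun i => Set.nonempty_coe_sort.1 (hA i).nonempty
  have hs : ∀ i : Fin 4, (0 : Fin 5) ≠ i.succ := fun i => (Fin.succ_ne_zero i).symm
  rcases shrink _ (A 0) (fun i : Fin 4 => A i.succ) (Set.toFinite _) rfl (hne 0) (cA 0)
    (fun i => cA _) (fun i j hij => hAA _ _ (fun h => hij (Fin.succ_injective 4 h)))
    (fun i => hAA 0 _ (hs i)) (fun i => hT 0 _ (hs i)) with ⟨p, hp, D, h1, h2, h3, h4, h5, h6⟩ |
    ⟨P, Q, D, hPK, hQK, nP, nQ, cP, cQ, dPQ, tPQ, hAD, -, dP, dQ, cD, dD, i, j, k, l, hij, hkl, hik,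
      hil, hjk, hjl, tPi, tPj, tQk, tQl⟩
  · choose y hy hadj using h6
    have hTD : ∀ i j, i ≠ j → Touch G (D i) (D j) := by
      intro i j hij
      have h7 : Touch G (A i.succ) (A j.succ) := hT _ _ (fun h => hij (Fin.succ_injective 4 h))
      exact h7.mono (h1 i) (h1 j)
    exact no_star_five hf hg p (D 0) (fun i => D i.succ) (h4 0) (fun i => h4 _)
      (fun i j hij => h5 _ _ (fun h => hij (Fin.succ_injective 3 h)))
      (fun i => h5 _ _ (Fin.succ_ne_zero i).symm) (h3 0) (fun i => h3 _) (y 0) (hy 0)
      (fun i => y i.succ) (fun i => hy _) (hadj 0) (fun i => hadj _)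
      (fun i => hTD _ _ (Fin.succ_ne_zero i).symm)
      (fun i j hij => hTD _ _ (fun h => hij (Fin.succ_injective 3 h)))
  · have hTD : ∀ i j, i ≠ j → Touch G (D i) (D j) := by
      intro i j hij
      have h7 : Touch G (A i.succ) (A j.succ) := hT _ _ (fun h => hij (Fin.succ_injective 4 h))
      exact h7.mono (hAD i) (hAD j)
    have nD : ∀ i, (D i).Nonempty := fun i => (hne _).mono (hAD i)
    apply not_hasK3Minor G h
    refine ⟨![P, D k, D l], ![Q, D i, D j], ?_, ?_, ?_, ?_, ?_, ?_⟩
    · intro a
      fin_cases a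
      · exact cP.connected nP
      · exact (cD k).connected (nD k)
      · exact (cD l).connected (nD l)
    · intro a
      fin_cases a
      · exact cQ.connected nQ
      · exact (cD i).connected (nD i)
      · exact (cD j).connected (nD j)
    · intro a b hab
      fin_cases a <;> fin_cases b
      · exact (hab rfl).elim
      · exact dP k
      · exact dP l
      · exact (dP k).symm
      · exact (hab rfl).elim
      · exact dD k l hkl
      · exact (dP l).symm
      · exact dD l k hkl.symm
      · exact (hab rfl).elim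
    · intro a b hab
      fin_cases a <;> fin_cases b
      · exact (hab rfl).elim
      · exact dQ i
      · exact dQ j
      · exact (dQ i).symm
      · exact (hab rfl).elim
      · exact dD i j hij
      · exact (dQ j).symm
      · exact dD j i hij.symm
      · exact (hab rfl).elim
    · intro a b
      fin_cases a <;> fin_cases b
      · exact dPQ
      · exact dP i
      · exact dP j
      · exact (dQ k).symm
      · exact dD k i hik.symm
      · exact dD k j hjk.symm
      · exact (dQ l).symm
      · exact dD l i hil.symm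
      · exact dD l j hjl.symm
    · intro a b
      fin_cases a <;> fin_cases b
      · exact tPQ
      · exact tPi
      · exact tPj
      · exact tQk.symm
      · exact hTD k i hik.symm
      · exact hTD k j hjk.symm
      · exact tQl.symm
      · exact hTD l i hil.symm
      · exact hTD l j hjl.symm

end BDP
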