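import Pool.Agent.Work.MP_0890ba_co.BD.Defs

/-!
# Minors and outer vertices: definitions for the theorem of Thomassen
-/

namespace BDP

variable {V : Type}

/-- `G` has the complete graph with `5` vertices as a minor. -/
def HasK5Minor (G : SimpleGraph V) : Prop :=
  ∃ A : Fin 5 → Set V, (∀ i, (G.induce (A i)).Connected) ∧
    (∀ i j, i ≠ j → Disjoint (A i) (A j)) ∧ ∀ i j, i ≠ j → ∃ x ∈ A i, ∃ y ∈ A j, G.Adj x y

/-- The outer vertices of `W`: those with a neighbour in `Z`. -/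
def outer (G : SimpleGraph V) (Z W : Set V) : Set V := {v | v ∈ W ∧ ∃ z ∈ Z, G.Adj z v}

/-- `W` is the union of two proper subsets, one of which contains `x` and `y`, which meet in a
clique of at most two outer vertices and have no other edges between them. -/
def Sep (G : SimpleGraph V) (Z W : Set V) (x y : V) : Prop :=
  ∃ W₁ W₂ : Set V, W₁ ∪ W₂ = W ∧ W₁ ≠ W ∧ W₂ ≠ W ∧ x ∈ W₁ ∧ y ∈ W₁ ∧
    W₁ ∩ W₂ ⊆ outer G Z W ∧ (W₁ ∩ W₂).ncard ≤ 2 ∧
    (∀ u ∈ W₁ ∩ W₂, ∀ v ∈ W₁ ∩ W₂, u ≠ v → G.Adj u v) ∧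
    ∀ u ∈ W₁ \ W₂, ∀ v ∈ W₂ \ W₁, ¬G.Adj u v

/-- All outer neighbours of `v` are `x` or `y`. -/
def Nb (G : SimpleGraph V) (Z W : Set V) (v x y : V) : Prop :=
  ∀ u ∈ outer G Z W, G.Adj v u → u = x ∨ u = y

/-- The outer vertex `v` can be deleted: it is not `x` or `y`, and its outer neighbours are among
`x`, `y`, or among `z` and one of `x`, `y`. -/
def Good (G : SimpleGraph V) (Z W : Set V) (x y v : V) : Prop :=
  v ∈ outer G Z W ∧ v ≠ x ∧ v ≠ y ∧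
    (Nb G Z W v x y ∨ ∃ z, z ≠ x ∧ z ≠ y ∧ (Nb G Z W v z x ∨ Nb G Z W v z y))

end BDP
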