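import Pool.Agent.Work.MP_0890ba_co.BD.Basic
import Pool.Agent.Work.MP_0890ba_co.BD.DefsT

/-!
# Graphs without the minors `K₅` and `K_{3,3}`: a good outer vertex or a separation
-/

set_option autoImplicit false

namespace BDP

open Pool.Agent.Work.MP_0890ba_co

variable {V : Type} {G : SimpleGraph V}

/-! ### Components -/

theorem mem_comp_self (T : Set V) (v : V) : v ∈ cmp G T v := SimpleGraph.Reachable.refl _

theorem comp_subset {T : Set V} {v : V} (hv : v ∈ T) : cmp G T v ⊆ T :=
  fun _ hw => mem_of_reach hw hv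

theorem conn_component (T : Set V) (v : V) : Conn G (cmp G T v) := conn_comp T v

theorem comp_congr {T : Set V} {v w : V} (h : w ∈ cmp G T v) : cmp G T w = cmp G T v := by
  ext u
  exact ⟨fun h1 => SimpleGraph.Reachable.trans h h1,
    fun h1 => (SimpleGraph.Reachable.symm h).trans h1⟩

theorem comp_adj {T : Set V} {v w : V} (hv : v ∈ T) (hw : w ∈ T) (h : G.Adj v w) :
    cmp G T w = cmp G T v :=
  comp_congr (show (res G T).Reachable v w from
    (show (res G T).Adj v w from ⟨h, hv, hw⟩).reachable)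

/-! ### Connected sets -/

theorem conn_sing (G : SimpleGraph V) (v : V) : Conn G {v} := by
  intro x hx y hy
  rw [Set.mem_singleton_iff] at hx hy
  rw [hx, hy]

theorem Conn.union {A B : Set V} (hA : Conn G A) (hB : Conn G B) {a b : V} (ha : a ∈ A) (hb : b ∈ B)
    (hab : G.Adj a b) : Conn G (A ∪ B) := by
  refine Conn.of_center (c := a) ?_
  rintro x (hx | hx)
  · exact (hA a ha x hx).mono (res_mono Set.subset_union_left)
  · have h1 : (res G (A ∪ B)).Adj a b := ⟨hab, Or.inl ha, Or.inr hb⟩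
    exact h1.reachable.trans ((hB b hb x hx).mono (res_mono Set.subset_union_right))

theorem conn_ins {B : Set V} (hB : Conn G B) {a b : V} (hb : b ∈ B) (hab : G.Adj a b) :
    Conn G (insert a B) := by
  rw [← Set.singleton_union]
  exact (conn_sing G a).union hB rfl hb hab

/-- There is an edge between the two sets. -/
def Adjs (G : SimpleGraph V) (A B : Set V) : Prop := ∃ x ∈ A, ∃ y ∈ B, G.Adj x y

theorem Adjs.symm {A B : Set V} (h : Adjs G A B) : Adjs G B A := by
  obtain ⟨x, hx, y, hy, h⟩ := h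
  exact ⟨y, hy, x, hx, h.symm⟩

theorem Adjs.mono {A B A' B' : Set V} (h : Adjs G A B) (hA : A ⊆ A') (hB : B ⊆ B') :
    Adjs G A' B' := by
  obtain ⟨x, hx, y, hy, h⟩ := h
  exact ⟨x, hA hx, y, hB hy, h⟩

theorem adjs_of {a b : V} (h : G.Adj a b) : Adjs G {a} {b} := ⟨a, rfl, b, rfl, h⟩

/-- Nonempty and connected. -/
def CN (G : SimpleGraph V) (A : Set V) : Prop := Conn G A ∧ A.Nonempty

theorem CN.connected {A : Set V} (h : CN G A) : (G.induce A).Connected := h.1.connected h.2

theorem cn_sing (G : SimpleGraph V) (v : V) : CN G {v} := ⟨conn_sing G v, ⟨v, rfl⟩⟩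

theorem mkK33 {B0 B1 B2 A0 A1 A2 : Set V} (b0 : CN G B0) (b1 : CN G B1) (b2 : CN G B2)
    (a0 : CN G A0) (a1 : CN G A1) (a2 : CN G A2)
    (p01 : Disjoint B0 B1) (p02 : Disjoint B0 B2) (p12 : Disjoint B1 B2)
    (q01 : Disjoint A0 A1) (q02 : Disjoint A0 A2) (q12 : Disjoint A1 A2)
    (r00 : Disjoint B0 A0) (r01 : Disjoint B0 A1) (r02 : Disjoint B0 A2)
    (r10 : Disjoint B1 A0) (r11 : Disjoint B1 A1) (r12 : Disjoint B1 A2)
    (r20 : Disjoint B2 A0) (r21 : Disjoint B2 A1) (r22 : Disjoint B2 A2)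
    (e00 : Adjs G B0 A0) (e01 : Adjs G B0 A1) (e02 : Adjs G B0 A2)
    (e10 : Adjs G B1 A0) (e11 : Adjs G B1 A1) (e12 : Adjs G B1 A2)
    (e20 : Adjs G B2 A0) (e21 : Adjs G B2 A1) (e22 : Adjs G B2 A2) : HasK3Minor 3 G := by
  refine ⟨![B0, B1, B2], ![A0, A1, A2], ?_, ?_, ?_, ?_, ?_, ?_⟩
  · intro i
    fin_cases i
    exacts [b0.connected, b1.connected, b2.connected]
  · intro i
    fin_cases i
    exacts [a0.connected, a1.connected, a2.connected]
  · intro i j h
    fin_cases i <;> fin_cases j <;>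
      first | exact absurd rfl h | exact p01 | exact p01.symm | exact p02 | exact p02.symm |
        exact p12 | exact p12.symm
  · intro i j h
    fin_cases i <;> fin_cases j <;>
      first | exact absurd rfl h | exact q01 | exact q01.symm | exact q02 | exact q02.symm |
        exact q12 | exact q12.symm
  · intro i j
    fin_cases i <;> fin_cases j
    exacts [r00, r01, r02, r10, r11, r12, r20, r21, r22]
  · intro i j
    fin_cases i <;> fin_cases j
    exacts [e00, e01, e02, e10, e11, e12, e20, e21, e22]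

theorem mkK5 {A0 A1 A2 A3 A4 : Set V} (a0 : CN G A0) (a1 : CN G A1) (a2 : CN G A2)
    (a3 : CN G A3) (a4 : CN G A4)
    (p01 : Disjoint A0 A1) (p02 : Disjoint A0 A2) (p03 : Disjoint A0 A3) (p04 : Disjoint A0 A4)
    (p12 : Disjoint A1 A2) (p13 : Disjoint A1 A3) (p14 : Disjoint A1 A4)
    (p23 : Disjoint A2 A3) (p24 : Disjoint A2 A4) (p34 : Disjoint A3 A4)
    (e01 : Adjs G A0 A1) (e02 : Adjs G A0 A2) (e03 : Adjs G A0 A3) (e04 : Adjs G A0 A4)
    (e12 : Adjs G A1 A2) (e13 : Adjs G A1 A3) (e14 : Adjs G A1 A4)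
    (e23 : Adjs G A2 A3) (e24 : Adjs G A2 A4) (e34 : Adjs G A3 A4) : HasK5Minor G := by
  refine ⟨![A0, A1, A2, A3, A4], ?_, ?_, ?_⟩
  · intro i
    fin_cases i
    exacts [a0.connected, a1.connected, a2.connected, a3.connected, a4.connected]
  · intro i j h
    fin_cases i <;> fin_cases j <;>
      first | exact absurd rfl h | exact p01 | exact p01.symm | exact p02 | exact p02.symm |
        exact p03 | exact p03.symm | exact p04 | exact p04.symm | exact p12 | exact p12.symm |
        exact p13 | exact p13.symm | exact p14 | exact p14.symm | exact p23 | exact p23.symm |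
        exact p24 | exact p24.symm | exact p34 | exact p34.symm
  · intro i j h
    fin_cases i <;> fin_cases j <;>
      first | exact absurd rfl h | exact e01 | exact e01.symm | exact e02 | exact e02.symm |
        exact e03 | exact e03.symm | exact e04 | exact e04.symm | exact e12 | exact e12.symm |
        exact e13 | exact e13.symm | exact e14 | exact e14.symm | exact e23 | exact e23.symm |
        exact e24 | exact e24.symm | exact e34 | exact e34.symm

/-! ### Walks -/

/-- The first entrance of a walk into a set. -/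
theorem enter {W D : Set V} {x t : V} (h : (res G W).Reachable x t) (hx : x ∈ W \ D) (ht : t ∈ D) :
    ∃ u ∈ cmp G (W \ D) x, ∃ w ∈ D, w ∈ W ∧ G.Adj u w := by
  obtain ⟨p⟩ := h
  induction p with
  | nil => exact absurd ht hx.2
  | @cons a b c hadj p ih =>
    by_cases hb : b ∈ D
    · exact ⟨a, mem_comp_self _ _, b, hb, hadj.2.2, hadj.1⟩
    · have hb' : b ∈ W \ D := ⟨hadj.2.2, hb⟩
      have h1 := comp_adj hx hb' hadj.1
      obtain ⟨u, hu, w, hw⟩ := ih hb' ht
      rw [h1] at hu
      exact ⟨u, hu, w, hw⟩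

/-- Two vertices joined through `R` are adjacent or both adjacent to a component of `R`. -/
theorem join_through {R : Set V} {a b : V} (hab : a ≠ b) (hb : b ∉ R)
    (h : (res G (insert a (insert b R))).Reachable a b) :
    G.Adj a b ∨ ∃ k ∈ R, Adjs G (cmp G R k) {a} ∧ Adjs G (cmp G R k) {b} := by
  obtain ⟨p⟩ := h
  have key : ∀ (s t : V) (p : (res G (insert a (insert b R))).Walk s t), t = b →
      (s = a ∨ (s ∈ R ∧ Adjs G (cmp G R s) {a})) →
      G.Adj a b ∨ ∃ k ∈ R, Adjs G (cmp G R k) {a} ∧ Adjs G (cmp G R k) {b} := by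
    intro s t p
    induction p with
    | nil =>
      rintro rfl (h | h)
      · exact absurd h.symm hab
      · exact absurd h.1 hb
    | @cons s z t hadj p ih =>
      intro ht hs
      rcases hs with rfl | ⟨hsR, hs⟩
      · rcases hadj.2.2 with hz | hz | hz
        · exact absurd hadj.1 (by rw [hz]; exact G.loopless.irrefl _)
        · left
          rw [← hz]
          exact hadj.1
        · exact ih ht (Or.inr ⟨hz, z, mem_comp_self _ _, s, rfl, hadj.1.symm⟩)
      · rcases hadj.2.2 with hz | hz | hz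
        · exact ih ht (Or.inl hz)
        · right
          exact ⟨s, hsR, hs, s, mem_comp_self _ _, b, rfl, by rw [← hz]; exact hadj.1⟩
        · refine ih ht (Or.inr ⟨hz, ?_⟩)
          rw [comp_adj hsR hz hadj.1]
          exact hs
  exact key a b p rfl (Or.inl rfl)

/-! ### Step 0 -/

section

variable {Z W : Set V} {x y : V}

theorem conn_sdiff (hsep : ¬Sep G Z W x y) (hx : x ∈ W) (hy : y ∈ W) (hxy : G.Adj x y) {C : Set V}
    (hC : C ⊆ outer G Z W) (hC2 : C.ncard ≤ 2) (hfin : C.Finite)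
    (hcl : ∀ u ∈ C, ∀ v ∈ C, u ≠ v → G.Adj u v) : Conn G (W \ C) := by
  intro u hu v hv
  by_contra hr
  have hk : ∃ k ∈ W \ C, x ∈ cmp G (W \ C) k ∪ C ∧ y ∈ cmp G (W \ C) k ∪ C := by
    by_cases hxC : x ∈ C
    · by_cases hyC : y ∈ C
      · exact ⟨u, hu, Or.inr hxC, Or.inr hyC⟩
      · exact ⟨y, ⟨hy, hyC⟩, Or.inr hxC, Or.inl (mem_comp_self _ _)⟩
    · refine ⟨x, ⟨hx, hxC⟩, Or.inl (mem_comp_self _ _), ?_⟩
      by_cases hyC : y ∈ C
      · exact Or.inr hyC
      · left
        have h1 : (res G (W \ C)).Adj x y := ⟨hxy, ⟨hx, hxC⟩, ⟨hy, hyC⟩⟩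
        exact h1.reachable
  obtain ⟨k, hkW, hkx, hky⟩ := hk
  have hKW : cmp G (W \ C) k ⊆ W \ C := comp_subset hkW
  have hsub : (cmp G (W \ C) k ∪ C) ∩ (W \ cmp G (W \ C) k) ⊆ C := by
    rintro w ⟨hw1 | hw1, hw2⟩
    · exact absurd hw1 hw2.2
    · exact hw1
  apply hsep
  refine ⟨cmp G (W \ C) k ∪ C, W \ cmp G (W \ C) k, ?_, ?_, ?_, hkx, hky, hsub.trans hC,
    (Set.ncard_le_ncard hsub hfin).trans hC2,
    fun a ha b hb => hcl a (hsub ha) b (hsub hb), ?_⟩
  · ext w
    constructor
    · rintro ((hw | hw) | hw)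
      · exact (hKW hw).1
      · exact (hC hw).1
      · exact hw.1
    · intro hw
      by_cases h1 : w ∈ cmp G (W \ C) k
      · exact Or.inl (Or.inl h1)
      · exact Or.inr ⟨hw, h1⟩
  · intro h
    have h1 : ∀ w ∈ W \ C, (res G (W \ C)).Reachable k w := by
      intro w hw
      have : w ∈ cmp G (W \ C) k ∪ C := by rw [h]; exact hw.1
      rcases this with h2 | h2
      · exact h2
      · exact absurd h2 hw.2
    exact hr ((h1 u hu).symm.trans (h1 v hv))
  · intro h
    have h1 : k ∈ W \ cmp G (W \ C) k := by rw [h]; exact hkW.1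
    exact h1.2 (mem_comp_self _ _)
  · rintro a ⟨ha1, ha2⟩ b ⟨hb1, hb2⟩ hadj
    have haK : a ∈ cmp G (W \ C) k := by
      by_contra h
      rcases ha1 with h1 | h1
      · exact h h1
      · exact ha2 ⟨(hC h1).1, h⟩
    have hbW : b ∈ W \ C := ⟨hb1.1, fun h => hb2 (Or.inr h)⟩
    apply hb2
    left
    have h1 := comp_adj (hKW haK) hbW hadj
    rw [comp_congr haK] at h1
    rw [← h1]
    exact mem_comp_self _ _

/-! ### Step 1 -/

theorem outer_adjs {v : V} (h : v ∈ outer G Z W) : Adjs G Z {v} := by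
  obtain ⟨_, z, hz, h⟩ := h
  exact ⟨z, hz, v, rfl, h⟩

theorem disj_singleton {A : Set V} {v : V} (h : v ∉ A) : Disjoint A {v} :=
  Set.disjoint_singleton_right.2 h

/-- Different components are disjoint. -/
theorem cmp_disjoint {R : Set V} {k l : V} (h : cmp G R k ≠ cmp G R l) :
    Disjoint (cmp G R k) (cmp G R l) := by
  rw [Set.disjoint_left]
  intro w hw1 hw2
  exact h ((comp_congr hw1).symm.trans (comp_congr hw2))

theorem no_three (h5 : ¬HasK5Minor G) (h3 : ¬HasK3Minor 3 G) (hZ : Conn G Z) (hZn : Z.Nonempty)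
    (hZW : Disjoint Z W)
    (hs0 : ∀ C : Set V, C ⊆ outer G Z W → C.ncard ≤ 2 → C.Finite →
      (∀ u ∈ C, ∀ v ∈ C, u ≠ v → G.Adj u v) → Conn G (W \ C))
    {v a1 a2 a3 : V} (hv : v ∈ outer G Z W) (h1 : a1 ∈ outer G Z W) (h2 : a2 ∈ outer G Z W)
    (h3' : a3 ∈ outer G Z W) (v1 : G.Adj v a1) (v2 : G.Adj v a2) (v3 : G.Adj v a3)
    (d12 : a1 ≠ a2) (d13 : a1 ≠ a3) (d23 : a2 ≠ a3) : False := by
  have hZn' : CN G Z := ⟨hZ, hZn⟩
  have hnZ : ∀ {w : V}, w ∈ W → w ∉ Z := fun hw hz => Set.disjoint_left.1 hZW hz hw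
  have dv1 : v ≠ a1 := v1.ne
  have dv2 : v ≠ a2 := v2.ne
  have dv3 : v ≠ a3 := v3.ne
  set R : Set V := W \ {v, a1, a2, a3} with hR
  have hRW : R ⊆ W := Set.sdiff_subset
  have nR : v ∉ R ∧ a1 ∉ R ∧ a2 ∉ R ∧ a3 ∉ R := by
    refine ⟨fun h => h.2 ?_, fun h => h.2 ?_, fun h => h.2 ?_, fun h => h.2 ?_⟩ <;> simp
  -- a component adjacent to the three vertices
  have hno : ∀ k ∈ R, Adjs G (cmp G R k) {a1} → Adjs G (cmp G R k) {a2} →
      Adjs G (cmp G R k) {a3} → False := by
    intro k hk e1 e2 e3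
    have hKR : cmp G R k ⊆ R := comp_subset hk
    have hK : CN G (cmp G R k) := ⟨conn_component _ _, ⟨k, mem_comp_self _ _⟩⟩
    apply h3
    refine mkK33 (cn_sing G a1) (cn_sing G a2) (cn_sing G a3) hZn'
      (cn_sing G v) hK ?_ ?_ ?_ ?_ ?_ ?_ ?_ ?_ ?_ ?_ ?_ ?_ ?_ ?_ ?_
      (outer_adjs h1).symm (adjs_of v1.symm) e1.symm (outer_adjs h2).symm (adjs_of v2.symm)
      e2.symm (outer_adjs h3').symm (adjs_of v3.symm) e3.symm
    · exact disj_singleton (fun h => d12 (Set.mem_singleton_iff.1 h).symm)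
    · exact disj_singleton (fun h => d13 (Set.mem_singleton_iff.1 h).symm)
    · exact disj_singleton (fun h => d23 (Set.mem_singleton_iff.1 h).symm)
    · exact disj_singleton (hnZ hv.1)
    · exact hZW.mono_right (hKR.trans hRW)
    · exact (disj_singleton (fun h => nR.1 (hKR h))).symm
    · exact (disj_singleton (hnZ h1.1)).symm
    · exact disj_singleton (fun h => dv1 (Set.mem_singleton_iff.1 h))
    · exact (disj_singleton (fun h => nR.2.1 (hKR h))).symm
    · exact (disj_singleton (hnZ h2.1)).symm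
    · exact disj_singleton (fun h => dv2 (Set.mem_singleton_iff.1 h))
    · exact (disj_singleton (fun h => nR.2.2.1 (hKR h))).symm
    · exact (disj_singleton (hnZ h3'.1)).symm
    · exact disj_singleton (fun h => dv3 (Set.mem_singleton_iff.1 h))
    · exact (disj_singleton (fun h => nR.2.2.2 (hKR h))).symm
  -- connections
  have hconn : ∀ a b c : V, b ∈ W → a ∈ W → c ∈ outer G Z W → G.Adj v c → a ≠ b → a ≠ c → b ≠ c →
      v ≠ a → v ≠ b → W \ {v, a, b, c} = R →
      ∃ P : Set V, (P = ∅ ∧ G.Adj a b) ∨ (∃ k ∈ R, P = cmp G R k ∧ Adjs G P {a} ∧ Adjs G P {b}) := by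
    intro a b c hbW haW hc hvc hab hac hbc hva hvb hW
    have hco : Conn G (W \ {v, c}) := by
      refine hs0 _ ?_ ((Set.ncard_insert_le _ _).trans (by rw [Set.ncard_singleton])) (Set.toFinite _) ?_
      · rintro w (rfl | rfl)
        · exact hv
        · exact hc
      · rintro w (rfl | rfl) u (rfl | rfl) hwu
        · exact absurd rfl hwu
        · exact hvc
        · exact hvc.symm
        · exact absurd rfl hwu
    have hset : W \ {v, c} = insert a (insert b R) := by
      rw [← hW]
      ext w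
      simp only [Set.mem_sdiff, Set.mem_insert_iff, Set.mem_singleton_iff]
      constructor
      · rintro ⟨hw, hw2⟩
        push Not at hw2
        by_cases h1 : w = a
        · exact Or.inl h1
        · by_cases h2 : w = b
          · exact Or.inr (Or.inl h2)
          · refine Or.inr (Or.inr ⟨hw, ?_⟩)
            push Not
            exact ⟨hw2.1, h1, h2, hw2.2⟩
      · rintro (rfl | rfl | ⟨hw, hw2⟩)
        · refine ⟨haW, ?_⟩
          push Not
          exact ⟨fun h => hva h.symm, hac⟩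
        · refine ⟨hbW, ?_⟩
          push Not
          exact ⟨fun h => hvb h.symm, hbc⟩
        · push Not at hw2
          refine ⟨hw, ?_⟩
          push Not
          exact ⟨hw2.1, hw2.2.2.2⟩
    rw [hset] at hco
    have hbR : b ∉ R := by
      rw [← hW]
      intro h
      exact h.2 (by simp)
    rcases join_through hab hbR (hco a (by simp) b (by simp)) with h | ⟨k, hk, e1, e2⟩
    · exact ⟨∅, Or.inl ⟨rfl, h⟩⟩
    · exact ⟨cmp G R k, Or.inr ⟨k, hk, rfl, e1, e2⟩⟩
  obtain ⟨P12, hP12⟩ := hconn a1 a2 a3 h2.1 h1.1 h3' v3 d12 d13 d23 dv1 dv2 rfl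
  obtain ⟨P23, hP23⟩ := hconn a2 a3 a1 h3'.1 h2.1 h1 v1 d23 d12.symm d13.symm dv2 dv3 (by
    rw [hR]
    congr 1
    ext w
    simp only [Set.mem_insert_iff, Set.mem_singleton_iff]
    tauto)
  obtain ⟨P31, hP31⟩ := hconn a3 a1 a2 h1.1 h3'.1 h2 v2 d13.symm d23.symm d12 dv3 dv1 (by
    rw [hR]
    congr 1
    ext w
    simp only [Set.mem_insert_iff, Set.mem_singleton_iff]
    tauto)
  -- the parts
  have hpart : ∀ {a b : V} {P : Set V}, ((P = ∅ ∧ G.Adj a b) ∨
      (∃ k ∈ R, P = cmp G R k ∧ Adjs G P {a} ∧ Adjs G P {b})) →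
      CN G (insert a P) ∧ Adjs G (insert a P) {b} ∧ P ⊆ R := by
    rintro a b P (⟨rfl, h⟩ | ⟨k, hk, rfl, e1, e2⟩)
    · refine ⟨⟨?_, ⟨a, by simp⟩⟩, ⟨a, by simp, b, rfl, h⟩, Set.empty_subset _⟩
      rw [insert_empty_eq]
      exact conn_sing G a
    · obtain ⟨u, hu, w, hw, huw⟩ := e1
      rw [Set.mem_singleton_iff] at hw
      rw [hw] at huw
      exact ⟨⟨conn_ins (conn_component _ _) hu huw.symm, ⟨a, by simp⟩⟩,
        e2.mono (Set.subset_insert _ _) (le_refl _), comp_subset hk⟩
  obtain ⟨c12, f12, s12⟩ := hpart hP12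
  obtain ⟨c23, f23, s23⟩ := hpart hP23
  obtain ⟨c31, f31, s31⟩ := hpart hP31
  -- disjointness of the components
  have hdis : ∀ {a b c : V} {P Q : Set V}, ((P = ∅ ∧ G.Adj a b) ∨
      (∃ k ∈ R, P = cmp G R k ∧ Adjs G P {a} ∧ Adjs G P {b})) → ((Q = ∅ ∧ G.Adj b c) ∨
      (∃ k ∈ R, Q = cmp G R k ∧ Adjs G Q {b} ∧ Adjs G Q {c})) →
      (∀ k ∈ R, Adjs G (cmp G R k) {a} → Adjs G (cmp G R k) {b} → Adjs G (cmp G R k) {c} → False) →
      Disjoint P Q := by
    rintro a b c P Q (⟨rfl, -⟩ | ⟨k, hk, rfl, e1, e2⟩) (⟨rfl, -⟩ | ⟨l, hl, rfl, e3, e4⟩) hn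
    · exact Set.disjoint_empty _
    · exact Set.empty_disjoint _
    · exact Set.disjoint_empty _
    · refine cmp_disjoint fun h => hn k hk e1 e2 ?_
      rw [h]
      exact e4
  have D1 : Disjoint P12 P23 := hdis hP12 hP23 hno
  have D2 : Disjoint P23 P31 := hdis hP23 hP31 fun k hk e1 e2 e3 => hno k hk e3 e1 e2
  have D3 : Disjoint P31 P12 := hdis hP31 hP12 fun k hk e1 e2 e3 => hno k hk e2 e3 e1
  have hins : ∀ {a b : V} {P Q : Set V}, a ≠ b → a ∉ R → b ∉ R → P ⊆ R → Q ⊆ R → Disjoint P Q →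
      Disjoint (insert a P) (insert b Q) := by
    intro a b P Q hab ha hb hP hQ hPQ
    rw [Set.disjoint_left]
    rintro w (rfl | hw) (h | h)
    · exact hab h
    · exact ha (hQ h)
    · rw [h] at hw
      exact hb (hP hw)
    · exact Set.disjoint_left.1 hPQ hw h
  have hZi : ∀ {a : V} {P : Set V}, a ∈ W → P ⊆ R → Disjoint Z (insert a P) := by
    intro a P ha hP
    refine hZW.mono_right ?_
    rintro w (rfl | hw)
    · exact ha
    · exact hRW (hP hw)
  have hvi : ∀ {a : V} {P : Set V}, v ≠ a → P ⊆ R → Disjoint {v} (insert a P) := by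
    intro a P ha hP
    refine (disj_singleton ?_).symm
    rintro (h | h)
    · exact ha h
    · exact nR.1 (hP h)
  have hsing : ∀ {a : V} {P : Set V}, ({a} : Set V) ⊆ insert a P := by
    intro a P
    rw [Set.singleton_subset_iff]
    exact Set.mem_insert _ _
  apply h5
  exact mkK5 hZn' (cn_sing G v) c12 c23 c31 (disj_singleton (hnZ hv.1)) (hZi h1.1 s12)
    (hZi h2.1 s23) (hZi h3'.1 s31) (hvi dv1 s12) (hvi dv2 s23) (hvi dv3 s31)
    (hins d12 nR.2.1 nR.2.2.1 s12 s23 D1) (hins d13 nR.2.1 nR.2.2.2 s12 s31 D3.symm)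
    (hins d23 nR.2.2.1 nR.2.2.2 s23 s31 D2) (outer_adjs hv)
    ((outer_adjs h1).mono (le_refl _) hsing) ((outer_adjs h2).mono (le_refl _) hsing)
    ((outer_adjs h3').mono (le_refl _) hsing) ((adjs_of v1).mono (le_refl _) hsing)
    ((adjs_of v2).mono (le_refl _) hsing) ((adjs_of v3).mono (le_refl _) hsing)
    (f12.mono (le_refl _) hsing) (f31.mono (le_refl _) hsing).symm (f23.mono (le_refl _) hsing)

end

/-! ### Cycles -/

theorem cycle_facts [Finite V] {D : Set V} (hD : Conn G D)
    (h2 : ∀ v ∈ D, ∃ p ∈ D, ∃ q ∈ D, p ≠ q ∧ ∀ w ∈ D, G.Adj v w ↔ w = p ∨ w = q)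
    {d e f : V} (hd : d ∈ D) (he : e ∈ D) (hf : f ∈ D) (hef : e ≠ f) (hde : G.Adj d e)
    (hdf : G.Adj d f) :
    (D \ {d, e, f} = ∅ → G.Adj e f) ∧ ((D \ {d, e, f}).Nonempty →
      Conn G (D \ {d, e, f}) ∧ Adjs G (D \ {d, e, f}) {e} ∧ Adjs G (D \ {d, e, f}) {f}) := by
  classical
  have other : ∀ v ∈ D, ∀ u ∈ D, G.Adj v u → ∃ u' ∈ D, u' ≠ u ∧ ∀ w ∈ D, G.Adj v w ↔ w = u ∨ w = u' := by
    intro v hv u hu hvu
    obtain ⟨p, hp, q, hq, hpq, h⟩ := h2 v hv
    rcases (h u hu).1 hvu with rfl | rfl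
    · exact ⟨q, hq, hpq.symm, h⟩
    · exact ⟨p, hp, hpq, fun w hw => (h w hw).trans or_comm⟩
  obtain ⟨e', he', hed', hNe⟩ := other e he d hd hde.symm
  obtain ⟨f', hf', hfd', hNf⟩ := other f hf d hd hdf.symm
  have hNd : ∀ w ∈ D, G.Adj d w → w = e ∨ w = f := by
    intro w hw hdw
    obtain ⟨g, hg, hge, h⟩ := other d hd e he hde
    have h1 := (h f hf).1 hdf
    have h3 := (h w hw).1 hdw
    rcases h1 with h1 | h1
    · exact absurd h1.symm hef
    · rw [h1]
      exact h3
  set Y : Set V := D \ {d, e, f} with hY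
  have hYD : Y ⊆ D := Set.sdiff_subset
  by_cases hadj : G.Adj e f
  · refine ⟨fun _ => hadj, fun ⟨y, hy⟩ => ?_⟩
    have e1 : f = e' := ((hNe f hf).1 hadj).resolve_left hdf.ne'
    have e2 : e = f' := ((hNf e he).1 hadj.symm).resolve_left hde.ne'
    obtain ⟨p⟩ := hD d hd y (hYD hy)
    have key : ∀ (s t : V) (p : (res G D).Walk s t), (s = d ∨ s = e ∨ s = f) →
        (t = d ∨ t = e ∨ t = f) := by
      intro s t p
      induction p with
      | nil => exact id
      | @cons s z t hz p ih =>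
        rintro (rfl | rfl | rfl)
        · rcases hNd z hz.2.2 hz.1 with h | h
          · exact ih (Or.inr (Or.inl h))
          · exact ih (Or.inr (Or.inr h))
        · rcases (hNe z hz.2.2).1 hz.1 with h | h
          · exact ih (Or.inl h)
          · exact ih (Or.inr (Or.inr (h.trans e1.symm)))
        · rcases (hNf z hz.2.2).1 hz.1 with h | h
          · exact ih (Or.inl h)
          · exact ih (Or.inr (Or.inl (h.trans e2.symm)))
    have h3 := key d y p (Or.inl rfl)
    exact absurd h3 (by simpa using hy.2)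
  · have ae : G.Adj e e' := (hNe e' he').2 (Or.inr rfl)
    have af : G.Adj f f' := (hNf f' hf').2 (Or.inr rfl)
    have he'Y : e' ∈ Y := by
      refine ⟨he', ?_⟩
      rintro (h | h | h)
      · exact hed' h
      · exact ae.ne h.symm
      · exact hadj (by rw [← Set.mem_singleton_iff.1 h]; exact ae)
    have hf'Y : f' ∈ Y := by
      refine ⟨hf', ?_⟩
      rintro (h | h | h)
      · exact hfd' h
      · exact hadj (by rw [← h]; exact af.symm)
      · exact af.ne (Set.mem_singleton_iff.1 h).symm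
    refine ⟨fun h => absurd he'Y (by rw [h]; exact Set.notMem_empty _), fun _ => ?_⟩
    set K : Set V := cmp G Y e' with hK
    have hKY : K ⊆ Y := comp_subset he'Y
    have nY : d ∉ Y ∧ e ∉ Y ∧ f ∉ Y := by
      refine ⟨fun h => h.2 ?_, fun h => h.2 ?_, fun h => h.2 ?_⟩ <;> simp
    have closed : ∀ v ∈ K, ∀ w ∈ Y, G.Adj v w → w ∈ K := by
      intro v hv w hw hvw
      have h1 := comp_adj (hKY hv) hw hvw
      rw [comp_congr hv] at h1
      rw [hK, ← h1]
      exact mem_comp_self _ _
    have mY : ∀ w ∈ D, w ∉ Y → w = d ∨ w = e ∨ w = f := by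
      intro w hw hwY
      by_contra h
      exact hwY ⟨hw, by simpa using h⟩
    -- parity
    have hf'K : f' ∈ K := by
      by_contra hcon
      have := Fintype.ofFinite V
      have hK2 : ∀ v ∈ K, ∀ w ∈ D, G.Adj v w → w ∈ insert e K := by
        intro v hv w hw hvw
        by_cases hwY : w ∈ Y
        · exact Set.mem_insert_of_mem _ (closed v hv w hwY hvw)
        · rcases mY w hw hwY with h | h | h
          · rw [h] at hvw
            rcases hNd v (hYD (hKY hv)) hvw.symm with h1 | h1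
            · rw [h1] at hv
              exact absurd (hKY hv) nY.2.1
            · rw [h1] at hv
              exact absurd (hKY hv) nY.2.2
          · rw [h]
            exact Set.mem_insert _ _
          · rw [h] at hvw
            rcases (hNf v (hYD (hKY hv))).1 hvw.symm with h1 | h1
            · rw [h1] at hv
              exact absurd (hKY hv) nY.1
            · rw [h1] at hv
              exact absurd hv hcon
      have hKD : insert e K ⊆ D := by
        rintro w (rfl | hw)
        · exact he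
        · exact hYD (hKY hw)
      have heK : e ∉ K := fun h => nY.2.1 (hKY h)
      have de : (res G (insert e K)).degree e = 1 := by
        rw [← SimpleGraph.card_neighborFinset_eq_degree]
        have : (res G (insert e K)).neighborFinset e = {e'} := by
          ext w
          rw [SimpleGraph.mem_neighborFinset, Finset.mem_singleton]
          constructor
          · rintro ⟨h, -, hw⟩
            rcases (hNe w (hKD hw)).1 h with h1 | h1
            · rcases hw with h3 | h3
              · rw [h3] at h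
                exact absurd h (G.loopless.irrefl _)
              · rw [h1] at h3
                exact absurd (hKY h3) nY.1
            · exact h1
          · rintro rfl
            exact ⟨ae, Set.mem_insert _ _, Set.mem_insert_of_mem _ (mem_comp_self _ _)⟩
        rw [this, Finset.card_singleton]
      have dK : ∀ v ∈ K, (res G (insert e K)).degree v = 2 := by
        intro v hv
        obtain ⟨p, hp, q, hq, hpq, h⟩ := h2 v (hYD (hKY hv))
        rw [← SimpleGraph.card_neighborFinset_eq_degree]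
        have : (res G (insert e K)).neighborFinset v = {p, q} := by
          ext w
          rw [SimpleGraph.mem_neighborFinset, Finset.mem_insert, Finset.mem_singleton]
          constructor
          · rintro ⟨h3, -, hw⟩
            exact (h w (hKD hw)).1 h3
          · intro h3
            have hw : w ∈ D := by
              rcases h3 with rfl | rfl
              · exact hp
              · exact hq
            have h4 := (h w hw).2 h3
            exact ⟨h4, Set.mem_insert_of_mem _ hv, hK2 v hv w hw h4⟩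
        rw [this, Finset.card_pair hpq]
      have d0 : ∀ v, v ∉ insert e K → (res G (insert e K)).degree v = 0 := by
        intro v hv
        rw [← SimpleGraph.card_neighborFinset_eq_degree, Finset.card_eq_zero]
        refine Finset.eq_empty_of_forall_notMem fun w hw => ?_
        rw [SimpleGraph.mem_neighborFinset] at hw
        exact hv hw.2.1
      have hpar := (res G (insert e K)).even_card_odd_degree_vertices
      have hset : (Finset.univ.filter fun v => Odd ((res G (insert e K)).degree v)) = {e} := by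
        ext v
        rw [Finset.mem_filter, Finset.mem_singleton]
        constructor
        · rintro ⟨-, hodd⟩
          by_contra hne
          by_cases hvK : v ∈ K
          · rw [dK v hvK] at hodd
            exact absurd hodd (by decide)
          · rw [d0 v (by rintro (h | h); exacts [hne h, hvK h])] at hodd
            exact absurd hodd (by decide)
        · rintro rfl
          refine ⟨Finset.mem_univ _, ?_⟩
          rw [de]
          exact odd_one
      rw [hset, Finset.card_singleton] at hpar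
      exact absurd hpar (by decide)
    have hKall : ∀ w ∈ Y, w ∈ K := by
      intro w hw
      obtain ⟨p⟩ := hD w (hYD hw) e he
      have key : ∀ (s t : V) (p : (res G D).Walk s t), t = e → s ∈ Y → s ∈ K := by
        intro s t p
        induction p with
        | nil =>
          rintro rfl h
          exact absurd h nY.2.1
        | @cons s z t hz p ih =>
          intro ht hs
          by_cases hzY : z ∈ Y
          · exact closed z (ih ht hzY) s hs hz.1.symm
          · rcases mY z hz.2.2 hzY with h | h | h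
            · have hz1 := hz.1
              rw [h] at hz1
              rcases hNd s hz.2.1 hz1.symm with h1 | h1
              · rw [h1] at hs
                exact absurd hs nY.2.1
              · rw [h1] at hs
                exact absurd hs nY.2.2
            · have hz1 := hz.1
              rw [h] at hz1
              rcases (hNe s hz.2.1).1 hz1.symm with h1 | h1
              · rw [h1] at hs
                exact absurd hs nY.1
              · rw [h1]
                exact mem_comp_self _ _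
            · have hz1 := hz.1
              rw [h] at hz1
              rcases (hNf s hz.2.1).1 hz1.symm with h1 | h1
              · rw [h1] at hs
                exact absurd hs nY.1
              · rw [h1]
                exact hf'K
      exact key w e p rfl hw
    have hYK : Y = K := Set.Subset.antisymm hKall hKY
    refine ⟨?_, ⟨e', he'Y, e, rfl, ae.symm⟩, ⟨f', hf'Y, f, rfl, af.symm⟩⟩
    rw [hYK]
    exact conn_component _ _

/-! ### The theorem -/

theorem sep_or_good [Finite V] (h5 : ¬HasK5Minor G) (h3 : ¬HasK3Minor 3 G) {Z W : Set V} {x y : V}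
    (hZ : Conn G Z) (hZn : Z.Nonempty) (hZW : Disjoint Z W) (hx : x ∈ outer G Z W)
    (hy : y ∈ outer G Z W) (hxy : G.Adj x y) (hO : ∃ v ∈ outer G Z W, v ≠ x ∧ v ≠ y) :
    Sep G Z W x y ∨ ∃ v, Good G Z W x y v := by
  by_contra hcon
  push Not at hcon
  obtain ⟨hsep, hgood⟩ := hcon
  have hs0 : ∀ C : Set V, C ⊆ outer G Z W → C.ncard ≤ 2 → C.Finite →
      (∀ u ∈ C, ∀ v ∈ C, u ≠ v → G.Adj u v) → Conn G (W \ C) :=
    fun C h1 h2 h3 h4 => conn_sdiff hsep hx.1 hy.1 hxy h1 h2 h3 h4
  have h13 := fun {v a1 a2 a3 : V} => no_three (v := v) (a1 := a1) (a2 := a2) (a3 := a3) h5 h3 hZ hZn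
    hZW hs0
  have hnZ : ∀ {w : V}, w ∈ W → w ∉ Z := fun hw hz => Set.disjoint_left.1 hZW hz hw
  set D0 : Set V := outer G Z W \ {x, y} with hD0
  -- the neighbours of the vertices of D0
  have hreg : ∀ v ∈ D0, ∃ p ∈ D0, ∃ q ∈ D0, p ≠ q ∧ ∀ w ∈ outer G Z W, G.Adj v w ↔ w = p ∨ w = q := by
    rintro v ⟨hv, hvxy⟩
    have hvx : v ≠ x := fun h => hvxy (by simp [h])
    have hvy : v ≠ y := fun h => hvxy (by simp [h])
    have hg := hgood v
    have hg1 : ¬Nb G Z W v x y := fun h => hg ⟨hv, hvx, hvy, Or.inl h⟩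
    have hg2 : ∀ z, z ≠ x → z ≠ y → ¬Nb G Z W v z x ∧ ¬Nb G Z W v z y := fun z h1 h2 =>
      ⟨fun h => hg ⟨hv, hvx, hvy, Or.inr ⟨z, h1, h2, Or.inl h⟩⟩,
        fun h => hg ⟨hv, hvx, hvy, Or.inr ⟨z, h1, h2, Or.inr h⟩⟩⟩
    unfold Nb at hg1 hg2
    push Not at hg1
    obtain ⟨z, hz, hvz, hzx, hzy⟩ := hg1
    obtain ⟨hg3, hg4⟩ := hg2 z hzx hzy
    push Not at hg3 hg4
    obtain ⟨u, hu, hvu, huz, hux⟩ := hg3
    obtain ⟨u', hu', hvu', huz', huy'⟩ := hg4
    have huu : u' = u := by
      by_contra hne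
      exact h13 hv hz hu hu' hvz hvu hvu' huz.symm huz'.symm (fun h => hne h.symm)
    rw [huu] at huy'
    refine ⟨z, ⟨hz, by simp [hzx, hzy]⟩, u, ⟨hu, by simp [hux, huy']⟩, huz.symm, ?_⟩
    intro w hw
    constructor
    · intro hvw
      by_contra hne
      push Not at hne
      exact h13 hv hz hu hw hvz hvu hvw huz.symm hne.1.symm hne.2.symm
    · rintro (rfl | rfl)
      · exact hvz
      · exact hvu
  obtain ⟨a, haO, hax, hay⟩ := hO
  have haD : a ∈ D0 := ⟨haO, by simp [hax, hay]⟩
  set D : Set V := cmp G D0 a with hD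
  have hDD0 : D ⊆ D0 := comp_subset haD
  have hDO : D ⊆ outer G Z W := hDD0.trans Set.sdiff_subset
  have hDW : D ⊆ W := fun w hw => (hDO hw).1
  have hDc : Conn G D := conn_component _ _
  have closed : ∀ v ∈ D, ∀ w ∈ D0, G.Adj v w → w ∈ D := by
    intro v hv w hw hvw
    have h1 := comp_adj (hDD0 hv) hw hvw
    rw [comp_congr hv] at h1
    rw [hD, ← h1]
    exact mem_comp_self _ _
  have hreg2 : ∀ v ∈ D, ∃ p ∈ D, ∃ q ∈ D, p ≠ q ∧ ∀ w ∈ D, G.Adj v w ↔ w = p ∨ w = q := by
    intro v hv
    obtain ⟨p, hp, q, hq, hpq, h⟩ := hreg v (hDD0 hv)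
    exact ⟨p, closed v hv p hp ((h p hp.1).2 (Or.inl rfl)), q,
      closed v hv q hq ((h q hq.1).2 (Or.inr rfl)), hpq, fun w hw => h w (hDO hw)⟩
  have hxD : x ∉ D := fun h => (hDD0 h).2 (by simp)
  have hxWD : x ∈ W \ D := ⟨hx.1, hxD⟩
  set T : Set V := cmp G (W \ D) x with hT
  have hTW : T ⊆ W \ D := comp_subset hxWD
  have hTc : CN G T := ⟨conn_component _ _, ⟨x, mem_comp_self _ _⟩⟩
  -- T is adjacent to D
  have hWc : Conn G W := by
    have := hs0 ∅ (Set.empty_subset _) (by simp) Set.finite_empty (by simp)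
    rwa [Set.sdiff_empty] at this
  obtain ⟨u, hu, d, hdD, -, hud⟩ := enter (hWc x hx.1 a (hDW (mem_comp_self _ _))) hxWD
    (mem_comp_self _ _ : a ∈ D)
  have hTd : Adjs G T {d} := ⟨u, hu, d, rfl, hud⟩
  obtain ⟨e, heD, f, hfD, hef, hNd⟩ := hreg2 d hdD
  have hde : G.Adj d e := (hNd e heD).2 (Or.inl rfl)
  have hdf : G.Adj d f := (hNd f hfD).2 (Or.inr rfl)
  obtain ⟨cyc1, cyc2⟩ := cycle_facts hDc hreg2 hdD heD hfD hef hde hdf
  -- T is adjacent to D without the edge d e
  have henter : ∀ g ∈ D, ∀ t ∈ D, t ≠ d → t ≠ g → G.Adj d g →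
      ∃ w ∈ D, w ≠ d ∧ w ≠ g ∧ Adjs G T {w} := by
    intro g hg t ht htd htg hdg
    have hc : Conn G (W \ {d, g}) := by
      refine hs0 _ ?_ ((Set.ncard_insert_le _ _).trans (by rw [Set.ncard_singleton]))
        (Set.toFinite _) ?_
      · rintro w (rfl | rfl)
        · exact hDO hdD
        · exact hDO hg
      · rintro w (rfl | rfl) u (rfl | rfl) hwu
        · exact absurd rfl hwu
        · exact hdg
        · exact hdg.symm
        · exact absurd rfl hwu
    have hset : (W \ {d, g}) \ D = W \ D := by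
      ext w
      simp only [Set.mem_sdiff, Set.mem_insert_iff, Set.mem_singleton_iff]
      constructor
      · rintro ⟨⟨h1, -⟩, h2⟩
        exact ⟨h1, h2⟩
      · rintro ⟨h1, h2⟩
        refine ⟨⟨h1, ?_⟩, h2⟩
        rintro (rfl | rfl)
        · exact h2 hdD
        · exact h2 hg
    have hx2 : x ∈ W \ {d, g} := by
      refine ⟨hx.1, ?_⟩
      rintro (h | h)
      · exact hxD (by rw [h]; exact hdD)
      · exact hxD (by rw [Set.mem_singleton_iff.1 h]; exact hg)
    have ht2 : t ∈ W \ {d, g} := ⟨hDW ht, by simp [htd, htg]⟩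
    obtain ⟨u, hu, w, hw, hwW, huw⟩ := enter (hc x hx2 t ht2) ⟨hx2, hxD⟩ ht
    rw [hset] at hu
    have h1 := hwW.2
    simp only [Set.mem_insert_iff, Set.mem_singleton_iff] at h1
    push Not at h1
    exact ⟨w, hw, h1.1, h1.2, u, hu, w, rfl, huw⟩
  set Y : Set V := D \ {d, e, f} with hY
  have hYD : Y ⊆ D := Set.sdiff_subset
  have nY : d ∉ Y ∧ e ∉ Y ∧ f ∉ Y := by
    refine ⟨fun h => h.2 ?_, fun h => h.2 ?_, fun h => h.2 ?_⟩ <;> simp
  have hZn' : CN G Z := ⟨hZ, hZn⟩
  have hZT : Adjs G Z T := (outer_adjs hx).mono (le_refl _)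
    (Set.singleton_subset_iff.2 (mem_comp_self _ _))
  have dTD : ∀ {w : V}, w ∈ D → Disjoint T {w} := fun hw => disj_singleton fun h => (hTW h).2 hw
  have dZD : ∀ {w : V}, w ∈ D → Disjoint Z {w} := fun hw => disj_singleton (hnZ (hDW hw))
  by_cases hTY : Adjs G T Y
  · -- K33
    have hYn : Y.Nonempty := by
      obtain ⟨_, _, w, hw, _⟩ := hTY
      exact ⟨w, hw⟩
    obtain ⟨hYc, hYe, hYf⟩ := cyc2 hYn
    have hYW : Y ⊆ W := hYD.trans hDW
    apply h3
    refine mkK33 (cn_sing G d) hZn' ⟨hYc, hYn⟩ (cn_sing G e) (cn_sing G f) hTc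
      (dZD hdD).symm (disj_singleton nY.1).symm (hZW.mono_right hYW)
      (disj_singleton fun h => hef (Set.mem_singleton_iff.1 h).symm) (dTD heD).symm (dTD hfD).symm
      (disj_singleton fun h => hde.ne (Set.mem_singleton_iff.1 h).symm)
      (disj_singleton fun h => hdf.ne (Set.mem_singleton_iff.1 h).symm) (dTD hdD).symm (dZD heD)
      (dZD hfD) (hZW.mono_right (hTW.trans Set.sdiff_subset)) (disj_singleton nY.2.1)
      (disj_singleton nY.2.2) ?_ (adjs_of hde) (adjs_of hdf) hTd.symm (outer_adjs (hDO heD))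
      (outer_adjs (hDO hfD)) hZT hYe hYf hTY.symm
    exact Set.disjoint_left.2 fun w hw hwT => (hTW hwT).2 (hYD hw)
  · -- K5
    have hTf : Adjs G T {f} := by
      obtain ⟨w, hw, h1, h2, h3⟩ := henter e heD f hfD hdf.ne' hef.symm hde
      by_cases h4 : w = f
      · rwa [h4] at h3
      · have hwY : w ∈ Y := ⟨hw, by simp [h1, h2, h4]⟩
        exact absurd (h3.mono (le_refl _) (Set.singleton_subset_iff.2 hwY)) hTY
    have hTe : Adjs G T {e} := by
      obtain ⟨w, hw, h1, h2, h3⟩ := henter f hfD e heD hde.ne' hef hdf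
      by_cases h4 : w = e
      · rwa [h4] at h3
      · have hwY : w ∈ Y := ⟨hw, by simp [h1, h2, h4]⟩
        exact absurd (h3.mono (le_refl _) (Set.singleton_subset_iff.2 hwY)) hTY
    have hfY : CN G (insert f Y) ∧ Adjs G {e} (insert f Y) := by
      rcases Y.eq_empty_or_nonempty with h | h
      · rw [h, insert_empty_eq]
        exact ⟨cn_sing G f, adjs_of (cyc1 h)⟩
      · obtain ⟨hYc, hYe, hYf⟩ := cyc2 h
        obtain ⟨u, hu, w, hw, huw⟩ := hYf
        rw [Set.mem_singleton_iff] at hw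
        rw [hw] at huw
        exact ⟨⟨conn_ins hYc hu huw.symm, ⟨f, Set.mem_insert _ _⟩⟩,
          hYe.symm.mono (le_refl _) (Set.subset_insert _ _)⟩
    have hfYD : insert f Y ⊆ D := by
      rintro w (rfl | hw)
      · exact hfD
      · exact hYD hw
    have hsing : ({f} : Set V) ⊆ insert f Y := Set.singleton_subset_iff.2 (Set.mem_insert _ _)
    apply h5
    refine mkK5 (cn_sing G d) (cn_sing G e) hfY.1 hTc hZn'
      (disj_singleton fun h => hde.ne (Set.mem_singleton_iff.1 h).symm)
      (disj_singleton ?_).symm (dTD hdD).symm (dZD hdD).symm (disj_singleton ?_).symm (dTD heD).symm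
      (dZD heD).symm ?_ ?_ ((hZW.mono_right (hTW.trans Set.sdiff_subset)).symm) (adjs_of hde)
      ((adjs_of hdf).mono (le_refl _) hsing) hTd.symm (outer_adjs (hDO hdD)).symm hfY.2 hTe.symm
      (outer_adjs (hDO heD)).symm (hTf.symm.mono hsing (le_refl _))
      ((outer_adjs (hDO hfD)).symm.mono hsing (le_refl _)) hZT.symm
    · rintro (h | h)
      · exact hdf.ne h
      · exact nY.1 h
    · rintro (h | h)
      · exact hef h
      · exact nY.2.1 h
    · exact Set.disjoint_left.2 fun w hw hwT => (hTW hwT).2 (hfYD hw)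
    · exact (hZW.mono_right (hfYD.trans hDW)).symm

end BDP
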