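import Pool.Agent.Work.MP_0890ba_co.BD.Thomassen
import Pool.Agent.Work.MP_0890ba_co.BD.Struct
import Pool.Agent.Work.MP_0890ba_co.BD.Planar33
import Pool.Agent.Work.MP_0890ba_co.BD.K5

/-!
# Planar graphs are `(5b, b)`-choosable
-/

namespace BDP

open Pool.Agent.Work.MP_0890ba_co

/-- Graphs without the two Kuratowski minors are `(5b, b)`-choosable. -/
theorem choosable_five {V : Type} [Finite V] {G : SimpleGraph V} (h5 : ¬HasK5Minor G)
    (h3 : ¬HasK3Minor 3 G) (b : ℕ) : Choosable G (5 * b) b :=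
  Five.choosable_of_sepOrGood
    (fun _ _ _ _ hZ hZn hd hx hy hxy hO => sep_or_good h5 h3 hZ hZn hd hx hy hxy hO) b

/-- Planar graphs are `(5b, b)`-choosable. -/
theorem choosable_five_planar {V : Type} [Finite V] {G : SimpleGraph V} (h : Planar G) (b : ℕ) :
    Choosable G (5 * b) b :=
  choosable_five (not_hasK5Minor G h) (not_hasK3Minor G h) b

end BDP
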