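import Pool.Agent.Work.MP_0890ba_co.BD.Ord

/-!
# Clusters of the awareness graphs

A set which is connected on level `j` and avoids `Dr j` sees at most two vertices through edges
which are not on level `j` and lead to earlier vertices; these two vertices precede the whole set.
-/

set_option linter.unusedSectionVars false

namespace BDP

namespace Ord

open Hub Classical

variable {V : Type}

/-- The vertices which are dropped on level `j`: some earlier neighbour becomes aware of them
between the levels `j` and `j + 1`. -/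
def Dr (G : SimpleGraph V) (e : V → ℕ) (R : ℕ → ℕ) (j : ℕ) : Set V :=
  {w | ∃ z, e z < e w ∧ G.Adj z w ∧ ¬(Lam G e R j).Adj z w ∧ (Lam G e R (j + 1)).Adj z w}

/-- The adversaries of `K` on level `j`. -/
def adv (G : SimpleGraph V) (e : V → ℕ) (R : ℕ → ℕ) (j : ℕ) (K : Set V) : Set V :=
  {z | ∃ w ∈ K, e z < e w ∧ G.Adj z w ∧ ¬(Lam G e R j).Adj z w}

variable {G : SimpleGraph V} {e : V → ℕ} {R : ℕ → ℕ}

lemma not_succ {j : ℕ} {z w : V} (hw : w ∉ Dr G e R j) (hlt : e z < e w) (hzw : G.Adj z w)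
    (hn : ¬(Lam G e R j).Adj z w) : ¬(Lam G e R (j + 1)).Adj z w :=
  fun h => hw ⟨z, hlt, hzw, hn, h⟩

/-- Adversaries precede the whole set, which is nice for the vertices up to them. -/
lemma adv_claim [Fintype V] (hR : Monotone R) {j r : ℕ} (hr : r + R (j - 1) + R (j - 2) ≤ R j)
    {K : Set V} (hK : Conn (Lam G e R j) K) (hKr : K.ncard ≤ r) (hKD : Disjoint K (Dr G e R j))
    {z : V} (hz : z ∈ adv G e R j K) : K ⊆ after e z ∧ Nice G (upto e z) K := by
  obtain ⟨w, hw, hlt, hzw, hn⟩ := hz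
  exact claim hR hr hzw hlt (not_succ (Set.disjoint_left.1 hKD hw) hlt hzw hn) hK hw hKr

/-- No edge between an adversary and the set is on level `j + 1`. -/
lemma adv_not [Fintype V] (hR : Monotone R) {j r : ℕ} (hr : r + R (j - 1) + R (j - 2) ≤ R j)
    {K : Set V} (hK : Conn (Lam G e R j) K) (hKr : K.ncard ≤ r) (hKD : Disjoint K (Dr G e R j))
    {z : V} (hz : z ∈ adv G e R j K) {w : V} (hw : w ∈ K) (hzw : G.Adj z w) :
    ¬(Lam G e R (j + 1)).Adj z w := by
  have hz' := hz
  obtain ⟨w₁, hw₁, hlt₁, hzw₁, hn₁⟩ := hz'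
  have hcl := adv_claim hR hr hK hKr hKD hz
  have hlt : e z < e w := hcl.1 hw
  refine not_succ (Set.disjoint_left.1 hKD hw) hlt hzw ?_
  intro hadj
  have hn₂ := not_succ (Set.disjoint_left.1 hKD hw₁) hlt₁ hzw₁ hn₁
  cases j with
  | zero => exact hadj.elim
  | succ j =>
    obtain ⟨-, Q, hwQ, hQa, hQc, hQn, hQbad⟩ := (lam_adj hlt).1 hadj
    refine hn₂ ((lam_adj hlt₁).2 ⟨hzw₁, K ∪ Q, Or.inl hw₁, Set.union_subset hcl.1 hQa,
      conn_union' hK (conn_of_le (lam_succ hR j) hQc) hw hwQ, ?_, ?_⟩)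
    · have h1 : j + 1 - 1 = j := by omega
      rw [h1] at hr
      have h2 := ncard_union' hKr hQn
      omega
    · exact fun h => hQbad (nice_sub Set.subset_union_right h)

/-- A set connected on level `j` which avoids `Dr j` has at most two adversaries, they precede the
set and are joined outside it. -/
theorem cluster [Fintype V] (hR : Monotone R) {j r : ℕ}
    (hr : r + R (j - 1) + R (j - 2) ≤ R j) {K : Set V} (hK : Conn (Lam G e R j) K)
    (hKr : K.ncard ≤ r) (hKD : Disjoint K (Dr G e R j)) :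
    (adv G e R j K).ncard ≤ 2 ∧ (∀ z ∈ adv G e R j K, ∀ w ∈ K, e z < e w) ∧
      ∀ z ∈ adv G e R j K, ∀ z' ∈ adv G e R j K, (res G Kᶜ).Reachable z z' := by
  rcases (adv G e R j K).eq_empty_or_nonempty with h0 | hne
  · rw [h0]
    refine ⟨by rw [Set.ncard_empty]; omega, fun z hz => absurd hz (Set.notMem_empty z),
      fun z hz => absurd hz (Set.notMem_empty z)⟩
  · obtain ⟨u, hu, hmax⟩ := Set.exists_max_image (adv G e R j K) e (Set.toFinite _) hne
    have hcl := adv_claim hR hr hK hKr hKD hu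
    have hsub : adv G e R j K ⊆ seen G (upto e u) K := by
      rintro z hz
      obtain ⟨w, hw, -, hzw, -⟩ := id hz
      exact ⟨hmax z hz, w, hw, hzw⟩
    exact ⟨(Set.ncard_le_ncard hsub (Set.toFinite _)).trans hcl.2.1,
      fun z hz w hw => (adv_claim hR hr hK hKr hKD hz).1 hw,
      fun z hz z' hz' => hcl.2.2 z (hsub hz) z' (hsub hz')⟩

/-- Third and later earlier neighbours are aware on level one. -/
lemma lam_one [Fintype V] (hR0 : 1 ≤ R 0) {z w : V} (hlt : e z < e w) (hzw : G.Adj z w)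
    (h3 : 3 ≤ {x | e x ≤ e z ∧ G.Adj x w}.ncard) : (Lam G e R 1).Adj z w := by
  refine (lam_adj hlt).2 ⟨hzw, {w}, rfl, ?_, ?_, ?_, ?_⟩
  · rintro x rfl
    exact hlt
  · rintro x rfl y rfl
    exact SimpleGraph.Reachable.refl _
  · rw [Set.ncard_singleton]
    exact hR0
  · intro h
    have h1 : {x | e x ≤ e z ∧ G.Adj x w} ⊆ seen G (upto e z) {w} := by
      rintro x ⟨hx, hxw⟩
      exact ⟨hx, w, rfl, hxw⟩
    have h2 := Set.ncard_le_ncard h1 (Set.toFinite _)
    have h3 := h.1
    omega

/-- Every vertex is dropped on at most two levels `j ≥ 1`. -/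
theorem dr_two [Fintype V] (hR : Monotone R) (hR0 : 1 ≤ R 0) (w : V)
    (s : Finset ℕ) (hs : ∀ j ∈ s, 1 ≤ j ∧ w ∈ Dr G e R j) : s.card ≤ 2 := by
  by_contra hcon
  have h0 : ∀ j : ℕ, ∃ z : V, j ∈ s → e z < e w ∧ G.Adj z w ∧ ¬(Lam G e R j).Adj z w ∧
      (Lam G e R (j + 1)).Adj z w := by
    intro j
    by_cases hj : j ∈ s
    · obtain ⟨z, hz⟩ := (hs j hj).2
      exact ⟨z, fun _ => hz⟩
    · exact ⟨w, fun h => absurd h hj⟩
  choose z hz using h0
  have hinj : Set.InjOn z s := by
    intro i hi j hj hij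
    by_contra hne
    rcases lt_or_gt_of_ne hne with h | h
    · have h1 := (hz i hi).2.2.2
      rw [hij] at h1
      exact (hz j hj).2.2.1 (lam_mono hR (by omega) h1)
    · have h1 := (hz j hj).2.2.2
      rw [← hij] at h1
      exact (hz i hi).2.2.1 (lam_mono hR (by omega) h1)
  have hcard : (s.image z).card = s.card := Finset.card_image_of_injOn hinj
  have hne : (s.image z).Nonempty := by
    rw [← Finset.card_pos]
    omega
  obtain ⟨u, hu, hmax⟩ := Finset.exists_max_image (s.image z) e hne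
  obtain ⟨j, hj, rfl⟩ := Finset.mem_image.1 hu
  have hzj := hz j hj
  refine hzj.2.2.1 (lam_mono hR (hs j hj).1 (lam_one hR0 hzj.1 hzj.2.1 ?_))
  have h1 : ((s.image z : Finset V) : Set V) ⊆ {x | e x ≤ e (z j) ∧ G.Adj x w} := by
    intro x hx
    refine ⟨hmax x (Finset.mem_coe.1 hx), ?_⟩
    obtain ⟨i, hi, rfl⟩ := Finset.mem_image.1 (Finset.mem_coe.1 hx)
    exact (hz i hi).2.1
  have h2 := Set.ncard_le_ncard h1 (Set.toFinite _)
  rw [Set.ncard_coe_finset] at h2
  omega

/-- Balls around vertices with an unaware earlier neighbour lie after that neighbour. -/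
theorem ball_after [Fintype V] (hR : Monotone R) {j r : ℕ}
    (hr : r + R (j - 1) + R (j - 2) ≤ R j) {z w : V} (hzw : G.Adj z w) (hlt : e z < e w)
    (hn : ¬(Lam G e R (j + 1)).Adj z w) {k : ℕ} (hk : k + 1 ≤ r) {x : V}
    (hx : Near (Lam G e R j) k w x) : e z < e x := by
  obtain ⟨p, hp⟩ := hx
  have hp' : p.toPath.1.length ≤ k := (SimpleGraph.Walk.length_bypass_le_length p).trans hp
  have h1 : Conn (Lam G e R j) {y | y ∈ p.toPath.1.support} := by
    refine Conn.of_center (c := w) ?_
    intro y hy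
    have hsup : ∀ {a b : V} (q : (Lam G e R j).Walk a b) (T : Set V), (∀ v ∈ q.support, v ∈ T) →
        (res (Lam G e R j) T).Reachable a b := by
      intro a b q T
      induction q with
      | nil => exact fun _ => SimpleGraph.Reachable.refl _
      | @cons a c b hac q ih =>
        intro hT
        have h2 : (res (Lam G e R j) T).Adj a c :=
          ⟨hac, hT a (by simp), hT c (by simp)⟩
        exact h2.reachable.trans (ih fun v hv => hT v (by simp [hv]))
    exact hsup (p.toPath.1.takeUntil y hy) _ fun v hv =>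
      SimpleGraph.Walk.support_takeUntil_subset_support _ _ hv
  have h2 : {y | y ∈ p.toPath.1.support}.ncard ≤ r := by
    have h3 : {y | y ∈ p.toPath.1.support} = (p.toPath.1.support.toFinset : Set V) := by
      ext y
      simp
    rw [h3, Set.ncard_coe_finset]
    refine (List.toFinset_card_le _).trans ?_
    rw [SimpleGraph.Walk.length_support]
    omega
  exact (claim hR hr hzw hlt hn h1 (SimpleGraph.Walk.start_mem_support _) h2).1
    (SimpleGraph.Walk.end_mem_support _)

end Ord

end BDP
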