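import Pool.Agent.Work.MP_0890ba_co.BD.PieceT
import Pool.Agent.Work.MP_0890ba_co.BD.Ord2

/-!
# The laws of the clusters, for colours from any finite type
-/

set_option linter.unusedSectionVars false

namespace BDP

namespace Proc

open Finset Classical Hub Pool.Agent.Work.MP_0890ba_co

variable {V : Type} {G : SimpleGraph V}

/-- The law of a cluster, with the trivial law if the lists are too small. -/
theorem law_exists [Fintype V] (g5 : ¬HasK5Minor G) (g3 : ¬HasK3Minor 3 G) {φ : V → Fin 4}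
    (hφ : ∀ u v, G.Adj u v → φ u ≠ φ v) {Z : Type} [Fintype Z] (n β : ℕ) (K : Set V)
    (Zs : Finset V) (A : V → Finset Z) :
    ∃ S : Fin (nT n) → V → Finset Z, (∀ ω, ∀ v ∈ K, S ω v ⊆ A v) ∧
      (∀ ω, ∀ u ∈ K, ∀ v ∈ K, G.Adj u v → Disjoint (S ω u) (S ω v)) ∧
      (Zs.card ≤ 2 → (∀ v ∈ K, v ∉ Zs) →
        (∀ u ∈ Zs, ∀ v ∈ Zs, (res G Kᶜ).Reachable u v) → K.ncard ≤ n →
        (∀ v ∈ K, 5 * β ≤ (A v).card + hn G Zs v * β) →
        ∀ v ∈ K, gT n * β ≤ ∑ ω, (S ω v).card) := by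
  by_cases hgood : Zs.card ≤ 2 ∧ (∀ v ∈ K, v ∉ Zs) ∧
      (∀ u ∈ Zs, ∀ v ∈ Zs, (res G Kᶜ).Reachable u v) ∧ K.ncard ≤ n ∧
      ∀ v ∈ K, 5 * β ≤ (A v).card + hn G Zs v * β
  · obtain ⟨h1, h2, h3, h4, h5⟩ := hgood
    -- an injection of the colours into the integers
    obtain ⟨f⟩ : Nonempty (Z ↪ ℤ) := by
      refine ⟨⟨fun z => ((Fintype.equivFin Z z : ℕ) : ℤ), fun x y hxy => ?_⟩⟩
      have h5 : ((Fintype.equivFin Z x : ℕ) : ℤ) = ((Fintype.equivFin Z y : ℕ) : ℤ) := hxy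
      have h6 : (Fintype.equivFin Z x : ℕ) = (Fintype.equivFin Z y : ℕ) := by exact_mod_cast h5
      exact (Fintype.equivFin Z).injective (Fin.ext h6)
    obtain ⟨S, hS1, hS2⟩ := piece_tickets g5 g3 h1 h2 h3 hφ h4 (A := fun v => (A v).map f)
      (β := β) (fun v hv => by rw [card_map]; exact h5 v hv)
    refine ⟨fun ω v => univ.filter fun z => f z ∈ S ω v, fun ω v hv z hz => ?_,
      fun ω u hu v hv huv => ?_, fun _ _ _ _ _ v hv => ?_⟩
    · have h7 := (hS1 ω).1 v hv (mem_filter.1 hz).2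
      obtain ⟨z', hz', hzz⟩ := mem_map.1 h7
      rwa [← f.injective hzz]
    · rw [disjoint_left]
      intro z hz hz'
      exact disjoint_left.1 ((hS1 ω).2 u hu v hv huv) (mem_filter.1 hz).2 (mem_filter.1 hz').2
    · refine (hS2 v hv).trans (sum_le_sum fun ω _ => ?_)
      have h8 : S ω v ⊆ (univ.filter fun z => f z ∈ S ω v).map f := by
        intro c hc
        obtain ⟨z, -, rfl⟩ := mem_map.1 ((hS1 ω).1 v hv hc)
        exact mem_map.2 ⟨z, mem_filter.2 ⟨mem_univ _, hc⟩, rfl⟩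
      refine (card_le_card h8).trans ?_
      rw [card_map]
  · refine ⟨fun _ _ => ∅, fun _ _ _ => empty_subset _, fun _ _ _ _ _ _ =>
      disjoint_empty_left _, fun h1 h2 h3 h4 h5 => absurd ⟨h1, h2, h3, h4, h5⟩ hgood⟩

end Proc

namespace Ord

open Hub Classical

variable {V : Type} {G : SimpleGraph V} {e : V → ℕ} {R : ℕ → ℕ}

/-- Every vertex has at most two earlier neighbours which are not aware of it on level one. -/
theorem unaware_two [Fintype V] (hR0 : 1 ≤ R 0) (w : V) :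
    {z | e z < e w ∧ G.Adj z w ∧ ¬(Lam G e R 1).Adj z w}.ncard ≤ 2 := by
  by_contra hcon
  set s := {z | e z < e w ∧ G.Adj z w ∧ ¬(Lam G e R 1).Adj z w} with hs
  have hne : s.Nonempty := by
    rw [Set.nonempty_iff_ne_empty]
    intro h0
    rw [h0, Set.ncard_empty] at hcon
    omega
  obtain ⟨u, hu, hmax⟩ := Set.exists_max_image s e (Set.toFinite _) hne
  refine hu.2.2 (lam_one hR0 hu.1 hu.2.1 ?_)
  have h1 : s ⊆ {x | e x ≤ e u ∧ G.Adj x w} := fun x hx => ⟨hmax x hx, hx.2.1⟩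
  have h2 := Set.ncard_le_ncard h1 (Set.toFinite _)
  omega

end Ord

end BDP
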