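import Pool.Agent.Work.MP_0890ba_co.BD.Bad

/-!
# The density of graphs without a complete minor
-/

set_option linter.unusedSectionVars false

namespace BDP

namespace Dens

open Finset Classical BDP.Hub Pool.Agent.Work.MP_0890ba_co

variable {V : Type} {G : SimpleGraph V}

/-- `1` for distinct adjacent sets. -/
noncomputable def wt (G : SimpleGraph V) (A B : Set V) : ℕ := if A ≠ B ∧ Adjs G A B then 1 else 0

lemma wt_symm (A B : Set V) : wt G A B = wt G B A := by
  unfold wt
  refine if_congr ?_ rfl rfl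
  exact ⟨fun h => ⟨h.1.symm, h.2.symm⟩, fun h => ⟨h.1.symm, h.2.symm⟩⟩

lemma wt_self (A : Set V) : wt G A A = 0 := by simp [wt]

/-- The number of neighbours of `A` in the family. -/
noncomputable def dg (G : SimpleGraph V) (F : Finset (Set V)) (A : Set V) : ℕ := ∑ B ∈ F, wt G A B

/-- The number of ordered adjacent pairs. -/
noncomputable def e2 (G : SimpleGraph V) (F : Finset (Set V)) : ℕ := ∑ A ∈ F, dg G F A

lemma dg_eq (F : Finset (Set V)) (A : Set V) :
    dg G F A = (F.filter fun B => A ≠ B ∧ Adjs G A B).card := by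
  unfold dg wt
  rw [card_filter]

lemma dg_insert {F : Finset (Set V)} {X : Set V} (hX : X ∉ F) (A : Set V) :
    dg G (insert X F) A = wt G A X + dg G F A := by
  unfold dg
  rw [sum_insert hX]

lemma e2_insert {F : Finset (Set V)} {X : Set V} (hX : X ∉ F) :
    e2 G (insert X F) = e2 G F + 2 * dg G F X := by
  unfold e2
  rw [sum_insert hX, dg_insert hX, wt_self]
  have h1 : ∑ A ∈ F, dg G (insert X F) A = ∑ A ∈ F, (wt G A X + dg G F A) :=
    sum_congr rfl fun A _ => dg_insert hX A
  have h2 : ∑ A ∈ F, wt G A X = dg G F X := by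
    unfold dg
    exact sum_congr rfl fun A _ => wt_symm A X
  rw [h1, sum_add_distrib, h2]
  ring

/-- A family of disjoint connected sets. -/
def Fam (G : SimpleGraph V) (F : Finset (Set V)) : Prop :=
  (∀ A ∈ F, CN G A) ∧ ∀ A ∈ F, ∀ B ∈ F, A ≠ B → Disjoint A B

lemma Fam.mono {F F' : Finset (Set V)} (h : Fam G F) (hs : F' ⊆ F) : Fam G F' :=
  ⟨fun A hA => h.1 A (hs hA), fun A hA B hB => h.2 A (hs hA) B (hs hB)⟩

/-- A complete minor whose sets contain members of the family. -/
def HasCl (G : SimpleGraph V) (t : ℕ) (F : Finset (Set V)) : Prop :=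
  ∃ C : Finset (Set V), C.card = t ∧ Fam G C ∧ (∀ A ∈ C, ∀ B ∈ C, A ≠ B → Adjs G A B) ∧
    (∀ A ∈ C, ∃ B ∈ F, B ⊆ A) ∧ ∀ A ∈ C, ∀ x ∈ A, ∃ B ∈ F, x ∈ B

lemma HasCl.mono {t : ℕ} {F F' : Finset (Set V)} (h : HasCl G t F)
    (h1 : ∀ A ∈ F, ∃ B ∈ F', B ⊆ A) (h2 : ∀ A ∈ F, ∀ x ∈ A, ∃ B ∈ F', x ∈ B) :
    HasCl G t F' := by
  obtain ⟨C, hc, hf, ha, hs, hu⟩ := h
  refine ⟨C, hc, hf, ha, ?_, ?_⟩
  · intro A hA
    obtain ⟨B, hB, hBA⟩ := hs A hA
    obtain ⟨B', hB', hs'⟩ := h1 B hB
    exact ⟨B', hB', hs'.trans hBA⟩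
  · intro A hA x hx
    obtain ⟨B, hB, hxB⟩ := hu A hA x hx
    exact h2 B hB x hxB

lemma adjs_union {A B C : Set V} (h : Adjs G A B) : Adjs G (A ∪ C) B := by
  obtain ⟨x, hx, y, hy, hxy⟩ := h
  exact ⟨x, Or.inl hx, y, hy, hxy⟩

lemma adjs_mono {A B A' B' : Set V} (h : Adjs G A B) (hA : A ⊆ A') (hB : B ⊆ B') :
    Adjs G A' B' := by
  obtain ⟨x, hx, y, hy, hxy⟩ := h
  exact ⟨x, hA hx, y, hB hy, hxy⟩

lemma cn_union {A B : Set V} (hA : CN G A) (hB : CN G B) (h : Adjs G A B) : CN G (A ∪ B) := by
  obtain ⟨x, hx, y, hy, hxy⟩ := h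
  have key : ∀ u ∈ A ∪ B, (res G (A ∪ B)).Reachable u x := by
    intro u hu
    rcases hu with hu | hu
    · exact (hA.1 u hu x hx).mono (res_mono Set.subset_union_left)
    · have h1 := (hB.1 u hu y hy).mono (res_mono (G := G) (Set.subset_union_right (s := A)))
      have h2 : (res G (A ∪ B)).Adj y x := ⟨hxy.symm, Or.inr hy, Or.inl hx⟩
      exact h1.trans h2.reachable
  exact ⟨fun u hu v hv => (key u hu).trans (key v hv).symm, ⟨x, Or.inl hx⟩⟩

/-- A family with no pair of adjacent sets has no edges. -/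
lemma exists_adj {F : Finset (Set V)} (h : 0 < e2 G F) : ∃ A ∈ F, ∃ B ∈ F, A ≠ B ∧ Adjs G A B := by
  by_contra hcon
  push Not at hcon
  refine absurd h (not_lt.2 (le_of_eq ?_))
  unfold e2 dg wt
  refine sum_eq_zero fun A hA => sum_eq_zero fun B hB => ?_
  rw [if_neg]
  exact fun h => hcon A hA B hB h.1 h.2

/-- **Mader.** -/
theorem mader (t : ℕ) : ∀ n : ℕ, ∀ F : Finset (Set V), F.card = n → Fam G F → F.Nonempty →
    2 ^ t * F.card ≤ e2 G F → HasCl G (t + 2) F := by
  induction t with
  | zero =>
    intro n F _ hF hne he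
    have hpos : 0 < e2 G F := lt_of_lt_of_le (by simpa using hne.card_pos) he
    obtain ⟨A, hA, B, hB, hAB, hadj⟩ := exists_adj hpos
    refine ⟨{A, B}, card_pair hAB, hF.mono ?_, ?_, ?_, ?_⟩
    · intro X hX
      rcases mem_insert.1 hX with rfl | hX
      · exact hA
      · rw [mem_singleton.1 hX]; exact hB
    · intro X hX Y hY hXY
      rcases mem_insert.1 hX with rfl | hX
      · rcases mem_insert.1 hY with rfl | hY
        · exact absurd rfl hXY
        · rw [mem_singleton.1 hY]; exact hadj
      · rw [mem_singleton.1 hX]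
        rw [mem_singleton.1 hX] at hXY
        rcases mem_insert.1 hY with rfl | hY
        · exact hadj.symm
        · exact absurd (mem_singleton.1 hY).symm hXY
    · intro X hX
      rcases mem_insert.1 hX with rfl | hX
      · exact ⟨X, hA, subset_rfl⟩
      · rw [mem_singleton.1 hX]; exact ⟨B, hB, subset_rfl⟩
    · intro X hX x hx
      rcases mem_insert.1 hX with rfl | hX
      · exact ⟨X, hA, hx⟩
      · rw [mem_singleton.1 hX] at hx; exact ⟨B, hB, hx⟩
  | succ t ih =>
    intro n
    induction n with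
    | zero =>
      intro F hF _ hne _
      rw [card_eq_zero] at hF
      rw [hF] at hne
      exact absurd hne not_nonempty_empty
    | succ n ihn =>
      intro F hFn hF hne he
      have hpow : (1 : ℕ) ≤ 2 ^ t := Nat.one_le_two_pow
      by_cases h1 : ∃ A ∈ F, dg G F A ≤ 2 ^ t
      · -- delete a set of small degree
        obtain ⟨A, hA, hdA⟩ := h1
        have hins : insert A (F.erase A) = F := insert_erase hA
        have hnot : A ∉ F.erase A := notMem_erase A F
        have he1 : e2 G F = e2 G (F.erase A) + 2 * dg G (F.erase A) A := by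
          conv_lhs => rw [← hins]
          exact e2_insert hnot
        have hd1 : dg G (F.erase A) A = dg G F A := by
          conv_rhs => rw [← hins]
          rw [dg_insert hnot, wt_self, zero_add]
        have hc : F.card = (F.erase A).card + 1 := by
          rw [card_erase_of_mem hA]
          have := hne.card_pos
          omega
        rw [hc] at he hFn
        rcases (F.erase A).eq_empty_or_nonempty with hemp | hne'
        · rw [hemp] at he1 he hd1
          have h0 : e2 G (∅ : Finset (Set V)) = 0 := by simp [e2]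
          have h0' : dg G (∅ : Finset (Set V)) A = 0 := by simp [dg]
          rw [he1, h0, h0'] at he
          simp at he
        · have h2 : 2 ^ (t + 1) * (F.erase A).card ≤ e2 G (F.erase A) := by
            rw [he1, hd1] at he
            rw [pow_succ] at he ⊢
            nlinarith
          have h3 := ihn (F.erase A) (by omega) (hF.mono (erase_subset _ _)) hne' h2
          exact h3.mono (fun B hB => ⟨B, mem_of_mem_erase hB, subset_rfl⟩)
            fun B hB x hx => ⟨B, mem_of_mem_erase hB, hx⟩
      · push Not at h1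
        by_cases h2 : ∃ A ∈ F, ∃ B ∈ F, A ≠ B ∧ Adjs G A B ∧
            (F.filter fun C => (A ≠ C ∧ Adjs G A C) ∧ (B ≠ C ∧ Adjs G B C)).card < 2 ^ t
        · -- contract an edge with few common neighbours
          obtain ⟨A, hA, B, hB, hAB, hadj, hcom⟩ := h2
          set E := (F.erase A).erase B with hE
          have hBA : B ∈ F.erase A := mem_erase.2 ⟨hAB.symm, hB⟩
          have hEF : E ⊆ F := (erase_subset _ _).trans (erase_subset _ _)
          have hAE : A ∉ E := fun h => notMem_erase A F (mem_of_mem_erase h)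
          have hBE : B ∉ E := notMem_erase B _
          have hins : insert A (insert B E) = F := by
            rw [hE, insert_erase hBA, insert_erase hA]
          have hAi : A ∉ insert B E := by
            rw [mem_insert]
            rintro (h | h)
            · exact hAB h
            · exact hAE h
          have hUE : A ∪ B ∉ E := by
            intro hU
            have h3 : A ∪ B ≠ A := by
              intro h3
              rw [h3] at hU
              exact hAE hU
            have h4 := hF.2 _ (hEF hU) A hA h3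
            obtain ⟨x, hx⟩ := (hF.1 A hA).2
            exact Set.disjoint_left.1 h4 (Or.inl hx) hx
          have hwAB : wt G A B = 1 := by
            unfold wt
            rw [if_pos ⟨hAB, hadj⟩]
          have heF : e2 G F = e2 G E + 2 * dg G E B + 2 * (1 + dg G E A) := by
            conv_lhs => rw [← hins]
            rw [e2_insert hAi, e2_insert hBE, dg_insert hBE, hwAB]
          have heU := e2_insert (G := G) hUE
          have hdU : dg G E A + dg G E B ≤ dg G E (A ∪ B) +
              (F.filter fun C => (A ≠ C ∧ Adjs G A C) ∧ (B ≠ C ∧ Adjs G B C)).card := by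
            rw [dg_eq, dg_eq, dg_eq, ← card_union_add_card_inter]
            refine Nat.add_le_add (card_le_card ?_) (card_le_card ?_)
            · intro C hC
              rw [mem_filter]
              rcases mem_union.1 hC with hC | hC
              · obtain ⟨hCE, hne, ha⟩ := mem_filter.1 hC
                exact ⟨hCE, fun h => hUE (h ▸ hCE), adjs_union ha⟩
              · obtain ⟨hCE, hne, ha⟩ := mem_filter.1 hC
                refine ⟨hCE, fun h => hUE (h ▸ hCE), ?_⟩
                rw [Set.union_comm]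
                exact adjs_union ha
            · intro C hC
              obtain ⟨hC1, hC2⟩ := mem_inter.1 hC
              obtain ⟨hCE, h5⟩ := mem_filter.1 hC1
              obtain ⟨-, h6⟩ := mem_filter.1 hC2
              exact mem_filter.2 ⟨hEF hCE, h5, h6⟩
          have hcF : F.card = E.card + 2 := by
            rw [← hins, card_insert_of_notMem hAi, card_insert_of_notMem hBE]
          have hcU : (insert (A ∪ B) E).card = E.card + 1 := card_insert_of_notMem hUE
          have hUD : ∀ C ∈ E, Disjoint (A ∪ B) C := by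
            intro C hC
            rw [Set.disjoint_union_left]
            exact ⟨hF.2 A hA C (hEF hC) fun h => hAE (h ▸ hC),
              hF.2 B hB C (hEF hC) fun h => hBE (h ▸ hC)⟩
          have hfam : Fam G (insert (A ∪ B) E) := by
            refine ⟨?_, ?_⟩
            · intro C hC
              rcases mem_insert.1 hC with rfl | hC
              · exact cn_union (hF.1 A hA) (hF.1 B hB) hadj
              · exact hF.1 C (hEF hC)
            · intro C hC D hD hCD
              rcases mem_insert.1 hC with rfl | hC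
              · rcases mem_insert.1 hD with rfl | hD
                · exact absurd rfl hCD
                · exact hUD D hD
              · rcases mem_insert.1 hD with rfl | hD
                · exact (hUD C hC).symm
                · exact hF.2 C (hEF hC) D (hEF hD) hCD
          have h3 : 2 ^ (t + 1) * (insert (A ∪ B) E).card ≤ e2 G (insert (A ∪ B) E) := by
            rw [hcU, heU]
            rw [hcF, heF] at he
            rw [pow_succ] at he ⊢
            nlinarith
          have h4 := ihn _ (by omega) hfam (insert_nonempty _ _) h3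
          refine h4.mono ?_ ?_
          · intro C hC
            rcases mem_insert.1 hC with rfl | hC
            · exact ⟨A, hA, Set.subset_union_left⟩
            · exact ⟨C, hEF hC, subset_rfl⟩
          · intro C hC x hx
            rcases mem_insert.1 hC with rfl | hC
            · rcases hx with hx | hx
              · exact ⟨A, hA, hx⟩
              · exact ⟨B, hB, hx⟩
            · exact ⟨C, hEF hC, hx⟩
        · push Not at h2
          obtain ⟨A, hA⟩ := hne
          set N := F.filter fun B => A ≠ B ∧ Adjs G A B with hN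
          have hNF : N ⊆ F := filter_subset _ _
          have hNne : N.Nonempty := by
            rw [← card_pos, hN, ← dg_eq]
            have := h1 A hA
            omega
          have hNe : 2 ^ t * N.card ≤ e2 G N := by
            unfold e2
            rw [mul_comm, ← smul_eq_mul]
            refine card_nsmul_le_sum _ _ _ fun B hB => ?_
            obtain ⟨hBF, hne, ha⟩ := mem_filter.1 hB
            refine (h2 A hA B hBF hne ha).trans ?_
            rw [dg_eq]
            refine card_le_card fun C hC => ?_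
            obtain ⟨hCF, h5, h6⟩ := mem_filter.1 hC
            exact mem_filter.2 ⟨mem_filter.2 ⟨hCF, h5⟩, h6⟩
          obtain ⟨C, hc, hf, ha, hs, hu⟩ := ih N.card N rfl (hF.mono hNF) hNne hNe
          have hAC : ∀ X ∈ C, Disjoint A X := by
            intro X hX
            rw [Set.disjoint_left]
            intro x hxA hxX
            obtain ⟨B, hB, hxB⟩ := hu X hX x hxX
            obtain ⟨hBF, hne, -⟩ := mem_filter.1 hB
            exact Set.disjoint_left.1 (hF.2 A hA B hBF hne) hxA hxB
          have hAX : ∀ X ∈ C, Adjs G A X := by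
            intro X hX
            obtain ⟨B, hB, hBX⟩ := hs X hX
            obtain ⟨-, -, hadj⟩ := mem_filter.1 hB
            exact adjs_mono hadj subset_rfl hBX
          have hAnot : A ∉ C := by
            intro h
            obtain ⟨x, hx⟩ := (hF.1 A hA).2
            exact Set.disjoint_left.1 (hAC A h) hx hx
          refine ⟨insert A C, ?_, ⟨?_, ?_⟩, ?_, ?_, ?_⟩
          · rw [card_insert_of_notMem hAnot, hc]
          · intro X hX
            rcases mem_insert.1 hX with rfl | hX
            · exact hF.1 X hA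
            · exact hf.1 X hX
          · intro X hX Y hY hXY
            rcases mem_insert.1 hX with hX1 | hX1
            · rcases mem_insert.1 hY with hY1 | hY1
              · exact absurd (hX1.trans hY1.symm) hXY
              · rw [hX1]; exact hAC Y hY1
            · rcases mem_insert.1 hY with hY1 | hY1
              · rw [hY1]; exact (hAC X hX1).symm
              · exact hf.2 X hX1 Y hY1 hXY
          · intro X hX Y hY hXY
            rcases mem_insert.1 hX with hX1 | hX1
            · rcases mem_insert.1 hY with hY1 | hY1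
              · exact absurd (hX1.trans hY1.symm) hXY
              · rw [hX1]; exact hAX Y hY1
            · rcases mem_insert.1 hY with hY1 | hY1
              · rw [hY1]; exact (hAX X hX1).symm
              · exact ha X hX1 Y hY1 hXY
          · intro X hX
            rcases mem_insert.1 hX with rfl | hX
            · exact ⟨X, hA, subset_rfl⟩
            · obtain ⟨B, hB, hBX⟩ := hs X hX
              exact ⟨B, hNF hB, hBX⟩
          · intro X hX x hx
            rcases mem_insert.1 hX with rfl | hX
            · exact ⟨X, hA, hx⟩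
            · obtain ⟨B, hB, hxB⟩ := hu X hX x hx
              exact ⟨B, hNF hB, hxB⟩

/-- At most `4` edges for each member of the family. -/
theorem e2_le (h5 : ¬HasK5Minor G) {F : Finset (Set V)} (hF : Fam G F) :
    e2 G F ≤ 8 * F.card := by
  rcases F.eq_empty_or_nonempty with rfl | hne
  · simp [e2]
  by_contra hlt
  rw [not_le] at hlt
  obtain ⟨C, hc, hf, ha, -, -⟩ := mader (G := G) 3 F.card F rfl hF hne (by omega)
  obtain ⟨f⟩ : Nonempty (Fin 5 ≃ C) := by
    rw [← Fintype.card_eq, Fintype.card_fin, Fintype.card_coe, hc]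
  refine h5 ⟨fun i => (f i : Set V), fun i => (hf.1 _ (f i).2).connected, fun i j hij => ?_,
    fun i j hij => ?_⟩
  · refine hf.2 _ (f i).2 _ (f j).2 fun h => hij (f.injective (Subtype.ext h))
  · exact ha _ (f i).2 _ (f j).2 fun h => hij (f.injective (Subtype.ext h))

/-- The same for an indexed family. -/
theorem index_le (h5 : ¬HasK5Minor G) {ι : Type} (W : Finset ι) (B : ι → Set V)
    (hcn : ∀ x ∈ W, CN G (B x)) (hdis : ∀ x ∈ W, ∀ y ∈ W, x ≠ y → Disjoint (B x) (B y)) :
    ∑ x ∈ W, (W.filter fun y => x ≠ y ∧ Adjs G (B x) (B y)).card ≤ 8 * W.card := by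
  have hinj : Set.InjOn B W := by
    intro x hx y hy hxy
    by_contra hne
    obtain ⟨u, hu⟩ := (hcn x hx).2
    have hu' := hu
    rw [hxy] at hu'
    exact Set.disjoint_left.1 (hdis x hx y hy hne) hu hu'
  have hfam : Fam G (W.image B) := by
    refine ⟨?_, ?_⟩
    · intro X hX
      obtain ⟨x, hx, rfl⟩ := mem_image.1 hX
      exact hcn x hx
    · intro X hX Y hY hXY
      obtain ⟨x, hx, rfl⟩ := mem_image.1 hX
      obtain ⟨y, hy, rfl⟩ := mem_image.1 hY
      exact hdis x hx y hy fun h => hXY (h ▸ rfl)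
  have h1 := e2_le h5 hfam
  rw [card_image_of_injOn hinj] at h1
  refine le_trans (le_of_eq ?_) h1
  unfold e2
  rw [sum_image hinj]
  refine sum_congr rfl fun x hx => ?_
  unfold dg wt
  rw [sum_image hinj, card_filter]
  refine sum_congr rfl fun y hy => if_congr ?_ rfl rfl
  refine and_congr ⟨fun h h' => h (hinj hx hy h'), fun h h' => h (h' ▸ rfl)⟩ Iff.rfl

/-- Edges inside a set of vertices. -/
theorem edge_le (h5 : ¬HasK5Minor G) (W : Finset V) :
    ∑ x ∈ W, (W.filter fun y => G.Adj x y).card ≤ 8 * W.card := by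
  refine le_trans (sum_le_sum fun x _ => card_le_card fun y hy => ?_)
    (index_le h5 W (fun x => {x}) (fun x _ => cn_sing G x)
      fun x _ y _ hxy => Set.disjoint_singleton.2 hxy)
  obtain ⟨hy, hxy⟩ := mem_filter.1 hy
  exact mem_filter.2 ⟨hy, hxy.ne, ⟨x, rfl, y, rfl, hxy⟩⟩

/-- Edges between two disjoint sets of vertices. -/
theorem edges_between (h5 : ¬HasK5Minor G) {A B : Finset V} (hd : Disjoint A B) :
    ∑ x ∈ A, (B.filter fun y => G.Adj x y).card ≤ 4 * (A.card + B.card) := by
  have h1 := edge_le h5 (A ∪ B)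
  rw [sum_union hd, card_union_of_disjoint hd] at h1
  have h2 : ∑ x ∈ A, (B.filter fun y => G.Adj x y).card ≤
      ∑ x ∈ A, ((A ∪ B).filter fun y => G.Adj x y).card :=
    sum_le_sum fun x _ => card_le_card (filter_subset_filter _ subset_union_right)
  have h3 : ∑ x ∈ B, (A.filter fun y => G.Adj x y).card ≤
      ∑ x ∈ B, ((A ∪ B).filter fun y => G.Adj x y).card :=
    sum_le_sum fun x _ => card_le_card (filter_subset_filter _ subset_union_left)
  have h4 : ∑ x ∈ A, (B.filter fun y => G.Adj x y).card =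
      ∑ x ∈ B, (A.filter fun y => G.Adj x y).card := by
    simp only [card_filter]
    rw [sum_comm]
    exact sum_congr rfl fun y _ => sum_congr rfl fun x _ =>
      if_congr ⟨fun h => h.symm, fun h => h.symm⟩ rfl rfl
  omega

/-- Few cliques if every subset has a vertex of small degree. -/
lemma cliques_le {M : V → V → Prop} [∀ x, DecidablePred (M x)] {H : Finset V} {d : ℕ}
    (hdeg : ∀ W ⊆ H, W.Nonempty → ∃ x ∈ W, (W.filter (M x)).card ≤ d) (r : ℕ)
    {𝒮 : Finset (Finset V)} (hcard : ∀ S ∈ 𝒮, S.card = r + 1)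
    (hcl : ∀ S ∈ 𝒮, ∀ x ∈ S, ∀ y ∈ S, x ≠ y → M x y) :
    ∀ n : ℕ, ∀ W ⊆ H, W.card = n → (𝒮.filter (· ⊆ W)).card ≤ d.choose r * W.card := by
  intro n
  induction n with
  | zero =>
    intro W _ hW
    rw [card_eq_zero] at hW
    subst hW
    rw [card_empty, mul_zero, Nat.le_zero, card_eq_zero, filter_eq_empty_iff]
    intro S hS hSW
    have := hcard S hS
    rw [subset_empty.1 hSW, card_empty] at this
    omega
  | succ n ih =>
    intro W hWH hW
    obtain ⟨x, hx, hdx⟩ := hdeg W hWH (card_pos.1 (by omega))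
    have hc : (W.erase x).card = n := by rw [card_erase_of_mem hx]; omega
    have h1 := ih (W.erase x) ((erase_subset _ _).trans hWH) hc
    have h2 : (𝒮.filter fun S => S ⊆ W ∧ x ∈ S).card ≤ d.choose r := by
      have h3 : (𝒮.filter fun S => S ⊆ W ∧ x ∈ S).card ≤
          (powersetCard r (W.filter (M x))).card := by
        refine card_le_card_of_injOn (fun S => S.erase x) ?_ ?_
        · intro S hS
          obtain ⟨hS, hSW, hxS⟩ := mem_filter.1 (mem_coe.1 hS)
          refine mem_coe.2 (mem_powersetCard.2 ⟨?_, ?_⟩)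
          · intro y hy
            obtain ⟨hyx, hyS⟩ := mem_erase.1 hy
            exact mem_filter.2 ⟨hSW hyS, hcl S hS x hxS y hyS hyx.symm⟩
          · show (S.erase x).card = r
            rw [card_erase_of_mem hxS, hcard S hS]
            rfl
        · intro S hS T hT hST
          obtain ⟨hS, hSW, hxS⟩ := mem_filter.1 (mem_coe.1 hS)
          obtain ⟨hT, hTW, hxT⟩ := mem_filter.1 (mem_coe.1 hT)
          have h4 : S.erase x = T.erase x := hST
          rw [← insert_erase hxS, ← insert_erase hxT, h4]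
      refine h3.trans ?_
      rw [card_powersetCard]
      exact Nat.choose_le_choose r hdx
    have h5 : 𝒮.filter (· ⊆ W) ⊆ (𝒮.filter (· ⊆ W.erase x)) ∪
        (𝒮.filter fun S => S ⊆ W ∧ x ∈ S) := by
      intro S hS
      obtain ⟨hS, hSW⟩ := mem_filter.1 hS
      by_cases hxS : x ∈ S
      · exact mem_union_right _ (mem_filter.2 ⟨hS, hSW, hxS⟩)
      · refine mem_union_left _ (mem_filter.2 ⟨hS, fun y hy => mem_erase.2 ⟨?_, hSW hy⟩⟩)
        rintro rfl
        exact hxS hy
    refine (card_le_card h5).trans ((card_union_le _ _).trans ?_)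
    rw [hc] at h1
    rw [hW]
    calc _ ≤ d.choose r * n + d.choose r := Nat.add_le_add h1 h2
      _ = _ := by ring

/-- **Few disjoint connected sets which are not nice.** -/
theorem count_le [Fintype V] (h5 : ¬HasK5Minor G) (h3 : ¬HasK3Minor 3 G) {F : Finset (Set V)}
    (hF : Fam G F) {H : Set V} (hH : ∀ B ∈ F, Disjoint H B) (hbad : ∀ B ∈ F, ¬Nice G H B) :
    F.card ≤ 64 * H.ncard := by
  rcases F.eq_empty_or_nonempty with rfl | ⟨B₀, hB₀⟩
  · simp
  obtain ⟨v₀, -⟩ := (hF.1 B₀ hB₀).2
  let P : Finset (Set V) → Prop := fun F' => F' ⊆ F ∧ ∃ φ : Set V → Finset V,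
    (∀ B ∈ F', (φ B).card = 2 ∧ (φ B : Set V) ⊆ seen G H B) ∧ Set.InjOn φ F'
  have hP0 : P ∅ := ⟨empty_subset _, fun _ => ∅, fun B hB => absurd hB (notMem_empty B),
    by simp⟩
  obtain ⟨F', hF', hmax⟩ := exists_max_image (univ.filter P) card ⟨∅, mem_filter.2 ⟨mem_univ _, hP0⟩⟩
  obtain ⟨hsub, φ, hφ, hinj⟩ := (mem_filter.1 hF').2
  have hxs : ∀ B : Set V, ∃ x : V, B ∈ F' → x ∈ φ B := by
    intro B
    by_cases hB : B ∈ F'
    · obtain ⟨x, hx⟩ : (φ B).Nonempty := by
        rw [← card_pos, (hφ B hB).1]; norm_num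
      exact ⟨x, fun _ => hx⟩
    · exact ⟨v₀, fun h => absurd h hB⟩
  choose xs hxs using hxs
  let M : V → V → Prop := fun x y => x ≠ y ∧ ∃ B ∈ F', x ∈ φ B ∧ y ∈ φ B
  let part : V → Set V := fun x => {u | u = x ∨ ∃ B ∈ F', xs B = x ∧ u ∈ B}
  have hcn : ∀ x ∈ H, CN G (part x) := by
    intro x hx
    have key : ∀ u ∈ part x, (res G (part x)).Reachable u x := by
      intro u hu
      rcases hu with rfl | ⟨B, hB, hxB, hu⟩
      · exact SimpleGraph.Reachable.refl _
      · have h1 : x ∈ seen G H B := by
          rw [← hxB]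
          exact (hφ B hB).2 (mem_coe.2 (hxs B hB))
        obtain ⟨-, v, hv, hxv⟩ := h1
        have hBp : B ⊆ part x := fun w hw => Or.inr ⟨B, hB, hxB, hw⟩
        have h2 := ((hF.1 B (hsub hB)).1 u hu v hv).mono (res_mono (G := G) hBp)
        have h3 : (res G (part x)).Adj v x := ⟨hxv.symm, hBp hv, Or.inl rfl⟩
        exact h2.trans h3.reachable
    exact ⟨fun u hu v hv => (key u hu).trans (key v hv).symm, ⟨x, Or.inl rfl⟩⟩
  have hdis : ∀ x ∈ H, ∀ y ∈ H, x ≠ y → Disjoint (part x) (part y) := by
    intro x hx y hy hxy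
    rw [Set.disjoint_left]
    rintro u (rfl | ⟨B, hB, hxB, hu⟩) (rfl | ⟨B', hB', hyB', hu'⟩)
    · exact hxy rfl
    · exact Set.disjoint_left.1 (hH B' (hsub hB')) hx hu'
    · exact Set.disjoint_left.1 (hH B (hsub hB)) hy hu
    · have hne : B ≠ B' := by
        rintro rfl
        exact hxy (hxB.symm.trans hyB')
      exact Set.disjoint_left.1 (hF.2 B (hsub hB) B' (hsub hB') hne) hu hu'
  have hMadj : ∀ x y, M x y → Adjs G (part x) (part y) := by
    rintro x y ⟨hxy, B, hB, hxB, hyB⟩
    have h1 : xs B = x ∨ xs B = y := by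
      by_contra hcon
      push Not at hcon
      have h2 : ({xs B, x, y} : Finset V).card = 3 :=
        card_eq_three.2 ⟨_, _, _, hcon.1, hcon.2, hxy, rfl⟩
      have h3 : ({xs B, x, y} : Finset V) ⊆ φ B := by
        intro z hz
        simp only [mem_insert, mem_singleton] at hz
        rcases hz with rfl | rfl | rfl
        · exact hxs B hB
        · exact hxB
        · exact hyB
      have h4 := card_le_card h3
      rw [h2, (hφ B hB).1] at h4
      omega
    rcases h1 with h1 | h1
    · obtain ⟨-, v, hv, hyv⟩ := (hφ B hB).2 (mem_coe.2 hyB)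
      exact ⟨v, Or.inr ⟨B, hB, h1, hv⟩, y, Or.inl rfl, hyv.symm⟩
    · obtain ⟨-, v, hv, hxv⟩ := (hφ B hB).2 (mem_coe.2 hxB)
      exact ⟨x, Or.inl rfl, v, Or.inr ⟨B, hB, h1, hv⟩, hxv⟩
  have hdeg : ∀ W ⊆ H.toFinset, W.Nonempty → ∃ x ∈ W, (W.filter (M x)).card ≤ 8 := by
    intro W hW hne
    have hWH : ∀ x ∈ W, x ∈ H := fun x hx => Set.mem_toFinset.1 (hW hx)
    have h1 := index_le h5 W part (fun x hx => hcn x (hWH x hx))
      fun x hx y hy => hdis x (hWH x hx) y (hWH y hy)
    have h2 : ∑ x ∈ W, (W.filter (M x)).card ≤ ∑ _x ∈ W, 8 := by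
      rw [sum_const, smul_eq_mul, mul_comm]
      refine le_trans (sum_le_sum fun x _ => card_le_card fun y hy => ?_) h1
      obtain ⟨hy, hM⟩ := mem_filter.1 hy
      exact mem_filter.2 ⟨hy, hM.1, hMadj x y hM⟩
    exact exists_le_of_sum_le hne h2
  have hHsub : ∀ S : Finset V, (S : Set V) ⊆ H → S ⊆ H.toFinset := fun S hS x hx =>
    Set.mem_toFinset.2 (hS (mem_coe.2 hx))
  have hHc : H.toFinset.card = H.ncard := (Set.ncard_eq_toFinset_card' H).symm
  -- the assigned sets
  have hA : F'.card ≤ 8 * H.ncard := by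
    have h1 := cliques_le (M := M) hdeg 1 (𝒮 := F'.image φ) ?_ ?_ _ _ subset_rfl rfl
    · rw [hHc, Nat.choose_one_right] at h1
      refine le_trans (le_of_eq ?_) h1
      rw [filter_true_of_mem, card_image_of_injOn hinj]
      intro S hS
      obtain ⟨B, hB, rfl⟩ := mem_image.1 hS
      exact hHsub _ ((hφ B hB).2.trans (seen_sub H B))
    · intro S hS
      obtain ⟨B, hB, rfl⟩ := mem_image.1 hS
      exact (hφ B hB).1
    · intro S hS x hx y hy hxy
      obtain ⟨B, hB, rfl⟩ := mem_image.1 hS
      exact ⟨hxy, B, hB, hx, hy⟩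
  -- all pairs seen by the other sets are used
  have hused : ∀ B ∈ F, B ∉ F' → ∀ x ∈ seen G H B, ∀ y ∈ seen G H B, x ≠ y → M x y := by
    intro B hB hBF' x hx y hy hxy
    by_contra hM
    have hins : P (insert B F') := by
      refine ⟨insert_subset hB hsub, Function.update φ B {x, y}, ?_, ?_⟩
      · intro C hC
        by_cases hCB : C = B
        · subst hCB
          rw [Function.update_self]
          refine ⟨card_pair hxy, ?_⟩
          intro z hz
          rw [mem_coe, mem_insert, mem_singleton] at hz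
          rcases hz with rfl | rfl
          · exact hx
          · exact hy
        · rw [Function.update_of_ne hCB]
          exact hφ C (mem_of_mem_insert_of_ne hC hCB)
      · intro C hC D hD hCD
        have hno : ∀ E ∈ F', φ E ≠ {x, y} := by
          intro E hE hEq
          refine hM ⟨hxy, E, hE, ?_, ?_⟩
          · rw [hEq]; simp
          · rw [hEq]; simp
        by_cases hCB : C = B
        · by_cases hDB : D = B
          · rw [hCB, hDB]
          · have hD' : D ∈ F' := mem_of_mem_insert_of_ne (mem_coe.1 hD) hDB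
            rw [hCB, Function.update_self, Function.update_of_ne hDB] at hCD
            exact absurd hCD.symm (hno D hD')
        · have hC' : C ∈ F' := mem_of_mem_insert_of_ne (mem_coe.1 hC) hCB
          by_cases hDB : D = B
          · rw [hDB, Function.update_self, Function.update_of_ne hCB] at hCD
            exact absurd hCD (hno C hC')
          · have hD' : D ∈ F' := mem_of_mem_insert_of_ne (mem_coe.1 hD) hDB
            rw [Function.update_of_ne hCB, Function.update_of_ne hDB] at hCD
            exact hinj hC' hD' hCD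
    have h1 := hmax (insert B F') (mem_filter.2 ⟨mem_univ _, hins⟩)
    rw [card_insert_of_notMem hBF'] at h1
    omega
  have h3seen : ∀ B ∈ F, B ∉ F' → 3 ≤ (seen G H B).ncard := by
    intro B hB hBF'
    by_contra hlt
    refine hbad B hB ⟨by omega, fun u hu v hv => ?_⟩
    by_cases huv : u = v
    · rw [huv]
    · obtain ⟨-, C, hC, huC, hvC⟩ := hused B hB hBF' u hu v hv huv
      obtain ⟨huH, a, ha, hua⟩ := (hφ C hC).2 (mem_coe.2 huC)
      obtain ⟨hvH, b, hb, hvb⟩ := (hφ C hC).2 (mem_coe.2 hvC)
      have hCB : C ≠ B := fun h => hBF' (h ▸ hC)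
      exact join_outside (hF.1 C (hsub hC)).1 (hF.2 C (hsub hC) B hB hCB)
        (Set.disjoint_left.1 (hH B hB) huH) (Set.disjoint_left.1 (hH B hB) hvH) ha hb hua hvb
  have ht : ∀ B : Set V, ∃ t : Finset V, B ∈ F \ F' → t.card = 3 ∧ (t : Set V) ⊆ seen G H B := by
    intro B
    by_cases hB : B ∈ F \ F'
    · obtain ⟨hB1, hB2⟩ := mem_sdiff.1 hB
      obtain ⟨t, ht, htc⟩ := Set.exists_subset_card_eq (h3seen B hB1 hB2)
      refine ⟨t.toFinset, fun _ => ⟨?_, ?_⟩⟩
      · rw [← Set.ncard_eq_toFinset_card']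
        exact htc
      · rw [Set.coe_toFinset]
        exact ht
    · exact ⟨∅, fun h => absurd h hB⟩
  choose t ht using ht
  have hB2 : ((F \ F').image t).card ≤ 28 * H.ncard := by
    have h1 := cliques_le (M := M) hdeg 2 (𝒮 := (F \ F').image t) ?_ ?_ _ _ subset_rfl rfl
    · rw [hHc] at h1
      have h8 : Nat.choose 8 2 = 28 := by decide
      rw [h8] at h1
      refine le_trans (le_of_eq ?_) h1
      rw [filter_true_of_mem]
      intro S hS
      obtain ⟨B, hB, rfl⟩ := mem_image.1 hS
      exact hHsub _ ((ht B hB).2.trans (seen_sub H B))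
    · intro S hS
      obtain ⟨B, hB, rfl⟩ := mem_image.1 hS
      exact (ht B hB).1
    · intro S hS x hx y hy hxy
      obtain ⟨B, hB, rfl⟩ := mem_image.1 hS
      obtain ⟨hB1, hB2⟩ := mem_sdiff.1 hB
      exact hused B hB1 hB2 x ((ht B hB).2 (mem_coe.2 hx)) y ((ht B hB).2 (mem_coe.2 hy)) hxy
  have hC : (F \ F').card ≤ 2 * ((F \ F').image t).card := by
    refine card_le_mul_card_image _ 2 fun a _ => ?_
    by_contra hlt
    rw [not_le] at hlt
    obtain ⟨B₁, B₂, B₃, m₁, m₂, m₃, n₁₂, n₁₃, n₂₃⟩ := two_lt_card_iff.1 hlt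
    rw [mem_filter] at m₁ m₂ m₃
    obtain ⟨p, q, r, hpq, hpr, hqr, ha⟩ := card_eq_three.1 (m₁.2 ▸ (ht B₁ m₁.1).1)
    have hmF : ∀ B, B ∈ F \ F' → B ∈ F := fun B hB => (mem_sdiff.1 hB).1
    have hmem : ∀ B, B ∈ F \ F' → t B = a → ∀ x ∈ a, Adjs G {x} B := by
      intro B hB hta x hx
      obtain ⟨-, v, hv, hxv⟩ := (ht B hB).2 (mem_coe.2 (hta ▸ hx))
      exact ⟨x, rfl, v, hv, hxv⟩
    have hd : ∀ B, B ∈ F \ F' → ∀ x ∈ a, Disjoint ({x} : Set V) B := by
      intro B hB x hx
      refine (hH B (hmF B hB)).mono_left ?_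
      rw [Set.singleton_subset_iff]
      exact seen_sub H B₁ ((ht B₁ m₁.1).2 (mem_coe.2 (m₁.2 ▸ hx)))
    have hp : p ∈ a := by rw [ha]; simp
    have hq : q ∈ a := by rw [ha]; simp
    have hr : r ∈ a := by rw [ha]; simp
    have hs : ∀ {x y : V}, x ≠ y → Disjoint ({x} : Set V) {y} := fun h =>
      Set.disjoint_singleton.2 h
    exact h3 (mkK33 (cn_sing G p) (cn_sing G q) (cn_sing G r) (hF.1 _ (hmF _ m₁.1))
      (hF.1 _ (hmF _ m₂.1)) (hF.1 _ (hmF _ m₃.1)) (hs hpq) (hs hpr) (hs hqr)
      (hF.2 _ (hmF _ m₁.1) _ (hmF _ m₂.1) n₁₂) (hF.2 _ (hmF _ m₁.1) _ (hmF _ m₃.1) n₁₃)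
      (hF.2 _ (hmF _ m₂.1) _ (hmF _ m₃.1) n₂₃) (hd _ m₁.1 p hp) (hd _ m₂.1 p hp) (hd _ m₃.1 p hp)
      (hd _ m₁.1 q hq) (hd _ m₂.1 q hq) (hd _ m₃.1 q hq) (hd _ m₁.1 r hr) (hd _ m₂.1 r hr)
      (hd _ m₃.1 r hr) (hmem _ m₁.1 m₁.2 p hp) (hmem _ m₂.1 m₂.2 p hp) (hmem _ m₃.1 m₃.2 p hp)
      (hmem _ m₁.1 m₁.2 q hq) (hmem _ m₂.1 m₂.2 q hq) (hmem _ m₃.1 m₃.2 q hq)
      (hmem _ m₁.1 m₁.2 r hr) (hmem _ m₂.1 m₂.2 r hr) (hmem _ m₃.1 m₃.2 r hr))
  have hsum : F.card ≤ F'.card + (F \ F').card := by
    have := card_sdiff_add_card_eq_card hsub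
    omega
  omega

end Dens

end BDP
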