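import Pool.Agent.Work.MP_0890ba_co.BD.Ord
import Pool.Agent.Work.MP_0890ba_co.BD.Dens

/-!
# A vertex order with few awareness edges

`exists_order`: a finite graph without a `K₅` minor and without a `K₃,₃` minor has an injective
rank function `e` such that every vertex has few earlier neighbours and few neighbours in all the
awareness graphs `Lam G e R j` with `j ≤ J`.
-/

set_option linter.unusedSectionVars false

namespace BDP

namespace Ord

open Finset Hub Dens Classical Pool.Agent.Work.MP_0890ba_co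

variable {V : Type} {G : SimpleGraph V} {R : ℕ → ℕ}

/-- The set `H` is an initial segment of the order. -/
def Init (e : V → ℕ) (H : Set V) : Prop := ∀ x ∈ H, ∀ y ∉ H, e x < e y

section congr

variable {e e' : V → ℕ} {H : Set V}

lemma gt_congr (h : Init e H) (h' : Init e' H) (he : ∀ y ∉ H, e' y = e y) {u : V} (hu : u ∉ H)
    (x : V) : e' u < e' x ↔ e u < e x := by
  by_cases hx : x ∈ H
  · have h1 := h x hx u hu
    have h2 := h' x hx u hu
    constructor <;> intro <;> omega
  · rw [he x hx, he u hu]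

lemma lt_congr (h : Init e H) (h' : Init e' H) (he : ∀ y ∉ H, e' y = e y) {u : V} (hu : u ∉ H)
    (x : V) : e' x < e' u ↔ e x < e u := by
  by_cases hx : x ∈ H
  · have h1 := h x hx u hu
    have h2 := h' x hx u hu
    constructor <;> intro <;> omega
  · rw [he x hx, he u hu]

lemma upto_congr (h : Init e H) (h' : Init e' H) (he : ∀ y ∉ H, e' y = e y) {u : V} (hu : u ∉ H) :
    upto e' u = upto e u := by
  ext x
  have := gt_congr h h' he hu x
  show e' x ≤ e' u ↔ e x ≤ e u
  omega

lemma after_congr (h : Init e H) (h' : Init e' H) (he : ∀ y ∉ H, e' y = e y) {u : V} (hu : u ∉ H) :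
    after e' u = after e u := by
  ext x
  exact gt_congr h h' he hu x

lemma after_sub (h : Init e H) {u : V} (hu : u ∉ H) : after e u ⊆ Hᶜ := by
  intro x hx hxH
  have h1 := h x hxH u hu
  have h2 : e u < e x := hx
  omega

lemma conn_congr {L L' : SimpleGraph V} (hL : ∀ u ∉ H, ∀ w ∉ H, L.Adj u w → L'.Adj u w) {P : Set V}
    (hP : P ⊆ Hᶜ) (hc : Conn L P) : Conn L' P := fun x hx y hy =>
  (hc x hx y hy).mono (show res L P ≤ res L' P from fun a b hab =>
    ⟨hL a (hP hab.2.1) b (hP hab.2.2) hab.1, hab.2⟩)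

lemma aw_local (h : Init e H) (h' : Init e' H) (he : ∀ y ∉ H, e' y = e y) {L L' : SimpleGraph V}
    (hL : ∀ u ∉ H, ∀ w ∉ H, L.Adj u w → L'.Adj u w) {r : ℕ} {u w : V} (hu : u ∉ H)
    (hA : Aw G L e r u w) : Aw G L' e' r u w := by
  obtain ⟨P, h1, h2, h3, h4, h5⟩ := hA
  refine ⟨P, h1, ?_, conn_congr hL (h2.trans (after_sub h hu)) h3, h4, ?_⟩
  · rw [after_congr h h' he hu]
    exact h2
  · rw [upto_congr h h' he hu]
    exact h5

/-- The awareness graphs outside an initial segment do not depend on the order inside. -/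
lemma lam_local (h : Init e H) (h' : Init e' H) (he : ∀ y ∉ H, e' y = e y) (j : ℕ) :
    ∀ u ∉ H, ∀ w ∉ H, (Lam G e R j).Adj u w → (Lam G e' R j).Adj u w := by
  induction j with
  | zero => exact fun u _ w _ h => h.elim
  | succ j ih =>
    rintro u hu w hw ⟨hG, h1 | h1⟩
    · exact ⟨hG, Or.inl ⟨(gt_congr h h' he hu w).2 h1.1, aw_local h h' he ih hu h1.2⟩⟩
    · exact ⟨hG, Or.inr ⟨(gt_congr h h' he hw u).2 h1.1, aw_local h h' he ih hw h1.2⟩⟩

end congr

/-- The vertices of the small bad sets outside `H`. -/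
def Wd (G L : SimpleGraph V) (H : Set V) (r : ℕ) : Set V :=
  {w | ∃ P : Set V, w ∈ P ∧ P ⊆ Hᶜ ∧ Conn L P ∧ P.ncard ≤ r ∧ ¬Nice G H P}

lemma wd_sub (L : SimpleGraph V) (H : Set V) (r : ℕ) : Wd G L H r ⊆ Hᶜ := by
  rintro w ⟨P, h1, h2, -⟩
  exact h2 h1

/-- There are few vertices in small bad sets. -/
lemma card_wd [Fintype V] (h5 : ¬HasK5Minor G) (h3 : ¬HasK3Minor 3 G) {L : SimpleGraph V}
    (hL : L ≤ G) {H : Set V} {Δ : ℕ} (hΔ : ∀ v ∉ H, {w | w ∉ H ∧ L.Adj v w}.ncard ≤ Δ) (r : ℕ) :
    (Wd G L H r).ncard ≤ 64 * H.ncard * r * (Δ + 1) ^ r := by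
  let bad : Set V → Prop := fun K => K ⊆ Hᶜ ∧ Conn L K ∧ K.Nonempty ∧ K.ncard ≤ r ∧ ¬Nice G H K
  let P : Finset (Set V) → Prop := fun 𝒦 => (∀ K ∈ 𝒦, bad K) ∧
    ∀ B ∈ 𝒦, ∀ B' ∈ 𝒦, B ≠ B' → Disjoint B B'
  have hP0 : P ∅ := ⟨fun K hK => absurd hK (notMem_empty K), fun K hK => absurd hK (notMem_empty K)⟩
  obtain ⟨𝒦, h𝒦, hmax⟩ := exists_max_image (univ.filter P) card ⟨∅, mem_filter.2 ⟨mem_univ _, hP0⟩⟩
  obtain ⟨hb, hdis⟩ := (mem_filter.1 h𝒦).2
  have hcard : 𝒦.card ≤ 64 * H.ncard := by
    refine count_le h5 h3 ⟨fun B hB => ⟨conn_of_le hL (hb B hB).2.1, (hb B hB).2.2.1⟩, hdis⟩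
      (fun B hB => ?_) (fun B hB => (hb B hB).2.2.2.2)
    exact Set.disjoint_left.2 fun x hx hxB => (hb B hB).1 hxB hx
  set Y : Set V := ⋃ B ∈ 𝒦, B with hY
  have hYn : Y.ncard ≤ 64 * H.ncard * r :=
    (ncard_biUnion_le' 𝒦 (fun B => B) fun B hB => (hb B hB).2.2.2.1).trans
      (Nat.mul_le_mul_right r hcard)
  have hmeet : ∀ K, bad K → ∃ y ∈ K, y ∈ Y := by
    intro K hK
    by_contra hno
    push Not at hno
    have hnot : K ∉ 𝒦 := by
      intro hK𝒦
      obtain ⟨x, hx⟩ := hK.2.2.1
      exact hno x hx (Set.mem_iUnion₂.2 ⟨K, hK𝒦, hx⟩)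
    have hKB : ∀ B ∈ 𝒦, Disjoint K B := fun B hB => Set.disjoint_left.2 fun x hx hxB =>
      hno x hx (Set.mem_iUnion₂.2 ⟨B, hB, hxB⟩)
    have hins : P (insert K 𝒦) := by
      refine ⟨?_, ?_⟩
      · intro B hB
        rcases mem_insert.1 hB with rfl | hB
        · exact hK
        · exact hb B hB
      · intro B hB B' hB' hne
        rcases mem_insert.1 hB with h1 | h1
        · rcases mem_insert.1 hB' with h2 | h2
          · exact absurd (h1.trans h2.symm) hne
          · rw [h1]
            exact hKB B' h2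
        · rcases mem_insert.1 hB' with h2 | h2
          · rw [h2]
            exact (hKB B h1).symm
          · exact hdis B h1 B' h2 hne
    have h1 := hmax (insert K 𝒦) (mem_filter.2 ⟨mem_univ _, hins⟩)
    rw [card_insert_of_notMem hnot] at h1
    omega
  have hdeg : ∀ v, ((res L Hᶜ).neighborSet v).ncard ≤ Δ := by
    intro v
    by_cases hv : v ∈ H
    · have h1 : (res L Hᶜ).neighborSet v = ∅ := by
        ext w
        simp only [SimpleGraph.mem_neighborSet, Set.mem_empty_iff_false, iff_false]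
        exact fun h => h.2.1 hv
      rw [h1]
      simp
    · refine (Set.ncard_le_ncard ?_ (Set.toFinite _)).trans (hΔ v hv)
      exact fun w hw => ⟨hw.2.2, hw.1⟩
  have hsub : Wd G L H r ⊆ ⋃ y ∈ Y.toFinset, {w | Near (res L Hᶜ) r y w} := by
    rintro w ⟨K, hwK, hKH, hKc, hKr, hKn⟩
    obtain ⟨y, hyK, hyY⟩ := hmeet K ⟨hKH, hKc, ⟨w, hwK⟩, hKr, hKn⟩
    refine Set.mem_iUnion₂.2 ⟨y, Set.mem_toFinset.2 hyY, ?_⟩
    have hKc' : Conn (res L Hᶜ) K := fun a ha b hb => (hKc a ha b hb).mono
      (show res L K ≤ res (res L Hᶜ) K from fun p q hpq =>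
        ⟨⟨hpq.1, hKH hpq.2.1, hKH hpq.2.2⟩, hpq.2⟩)
    exact Conn.near hKc' (Set.toFinite _) hKr hyK hwK
  calc (Wd G L H r).ncard ≤ (⋃ y ∈ Y.toFinset, {w | Near (res L Hᶜ) r y w}).ncard :=
        Set.ncard_le_ncard hsub (Set.toFinite _)
    _ ≤ Y.toFinset.card * (Δ + 1) ^ r :=
        ncard_biUnion_le' _ _ fun y _ => ncard_near_le hdeg r y
    _ ≤ 64 * H.ncard * r * (Δ + 1) ^ r := by
        refine Nat.mul_le_mul_right _ ?_
        rw [← Set.ncard_eq_toFinset_card']
        exact hYn

/-- Markov's inequality for finitely many functions. -/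
lemma markov {H : Finset V} (hH : H.Nonempty) {n : ℕ} (hn : 0 < n) (q : ℕ → V → ℕ) (T : ℕ → ℕ)
    (h : ∀ i < n, n * ∑ u ∈ H, q i u ≤ T i * H.card) : ∃ u ∈ H, ∀ i < n, q i u ≤ T i := by
  by_contra hno
  push Not at hno
  have h1 : H.card ≤ ∑ i ∈ range n, (H.filter fun u => T i < q i u).card := by
    refine (card_le_card ?_).trans card_biUnion_le
    intro u hu
    obtain ⟨i, hi, hq⟩ := hno u hu
    exact mem_biUnion.2 ⟨i, mem_range.2 hi, mem_filter.2 ⟨hu, hq⟩⟩
  have hpos : 0 < H.card := hH.card_pos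
  have h2 : ∀ i ∈ range n, n * (H.filter fun u => T i < q i u).card < H.card := by
    intro i hi
    have h3 : (H.filter fun u => T i < q i u).card * (T i + 1) ≤ ∑ u ∈ H, q i u := by
      calc (H.filter fun u => T i < q i u).card * (T i + 1)
          = ∑ _u ∈ H.filter fun u => T i < q i u, (T i + 1) := by
            rw [sum_const, smul_eq_mul]
        _ ≤ ∑ u ∈ H.filter fun u => T i < q i u, q i u :=
            sum_le_sum fun u hu => (mem_filter.1 hu).2
        _ ≤ ∑ u ∈ H, q i u := sum_le_sum_of_subset (filter_subset _ _)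
    have h4 := h i (mem_range.1 hi)
    by_contra hge
    rw [not_lt] at hge
    have h5 : H.card * (T i + 1) ≤ T i * H.card :=
      calc H.card * (T i + 1) ≤ n * (H.filter fun u => T i < q i u).card * (T i + 1) :=
            Nat.mul_le_mul_right _ hge
        _ = n * ((H.filter fun u => T i < q i u).card * (T i + 1)) := by ring
        _ ≤ n * ∑ u ∈ H, q i u := Nat.mul_le_mul_left _ h3
        _ ≤ T i * H.card := h4
    nlinarith
  have h3 : ∑ i ∈ range n, n * (H.filter fun u => T i < q i u).card < ∑ _i ∈ range n, H.card :=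
    sum_lt_sum_of_nonempty (nonempty_range_iff.2 hn.ne') h2
  rw [sum_const, card_range, smul_eq_mul, ← mul_sum] at h3
  exact absurd h1 (not_le.2 (lt_of_mul_lt_mul_left h3 (Nat.zero_le n)))

/-- The degrees of an order outside `H`. -/
def Good (G : SimpleGraph V) (R : ℕ → ℕ) (J : ℕ) (L : ℕ → ℕ) (e : V → ℕ) (H : Set V) : Prop :=
  (∀ v ∉ H, {x | e x < e v ∧ G.Adj x v}.ncard ≤ 8 * (J + 1)) ∧
    ∀ j ≤ J, ∀ v ∉ H, {w | e v < e w ∧ (Lam G e R j).Adj v w}.ncard ≤ L j

lemma deg_le [Fintype V] {J : ℕ} {L : ℕ → ℕ} {e : V → ℕ} (he : Function.Injective e) {H : Set V}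
    (hg : Good G R J L e H) {j : ℕ} (hj : j ≤ J) {v : V} (hv : v ∉ H) :
    ((Lam G e R j).neighborSet v).ncard ≤ 8 * (J + 1) + L j := by
  refine le_trans (Set.ncard_le_ncard ?_ (Set.toFinite _)) (ncard_union' (hg.1 v hv) (hg.2 j hj v hv))
  intro w hw
  have hw' : (Lam G e R j).Adj v w := hw
  have hne : e v ≠ e w := fun h => hw'.ne (he h)
  rcases lt_or_gt_of_ne hne with h1 | h1
  · exact Or.inr ⟨h1, hw'⟩
  · exact Or.inl ⟨h1, (lam_le j hw').symm⟩

/-- One step. -/
lemma peel_step [Fintype V] (h5 : ¬HasK5Minor G) (h3 : ¬HasK3Minor 3 G) {J : ℕ} {L : ℕ → ℕ}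
    (hL : ∀ j < J, 4 * (J + 1) * (1 + 64 * R j * (8 * (J + 1) + L j + 1) ^ (R j)) ≤ L (j + 1))
    {e : V → ℕ} (he : Function.Injective e) {H : Finset V} (hH : H.Nonempty)
    (hI : Init e (H : Set V)) (hg : Good G R J L e (H : Set V)) :
    ∃ u ∈ H, ∃ e' : V → ℕ, Function.Injective e' ∧ Init e' ((H.erase u : Finset V) : Set V) ∧
      Good G R J L e' ((H.erase u : Finset V) : Set V) := by
  set W : ℕ → Set V := fun j => Wd G (Lam G e R j) (H : Set V) (R j) with hW
  have hWd : ∀ j, Disjoint H (W j).toFinset := by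
    intro j
    rw [Finset.disjoint_left]
    intro x hx hxW
    exact wd_sub _ _ _ (Set.mem_toFinset.1 hxW) (mem_coe.2 hx)
  have hWc : ∀ j ≤ J, (W j).toFinset.card ≤
      64 * H.card * R j * (8 * (J + 1) + L j + 1) ^ (R j) := by
    intro j hj
    have h1 := card_wd h5 h3 (lam_le (G := G) (e := e) (R := R) j) (H := (H : Set V))
      (Δ := 8 * (J + 1) + L j) (fun v hv => ?_) (R j)
    · rw [Set.ncard_coe_finset] at h1
      rw [← Set.ncard_eq_toFinset_card']
      exact h1
    · refine (Set.ncard_le_ncard ?_ (Set.toFinite _)).trans (deg_le he hg hj hv)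
      exact fun w hw => hw.2
  obtain ⟨u, huH, hq⟩ := markov hH (n := J + 1) (Nat.succ_pos J)
    (fun i u => match i with
      | 0 => (H.filter fun y => G.Adj u y).card
      | j + 1 => ((W j).toFinset.filter fun y => G.Adj u y).card)
    (fun i => match i with
      | 0 => 8 * (J + 1)
      | j + 1 => L (j + 1)) (by
      intro i hi
      cases i with
      | zero =>
        have h1 := edge_le h5 H
        show (J + 1) * ∑ u ∈ H, (H.filter fun y => G.Adj u y).card ≤ 8 * (J + 1) * H.card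
        calc (J + 1) * ∑ u ∈ H, (H.filter fun y => G.Adj u y).card ≤ (J + 1) * (8 * H.card) :=
              Nat.mul_le_mul_left _ h1
          _ = 8 * (J + 1) * H.card := by ring
      | succ j =>
        have h1 := edges_between h5 (hWd j)
        have h2 := hWc j (by omega)
        show (J + 1) * ∑ u ∈ H, ((W j).toFinset.filter fun y => G.Adj u y).card ≤
          L (j + 1) * H.card
        calc (J + 1) * ∑ u ∈ H, ((W j).toFinset.filter fun y => G.Adj u y).card
            ≤ (J + 1) * (4 * (H.card + (W j).toFinset.card)) := Nat.mul_le_mul_left _ h1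
          _ ≤ (J + 1) * (4 * (H.card + 64 * H.card * R j * (8 * (J + 1) + L j + 1) ^ (R j))) :=
              Nat.mul_le_mul_left _ (Nat.mul_le_mul_left _ (Nat.add_le_add_left h2 _))
          _ = 4 * (J + 1) * (1 + 64 * R j * (8 * (J + 1) + L j + 1) ^ (R j)) * H.card := by ring
          _ ≤ L (j + 1) * H.card := Nat.mul_le_mul_right _ (hL j (by omega)))
  have hq0 : (H.filter fun y => G.Adj u y).card ≤ 8 * (J + 1) := hq 0 (Nat.succ_pos J)
  have hqj : ∀ j < J, ((W j).toFinset.filter fun y => G.Adj u y).card ≤ L (j + 1) := fun j hj =>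
    hq (j + 1) (by omega)
  obtain ⟨m, hmH, hm⟩ := exists_max_image H e hH
  have hmlt : ∀ x ∈ H, x ≠ m → e x < e m := fun x hx hne =>
    lt_of_le_of_ne (hm x hx) fun h => hne (he h)
  -- the new order
  set e' : V → ℕ := fun x => e (Equiv.swap u m x) with he'
  have hinj : Function.Injective e' := fun x y hxy => (Equiv.swap u m).injective (he hxy)
  have hoff : ∀ y ∉ (H : Set V), e' y = e y := by
    intro y hy
    have h1 : y ≠ u := fun h => hy (h ▸ mem_coe.2 huH)
    have h2 : y ≠ m := fun h => hy (h ▸ mem_coe.2 hmH)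
    show e (Equiv.swap u m y) = e y
    rw [Equiv.swap_apply_of_ne_of_ne h1 h2]
  have hswap : ∀ x ∈ H, Equiv.swap u m x ∈ H := by
    intro x hx
    by_cases h1 : x = u
    · rw [h1, Equiv.swap_apply_left]
      exact hmH
    · by_cases h2 : x = m
      · rw [h2, Equiv.swap_apply_right]
        exact huH
      · rw [Equiv.swap_apply_of_ne_of_ne h1 h2]
        exact hx
  have hu' : e' u = e m := by
    show e (Equiv.swap u m u) = e m
    rw [Equiv.swap_apply_left]
  have hI' : Init e' (H : Set V) := by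
    intro x hx y hy
    rw [hoff y hy]
    exact hI _ (mem_coe.2 (hswap x (mem_coe.1 hx))) y hy
  have hlt_u : ∀ x ∈ H, x ≠ u → e' x < e' u := by
    intro x hx hne
    rw [hu']
    refine hmlt _ (hswap x hx) fun h => hne ?_
    have h1 := congrArg (Equiv.swap u m) h
    rwa [Equiv.swap_apply_self, Equiv.swap_apply_right] at h1
  have hout_u : ∀ x ∉ (H : Set V), e' u < e' x := fun x hx => hI' u (mem_coe.2 huH) x hx
  have hcase : ∀ v ∉ ((H.erase u : Finset V) : Set V), v = u ∨ v ∉ (H : Set V) := by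
    intro v hv
    by_cases h1 : v = u
    · exact Or.inl h1
    · exact Or.inr fun h2 => hv (mem_coe.2 (mem_erase.2 ⟨h1, mem_coe.1 h2⟩))
  have hIe : Init e' ((H.erase u : Finset V) : Set V) := by
    intro x hx y hy
    obtain ⟨hxu, hxH⟩ := mem_erase.1 (mem_coe.1 hx)
    rcases hcase y hy with rfl | hy
    · exact hlt_u x hxH hxu
    · exact hI' x (mem_coe.2 hxH) y hy
  have hback : ∀ j, ∀ a ∉ (H : Set V), ∀ b ∉ (H : Set V), (Lam G e' R j).Adj a b →
      (Lam G e R j).Adj a b := lam_local hI' hI fun y hy => (hoff y hy).symm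
  refine ⟨u, huH, e', hinj, hIe, ?_, ?_⟩
  · intro v hv
    rcases hcase v hv with rfl | hv
    · have h1 : {x | e' x < e' v ∧ G.Adj x v} ⊆ ((H.filter fun y => G.Adj v y : Finset V) : Set V) := by
        rintro x ⟨hx, hxv⟩
        refine mem_coe.2 (mem_filter.2 ⟨?_, hxv.symm⟩)
        by_contra hxH
        have := hout_u x (fun h => hxH (mem_coe.1 h))
        omega
      refine (Set.ncard_le_ncard h1 (Set.toFinite _)).trans ?_
      rw [Set.ncard_coe_finset]
      exact hq0
    · have h1 : {x | e' x < e' v ∧ G.Adj x v} = {x | e x < e v ∧ G.Adj x v} := by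
        ext x
        exact and_congr (lt_congr hI hI' hoff hv x) Iff.rfl
      rw [h1]
      exact hg.1 v hv
  · intro j hj v hv
    rcases hcase v hv with rfl | hv
    · cases j with
      | zero =>
        have h1 : {w | e' v < e' w ∧ (Lam G e' R 0).Adj v w} = ∅ := by
          ext w
          simp only [Set.mem_ofPred_eq, Set.mem_empty_iff_false, iff_false]
          exact fun h => h.2
        rw [h1]
        simp
      | succ j =>
        have h1 : {w | e' v < e' w ∧ (Lam G e' R (j + 1)).Adj v w} ⊆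
            (((W j).toFinset.filter fun y => G.Adj v y : Finset V) : Set V) := by
          rintro w ⟨hlt, hadj⟩
          obtain ⟨hG, P, hwP, hPa, hPc, hPn, hPbad⟩ := (lam_adj hlt).1 hadj
          have hPH : P ⊆ (H : Set V)ᶜ := by
            intro x hx hxH
            have h2 : e' v < e' x := hPa hx
            have h3 : x ≠ v := fun h => by rw [h] at h2; exact lt_irrefl _ h2
            have h4 := hlt_u x (mem_coe.1 hxH) h3
            omega
          have hup : upto e' v = (H : Set V) := by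
            ext x
            show e' x ≤ e' v ↔ x ∈ (H : Set V)
            constructor
            · intro h
              by_contra hx
              have := hout_u x hx
              omega
            · intro hx
              by_cases h2 : x = v
              · rw [h2]
              · exact (hlt_u x (mem_coe.1 hx) h2).le
          refine mem_coe.2 (mem_filter.2 ⟨Set.mem_toFinset.2 ⟨P, hwP, hPH, ?_, hPn, ?_⟩, hG⟩)
          · exact conn_congr (hback j) hPH hPc
          · rw [← hup]
            exact hPbad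
        refine (Set.ncard_le_ncard h1 (Set.toFinite _)).trans ?_
        rw [Set.ncard_coe_finset]
        exact hqj j (by omega)
    · refine (Set.ncard_le_ncard ?_ (Set.toFinite _)).trans (hg.2 j hj v hv)
      rintro w ⟨hlt, hadj⟩
      have hw : w ∉ (H : Set V) := fun h => by
        have := hI' w h v hv
        omega
      exact ⟨(gt_congr hI hI' hoff hv w).1 hlt, hback j v hv w hw hadj⟩

/-- The peeling process. -/
lemma peel [Fintype V] (h5 : ¬HasK5Minor G) (h3 : ¬HasK3Minor 3 G) {J : ℕ} {L : ℕ → ℕ}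
    (hL : ∀ j < J, 4 * (J + 1) * (1 + 64 * R j * (8 * (J + 1) + L j + 1) ^ (R j)) ≤ L (j + 1)) :
    ∀ t ≤ Fintype.card V, ∃ H : Finset V, H.card = Fintype.card V - t ∧ ∃ e : V → ℕ,
      Function.Injective e ∧ Init e (H : Set V) ∧ Good G R J L e (H : Set V) := by
  intro t
  induction t with
  | zero =>
    intro _
    refine ⟨univ, by simp, fun x => (Fintype.equivFin V x : ℕ), ?_, ?_, ?_, ?_⟩
    · exact fun x y h => (Fintype.equivFin V).injective (Fin.ext h)
    · intro x _ y hy
      exact absurd (mem_coe.2 (mem_univ y)) hy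
    · intro y hy
      exact absurd (mem_coe.2 (mem_univ y)) hy
    · intro _ _ y hy
      exact absurd (mem_coe.2 (mem_univ y)) hy
  | succ t ih =>
    intro ht
    obtain ⟨H, hHc, e, he, hI, hg⟩ := ih (by omega)
    have hH : H.Nonempty := by
      rw [← card_pos]
      omega
    obtain ⟨u, hu, e', he', hI', hg'⟩ := peel_step h5 h3 hL he hH hI hg
    refine ⟨H.erase u, ?_, e', he', hI', hg'⟩
    rw [card_erase_of_mem hu]
    omega

/-- **A vertex order with few awareness edges.** -/
theorem exists_order [Fintype V] (h5 : ¬HasK5Minor G) (h3 : ¬HasK3Minor 3 G) (R : ℕ → ℕ) (J : ℕ)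
    (D : ℕ → ℕ) (hD0 : 8 * (J + 1) ≤ D 0)
    (hD : ∀ j < J, 8 * (J + 1) + 4 * (J + 1) * (1 + 64 * R j * (D j + 1) ^ (R j)) ≤ D (j + 1)) :
    ∃ e : V → ℕ, Function.Injective e ∧ (∀ v, {x | e x < e v ∧ G.Adj x v}.ncard ≤ 8 * (J + 1)) ∧
      ∀ j ≤ J, ∀ v, ((Lam G e R j).neighborSet v).ncard ≤ D j := by
  have hDj : ∀ j ≤ J, 8 * (J + 1) ≤ D j := by
    intro j hj
    cases j with
    | zero => exact hD0
    | succ j => exact le_trans (Nat.le_add_right _ _) (hD j (by omega))
  have hL : ∀ j < J, 4 * (J + 1) * (1 + 64 * R j *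
      (8 * (J + 1) + (fun i => D i - 8 * (J + 1)) j + 1) ^ (R j)) ≤
      (fun i => D i - 8 * (J + 1)) (j + 1) := by
    intro j hj
    have h1 := hD j hj
    have h2 := hDj j (by omega)
    have h4 : 8 * (J + 1) + (D j - 8 * (J + 1)) + 1 = D j + 1 := by omega
    show 4 * (J + 1) * (1 + 64 * R j * (8 * (J + 1) + (D j - 8 * (J + 1)) + 1) ^ (R j)) ≤
      D (j + 1) - 8 * (J + 1)
    rw [h4]
    omega
  obtain ⟨H, hHc, e, he, -, hg⟩ := peel h5 h3 hL (Fintype.card V) le_rfl
  have hH : H = ∅ := by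
    rw [← card_eq_zero]
    omega
  subst hH
  refine ⟨e, he, fun v => hg.1 v (by simp), fun j hj v => ?_⟩
  refine (deg_le he hg hj (v := v) (by simp)).trans ?_
  have := hDj j hj
  show 8 * (J + 1) + (D j - 8 * (J + 1)) ≤ D j
  omega

end Ord

end BDP
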