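import Pool.Agent.Work.MP_0890ba_co.BD.Gen

/-!
# Tails of sums of independent indicators, by counting
-/

set_option linter.unusedSectionVars false

namespace BDP

namespace Tail

open Finset Classical

section hit

variable {V : Type} [Fintype V] [DecidableEq V] [Nonempty V] {A : Type} [Fintype A]
  {B : Type} [Fintype B]

/-- The number of hits of one colour. -/
lemma card_hit2 {G : SimpleGraph V} {X : (V → A) → Set V} {Φ : Set V → V → Finset B}
    {T : Set V} {v : V} (hv : v ∈ T) :
    (univ.filter fun η : V → A × B => Far.Hit G X Φ T η v).card * Fintype.card B =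
      ∑ α ∈ univ.filter (fun α : V → A => v ∉ X α),
        (Φ (Col.cmp G (T \ X α) v) v).card * Fintype.card (V → B) := by
  have h1 : (univ.filter fun η : V → A × B => Far.Hit G X Φ T η v).card =
      ((univ.filter fun α : V → A => v ∉ X α).sigma fun α =>
        univ.filter fun κ : V → B =>
          κ (Col.lead G (T \ X α) v) ∈ Φ (Col.cmp G (T \ X α) v) v).card := by
    refine card_bij' (fun η _ => ⟨fun w => (η w).1, fun w => (η w).2⟩)
      (fun q _ => fun w => (q.1 w, q.2 w)) ?_ ?_ ?_ ?_
    · intro η hη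
      have h := (mem_filter.1 hη).2
      rw [mem_sigma, mem_filter, mem_filter]
      exact ⟨⟨mem_univ _, h.2.1⟩, mem_univ _, h.2.2⟩
    · intro q hq
      rw [mem_sigma, mem_filter, mem_filter] at hq
      rw [mem_filter]
      exact ⟨mem_univ _, hv, hq.1.2, hq.2.2⟩
    · intro η _
      rfl
    · intro q _
      rfl
  rw [h1, card_sigma, sum_mul]
  apply sum_congr rfl
  intro α _
  rw [Far.card_value]

end hit

section core

variable {Z D : Type} [Fintype Z] [DecidableEq Z] [Fintype D] [Nonempty D]

/-- The Markov bound for independent colours with different probabilities. -/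
lemma card_few (L : Finset Z) (H : Z → D → Prop) {b : ℕ} {s x : ℝ} (hx0 : 0 < x) (hx1 : x < 1)
    (hH : s * Fintype.card D ≤ ∑ c ∈ L, ((univ.filter fun η : D => H c η).card : ℝ)) :
    ((univ.filter fun ω : Z → D => (L.filter fun c => H c (ω c)).card < b).card : ℝ) ≤
      (Real.exp (-((1 - x) * s)) / x ^ b) * Fintype.card (Z → D) := by
  have hxb : 0 < x ^ b := pow_pos hx0 b
  have hΩ : (0 : ℝ) < Fintype.card D := by exact_mod_cast Fintype.card_pos
  let g : Z → D → ℝ := fun c η => if c ∈ L ∧ H c η then x else 1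
  have hg0 : ∀ c η, 0 ≤ g c η := by
    intro c η
    dsimp only [g]
    split_ifs <;> linarith
  -- the number of hits as a product
  have h1 : ∀ ω : Z → D, x ^ (L.filter fun c => H c (ω c)).card = ∏ c, g c (ω c) := by
    intro ω
    have h2 : ∏ c, g c (ω c) = ∏ c ∈ L.filter fun c => H c (ω c), x := by
      rw [← prod_filter_mul_prod_filter_not univ (fun c => c ∈ L ∧ H c (ω c))]
      have h3 : ∏ c ∈ univ.filter (fun c => ¬ (c ∈ L ∧ H c (ω c))), g c (ω c) = 1 := by
        apply prod_eq_one
        intro c hc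
        exact if_neg (mem_filter.1 hc).2
      rw [h3, mul_one]
      have h4 : univ.filter (fun c => c ∈ L ∧ H c (ω c)) = L.filter fun c => H c (ω c) := by
        ext c; simp
      rw [h4]
      apply prod_congr rfl
      intro c hc
      exact if_pos (mem_filter.1 hc)
    rw [h2, prod_const]
  -- the sum of the products
  have h5 : ∑ ω : Z → D, ∏ c, g c (ω c) = ∏ c, ∑ η : D, g c η := by
    rw [prod_univ_sum, Fintype.piFinset_univ]
  have h6 : ∀ c, ∑ η : D, g c η ≤ Fintype.card D *
      Real.exp (-(if c ∈ L then (1 - x) *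
        (((univ.filter fun η : D => H c η).card : ℝ) / Fintype.card D) else 0)) := by
    intro c
    by_cases hc : c ∈ L
    · have h7 : ∀ η, g c η = 1 - (1 - x) * (if H c η then 1 else 0) := by
        intro η
        dsimp only [g]
        by_cases h : H c η
        · rw [if_pos ⟨hc, h⟩, if_pos h]; ring
        · rw [if_neg (fun h' => h h'.2), if_neg h]; ring
      rw [sum_congr rfl fun η _ => h7 η, sum_sub_distrib, ← mul_sum, sum_boole, sum_const,
        card_univ, nsmul_eq_mul, mul_one, if_pos hc]
      have h8 := Real.add_one_le_exp (-((1 - x) *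
        (((univ.filter fun η : D => H c η).card : ℝ) / Fintype.card D)))
      have h9 := mul_le_mul_of_nonneg_left h8 hΩ.le
      refine le_trans (le_of_eq ?_) h9
      field_simp
      ring
    · have h7 : ∀ η, g c η = 1 := by
        intro η
        exact if_neg (fun h' => hc h'.1)
      rw [sum_congr rfl fun η _ => h7 η, sum_const, card_univ, nsmul_eq_mul, mul_one, if_neg hc,
        neg_zero, Real.exp_zero, mul_one]
  have h9 : ∏ c, ∑ η : D, g c η ≤ Real.exp (-((1 - x) * s)) * Fintype.card (Z → D) := by
    calc ∏ c, ∑ η : D, g c η ≤ ∏ c, ((Fintype.card D : ℝ) *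
          Real.exp (-(if c ∈ L then (1 - x) *
            (((univ.filter fun η : D => H c η).card : ℝ) / Fintype.card D) else 0))) :=
        prod_le_prod (fun c _ => sum_nonneg fun η _ => hg0 c η) fun c _ => h6 c
      _ = Real.exp (-∑ c ∈ L, (1 - x) *
            (((univ.filter fun η : D => H c η).card : ℝ) / Fintype.card D)) *
          Fintype.card (Z → D) := by
        rw [prod_mul_distrib, prod_const, card_univ, ← Real.exp_sum, sum_neg_distrib, ← sum_filter]
        have h10 : univ.filter (fun c => c ∈ L) = L := by ext c; simp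
        rw [h10, Fintype.card_fun, Nat.cast_pow, mul_comm]
      _ ≤ Real.exp (-((1 - x) * s)) * Fintype.card (Z → D) := by
        apply mul_le_mul_of_nonneg_right _ (Nat.cast_nonneg _)
        apply Real.exp_le_exp.2
        rw [neg_le_neg_iff, ← mul_sum, ← sum_div]
        apply mul_le_mul_of_nonneg_left _ (by linarith)
        rw [le_div_iff₀ hΩ]
        exact hH
  -- Markov
  have h10 : x ^ b * ((univ.filter fun ω : Z → D =>
        (L.filter fun c => H c (ω c)).card < b).card : ℝ) ≤
      ∑ ω : Z → D, ∏ c, g c (ω c) := by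
    rw [mul_comm, ← nsmul_eq_mul, ← sum_const]
    refine le_trans ?_ (sum_le_sum_of_subset_of_nonneg
      (filter_subset (fun ω : Z → D => (L.filter fun c => H c (ω c)).card < b) univ)
      fun ω _ _ => prod_nonneg fun c _ => hg0 c _)
    apply sum_le_sum
    intro ω hω
    rw [← h1 ω]
    exact pow_le_pow_of_le_one hx0.le hx1.le (mem_filter.1 hω).2.le
  rw [h5] at h10
  rw [div_mul_eq_mul_div, le_div_iff₀ hxb, mul_comm]
  exact h10.trans h9

end core

/-- Lower tail with an additive error, for functions of the colours. -/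
theorem tail_core {q d : ℝ} (C : ℝ) (hq : 0 < q) (hd : 0 < d) : ∃ b0 : ℕ,
    ∀ {Z D : Type} [Fintype Z] [DecidableEq Z] [Fintype D] [Nonempty D] (L : Finset Z)
      (H : Z → D → Prop) (b : ℕ) (s : ℝ), b0 ≤ b → (L.card : ℝ) ≤ C * b →
      s * Fintype.card D ≤ ∑ c ∈ L, ((univ.filter fun η : D => H c η).card : ℝ) →
      ((univ.filter fun ω : Z → D =>
        ((L.filter fun c => H c (ω c)).card : ℝ) + d * b < s).card : ℝ) ≤
        q * Fintype.card (Z → D) := by
  set C' : ℝ := max C 1 with hC'
  have hC'0 : 0 < C' := lt_of_lt_of_le one_pos (le_max_right _ _)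
  set ε : ℝ := min (1 / 2) (d / (4 * C')) with hε
  have hε0 : 0 < ε := lt_min (by norm_num) (by positivity)
  have hε1 : ε ≤ 1 / 2 := min_le_left _ _
  have hεC : ε * C' ≤ d / 4 := by
    have h1 : ε ≤ d / (4 * C') := min_le_right _ _
    have h2 := mul_le_mul_of_nonneg_right h1 hC'0.le
    refine h2.trans (le_of_eq ?_)
    field_simp
  obtain ⟨n1, hn1⟩ := exists_nat_ge (4 / d)
  obtain ⟨n2, hn2⟩ := exists_nat_ge (2 * (-Real.log q) / (ε * d))
  refine ⟨max n1 n2, fun {Z D} _ _ _ _ L H b s hb hL hs => ?_⟩
  have hb1 : 4 / d ≤ b := hn1.trans (by exact_mod_cast (le_max_left _ _).trans hb)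
  have hb2 : 2 * (-Real.log q) / (ε * d) ≤ b :=
    hn2.trans (by exact_mod_cast (le_max_right _ _).trans hb)
  have hb1' : 4 ≤ d * b := by
    rw [div_le_iff₀ hd] at hb1
    linarith
  have hD : (0 : ℝ) < Fintype.card D := by exact_mod_cast Fintype.card_pos
  have hZD : (0 : ℝ) ≤ Fintype.card (Z → D) := Nat.cast_nonneg _
  have hsC : s ≤ C' * b := by
    have h1 : ∑ c ∈ L, ((univ.filter fun η : D => H c η).card : ℝ) ≤ L.card * Fintype.card D := by
      rw [← nsmul_eq_mul]
      refine sum_le_card_nsmul _ _ _ fun c _ => ?_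
      exact_mod_cast card_le_univ _
    have h2 : s * Fintype.card D ≤ L.card * Fintype.card D := hs.trans h1
    have h3 : s ≤ L.card := le_of_mul_le_mul_right h2 hD
    have h4 : C * b ≤ C' * b := mul_le_mul_of_nonneg_right (le_max_left _ _) (Nat.cast_nonneg _)
    linarith
  by_cases hpos : s ≤ d * b
  · have h1 : (univ.filter fun ω : Z → D =>
        ((L.filter fun c => H c (ω c)).card : ℝ) + d * b < s) = ∅ := by
      rw [eq_empty_iff_forall_notMem]
      intro ω hω
      have h2 := (mem_filter.1 hω).2
      have h3 : (0 : ℝ) ≤ (L.filter fun c => H c (ω c)).card := Nat.cast_nonneg _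
      linarith
    rw [h1, card_empty, Nat.cast_zero]
    positivity
  · rw [not_le] at hpos
    set b' : ℕ := ⌈s - d * b⌉₊ with hb'
    have hb'1 : s - d * b ≤ b' := Nat.le_ceil _
    have hb'2 : (b' : ℝ) < s - d * b + 1 := Nat.ceil_lt_add_one (by linarith)
    have h1 := card_few L H (b := b') (s := s) (x := 1 - ε) (by linarith) (by linarith) hs
    refine le_trans ?_ (h1.trans (mul_le_mul_of_nonneg_right ?_ hZD))
    · rw [Nat.cast_le]
      refine card_le_card fun ω hω => ?_
      rw [mem_filter] at hω ⊢
      refine ⟨mem_univ _, ?_⟩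
      have h2 : ((L.filter fun c => H c (ω c)).card : ℝ) < b' := by linarith [hω.2]
      exact_mod_cast h2
    · have hx : 0 < 1 - ε := by linarith
      have h2 : Real.exp (-((1 - (1 - ε)) * s)) / (1 - ε) ^ b' =
          Real.exp (-(ε * s) - b' * Real.log (1 - ε)) := by
        rw [Real.exp_sub, ← Real.log_pow, Real.exp_log (pow_pos hx b')]
        congr 3
        ring
      rw [h2]
      have h3 : 1 - (1 - ε)⁻¹ ≤ Real.log (1 - ε) := Real.one_sub_inv_le_log_of_pos hx
      have h4 : -(ε * s) - b' * Real.log (1 - ε) ≤ -(ε * s) + b' * (ε / (1 - ε)) := by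
        have h5 : (1 - (1 - ε)⁻¹ : ℝ) = -(ε / (1 - ε)) := by
          field_simp
          ring
        have h6 : (b' : ℝ) * (1 - (1 - ε)⁻¹) ≤ b' * Real.log (1 - ε) :=
          mul_le_mul_of_nonneg_left h3 (Nat.cast_nonneg _)
        rw [h5] at h6
        linarith
      have h5 : -(ε * s) + b' * (ε / (1 - ε)) ≤ (ε / (1 - ε)) * (ε * s - d * b + 1) := by
        have h6 : (b' : ℝ) * (ε / (1 - ε)) ≤ (s - d * b + 1) * (ε / (1 - ε)) :=
          mul_le_mul_of_nonneg_right hb'2.le (by positivity)
        have h7 : -(ε * s) + (s - d * b + 1) * (ε / (1 - ε)) =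
            (ε / (1 - ε)) * (ε * s - d * b + 1) := by
          field_simp
          ring
        linarith
      have h6 : ε * s - d * b + 1 ≤ -(d * b / 2) := by
        have h7 : ε * s ≤ ε * (C' * b) := mul_le_mul_of_nonneg_left hsC hε0.le
        have h8 : ε * (C' * b) = (ε * C') * b := by ring
        have h9 : (ε * C') * b ≤ d / 4 * b := mul_le_mul_of_nonneg_right hεC (Nat.cast_nonneg _)
        linarith
      have h7 : (ε / (1 - ε)) * (ε * s - d * b + 1) ≤ ε * (-(d * b / 2)) := by
        have h8 : ε ≤ ε / (1 - ε) := by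
          rw [le_div_iff₀ hx]
          nlinarith
        have h9 : (ε / (1 - ε)) * (ε * s - d * b + 1) ≤ (ε / (1 - ε)) * (-(d * b / 2)) :=
          mul_le_mul_of_nonneg_left h6 (by positivity)
        have h10 : (0 : ℝ) ≤ d * b / 2 := by linarith
        nlinarith
      have h8 : ε * (-(d * b / 2)) ≤ Real.log q := by
        have h9 : 0 < ε * d := by positivity
        rw [div_le_iff₀ h9] at hb2
        nlinarith
      calc Real.exp (-(ε * s) - b' * Real.log (1 - ε)) ≤ Real.exp (Real.log q) :=
            Real.exp_le_exp.2 (by linarith)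
        _ = q := Real.exp_log hq

/-- Upper tail with an additive error, for functions of the colours. -/
theorem tail_core_upper {q d : ℝ} (C : ℝ) (hq : 0 < q) (hd : 0 < d) : ∃ b0 : ℕ,
    ∀ {Z D : Type} [Fintype Z] [DecidableEq Z] [Fintype D] [Nonempty D] (L : Finset Z)
      (H : Z → D → Prop) (b : ℕ) (s : ℝ), b0 ≤ b → (L.card : ℝ) ≤ C * b →
      ∑ c ∈ L, ((univ.filter fun η : D => H c η).card : ℝ) ≤ s * Fintype.card D →
      ((univ.filter fun ω : Z → D =>
        s + d * b < ((L.filter fun c => H c (ω c)).card : ℝ)).card : ℝ) ≤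
        q * Fintype.card (Z → D) := by
  obtain ⟨b0, h⟩ := tail_core C hq hd
  refine ⟨b0, fun {Z D} _ _ _ _ L H b s hb hL hs => ?_⟩
  let H' : Z → D → Prop := fun c η => ¬H c η
  have hH' : ∀ c η, H' c η ↔ ¬H c η := fun c η => Iff.rfl
  clear_value H'
  have h1 := h L H' b (L.card - s) hb hL ?_
  · refine le_trans ?_ h1
    rw [Nat.cast_le]
    refine card_le_card fun ω hω => ?_
    rw [mem_filter] at hω ⊢
    refine ⟨mem_univ _, ?_⟩
    have h2 : (L.filter fun c => H c (ω c)).card + (L.filter fun c => H' c (ω c)).card =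
        L.card := by
      rw [← card_filter_add_card_filter_not (s := L) (fun c => H c (ω c))]
      congr 2
      exact filter_congr fun c _ => hH' c (ω c)
    have h3 : ((L.filter fun c => H c (ω c)).card : ℝ) +
        ((L.filter fun c => H' c (ω c)).card : ℝ) = L.card := by exact_mod_cast h2
    linarith [hω.2]
  · have h2 : ∀ c, ((univ.filter fun η : D => H' c η).card : ℝ) =
        Fintype.card D - ((univ.filter fun η : D => H c η).card : ℝ) := by
      intro c
      have h3 : (univ.filter fun η : D => H c η).card + (univ.filter fun η : D => H' c η).card =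
          Fintype.card D := by
        rw [← card_univ, ← card_filter_add_card_filter_not (s := (univ : Finset D))
          (fun η => H c η)]
        congr 2
        exact filter_congr fun η _ => hH' c η
      have h4 : ((univ.filter fun η : D => H c η).card : ℝ) +
          ((univ.filter fun η : D => H' c η).card : ℝ) = Fintype.card D := by exact_mod_cast h3
      linarith
    rw [sum_congr rfl fun c _ => h2 c, sum_sub_distrib, sum_const, nsmul_eq_mul]
    linarith

section dep

variable {I : Type} [Fintype I] [DecidableEq I] {Om : I → Type} [∀ i, Fintype (Om i)]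
  {Z : Type} [Fintype Z] [DecidableEq Z]

/-- Change of the order of the arguments. -/
lemma card_comm (P : (Z → ∀ i, Om i) → Prop) :
    (univ.filter fun ω : ∀ i, Z → Om i => P fun c i => ω i c).card = (univ.filter P).card := by
  refine card_nbij' (fun ω c i => ω i c) (fun ω i c => ω c i) ?_ ?_ ?_ ?_
  · intro ω hω
    rw [mem_coe, mem_filter] at hω ⊢
    exact ⟨mem_univ _, hω.2⟩
  · intro ω hω
    rw [mem_coe, mem_filter] at hω ⊢
    exact ⟨mem_univ _, hω.2⟩
  · intro ω _
    rfl
  · intro ω _
    rfl

lemma card_comm_univ : Fintype.card (∀ i, Z → Om i) = Fintype.card (Z → ∀ i, Om i) := by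
  have h := card_comm (Om := Om) (Z := Z) fun _ => True
  rw [filter_true, filter_true, card_univ, card_univ] at h
  exact h

end dep

/-- Lower tail with an additive error: the value of the variable `i` gives a value for every
colour. -/
theorem tail_lower {q d : ℝ} (C : ℝ) (hq : 0 < q) (hd : 0 < d) : ∃ b0 : ℕ,
    ∀ {I Z : Type} [Fintype I] [DecidableEq I] [Fintype Z] [DecidableEq Z] {Om : I → Type}
      [∀ i, Fintype (Om i)] [∀ i, Nonempty (Om i)] (L : Finset Z)
      (H : Z → (∀ i, Om i) → Prop) (b : ℕ) (s : ℝ), b0 ≤ b → (L.card : ℝ) ≤ C * b →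
      s * Fintype.card (∀ i, Om i) ≤
        ∑ c ∈ L, ((univ.filter fun η : ∀ i, Om i => H c η).card : ℝ) →
      ((univ.filter fun ω : ∀ i, Z → Om i =>
        ((L.filter fun c => H c fun i => ω i c).card : ℝ) + d * b < s).card : ℝ) ≤
        q * Fintype.card (∀ i, Z → Om i) := by
  obtain ⟨b0, h⟩ := tail_core C hq hd
  refine ⟨b0, fun {I Z} _ _ _ _ {Om} _ _ L H b s hb hL hs => ?_⟩
  have h1 := h L H b s hb hL hs
  rw [card_comm_univ, card_comm (Om := Om) (Z := Z)
    (fun ω => ((L.filter fun c => H c (ω c)).card : ℝ) + d * b < s)]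
  exact h1

/-- Upper tail with an additive error. -/
theorem tail_upper {q d : ℝ} (C : ℝ) (hq : 0 < q) (hd : 0 < d) : ∃ b0 : ℕ,
    ∀ {I Z : Type} [Fintype I] [DecidableEq I] [Fintype Z] [DecidableEq Z] {Om : I → Type}
      [∀ i, Fintype (Om i)] [∀ i, Nonempty (Om i)] (L : Finset Z)
      (H : Z → (∀ i, Om i) → Prop) (b : ℕ) (s : ℝ), b0 ≤ b → (L.card : ℝ) ≤ C * b →
      ∑ c ∈ L, ((univ.filter fun η : ∀ i, Om i => H c η).card : ℝ) ≤
        s * Fintype.card (∀ i, Om i) →
      ((univ.filter fun ω : ∀ i, Z → Om i =>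
        s + d * b < ((L.filter fun c => H c fun i => ω i c).card : ℝ)).card : ℝ) ≤
        q * Fintype.card (∀ i, Z → Om i) := by
  obtain ⟨b0, h⟩ := tail_core_upper C hq hd
  refine ⟨b0, fun {I Z} _ _ _ _ {Om} _ _ L H b s hb hL hs => ?_⟩
  have h1 := h L H b s hb hL hs
  rw [card_comm_univ, card_comm (Om := Om) (Z := Z)
    (fun ω => s + d * b < ((L.filter fun c => H c (ω c)).card : ℝ))]
  exact h1

end Tail

end BDP
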