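import Pool.Agent.Work.MP_0890ba_co.BD.Path

/-!
# Few disjoint bad places
-/

set_option linter.unusedSectionVars false

namespace BDP

namespace Hub

open Finset Classical Pool.Agent.Work.MP_0890ba_co

variable {V : Type} {G : SimpleGraph V}

/-- The vertices of `H` next to `K`. -/
def seen (G : SimpleGraph V) (H K : Set V) : Set V := {u | u ∈ H ∧ ∃ v ∈ K, G.Adj u v}

/-- `K` sees at most two vertices of `H`, and these are joined outside `K`. -/
def Nice (G : SimpleGraph V) (H K : Set V) : Prop := (seen G H K).ncard ≤ 2 ∧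
  ∀ u ∈ seen G H K, ∀ v ∈ seen G H K, (res G Kᶜ).Reachable u v

lemma seen_sub (H K : Set V) : seen G H K ⊆ H := fun _ hx => hx.1

/-- Only few disjoint connected sets see three vertices of a small set. -/
lemma card_bad3 [Fintype V] (h3 : ¬HasK3Minor 3 G) (𝒦 : Finset (Set V))
    (hconn : ∀ B ∈ 𝒦, CN G B) (hdis : ∀ B ∈ 𝒦, ∀ B' ∈ 𝒦, B ≠ B' → Disjoint B B') {H : Set V}
    (hHB : ∀ B ∈ 𝒦, Disjoint H B) {h : ℕ} (hh : H.ncard ≤ h)
    (hbad : ∀ B ∈ 𝒦, 3 ≤ (seen G H B).ncard) : 𝒦.card ≤ 2 * 2 ^ h := by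
  have ht : ∀ B : Set V, ∃ t : Finset V, B ∈ 𝒦 → t.card = 3 ∧ (t : Set V) ⊆ seen G H B := by
    intro B
    by_cases hB : B ∈ 𝒦
    · obtain ⟨t, ht, htc⟩ := Set.exists_subset_card_eq (hbad B hB)
      refine ⟨t.toFinset, fun _ => ⟨?_, ?_⟩⟩
      · rw [← Set.ncard_eq_toFinset_card']
        exact htc
      · rw [Set.coe_toFinset]
        exact ht
    · exact ⟨∅, fun h => absurd h hB⟩
  choose t ht using ht
  have h1 : (𝒦.image t).card ≤ 2 ^ h := by
    have h2 : 𝒦.image t ⊆ H.toFinset.powerset := by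
      intro s hs
      obtain ⟨B, hB, rfl⟩ := mem_image.1 hs
      rw [mem_powerset]
      intro x hx
      rw [Set.mem_toFinset]
      exact seen_sub H B ((ht B hB).2 (mem_coe.2 hx))
    refine (card_le_card h2).trans ?_
    rw [card_powerset, ← Set.ncard_eq_toFinset_card']
    exact Nat.pow_le_pow_right (by norm_num) hh
  refine (card_le_mul_card_image 𝒦 2 fun a _ => ?_).trans (Nat.mul_le_mul_left 2 h1)
  by_contra hlt
  rw [not_le] at hlt
  obtain ⟨B₁, B₂, B₃, m₁, m₂, m₃, n₁₂, n₁₃, n₂₃⟩ := two_lt_card_iff.1 hlt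
  rw [mem_filter] at m₁ m₂ m₃
  obtain ⟨p, q, r, hpq, hpr, hqr, ha⟩ := card_eq_three.1 (m₁.2 ▸ (ht B₁ m₁.1).1)
  have hmem : ∀ B, B ∈ 𝒦 → t B = a → ∀ x ∈ a, Adjs G {x} B := by
    intro B hB hta x hx
    obtain ⟨-, v, hv, hxv⟩ := (ht B hB).2 (mem_coe.2 (hta ▸ hx))
    exact ⟨x, rfl, v, hv, hxv⟩
  have hd : ∀ B, B ∈ 𝒦 → ∀ x ∈ a, Disjoint ({x} : Set V) B := by
    intro B hB x hx
    refine (hHB B hB).mono_left ?_
    rw [Set.singleton_subset_iff]
    exact seen_sub H B₁ ((ht B₁ m₁.1).2 (mem_coe.2 (m₁.2 ▸ hx)))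
  have hp : p ∈ a := by rw [ha]; simp
  have hq : q ∈ a := by rw [ha]; simp
  have hr : r ∈ a := by rw [ha]; simp
  have hs : ∀ {x y : V}, x ≠ y → Disjoint ({x} : Set V) {y} := fun h =>
    Set.disjoint_singleton.2 h
  exact h3 (mkK33 (cn_sing G p) (cn_sing G q) (cn_sing G r) (hconn _ m₁.1) (hconn _ m₂.1)
    (hconn _ m₃.1) (hs hpq) (hs hpr) (hs hqr) (hdis _ m₁.1 _ m₂.1 n₁₂) (hdis _ m₁.1 _ m₃.1 n₁₃)
    (hdis _ m₂.1 _ m₃.1 n₂₃) (hd _ m₁.1 p hp) (hd _ m₂.1 p hp) (hd _ m₃.1 p hp)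
    (hd _ m₁.1 q hq) (hd _ m₂.1 q hq) (hd _ m₃.1 q hq) (hd _ m₁.1 r hr) (hd _ m₂.1 r hr)
    (hd _ m₃.1 r hr) (hmem _ m₁.1 m₁.2 p hp) (hmem _ m₂.1 m₂.2 p hp) (hmem _ m₃.1 m₃.2 p hp)
    (hmem _ m₁.1 m₁.2 q hq) (hmem _ m₂.1 m₂.2 q hq) (hmem _ m₃.1 m₃.2 q hq)
    (hmem _ m₁.1 m₁.2 r hr) (hmem _ m₂.1 m₂.2 r hr) (hmem _ m₃.1 m₃.2 r hr))

/-- A set next to the two vertices joins them outside a disjoint set. -/
lemma join_outside {K K' : Set V} (hK' : Conn G K') (hd : Disjoint K' K) {u v : V} (hu : u ∉ K)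
    (hv : v ∉ K) {a b : V} (ha : a ∈ K') (hb : b ∈ K') (hua : G.Adj u a) (hvb : G.Adj v b) :
    (res G Kᶜ).Reachable u v := by
  have hsub : K' ⊆ Kᶜ := fun x hx hxK => Set.disjoint_left.1 hd hx hxK
  have h1 : (res G Kᶜ).Adj u a := ⟨hua, hu, hsub ha⟩
  have h2 : (res G Kᶜ).Adj b v := ⟨hvb.symm, hsub hb, hv⟩
  exact h1.reachable.trans (((hK' a ha b hb).mono (res_mono hsub)).trans h2.reachable)

/-- Only few disjoint connected sets see two vertices which they separate. -/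
lemma card_bad2 [Fintype V] (𝒦 : Finset (Set V))
    (hconn : ∀ B ∈ 𝒦, Conn G B) (hdis : ∀ B ∈ 𝒦, ∀ B' ∈ 𝒦, B ≠ B' → Disjoint B B') {H : Set V}
    (hHB : ∀ B ∈ 𝒦, Disjoint H B) {h : ℕ} (hh : H.ncard ≤ h)
    (hbad : ∀ B ∈ 𝒦, ∃ u ∈ seen G H B, ∃ v ∈ seen G H B, ¬(res G Bᶜ).Reachable u v) :
    𝒦.card ≤ 2 ^ h := by
  have hle : (H.toFinset.powerset).card ≤ 2 ^ h := by
    rw [card_powerset, ← Set.ncard_eq_toFinset_card']
    exact Nat.pow_le_pow_right (by norm_num) hh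
  refine le_trans (card_le_card_of_injOn (fun B => (seen G H B).toFinset) ?_ ?_) hle
  · intro B _
    refine mem_coe.2 (mem_powerset.2 ?_)
    exact Set.toFinset_mono (seen_sub H B)
  · intro B hB B' hB' hEq
    have hs : seen G H B = seen G H B' := by
      have := congrArg (fun s : Finset V => (s : Set V)) hEq
      simpa using this
    by_contra hne
    obtain ⟨u, hu, v, hv, huv⟩ := hbad B hB
    have hu' := hu
    have hv' := hv
    rw [hs] at hu' hv'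
    obtain ⟨huH, a, ha, hua⟩ := hu'
    obtain ⟨hvH, b, hb, hvb⟩ := hv'
    exact huv (join_outside (hconn B' hB') (hdis B' hB' B hB (Ne.symm hne))
      (Set.disjoint_left.1 (hHB B hB) huH) (Set.disjoint_left.1 (hHB B hB) hvH) ha hb hua hvb)

/-- A small set which meets all bad connected sets of bounded order. -/
theorem bad_core [Fintype V] (h3 : ¬HasK3Minor 3 G) {H U : Set V} (hHU : Disjoint H U) {h S : ℕ}
    (hh : H.ncard ≤ h) : ∃ Y ⊆ U, Y.ncard ≤ 3 * 2 ^ h * S ∧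
      ∀ K ⊆ U, Conn G K → K.Nonempty → K.ncard ≤ S → ¬Nice G H K → ¬Disjoint K Y := by
  let bad : Set V → Prop := fun K => K ⊆ U ∧ Conn G K ∧ K.Nonempty ∧ K.ncard ≤ S ∧ ¬Nice G H K
  let P : Finset (Set V) → Prop := fun 𝒦 => (∀ K ∈ 𝒦, bad K) ∧
    ∀ B ∈ 𝒦, ∀ B' ∈ 𝒦, B ≠ B' → Disjoint B B'
  have hP0 : P ∅ := ⟨fun K hK => absurd hK (notMem_empty K), fun K hK => absurd hK (notMem_empty K)⟩
  obtain ⟨𝒦, h𝒦, hmax⟩ := exists_max_image (univ.filter P) card ⟨∅, mem_filter.2 ⟨mem_univ _, hP0⟩⟩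
  obtain ⟨hb, hdis⟩ := (mem_filter.1 h𝒦).2
  have hHB : ∀ B ∈ 𝒦, Disjoint H B := fun B hB => hHU.mono_right (hb B hB).1
  have hc3 : (𝒦.filter fun B => 3 ≤ (seen G H B).ncard).card ≤ 2 * 2 ^ h := by
    refine card_bad3 h3 _ ?_ ?_ (H := H) ?_ hh ?_
    · exact fun B hB => ⟨(hb B (mem_filter.1 hB).1).2.1, (hb B (mem_filter.1 hB).1).2.2.1⟩
    · exact fun B hB B' hB' => hdis B (mem_filter.1 hB).1 B' (mem_filter.1 hB').1
    · exact fun B hB => hHB B (mem_filter.1 hB).1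
    · exact fun B hB => (mem_filter.1 hB).2
  have hc2 : (𝒦.filter fun B => ¬3 ≤ (seen G H B).ncard).card ≤ 2 ^ h := by
    refine card_bad2 (G := G) _ ?_ ?_ (H := H) ?_ hh ?_
    · exact fun B hB => (hb B (mem_filter.1 hB).1).2.1
    · exact fun B hB B' hB' => hdis B (mem_filter.1 hB).1 B' (mem_filter.1 hB').1
    · exact fun B hB => hHB B (mem_filter.1 hB).1
    · intro B hB
      obtain ⟨hB, hlt⟩ := mem_filter.1 hB
      have hn := (hb B hB).2.2.2.2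
      by_contra hcon
      push Not at hcon
      exact hn ⟨by omega, hcon⟩
  have hcard : 𝒦.card ≤ 3 * 2 ^ h := by
    have := card_filter_add_card_filter_not (s := 𝒦) (fun B => 3 ≤ (seen G H B).ncard)
    omega
  refine ⟨⋃ B ∈ 𝒦, B, ?_, ?_, ?_⟩
  · intro x hx
    obtain ⟨B, hB, hx⟩ := Set.mem_iUnion₂.1 hx
    exact (hb B hB).1 hx
  · refine (ncard_biUnion_le' 𝒦 (fun B => B) fun B hB => (hb B hB).2.2.2.1).trans ?_
    exact Nat.mul_le_mul_right S hcard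
  · intro K hKU hKc hKn hKS hKbad hdisj
    have hnot : K ∉ 𝒦 := by
      intro hK
      obtain ⟨x, hx⟩ := hKn
      exact Set.disjoint_left.1 hdisj hx (Set.mem_iUnion₂.2 ⟨K, hK, hx⟩)
    have hKB : ∀ B ∈ 𝒦, Disjoint K B := fun B hB => hdisj.mono_right fun x hx =>
      Set.mem_iUnion₂.2 ⟨B, hB, hx⟩
    have hins : P (insert K 𝒦) := by
      refine ⟨?_, ?_⟩
      · intro B hB
        rcases mem_insert.1 hB with rfl | hB
        · exact ⟨hKU, hKc, hKn, hKS, hKbad⟩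
        · exact hb B hB
      · intro B hB B' hB' hne
        rcases mem_insert.1 hB with h1 | h1
        · rcases mem_insert.1 hB' with h2 | h2
          · exact absurd (h1.trans h2.symm) hne
          · rw [h1]
            exact hKB B' h2
        · rcases mem_insert.1 hB' with h2 | h2
          · rw [h2]
            exact (hKB B h1).symm
          · exact hdis B h1 B' h2 hne
    have h1 := hmax (insert K 𝒦) (mem_filter.2 ⟨mem_univ _, hins⟩)
    rw [card_insert_of_notMem hnot] at h1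
    omega

end Hub

end BDP
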