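import Pool.Agent.Work.MP_0890ba_co.BD.Colour

/-!
# Multiple list colouring with lists of different sizes from local fragmentation schemes

As in `Colour`, but the class of the fixed colouring which is used in a component may be chosen
with a distribution which depends on the component, and the sizes of the lists may vary.
-/

set_option linter.unusedSectionVars false

namespace BDP

namespace Far

open Finset Classical

section event

variable {V : Type} [Fintype V] [DecidableEq V] [Nonempty V] {A : Type} [Fintype A]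
  {B : Type} [Fintype B]

/-- The random independent set of one colour. -/
def Hit (G : SimpleGraph V) (X : (V → A) → Set V) (Φ : Set V → V → Finset B) (T : Set V)
    (η : V → A × B) (v : V) : Prop :=
  v ∈ T ∧ v ∉ X (fun w => (η w).1) ∧
    (η (Col.lead G (T \ X (fun w => (η w).1)) v)).2 ∈
      Φ (Col.cmp G (T \ X (fun w => (η w).1)) v) v

lemma hit_indep {G : SimpleGraph V} {X : (V → A) → Set V} {Φ : Set V → V → Finset B} {T : Set V}
    (hΦ : ∀ K u v, G.Adj u v → Disjoint (Φ K u) (Φ K v)) {η : V → A × B} {u v : V}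
    (huv : G.Adj u v) (hu : Hit G X Φ T η u) (hv : Hit G X Φ T η v) : False := by
  have h1 : (res G (T \ X (fun w => (η w).1))).Adj u v := ⟨huv, ⟨hu.1, hu.2.1⟩, ⟨hv.1, hv.2.1⟩⟩
  have h0 : Col.cmp G (T \ X (fun w => (η w).1)) u = Col.cmp G (T \ X (fun w => (η w).1)) v :=
    Col.cmp_congr (SimpleGraph.Adj.reachable h1)
  have h2 : Col.lead G (T \ X (fun w => (η w).1)) u =
      Col.lead G (T \ X (fun w => (η w).1)) v := by
    unfold Col.lead
    rw [h0]
  have h3 := hu.2.2
  rw [h2, h0] at h3
  exact (Finset.disjoint_left.1 (hΦ _ u v huv)) h3 hv.2.2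

lemma hit_local {G : SimpleGraph V} {δ : ℝ} {S ρ : ℕ} {X : (V → A) → Set V}
    (hX : IsScheme G A Set.univ δ S ρ X) {Φ : Set V → V → Finset B} {T : Set V}
    {η η' : V → A × B} {v : V} (h : ∀ w, Near G (S + ρ) v w → η w = η' w)
    (hv : Hit G X Φ T η v) : Hit G X Φ T η' v := by
  obtain ⟨hvT, hvX, hvφ⟩ := hv
  have hXX : ∀ w, Near G S v w → (w ∈ X (fun u => (η u).1) ↔ w ∈ X (fun u => (η' u).1)) := by
    intro w hw
    constructor
    · exact hX.loc w _ _ fun u hu => by
        rw [h u (Col.near_trans hw hu)]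
    · exact hX.loc w _ _ fun u hu => by
        rw [h u (Col.near_trans hw hu)]
  set W : Set V := T \ X (fun w => (η w).1) with hW
  set W' : Set V := T \ X (fun w => (η' w).1) with hW'
  have hvW : v ∈ W := ⟨hvT, hvX⟩
  have hWW : ∀ w, Near G S v w → (w ∈ W ↔ w ∈ W') := by
    intro w hw
    rw [hW, hW', Set.mem_sdiff, Set.mem_sdiff, hXX w hw]
  have hS : (Col.cmp G W v).ncard ≤ S := by
    apply hX.frag (fun w => (η w).1) _ (Col.conn_cmp G W v) (Set.subset_univ _)
    rw [Set.disjoint_left]
    intro w hw
    exact (Col.cmp_subset hvW hw).2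
  have hnear : ∀ w ∈ Col.cmp G W v, ∃ k, k + 1 ≤ S ∧ Near G k v w := by
    intro w hw
    obtain ⟨p, hp⟩ := Col.near_of_cmp hw
    exact ⟨p.length, hp.trans hS, p, le_rfl⟩
  have hnear' : ∀ w ∈ Col.cmp G W v, Near G S v w := by
    intro w hw
    obtain ⟨k, hk, hk'⟩ := hnear w hw
    exact Col.near_mono (by omega) hk'
  have hcmp : Col.cmp G W v = Col.cmp G W' v := by
    apply Set.Subset.antisymm
    · have h1 : ∀ {a b : V} (p : (res G W).Walk a b), a ∈ Col.cmp G W v →
          (res G W').Reachable a b := by
        intro a b p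
        induction p with
        | nil => intro _; exact SimpleGraph.Reachable.refl _
        | @cons x y z hxy p ih =>
          intro hx
          have hy : y ∈ Col.cmp G W v :=
            SimpleGraph.Reachable.trans hx (SimpleGraph.Adj.reachable hxy)
          have h2 : (res G W').Adj x y :=
            ⟨hxy.1, (hWW x (hnear' x hx)).1 hxy.2.1, (hWW y (hnear' y hy)).1 hxy.2.2⟩
          exact (SimpleGraph.Adj.reachable h2).trans (ih hy)
      rintro w ⟨p⟩
      exact h1 p (Col.self_mem_cmp G W v)
    · have h1 : ∀ {a b : V} (p : (res G W').Walk a b), a ∈ Col.cmp G W v →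
          b ∈ Col.cmp G W v := by
        intro a b p
        induction p with
        | nil => intro h; exact h
        | @cons x y z hxy p ih =>
          intro hx
          apply ih
          obtain ⟨k, hk, hk'⟩ := hnear x hx
          have hy : Near G S v y :=
            Col.near_mono hk (Col.near_trans hk' (Col.near_adj hxy.1))
          have h2 : (res G W).Adj x y :=
            ⟨hxy.1, (hWW x (hnear' x hx)).2 hxy.2.1, (hWW y hy).2 hxy.2.2⟩
          exact SimpleGraph.Reachable.trans hx (SimpleGraph.Adj.reachable h2)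
      rintro w ⟨p⟩
      exact h1 p (Col.self_mem_cmp G W v)
  have hlead : Col.lead G W v = Col.lead G W' v := by
    unfold Col.lead
    rw [hcmp]
  have hvv : Near G S v v := ⟨SimpleGraph.Walk.nil, by simp⟩
  refine ⟨hvT, fun h' => hvX ((hXX v hvv).2 h'), ?_⟩
  rw [← hlead, ← hcmp, ← h _ (Col.near_mono (by omega) (hnear' _ (Col.lead_mem G W v)))]
  exact hvφ

/-- The number of maps with a prescribed range of one value. -/
lemma card_value (l : V) (F : Finset B) :
    (univ.filter fun κ : V → B => κ l ∈ F).card * Fintype.card B =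
      F.card * Fintype.card (V → B) := by
  have h1 : (univ.filter fun κ : V → B => κ l ∈ F) =
      Fintype.piFinset fun i => if i = l then F else univ := by
    ext κ
    simp only [mem_filter, mem_univ, true_and, Fintype.mem_piFinset]
    constructor
    · intro h i
      by_cases hi : i = l
      · subst hi; simpa using h
      · simp [hi]
    · intro h
      simpa using h l
  rw [h1, Fintype.card_piFinset, ← mul_prod_erase univ _ (mem_univ l), if_pos rfl,
    Fintype.card_fun, ← Finset.card_univ (α := V), ← prod_const,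
    ← mul_prod_erase (univ : Finset V) (fun _ => Fintype.card B) (mem_univ l)]
  have h2 : ∏ i ∈ univ.erase l, (if i = l then F else univ : Finset B).card =
      ∏ i ∈ univ.erase l, Fintype.card B := by
    apply prod_congr rfl
    intro i hi
    rw [if_neg (ne_of_mem_erase hi), card_univ]
  rw [h2]
  ring

/-- Every vertex of `T` is hit with probability at least `(1 - δ) N / |B|`. -/
lemma card_hit {G : SimpleGraph V} {δ : ℝ} {S ρ : ℕ} {X : (V → A) → Set V}
    (hX : IsScheme G A Set.univ δ S ρ X) {Φ : Set V → V → Finset B} {N : ℕ} {T : Set V} {v : V}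
    (hB : 0 < Fintype.card B)
    (hΦ : ∀ K, v ∈ K → Conn G K → K.ncard ≤ S → N ≤ (Φ K v).card) (hv : v ∈ T) :
    ((1 - δ) * N / Fintype.card B) * Fintype.card (V → A × B) ≤
      ((univ.filter fun η : V → A × B => Hit G X Φ T η v).card : ℝ) := by
  have hM' : (0 : ℝ) < Fintype.card B := by exact_mod_cast hB
  have h1 : (univ.filter fun η : V → A × B => Hit G X Φ T η v).card =
      ((univ.filter fun α : V → A => v ∉ X α).sigma fun α =>
        univ.filter fun κ : V → B =>
          κ (Col.lead G (T \ X α) v) ∈ Φ (Col.cmp G (T \ X α) v) v).card := by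
    refine card_bij' (fun η _ => ⟨fun w => (η w).1, fun w => (η w).2⟩)
      (fun q _ => fun w => (q.1 w, q.2 w)) ?_ ?_ ?_ ?_
    · intro η hη
      have h := (mem_filter.1 hη).2
      rw [mem_sigma, mem_filter, mem_filter]
      exact ⟨⟨mem_univ _, h.2.1⟩, mem_univ _, h.2.2⟩
    · intro q hq
      rw [mem_sigma, mem_filter, mem_filter] at hq
      rw [mem_filter]
      exact ⟨mem_univ _, hv, hq.1.2, hq.2.2⟩
    · intro η _
      rfl
    · intro q _
      rfl
  have h2 : (univ.filter fun α : V → A => v ∉ X α).card * (N * Fintype.card (V → B)) ≤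
      (univ.filter fun η : V → A × B => Hit G X Φ T η v).card * Fintype.card B := by
    rw [h1, card_sigma, sum_mul, ← smul_eq_mul, ← sum_const]
    apply sum_le_sum
    intro α hα
    rw [card_value]
    apply Nat.mul_le_mul_right
    apply hΦ _ (Col.self_mem_cmp G _ v) (Col.conn_cmp G _ v)
    apply hX.frag α _ (Col.conn_cmp G _ v) (Set.subset_univ _)
    rw [Set.disjoint_left]
    intro w hw
    exact (Col.cmp_subset (show v ∈ T \ X α from ⟨hv, (mem_filter.1 hα).2⟩) hw).2
  have h3 : (1 - δ) * Fintype.card (V → A) ≤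
      ((univ.filter fun α : V → A => v ∉ X α).card : ℝ) := by
    have h4 := hX.prob v
    have h5 : ({ω : V → A | v ∈ X ω} : Set (V → A)) =
        ((univ.filter fun α : V → A => v ∈ X α : Finset (V → A)) : Set (V → A)) := by
      ext ω; simp
    rw [h5, Set.ncard_coe_finset] at h4
    have h6 := card_filter_add_card_filter_not (s := (univ : Finset (V → A)))
      (fun α => v ∈ X α)
    rw [card_univ] at h6
    have h7 : ((univ.filter fun α : V → A => v ∈ X α).card : ℝ) +
        ((univ.filter fun α : V → A => v ∉ X α).card : ℝ) = Fintype.card (V → A) := by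
      exact_mod_cast h6
    linarith
  have h8 : ((univ.filter fun α : V → A => v ∉ X α).card : ℝ) * (N * Fintype.card (V → B)) ≤
      ((univ.filter fun η : V → A × B => Hit G X Φ T η v).card : ℝ) * Fintype.card B := by
    exact_mod_cast h2
  have h9 : (Fintype.card (V → A × B) : ℝ) =
      Fintype.card (V → A) * Fintype.card (V → B) := by
    have : Fintype.card (V → A × B) = Fintype.card (V → A) * Fintype.card (V → B) := by
      rw [Fintype.card_fun, Fintype.card_fun, Fintype.card_fun, Fintype.card_prod, mul_pow]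
    exact_mod_cast this
  rw [h9, div_mul_eq_mul_div, div_le_iff₀ hM']
  refine le_trans ?_ h8
  have h10 : (0 : ℝ) ≤ N * Fintype.card (V → B) := by positivity
  calc (1 - δ) * N * (Fintype.card (V → A) * Fintype.card (V → B)) =
        ((1 - δ) * Fintype.card (V → A)) * (N * Fintype.card (V → B)) := by ring
    _ ≤ _ := mul_le_mul_of_nonneg_right h3 h10

end event

/-- Multiple list colouring from local fragmentation schemes, general form. -/
theorem choosable_gen {V : Type} [Fintype V] [DecidableEq V] {G : SimpleGraph V} {Δ : ℕ}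
    (hΔ : ∀ v, (G.neighborSet v).ncard ≤ Δ) {A : Type} [Fintype A] [Nonempty A] {δ : ℝ}
    {S ρ : ℕ} {X : (V → A) → Set V} (hX : IsScheme G A Set.univ δ S ρ X) {B : Type} [Fintype B]
    [Nonempty B] {Φ : Set V → V → Finset B}
    (hΦ : ∀ K u v, G.Adj u v → Disjoint (Φ K u) (Φ K v)) {N : V → ℕ}
    (hN : ∀ v K, v ∈ K → Conn G K → K.ncard ≤ S → N v ≤ (Φ K v).card)
    {Z : Type} {L : V → Finset Z} {b : V → ℕ} {x q : ℝ} (hx0 : 0 < x) (hx1 : x < 1)
    (hq0 : 0 ≤ q)
    (hq : ∀ v, b v ≠ 0 →
      (1 - (1 - x) * ((1 - δ) * N v / Fintype.card B)) ^ (L v).card / x ^ (b v) ≤ q)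
    (h4 : 4 * q * (Δ + 1 : ℝ) ^ (2 * (S + ρ)) ≤ 1) :
    ∃ T : V → Finset Z, (∀ v, T v ⊆ L v ∧ (T v).card = b v) ∧
      ∀ u v, G.Adj u v → Disjoint (T u) (T v) := by
  rcases isEmpty_or_nonempty V with hV | hV
  · exact ⟨fun _ => ∅, fun v => (hV.false v).elim, fun v => (hV.false v).elim⟩
  have hB : 0 < Fintype.card B := Fintype.card_pos
  let U : Finset Z := univ.biUnion L
  have hU : ∀ v, ∀ c ∈ L v, c ∈ U := fun v c hc => mem_biUnion.2 ⟨v, mem_univ _, hc⟩
  let Lv : V → Finset U := fun v => (L v).subtype (· ∈ U)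
  have hLv : ∀ v, (Lv v).card = (L v).card := by
    intro v
    change ((L v).subtype (· ∈ U)).card = _
    rw [card_subtype, filter_true_of_mem (hU v)]
  let H : U → (V → A × B) → V → Prop := fun c η v =>
    Hit G X Φ {w | (c : Z) ∈ L w} η v
  let Bad : V → (V → U → A × B) → Prop := fun v ω =>
    ((Lv v).filter fun c => H c (fun w => ω w c) v).card < b v
  have hprob : ∀ v, ((univ.filter (Bad v)).card : ℝ) ≤ q * Fintype.card (V → U → A × B) := by
    intro v
    by_cases hb : b v = 0
    · have h0 : univ.filter (Bad v) = ∅ := by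
        rw [filter_eq_empty_iff]
        intro ω _ h
        simp only [Bad, hb] at h
        exact Nat.not_lt_zero _ h
      rw [h0, card_empty]
      push_cast
      positivity
    · refine (Col.card_few (Lv v) (fun c η => H c η v) (hLv v) hx0 hx1 ?_).trans
        (mul_le_mul_of_nonneg_right (hq v hb) (Nat.cast_nonneg _))
      intro c hc
      exact card_hit hX hB (hN v) (mem_subtype.1 hc)
  let Sv : V → Finset V := fun v => univ.filter fun w => Near G (S + ρ) v w
  obtain ⟨ω, hω⟩ := MP433A.lll Bad Sv
    (by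
      intro v w w' h hb
      have h1 : ((Lv v).filter fun c => H c (fun u => w' u c) v) ⊆
          (Lv v).filter fun c => H c (fun u => w u c) v := by
        intro c hc
        rw [mem_filter] at hc ⊢
        refine ⟨hc.1, hit_local hX (η := fun u => w' u c) ?_ hc.2⟩
        intro u hu
        have h2 := h u (mem_filter.2 ⟨mem_univ _, hu⟩)
        change w' u c = w u c
        rw [h2]
      exact (card_le_card h1).trans_lt hb)
    q hq0 hprob
    ((Δ + 1) ^ (2 * (S + ρ))) (Nat.one_le_pow _ _ (Nat.succ_pos _))
    (by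
      intro v
      refine le_trans (card_le_card ?_) (Col.card_near hΔ v (2 * (S + ρ)))
      intro v' hv'
      rw [mem_filter] at hv' ⊢
      refine ⟨mem_univ _, ?_⟩
      have h1 := hv'.2
      rw [not_disjoint_iff] at h1
      obtain ⟨w, h2, h3⟩ := h1
      have h4 := Col.near_trans (mem_filter.1 h2).2 (Col.near_symm (mem_filter.1 h3).2)
      rwa [← two_mul] at h4)
    (by
      push_cast
      exact h4)
  have hT : ∀ v, ∃ t ⊆ (Lv v).filter (fun c => H c (fun w => ω w c) v), t.card = b v := by
    intro v
    exact exists_subset_card_eq (not_lt.1 (hω v))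
  choose t ht1 ht2 using hT
  refine ⟨fun v => (t v).image Subtype.val, fun v => ⟨?_, ?_⟩, ?_⟩
  · intro c hc
    obtain ⟨c', hc', rfl⟩ := mem_image.1 hc
    exact mem_subtype.1 (mem_filter.1 (ht1 v hc')).1
  · rw [card_image_of_injective _ Subtype.val_injective, ht2]
  · intro u v huv
    rw [disjoint_left]
    intro c hcu hcv
    obtain ⟨c1, hc1, rfl⟩ := mem_image.1 hcu
    obtain ⟨c2, hc2, h12⟩ := mem_image.1 hcv
    have h13 : c2 = c1 := Subtype.ext h12
    subst h13
    exact hit_indep hΦ huv (mem_filter.1 (ht1 u hc1)).2 (mem_filter.1 (ht1 v hc2)).2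

end Far

end BDP
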