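import Pool.Agent.Work.MP_0890ba_co.BD.Bad
import Pool.Agent.Work.MP_0890ba_co.BD.Gen

/-!
# Balls around a set
-/

set_option linter.unusedSectionVars false

namespace BDP

namespace Hub

open Finset Classical Pool.Agent.Work.MP_0890ba_co

variable {V : Type} {G : SimpleGraph V}

/-- The vertices at distance at most `r` from `Y` in the graph restricted to `U`. -/
def ball (G : SimpleGraph V) (U Y : Set V) (r : ℕ) : Set V :=
  {v | v ∈ U ∧ ∃ y ∈ Y, Near (res G U) r y v}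

lemma ball_sub {U Y : Set V} {r : ℕ} : ball G U Y r ⊆ U := fun _ hv => hv.1

lemma ball_mono {U Y : Set V} {r r' : ℕ} (h : r ≤ r') : ball G U Y r ⊆ ball G U Y r' := by
  rintro v ⟨hv, y, hy, hn⟩
  exact ⟨hv, y, hy, hn.mono h⟩

lemma sub_ball {U Y : Set V} (hY : Y ⊆ U) {r : ℕ} : Y ⊆ ball G U Y r :=
  fun y hy => ⟨hY hy, y, hy, (Near.refl _ 0 y).mono (Nat.zero_le r)⟩

lemma ball_adj {U Y : Set V} {r : ℕ} {u v : V} (hu : u ∈ ball G U Y r) (hv : v ∈ U)
    (h : G.Adj u v) : v ∈ ball G U Y (r + 1) := by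
  obtain ⟨huU, y, hy, hn⟩ := hu
  exact ⟨hv, y, hy, hn.trans (Near.of_adj ⟨h, huU, hv⟩)⟩

lemma ball_card [Fintype V] {U Y : Set V} {D n : ℕ}
    (hD : ∀ v, ((res G U).neighborSet v).ncard ≤ D) (hn : Y.ncard ≤ n) (r : ℕ) :
    (ball G U Y r).ncard ≤ n * (D + 1) ^ r := by
  have h1 : ball G U Y r ⊆ ⋃ y ∈ Y.toFinset, {v | Near (res G U) r y v} := by
    rintro v ⟨-, y, hy, hn⟩
    exact Set.mem_iUnion₂.2 ⟨y, Set.mem_toFinset.2 hy, hn⟩
  refine (Set.ncard_le_ncard h1 (Set.toFinite _)).trans ?_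
  refine (ncard_biUnion_le' Y.toFinset (fun y => {v | Near (res G U) r y v})
    (m := (D + 1) ^ r) fun y _ => ?_).trans ?_
  · exact ncard_near_le hD r y
  · rw [← Set.ncard_eq_toFinset_card']
    exact Nat.mul_le_mul_right _ hn

lemma ball_conn [Fintype V] {U Y K : Set V} (hK : Conn (res G U) K) (hKU : K ⊆ U) {S r : ℕ}
    (hS : K.ncard ≤ S) (h : ¬Disjoint K (ball G U Y r)) : K ⊆ ball G U Y (r + S) := by
  obtain ⟨x, hx, -, y, hy, hn⟩ := Set.not_disjoint_iff.1 h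
  intro v hv
  exact ⟨hKU hv, y, hy, hn.trans (hK.near (Set.toFinite K) hS hx hv)⟩

end Hub

end BDP
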