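import Pool.Agent.Work.MP_0890ba_co.BD.Defs

/-!
# Distances, connected sets and breadth first layerings
-/

set_option linter.unusedSectionVars false

namespace BDP

open Finset Pool.Agent.Work.MP_0890ba_co

variable {V : Type} {G H : SimpleGraph V}

/-! ### Restrictions -/

theorem res_adj {W : Set V} {u v : V} : (res G W).Adj u v ↔ G.Adj u v ∧ u ∈ W ∧ v ∈ W := Iff.rfl

theorem res_le (G : SimpleGraph V) (W : Set V) : res G W ≤ G := fun _ _ h => h.1

theorem res_mono {W W' : Set V} (h : W ⊆ W') : res G W ≤ res G W' :=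
  fun _ _ h' => ⟨h'.1, h h'.2.1, h h'.2.2⟩

theorem res_res {W W' : Set V} (h : W' ⊆ W) : res (res G W) W' = res G W' := by
  ext u v
  rw [res_adj, res_adj, res_adj]
  constructor
  · rintro ⟨⟨h1, _, _⟩, h2, h3⟩
    exact ⟨h1, h2, h3⟩
  · rintro ⟨h1, h2, h3⟩
    exact ⟨⟨h1, h h2, h h3⟩, h2, h3⟩

theorem mem_of_reach {W : Set V} {u v : V} (h : (res G W).Reachable u v) (hu : u ∈ W) : v ∈ W := by
  obtain ⟨p⟩ := h
  induction p with
  | nil => exact hu
  | cons hadj p ih => exact ih hadj.2.2

theorem reach_mono (h : G ≤ H) {u v : V} (hr : G.Reachable u v) : H.Reachable u v :=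
  hr.mono h

/-! ### Near -/

theorem Near.refl (G : SimpleGraph V) (ρ : ℕ) (v : V) : Near G ρ v v := ⟨.nil, by simp⟩

theorem Near.symm {ρ : ℕ} {v w : V} (h : Near G ρ v w) : Near G ρ w v := by
  obtain ⟨p, hp⟩ := h
  exact ⟨p.reverse, by simpa using hp⟩

theorem Near.trans {ρ σ : ℕ} {u v w : V} (h : Near G ρ u v) (h' : Near G σ v w) :
    Near G (ρ + σ) u w := by
  obtain ⟨p, hp⟩ := h
  obtain ⟨q, hq⟩ := h'
  exact ⟨p.append q, by rw [SimpleGraph.Walk.length_append]; omega⟩

theorem Near.mono {ρ σ : ℕ} {u v : V} (h : Near G ρ u v) (hρ : ρ ≤ σ) : Near G σ u v := by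
  obtain ⟨p, hp⟩ := h
  exact ⟨p, hp.trans hρ⟩

theorem Near.of_le (h : G ≤ H) {ρ : ℕ} {u v : V} (hn : Near G ρ u v) : Near H ρ u v := by
  obtain ⟨p, hp⟩ := hn
  exact ⟨p.mapLe h, by rw [SimpleGraph.Walk.length_mapLe]; exact hp⟩

theorem Near.of_adj {u v : V} (h : G.Adj u v) : Near G 1 u v := ⟨.cons h .nil, by simp⟩

theorem near_succ {ρ : ℕ} {u v : V} (h : Near G (ρ + 1) u v) :
    Near G ρ u v ∨ ∃ w, Near G ρ u w ∧ G.Adj w v := by
  obtain ⟨p, hp⟩ := h.symm
  cases p with
  | nil => exact Or.inl (Near.refl _ _ _)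
  | cons hadj p =>
    right
    rw [SimpleGraph.Walk.length_cons] at hp
    exact ⟨_, (Near.symm ⟨p, by omega⟩), hadj.symm⟩

/-- The vertices at distance at most `ρ`. -/
noncomputable def ballF [Fintype V] (G : SimpleGraph V) (ρ : ℕ) (v : V) : Finset V :=
  @Finset.filter V (fun w => Near G ρ v w) (Classical.decPred _) univ

theorem mem_ballF [Fintype V] {ρ : ℕ} {v w : V} : w ∈ ballF G ρ v ↔ Near G ρ v w := by
  unfold ballF
  refine (@Finset.mem_filter V (fun w => Near G ρ v w) (Classical.decPred _) univ w).trans ?_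
  exact ⟨fun h => h.2, fun h => ⟨Finset.mem_univ _, h⟩⟩

theorem card_ballF_le [Fintype V] {Δ : ℕ} (hΔ : ∀ v, (G.neighborSet v).ncard ≤ Δ) (ρ : ℕ) (v : V) :
    (ballF G ρ v).card ≤ (Δ + 1) ^ ρ := by
  classical
  induction ρ with
  | zero =>
    have h : ballF G 0 v ⊆ {v} := by
      intro w hw
      rw [mem_ballF] at hw
      obtain ⟨p, hp⟩ := hw
      rw [Finset.mem_singleton]
      exact (SimpleGraph.Walk.eq_of_length_eq_zero (by omega : p.length = 0)).symm
    exact (Finset.card_le_card h).trans (by simp)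
  | succ ρ ih =>
    have h : ballF G (ρ + 1) v ⊆ (ballF G ρ v).biUnion
        fun w => insert w (Set.toFinite (G.neighborSet w)).toFinset := by
      intro w hw
      rw [mem_ballF] at hw
      rw [Finset.mem_biUnion]
      rcases near_succ hw with h1 | ⟨u, h1, h2⟩
      · exact ⟨w, mem_ballF.2 h1, Finset.mem_insert_self _ _⟩
      · refine ⟨u, mem_ballF.2 h1, Finset.mem_insert_of_mem ?_⟩
        rw [Set.Finite.mem_toFinset]
        exact h2
    refine (Finset.card_le_card h).trans ((Finset.card_biUnion_le_card_mul _ _ (Δ + 1) ?_).trans ?_)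
    · intro w _
      refine (Finset.card_insert_le _ _).trans ?_
      have := hΔ w
      rw [Set.ncard_eq_toFinset_card _ (Set.toFinite _)] at this
      omega
    · rw [pow_succ]
      exact Nat.mul_le_mul_right _ ih

theorem ncard_near_le [Finite V] {Δ : ℕ} (hΔ : ∀ v, (G.neighborSet v).ncard ≤ Δ) (ρ : ℕ) (v : V) :
    {w | Near G ρ v w}.ncard ≤ (Δ + 1) ^ ρ := by
  have := Fintype.ofFinite V
  have h : {w | Near G ρ v w} = (ballF G ρ v : Set V) := by
    ext w
    rw [Finset.mem_coe, mem_ballF]
    rfl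
  rw [h, Set.ncard_coe_finset]
  exact card_ballF_le hΔ ρ v

/-! ### Connected sets -/

theorem Conn.near {K : Set V} (hK : Conn G K) {S : ℕ} (hfin : K.Finite) (hS : K.ncard ≤ S) {x y : V}
    (hx : x ∈ K) (hy : y ∈ K) : Near G S x y := by
  classical
  obtain ⟨p, hp⟩ := (hK x hx y hy).exists_isPath
  refine ⟨p.mapLe (res_le G K), ?_⟩
  rw [SimpleGraph.Walk.length_mapLe]
  have hsub : ∀ (u v : V) (q : (res G K).Walk u v), u ∈ K → ∀ z ∈ q.support, z ∈ K := by
    intro u v q
    induction q with
    | nil =>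
      intro hu z hz
      rw [SimpleGraph.Walk.support_nil, List.mem_singleton] at hz
      rw [hz]
      exact hu
    | cons hadj q ih =>
      intro hu z hz
      rw [SimpleGraph.Walk.support_cons, List.mem_cons] at hz
      rcases hz with rfl | hz
      · exact hu
      · exact ih hadj.2.2 z hz
  have h1 : (p.support.toFinset : Set V) ⊆ K := by
    intro z hz
    rw [Finset.mem_coe, List.mem_toFinset] at hz
    exact hsub _ _ p hx z hz
  have h2 := Set.ncard_le_ncard h1 hfin
  rw [Set.ncard_coe_finset, List.toFinset_card_of_nodup hp.support_nodup,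
    SimpleGraph.Walk.length_support] at h2
  omega

theorem Conn.of_center {K : Set V} {c : V} (h : ∀ x ∈ K, (res G K).Reachable c x) : Conn G K :=
  fun x hx y hy => (h x hx).symm.trans (h y hy)

theorem Conn.connected {K : Set V} (hK : Conn G K) (hne : K.Nonempty) :
    (G.induce K).Connected := by
  have : Nonempty K := hne.to_subtype
  refine ⟨fun x y => ?_⟩
  have key : ∀ (u v : V) (_ : (res G K).Walk u v) (hu : u ∈ K) (hv : v ∈ K),
      (G.induce K).Reachable ⟨u, hu⟩ ⟨v, hv⟩ := by
    intro u v q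
    induction q with
    | nil => intro hu hv; exact SimpleGraph.Reachable.refl _
    | cons hadj q ih =>
      intro hu hv
      have h1 : (G.induce K).Adj ⟨_, hu⟩ ⟨_, hadj.2.2⟩ := hadj.1
      exact h1.reachable.trans (ih hadj.2.2 hv)
  obtain ⟨p⟩ := hK x.1 x.2 y.1 y.2
  exact key _ _ p x.2 y.2

theorem conn_of_connected {K : Set V} (hK : (G.induce K).Connected) : Conn G K := by
  intro x hx y hy
  obtain ⟨p⟩ := hK.preconnected ⟨x, hx⟩ ⟨y, hy⟩
  have key : ∀ (u v : K) (_ : (G.induce K).Walk u v), (res G K).Reachable u.1 v.1 := by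
    intro u v q
    induction q with
    | nil => exact SimpleGraph.Reachable.refl _
    | @cons a b c hadj q ih =>
      have h1 : (res G K).Adj a.1 b.1 := ⟨hadj, a.2, b.2⟩
      exact h1.reachable.trans ih
  exact key _ _ p

/-- The component of `k` in the restriction is connected. -/
theorem conn_comp (W : Set V) (k : V) : Conn G {w | (res G W).Reachable k w} := by
  refine Conn.of_center (c := k) ?_
  intro x hx
  obtain ⟨p⟩ := hx
  have key : ∀ (u v : V) (q : (res G W).Walk u v), (res G W).Reachable k u →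
      (res G {w | (res G W).Reachable k w}).Reachable u v := by
    intro u v q
    induction q with
    | nil => intro _; exact SimpleGraph.Reachable.refl _
    | @cons a b c hadj q ih =>
      intro ha
      have hb : (res G W).Reachable k b := ha.trans hadj.reachable
      have h1 : (res G {w | (res G W).Reachable k w}).Adj a b := ⟨hadj.1, ha, hb⟩
      exact h1.reachable.trans (ih hb)
  exact key _ _ p (SimpleGraph.Reachable.refl _)

/-- A connected subset of `W` lies in one component. -/
theorem Conn.subset_comp {K W : Set V} (hK : Conn G K) (hKW : K ⊆ W) {k : V} (hk : k ∈ K) :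
    K ⊆ {w | (res G W).Reachable k w} :=
  fun x hx => (hK k hk x hx).mono (res_mono hKW)

/-! ### Layerings -/

/-- The root of the component of `v`. -/
noncomputable def rt (G : SimpleGraph V) (v : V) : V := (G.connectedComponentMk v).out

theorem reach_rt (G : SimpleGraph V) (v : V) : G.Reachable (rt G v) v := by
  unfold rt
  exact SimpleGraph.ConnectedComponent.exact (Quot.out_eq _)

theorem rt_eq {u v : V} (h : G.Reachable u v) : rt G u = rt G v := by
  unfold rt
  rw [SimpleGraph.ConnectedComponent.sound h]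

/-- The level of `v`: the distance to the root of its component. -/
noncomputable def lev (G : SimpleGraph V) (v : V) : ℕ := G.dist (rt G v) v

theorem near_rt (G : SimpleGraph V) (v : V) : Near G (lev G v) (rt G v) v := by
  obtain ⟨p, hp⟩ := (reach_rt G v).exists_walk_length_eq_dist
  exact ⟨p, hp.le⟩

theorem lev_le_succ {u v : V} (h : G.Adj u v) : lev G v ≤ lev G u + 1 := by
  obtain ⟨p, hp⟩ := (reach_rt G u).exists_walk_length_eq_dist
  unfold lev
  rw [← rt_eq h.reachable]
  refine (SimpleGraph.dist_le (p.concat h)).trans ?_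
  rw [SimpleGraph.Walk.length_concat, hp]

theorem exists_par {v : V} (h : lev G v ≠ 0) : ∃ u, G.Adj v u ∧ lev G u + 1 = lev G v := by
  obtain ⟨p, hp⟩ := (reach_rt G v).exists_walk_length_eq_dist
  have key : ∀ (a b : V) (q : G.Walk a b), b = rt G a → q.length = lev G a → lev G a ≠ 0 →
      ∃ u, G.Adj a u ∧ lev G u + 1 = lev G a := by
    intro a b q hb hq ha
    cases q with
    | nil => exact absurd hq.symm ha
    | @cons _ u _ hadj q =>
      rw [SimpleGraph.Walk.length_cons] at hq
      refine ⟨u, hadj, ?_⟩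
      have h1 : lev G u ≤ q.length := by
        unfold lev
        rw [← rt_eq hadj.reachable, ← hb]
        refine (SimpleGraph.dist_le q.reverse).trans ?_
        rw [SimpleGraph.Walk.length_reverse]
      have h2 := lev_le_succ hadj.symm
      omega
  refine key v (rt G v) p.reverse rfl ?_ h
  rw [SimpleGraph.Walk.length_reverse, hp]
  rfl

open Classical in
/-- A neighbour of `v` in the level before (`v` itself on level `0`). -/
noncomputable def par (G : SimpleGraph V) (v : V) : V :=
  if h : lev G v ≠ 0 then (exists_par h).choose else v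

theorem par_adj {v : V} (h : lev G v ≠ 0) : G.Adj v (par G v) := by
  unfold par
  rw [dif_pos h]
  exact (exists_par h).choose_spec.1

theorem lev_par {v : V} (h : lev G v ≠ 0) : lev G (par G v) + 1 = lev G v := by
  unfold par
  rw [dif_pos h]
  exact (exists_par h).choose_spec.2

theorem lev_iter {v : V} {i : ℕ} (h : i ≤ lev G v) : lev G ((par G)^[i] v) + i = lev G v := by
  induction i with
  | zero => rfl
  | succ i ih =>
    have h1 := ih (by omega)
    rw [Function.iterate_succ_apply']
    have h2 := lev_par (G := G) (v := (par G)^[i] v) (by omega)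
    omega

theorem iter_adj {v : V} {i : ℕ} (h : i < lev G v) :
    G.Adj ((par G)^[i] v) ((par G)^[i + 1] v) := by
  rw [Function.iterate_succ_apply']
  have h1 := lev_iter h.le
  exact par_adj (by omega)

theorem reach_iter {v : V} {i : ℕ} (h : i ≤ lev G v) : G.Reachable v ((par G)^[i] v) := by
  induction i with
  | zero => exact SimpleGraph.Reachable.refl _
  | succ i ih =>
    have h1 : i < lev G v := h
    exact (ih h1.le).trans (iter_adj h1).reachable

/-- A part of the geodesic to the root, inside a set. -/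
theorem reach_iter_res {K : Set V} {v : V} {i j : ℕ} (hij : i ≤ j) (hj : j ≤ lev G v)
    (hK : ∀ t, i ≤ t → t ≤ j → (par G)^[t] v ∈ K) :
    (res G K).Reachable ((par G)^[i] v) ((par G)^[j] v) := by
  induction j with
  | zero =>
    obtain rfl : i = 0 := by omega
    exact SimpleGraph.Reachable.refl _
  | succ j ih =>
    rcases Nat.lt_or_ge i (j + 1) with h1 | h1
    · refine (ih (by omega) (by omega) (fun t h2 h3 => hK t h2 (by omega))).trans ?_
      have h3 : j < lev G v := hj
      have h2 : (res G K).Adj ((par G)^[j] v) ((par G)^[j + 1] v) :=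
        ⟨iter_adj h3, hK j (by omega) (by omega), hK (j + 1) (by omega) (by omega)⟩
      exact h2.reachable
    · obtain rfl : i = j + 1 := by omega
      exact SimpleGraph.Reachable.refl _

theorem near_iter {v : V} {i j : ℕ} (hij : i ≤ j) (hj : j ≤ lev G v) :
    Near G (j - i) ((par G)^[i] v) ((par G)^[j] v) := by
  induction j with
  | zero =>
    obtain rfl : i = 0 := by omega
    exact Near.refl _ _ _
  | succ j ih =>
    rcases Nat.lt_or_ge i (j + 1) with h1 | h1
    · have h3 : j < lev G v := hj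
      exact ((ih (by omega) (by omega)).trans (Near.of_adj (iter_adj h3))).mono (by omega)
    · obtain rfl : i = j + 1 := by omega
      exact Near.refl _ _ _

/-- The iterates end at the root. -/
theorem iter_lev (v : V) : (par G)^[lev G v] v = rt G v := by
  have h1 := lev_iter (G := G) (v := v) le_rfl
  have h3 := rt_eq (reach_iter (G := G) (v := v) le_rfl)
  have h4 : G.Reachable (rt G v) ((par G)^[lev G v] v) :=
    (reach_rt G v).trans (reach_iter le_rfl)
  have h2 : lev G ((par G)^[lev G v] v) = 0 := by omega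
  generalize (par G)^[lev G v] v = x at h2 h3 h4
  have h5 : G.dist (rt G v) x = 0 := by
    rw [h3]
    exact h2
  exact (h4.dist_eq_zero_iff.1 h5).symm

/-! ### Schemes -/

section Scheme

variable [Fintype V] [DecidableEq V] {A : Type} [Fintype A] {U : Set V} {δ : ℝ} {S ρ : ℕ}
  {X : (V → A) → Set V}

theorem IsScheme.mono_set (h : IsScheme G A U δ S ρ X) {U' : Set V} (hU : U' ⊆ U) :
    IsScheme G A U' δ S ρ X :=
  ⟨h.loc, h.prob, fun ω K h1 h2 h3 => h.frag ω K h1 (h2.trans hU) h3⟩

theorem IsScheme.mono (h : IsScheme G A U δ S ρ X) {δ' : ℝ} {S' ρ' : ℕ} (h1 : δ ≤ δ')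
    (h2 : S ≤ S') (h3 : ρ ≤ ρ') : IsScheme G A U δ' S' ρ' X :=
  ⟨fun v ω ω' h4 => h.loc v ω ω' fun w hw => h4 w (hw.mono h3),
    fun v => (h.prob v).trans (mul_le_mul_of_nonneg_right h1 (Nat.cast_nonneg _)),
    fun ω K h4 h5 h6 => (h.frag ω K h4 h5 h6).trans h2⟩

/-- The component of `v` in `T` without `X ω`. -/
def cmp (G : SimpleGraph V) (T : Set V) (v : V) : Set V := {w | (res G T).Reachable v w}

theorem mem_cmp_self (T : Set V) (v : V) : v ∈ cmp G T v := SimpleGraph.Reachable.refl _

theorem cmp_subset {T : Set V} {v : V} (hv : v ∈ T) : cmp G T v ⊆ T :=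
  fun _ hw => mem_of_reach hw hv

theorem conn_cmp (T : Set V) (v : V) : Conn G (cmp G T v) := conn_comp T v

theorem Conn.subset_cmp {K T : Set V} (hK : Conn G K) (hKT : K ⊆ T) {k : V} (hk : k ∈ K) :
    K ⊆ cmp G T k := hK.subset_comp hKT hk

theorem cmp_congr {T : Set V} {v w : V} (h : w ∈ cmp G T v) : cmp G T w = cmp G T v := by
  ext u
  exact ⟨fun h1 => SimpleGraph.Reachable.trans h h1,
    fun h1 => (SimpleGraph.Reachable.symm h).trans h1⟩

theorem cmp_adj {T : Set V} {v w : V} (hv : v ∈ T) (hw : w ∈ T) (h : G.Adj v w) :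
    cmp G T w = cmp G T v :=
  cmp_congr (show (res G T).Reachable v w from
    (show (res G T).Adj v w from ⟨h, hv, hw⟩).reachable)

theorem IsScheme.cmp_card (h : IsScheme G A U δ S ρ X) {T : Set V} (hT : T ⊆ U) {v : V}
    (ω : V → A) (hv : v ∈ T \ X ω) : (cmp G (T \ X ω) v).ncard ≤ S := by
  refine h.frag ω _ (conn_cmp _ _) ((cmp_subset hv).trans (Set.sdiff_subset.trans hT)) ?_
  exact Set.disjoint_left.2 fun w hw => (cmp_subset hv hw).2

theorem IsScheme.cmp_near (h : IsScheme G A U δ S ρ X) {T : Set V} (hT : T ⊆ U) {v : V}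
    (ω : V → A) (hv : v ∈ T \ X ω) {w : V} (hw : w ∈ cmp G (T \ X ω) v) : Near G S v w :=
  (conn_cmp _ _).near (Set.toFinite _) (h.cmp_card hT ω hv) (mem_cmp_self _ _) hw

theorem IsScheme.loc_iff (h : IsScheme G A U δ S ρ X) {v : V} {ω ω' : V → A}
    (hag : ∀ w, Near G ρ v w → ω w = ω' w) : v ∈ X ω ↔ v ∈ X ω' :=
  ⟨h.loc v ω ω' hag, h.loc v ω' ω fun w hw => (hag w hw).symm⟩

theorem IsScheme.cmp_sub (h : IsScheme G A U δ S ρ X) {T : Set V} (hT : T ⊆ U) {v : V}
    {ω ω' : V → A} (hv : v ∈ T \ X ω) (hag : ∀ w, Near G (S + ρ) v w → ω w = ω' w) :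
    cmp G (T \ X ω) v ⊆ cmp G (T \ X ω') v := by
  refine (conn_cmp _ _).subset_cmp ?_ (mem_cmp_self _ _)
  intro w hw
  have h1 := h.cmp_near hT ω hv hw
  have h2 := cmp_subset hv hw
  refine ⟨h2.1, fun h3 => h2.2 ?_⟩
  exact (h.loc_iff (fun u hu => hag u (h1.trans hu))).2 h3

/-- The component of `v` depends only on the values near `v`. -/
theorem IsScheme.cmp_eq (h : IsScheme G A U δ S ρ X) {T : Set V} (hT : T ⊆ U) {v : V}
    {ω ω' : V → A} (hv : v ∈ T \ X ω) (hag : ∀ w, Near G (S + ρ) v w → ω w = ω' w) :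
    cmp G (T \ X ω) v = cmp G (T \ X ω') v := by
  refine (h.cmp_sub hT hv hag).antisymm ?_
  refine h.cmp_sub hT ⟨hv.1, fun h3 => hv.2 ?_⟩ fun w hw => (hag w hw).symm
  exact (h.loc_iff fun w hw => hag w (hw.mono (by omega))).2 h3

end Scheme

/-- A vertex of a nonempty set which depends only on the set. -/
noncomputable def pick (v : V) (K : Set V) : V :=
  @dite V K.Nonempty (Classical.propDecidable _) (fun h => h.choose) (fun _ => v)

theorem pick_mem (v : V) {K : Set V} (h : K.Nonempty) : pick v K ∈ K := by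
  unfold pick
  rw [dif_pos h]
  exact h.choose_spec

theorem pick_eq (v v' : V) {K : Set V} (h : K.Nonempty) : pick v K = pick v' K := by
  unfold pick
  rw [dif_pos h, dif_pos h]

end BDP
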