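import Pool.Agent.Work.MP_0890ba_co.BD.Basic

/-!
# Two rounds of breadth first search in a graph without a complete bipartite minor
-/

set_option linter.unusedSectionVars false

namespace BDP

open Finset Pool.Agent.Work.MP_0890ba_co

variable {V : Type} {G H : SimpleGraph V}

theorem res_univ (G : SimpleGraph V) : res G Set.univ = G := by
  ext u v
  rw [res_adj]
  exact ⟨fun h => h.1, fun h => ⟨h, Set.mem_univ _, Set.mem_univ _⟩⟩

theorem res_le_res (h : G ≤ H) (W : Set V) : res G W ≤ res H W :=
  fun _ _ h' => ⟨h h'.1, h'.2.1, h'.2.2⟩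

theorem lev_near {ρ : ℕ} {u v : V} (h : Near G ρ u v) : lev G v ≤ lev G u + ρ := by
  obtain ⟨p, hp⟩ := h
  have key : ∀ (a b : V) (q : G.Walk a b), lev G b ≤ lev G a + q.length := by
    intro a b q
    induction q with
    | nil => simp
    | cons hadj q ih =>
      rw [SimpleGraph.Walk.length_cons]
      have := lev_le_succ hadj
      omega
  have := key u v p
  omega

theorem near_iter_res {K : Set V} {v : V} {i j : ℕ} (hij : i ≤ j) (hj : j ≤ lev G v)
    (hK : ∀ t, i ≤ t → t ≤ j → (par G)^[t] v ∈ K) :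
    Near (res G K) (j - i) ((par G)^[i] v) ((par G)^[j] v) := by
  induction j with
  | zero =>
    obtain rfl : i = 0 := by omega
    exact Near.refl _ _ _
  | succ j ih =>
    rcases Nat.lt_or_ge i (j + 1) with h1 | h1
    · have h3 : j < lev G v := hj
      have h2 : (res G K).Adj ((par G)^[j] v) ((par G)^[j + 1] v) :=
        ⟨iter_adj h3, hK j (by omega) (by omega), hK (j + 1) (by omega) (by omega)⟩
      exact ((ih (by omega) (by omega) (fun t h2 h3 => hK t h2 (by omega))).trans
        (Near.of_adj h2)).mono (by omega)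
    · obtain rfl : i = j + 1 := by omega
      exact Near.refl _ _ _

/-- The vertices of `W` on the levels from `s` to `s + H - 1` of the restriction to `W`. -/
def band (G : SimpleGraph V) (W : Set V) (s H : ℕ) : Set V :=
  {v | v ∈ W ∧ s ≤ lev (res G W) v ∧ lev (res G W) v < s + H}

theorem mem_band_univ {s H : ℕ} {v : V} :
    v ∈ band G Set.univ s H ↔ s ≤ lev G v ∧ lev G v < s + H := by
  unfold band
  rw [res_univ]
  exact ⟨fun h => h.2, fun h => ⟨Set.mem_univ _, h⟩⟩

/-- Either `n` elements of `Y`, pairwise far apart, or a cover of `Y` by `n` balls. -/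
theorem far_or_cover (G : SimpleGraph V) (ρ : ℕ) (g : V → V) (Y : Set V) (n : ℕ) :
    (∃ f : Fin n → V, (∀ j, f j ∈ Y) ∧ ∀ i j, i ≠ j → ¬Near G ρ (g (f i)) (g (f j))) ∨
      ∃ T : Finset V, T.card ≤ n ∧ ∀ y ∈ Y, ∃ t ∈ T, Near G ρ t (g y) := by
  classical
  induction n with
  | zero => exact Or.inl ⟨Fin.elim0, fun j => j.elim0, fun i => i.elim0⟩
  | succ n ih =>
    rcases ih with ⟨f, hf, hff⟩ | ⟨T, hT, hTY⟩
    · by_cases h : ∀ y ∈ Y, ∃ j, Near G ρ (g (f j)) (g y)
      · right
        refine ⟨univ.image fun j => g (f j), card_image_le.trans (by simp), ?_⟩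
        intro y hy
        obtain ⟨j, hj⟩ := h y hy
        exact ⟨g (f j), mem_image_of_mem _ (mem_univ _), hj⟩
      · left
        push Not at h
        obtain ⟨y, hy, hyf⟩ := h
        refine ⟨Fin.cons y f, ?_, ?_⟩
        · intro j
          refine Fin.cases ?_ (fun j => ?_) j
          · rw [Fin.cons_zero]
            exact hy
          · rw [Fin.cons_succ]
            exact hf j
        · intro i j
          refine Fin.cases ?_ (fun i => ?_) i
          · refine Fin.cases ?_ (fun j => ?_) j
            · intro h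
              exact absurd rfl h
            · intro _
              rw [Fin.cons_zero, Fin.cons_succ]
              exact fun h => hyf j h.symm
          · refine Fin.cases ?_ (fun j => ?_) j
            · intro _
              rw [Fin.cons_zero, Fin.cons_succ]
              exact hyf i
            · intro h
              rw [Fin.cons_succ, Fin.cons_succ]
              exact hff i j fun h' => h (by rw [h'])
    · exact Or.inr ⟨T, hT.trans (Nat.le_succ n), hTY⟩

/-- The vertices below level `s` in the component of `k`. -/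
def low (G : SimpleGraph V) (s : ℕ) (k : V) : Set V := {x | G.Reachable k x ∧ lev G x < s}

theorem conn_low (G : SimpleGraph V) (s : ℕ) (k : V) : Conn G (low G s k) := by
  refine Conn.of_center (c := rt G k) ?_
  intro x hx
  have h1 : ∀ t, t ≤ lev G x → (par G)^[t] x ∈ low G s k := by
    intro t ht
    refine ⟨hx.1.trans (reach_iter ht), ?_⟩
    have h2 := lev_iter (G := G) ht
    have h3 := hx.2
    omega
  have h2 := reach_iter_res (G := G) (K := low G s k) (v := x) (i := 0) (j := lev G x)
    (Nat.zero_le _) le_rfl (fun t _ ht => h1 t ht)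
  rw [iter_lev, ← rt_eq hx.1] at h2
  exact h2.symm

theorem low_nonempty {s : ℕ} {k : V} (hs : 0 < s) : (low G s k).Nonempty := by
  refine ⟨(par G)^[lev G k] k, reach_iter le_rfl, ?_⟩
  have h2 := lev_iter (G := G) (v := k) le_rfl
  omega

/-- The vertex on level `m` of the geodesic from `w` to the root. -/
noncomputable def proj (G : SimpleGraph V) (m : ℕ) (w : V) : V := (par G)^[lev G w - m] w

/-- The piece of the geodesic from `w` around level `m`. -/
def seg (G : SimpleGraph V) (m h : ℕ) (w : V) : Set V :=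
  {x | ∃ i, lev G w - (m + h) ≤ i ∧ i ≤ lev G w - (m - h) ∧ x = (par G)^[i] w}

/-- The geodesic from `y` down to level `s`. -/
def down (G : SimpleGraph V) (s : ℕ) (y : V) : Set V :=
  {x | ∃ i, i ≤ lev G y - s ∧ x = (par G)^[i] y}

theorem seg_near {m h : ℕ} {w : V} (hm : m ≤ lev G w) (hh : h ≤ m) {x : V} (hx : x ∈ seg G m h w) :
    Near G h (proj G m w) x := by
  obtain ⟨i, h1, h2, rfl⟩ := hx
  unfold proj
  rcases Nat.le_total i (lev G w - m) with h3 | h3
  · exact (near_iter h3 (by omega)).symm.mono (by omega)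
  · exact (near_iter h3 (by omega)).mono (by omega)

theorem seg_lev {m h : ℕ} {w : V} (hm : m + h ≤ lev G w) (hh : h ≤ m) {x : V}
    (hx : x ∈ seg G m h w) : G.Reachable w x ∧ m - h ≤ lev G x ∧ lev G x ≤ m + h := by
  obtain ⟨i, h1, h2, rfl⟩ := hx
  have h3 := lev_iter (G := G) (v := w) (i := i) (by omega)
  exact ⟨reach_iter (by omega), by omega, by omega⟩

theorem seg_conn {m h : ℕ} {w : V} (hm : m ≤ lev G w) {K : Set V} (hK : seg G m h w ⊆ K)
    {x : V} (hx : x ∈ seg G m h w) : (res G K).Reachable (proj G m w) x := by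
  obtain ⟨i, h1, h2, rfl⟩ := hx
  unfold proj
  rcases Nat.le_total i (lev G w - m) with h3 | h3
  · refine (reach_iter_res h3 (by omega) ?_).symm
    intro t h4 h5
    exact hK ⟨t, by omega, by omega, rfl⟩
  · refine reach_iter_res h3 (by omega) ?_
    intro t h4 h5
    exact hK ⟨t, by omega, by omega, rfl⟩

theorem down_conn {s : ℕ} {y : V} {K : Set V} (hK : down G s y ⊆ K) {x : V}
    (hx : x ∈ down G s y) : (res G K).Reachable y x := by
  obtain ⟨i, h1, rfl⟩ := hx
  have h2 := reach_iter_res (G := G) (K := K) (v := y) (i := 0) (j := i) (Nat.zero_le _)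
    (by omega) ?_
  · exact h2
  · intro t _ h5
    exact hK ⟨t, by omega, rfl⟩

section Minor

variable {s0 H0 s1 H1 : ℕ}

/-- `n` vertices of a component of the second band whose projections are far apart give a complete
bipartite minor. -/
theorem minor_of_far [Finite V] (hs0 : 0 < s0) (hs1 : 2 * H0 + 2 ≤ s1) {k : V}
    (hk : k ∈ band G (band G Set.univ s0 H0) s1 H1) {n : ℕ} (w : Fin n → V)
    (hw : ∀ j, w j ∈ cmp G (band G (band G Set.univ s0 H0) s1 H1) k)
    (hfar : ∀ i j, i ≠ j → ¬Near G (2 * H0)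
      (proj (res G (band G Set.univ s0 H0)) (s1 - H0 - 1) (w i))
      (proj (res G (band G Set.univ s0 H0)) (s1 - H0 - 1) (w j))) : HasK3Minor n G := by
  classical
  have := Fintype.ofFinite V
  have hW1 : ∀ v, v ∈ band G Set.univ s0 H0 ↔ s0 ≤ lev G v ∧ lev G v < s0 + H0 :=
    fun v => mem_band_univ
  have hband : ∀ v, v ∈ band G (band G Set.univ s0 H0) s1 H1 ↔ v ∈ band G Set.univ s0 H0 ∧
    s1 ≤ lev (res G (band G Set.univ s0 H0)) v ∧
      lev (res G (band G Set.univ s0 H0)) v < s1 + H1 := fun v => Iff.rfl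
  generalize hW2 : band G (band G Set.univ s0 H0) s1 H1 = W2 at *
  generalize band G Set.univ s0 H0 = W1 at *
  have hG1 : res G W1 ≤ G := res_le G W1
  have hW21 : W2 ⊆ W1 := fun v hv => ((hband v).1 hv).1
  have hk1 : k ∈ W1 := hW21 hk
  -- facts about the vertices `w j`
  have hwW2 : ∀ j, w j ∈ W2 := fun j => cmp_subset hk (hw j)
  have hwW1 : ∀ j, w j ∈ W1 := fun j => hW21 (hwW2 j)
  have hlw : ∀ j, s1 ≤ lev (res G W1) (w j) ∧ lev (res G W1) (w j) < s1 + H1 :=
    fun j => ((hband _).1 (hwW2 j)).2
  have hkw : ∀ j, (res G W1).Reachable k (w j) := fun j => (hw j).mono (res_mono hW21)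
  set m := s1 - H0 - 1 with hm
  have hy1 : ∀ j, (res G W1).Reachable (w j) (proj (res G W1) m (w j)) :=
    fun j => reach_iter (by omega)
  have hyW1 : ∀ j, proj (res G W1) m (w j) ∈ W1 := fun j => mem_of_reach (hy1 j) (hwW1 j)
  have hyl : ∀ j, lev (res G W1) (proj (res G W1) m (w j)) = m := by
    intro j
    have h1 := lev_iter (G := res G W1) (v := w j) (i := lev (res G W1) (w j) - m) (by omega)
    have h2 := hlw j
    unfold proj
    omega
  -- the vertices of the second part
  have hdown : ∀ j, ∀ x ∈ down G s0 (proj (res G W1) m (w j)), x ∈ W1 ∧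
      m - H0 ≤ lev (res G W1) x ∧ lev (res G W1) x ≤ m + H0 ∧
      Near G H0 (proj (res G W1) m (w j)) x := by
    rintro j x ⟨i, hi, rfl⟩
    have h0 := (hW1 _).1 (hyW1 j)
    have hmem : ∀ t, t ≤ i → (par G)^[t] (proj (res G W1) m (w j)) ∈ W1 := by
      intro t ht
      have h1 := lev_iter (G := G) (v := proj (res G W1) m (w j)) (i := t) (by omega)
      refine (hW1 _).2 ⟨by omega, by omega⟩
    have h2 := near_iter_res (G := G) (K := W1) (v := proj (res G W1) m (w j)) (i := 0) (j := i)
      (Nat.zero_le _) (by omega) (fun t _ ht => hmem t ht)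
    have h3 := lev_near h2
    have h4 := lev_near h2.symm
    have h5 := hyl j
    rw [Function.iterate_zero, id_eq] at h2 h3 h4
    refine ⟨hmem i le_rfl, by omega, by omega, ?_⟩
    exact (h2.of_le hG1).mono (by omega)
  have hseg : ∀ j, ∀ x ∈ seg (res G W1) m H0 (w j), x ∈ W1 ∧
      m - H0 ≤ lev (res G W1) x ∧ lev (res G W1) x ≤ m + H0 ∧
      Near G H0 (proj (res G W1) m (w j)) x := by
    intro j x hx
    have h1 := hlw j
    have h2 := seg_lev (G := res G W1) (by omega) (by omega) hx
    exact ⟨mem_of_reach h2.1 (hwW1 j), h2.2.1, h2.2.2,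
      (seg_near (by omega) (by omega) hx).of_le hG1⟩
  -- the sets
  let A : Fin n → Set V := fun j =>
    seg (res G W1) m H0 (w j) ∪ down G s0 (proj (res G W1) m (w j))
  have hA : ∀ j, ∀ x ∈ A j, x ∈ W1 ∧ m - H0 ≤ lev (res G W1) x ∧ lev (res G W1) x ≤ m + H0 ∧
      Near G H0 (proj (res G W1) m (w j)) x := by
    intro j x hx
    rcases hx with hx | hx
    · exact hseg j x hx
    · exact hdown j x hx
  have hAconn : ∀ j, Conn G (A j) := by
    intro j
    refine Conn.of_center (c := proj (res G W1) m (w j)) ?_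
    intro x hx
    have h1 := hlw j
    rcases hx with hx | hx
    · exact (seg_conn (G := res G W1) (by omega) (Set.subset_union_left) hx).mono
        (res_le_res hG1 _)
    · exact down_conn (Set.subset_union_right) hx
  have hAy : ∀ j, proj (res G W1) m (w j) ∈ A j := fun j => Or.inr ⟨0, Nat.zero_le _, rfl⟩
  have hB0 : ∀ x ∈ low G s0 k, lev G x < s0 := fun x hx => hx.2
  have hB1 : ∀ x ∈ low (res G W1) (m - H0) k, x ∈ W1 ∧ lev (res G W1) x < m - H0 :=
    fun x hx => ⟨mem_of_reach hx.1 hk1, hx.2⟩
  have hB2 : ∀ x ∈ cmp G W2 k, x ∈ W1 ∧ s1 ≤ lev (res G W1) x := by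
    intro x hx
    have h1 := (hband x).1 (cmp_subset hk hx)
    exact ⟨h1.1, h1.2.1⟩
  refine ⟨![low G s0 k, low (res G W1) (m - H0) k, cmp G W2 k], A, ?_, ?_, ?_, ?_, ?_, ?_⟩
  · intro i
    fin_cases i
    · exact (conn_low G s0 k).connected (low_nonempty hs0)
    · have h1 : Conn G (low (res G W1) (m - H0) k) := by
        intro x hx y hy
        exact (conn_low (res G W1) (m - H0) k x hx y hy).mono (res_le_res hG1 _)
      exact h1.connected (low_nonempty (by omega))
    · exact (conn_cmp W2 k).connected ⟨k, mem_cmp_self _ _⟩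
  · exact fun j => (hAconn j).connected ⟨_, hAy j⟩
  · have h01 : Disjoint (low G s0 k) (low (res G W1) (m - H0) k) := by
      refine Set.disjoint_left.2 fun x h1 h2 => ?_
      have h3 := hB0 x h1
      have h4 := (hW1 x).1 (hB1 x h2).1
      omega
    have h02 : Disjoint (low G s0 k) (cmp G W2 k) := by
      refine Set.disjoint_left.2 fun x h1 h2 => ?_
      have h3 := hB0 x h1
      have h4 := (hW1 x).1 (hB2 x h2).1
      omega
    have h12 : Disjoint (low (res G W1) (m - H0) k) (cmp G W2 k) := by
      refine Set.disjoint_left.2 fun x h1 h2 => ?_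
      have h3 := (hB1 x h1).2
      have h4 := (hB2 x h2).2
      omega
    intro i i' hii
    fin_cases i <;> fin_cases i'
    · exact absurd rfl hii
    · exact h01
    · exact h02
    · exact h01.symm
    · exact absurd rfl hii
    · exact h12
    · exact h02.symm
    · exact h12.symm
    · exact absurd rfl hii
  · intro j j' hjj
    refine Set.disjoint_left.2 fun x h1 h2 => ?_
    exact hfar j j' hjj (((hA j x h1).2.2.2.trans (hA j' x h2).2.2.2.symm).mono (by omega))
  · intro i j
    fin_cases i
    · refine Set.disjoint_left.2 fun x h1 h2 => ?_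
      have h3 := hB0 x h1
      have h4 := (hW1 x).1 (hA j x h2).1
      omega
    · refine Set.disjoint_left.2 fun x h1 h2 => ?_
      have h3 := (hB1 x h1).2
      have h4 := (hA j x h2).2.1
      omega
    · refine Set.disjoint_left.2 fun x h1 h2 => ?_
      have h3 := (hB2 x h1).2
      have h4 := (hA j x h2).2.2.1
      omega
  · intro i j
    have h0 := hlw j
    have hy0 := (hW1 _).1 (hyW1 j)
    fin_cases i
    · refine ⟨(par G)^[lev G (proj (res G W1) m (w j)) - s0 + 1] (proj (res G W1) m (w j)),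
        ⟨?_, ?_⟩, (par G)^[lev G (proj (res G W1) m (w j)) - s0] (proj (res G W1) m (w j)),
        Or.inr ⟨_, le_rfl, rfl⟩, (iter_adj (by omega)).symm⟩
      · exact ((hkw j).mono hG1).trans (((hy1 j).mono hG1).trans (reach_iter (by omega)))
      · have h1 := lev_iter (G := G) (v := proj (res G W1) m (w j))
          (i := lev G (proj (res G W1) m (w j)) - s0 + 1) (by omega)
        omega
    · refine ⟨(par (res G W1))^[lev (res G W1) (w j) - (m - H0) + 1] (w j), ⟨?_, ?_⟩,
        (par (res G W1))^[lev (res G W1) (w j) - (m - H0)] (w j),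
        Or.inl ⟨_, by omega, le_rfl, rfl⟩, (hG1 (iter_adj (by omega))).symm⟩
      · exact (hkw j).trans (reach_iter (by omega))
      · have h1 := lev_iter (G := res G W1) (v := w j)
          (i := lev (res G W1) (w j) - (m - H0) + 1) (by omega)
        omega
    · have h1 : ∀ t, t ≤ lev (res G W1) (w j) - s1 → (par (res G W1))^[t] (w j) ∈ W2 := by
        intro t ht
        have h2 := lev_iter (G := res G W1) (v := w j) (i := t) (by omega)
        exact (hband _).2 ⟨mem_of_reach (reach_iter (by omega)) (hwW1 j), by omega, by omega⟩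
      have h2 := reach_iter_res (G := res G W1) (K := W2) (v := w j) (i := 0)
        (j := lev (res G W1) (w j) - s1) (Nat.zero_le _) (by omega) (fun t _ ht => h1 t ht)
      refine ⟨(par (res G W1))^[lev (res G W1) (w j) - s1] (w j), ?_,
        (par (res G W1))^[lev (res G W1) (w j) - s1 + 1] (w j),
        Or.inl ⟨_, by omega, by omega, rfl⟩, hG1 (iter_adj (by omega))⟩
      exact SimpleGraph.Reachable.trans (hw j) (h2.mono (res_le_res hG1 _))

end Minor

/-- The connected subsets of a band of a band are small. -/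
theorem band_card [Finite V] {n Δ : ℕ} (hΔ : ∀ v, (G.neighborSet v).ncard ≤ Δ)
    (hG : ¬HasK3Minor n G) (s0 H0 s1 H1 : ℕ) {K : Set V} (hK : Conn G K)
    (hKW : K ⊆ band G (band G Set.univ s0 H0) s1 H1) :
    K.ncard ≤ (n + 1) * (Δ + 1) ^ (3 * H0 + H1 + 2) := by
  classical
  have := Fintype.ofFinite V
  rcases K.eq_empty_or_nonempty with rfl | ⟨k, hk⟩
  · simp
  have hone : 1 ≤ n + 1 := by omega
  -- one ball suffices
  have hball : ∀ (ρ : ℕ) (c : V), ρ ≤ 3 * H0 + H1 + 2 → (∀ x ∈ K, Near G ρ c x) →
      K.ncard ≤ (n + 1) * (Δ + 1) ^ (3 * H0 + H1 + 2) := by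
    intro ρ c hρ h
    have h1 : K ⊆ {w | Near G ρ c w} := fun x hx => h x hx
    refine (Set.ncard_le_ncard h1 (Set.toFinite _)).trans ((ncard_near_le hΔ ρ c).trans ?_)
    refine (Nat.pow_le_pow_right (Nat.succ_pos Δ) hρ).trans ?_
    exact Nat.le_mul_of_pos_left _ (by omega)
  have hKW1 : K ⊆ band G Set.univ s0 H0 := fun v hv => (hKW hv).1
  rcases Nat.eq_zero_or_pos s0 with hs0 | hs0
  · refine hball H0 (rt G k) (by omega) fun x hx => ?_
    have h1 : rt G k = rt G x := rt_eq ((hK k hk x hx).mono (res_le _ _))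
    have h2 := mem_band_univ.1 (hKW1 hx)
    rw [h1]
    exact (near_rt G x).mono (by omega)
  rcases Nat.lt_or_ge s1 (2 * H0 + 2) with hs1 | hs1
  · refine hball (2 * H0 + 2 + H1) (rt (res G (band G Set.univ s0 H0)) k) (by omega)
      fun x hx => ?_
    have h1 : rt (res G (band G Set.univ s0 H0)) k = rt (res G (band G Set.univ s0 H0)) x :=
      rt_eq ((hK k hk x hx).mono (res_mono hKW1))
    have h2 := (hKW hx).2
    rw [h1]
    exact ((near_rt _ x).of_le (res_le _ _)).mono (by omega)
  have hKc : K ⊆ cmp G (band G (band G Set.univ s0 H0) s1 H1) k := hK.subset_cmp hKW hk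
  rcases far_or_cover G (2 * H0) (proj (res G (band G Set.univ s0 H0)) (s1 - H0 - 1)) K n with
    ⟨f, hf, hff⟩ | ⟨T, hT, hTK⟩
  · exact absurd (minor_of_far hs0 hs1 (hKW hk) f (fun j => hKc (hf j)) hff) hG
  · have hproj : ∀ x ∈ K, Near G (H0 + H1)
        (proj (res G (band G Set.univ s0 H0)) (s1 - H0 - 1) x) x := by
      intro x hx
      have h1 := (hKW hx).2
      have h2 := near_iter (G := res G (band G Set.univ s0 H0)) (v := x) (i := 0)
        (j := lev (res G (band G Set.univ s0 H0)) x - (s1 - H0 - 1)) (Nat.zero_le _) (by omega)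
      exact (h2.symm.of_le (res_le _ _)).mono (by omega)
    have h1 : K ⊆ ⋃ t ∈ T, {w | Near G (3 * H0 + H1) t w} := by
      intro x hx
      obtain ⟨t, ht, htx⟩ := hTK x hx
      rw [Set.mem_iUnion₂]
      exact ⟨t, ht, (htx.trans (hproj x hx)).mono (by omega)⟩
    refine (Set.ncard_le_ncard h1 (Set.toFinite _)).trans ?_
    refine (Finset.set_ncard_biUnion_le T _).trans ?_
    refine (Finset.sum_le_card_nsmul T _ ((Δ + 1) ^ (3 * H0 + H1)) ?_).trans ?_
    · exact fun t _ => ncard_near_le hΔ _ t
    · rw [smul_eq_mul]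
      exact Nat.mul_le_mul (by omega) (Nat.pow_le_pow_right (Nat.succ_pos Δ) (by omega))

end BDP
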