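import Pool.Agent.Work.MP_0890ba_co.BD.Colour

/-!
# Multiple list colouring from local fragmentation schemes, with variable lists and demands
-/

set_option linter.unusedSectionVars false

namespace BDP

open Finset Classical in
/-- Multiple list colouring from local fragmentation schemes: the sizes of the lists and of the
sets `φ v` may depend on the vertex. -/
theorem choosable_var {V : Type} [Fintype V] [DecidableEq V] {G : SimpleGraph V} {Δ : ℕ}
    (hΔ : ∀ v, (G.neighborSet v).ncard ≤ Δ) {A : Type} [Fintype A] [Nonempty A] {δ : ℝ}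
    {S ρ : ℕ} {X : (V → A) → Set V} (hX : IsScheme G A Set.univ δ S ρ X) {M : ℕ} (hM : 0 < M)
    {φ : V → Finset (Fin M)} (hφ : ∀ u v, G.Adj u v → Disjoint (φ u) (φ v)) {Z : Type}
    (L : V → Finset Z) (b : ℕ) {x : ℝ} (hx0 : 0 < x) (hx1 : x < 1)
    (h4 : ∀ v, 4 * ((1 - (1 - x) * ((1 - δ) * (φ v).card / M)) ^ (L v).card / x ^ b) *
      (Δ + 1 : ℝ) ^ (2 * (S + ρ)) ≤ 1) :
    ∃ T : V → Finset Z, (∀ v, T v ⊆ L v ∧ (T v).card = b) ∧
      ∀ u v, G.Adj u v → Disjoint (T u) (T v) := by
  rcases isEmpty_or_nonempty V with hV | hV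
  · exact ⟨fun _ => ∅, fun v => (hV.false v).elim, fun v => (hV.false v).elim⟩
  have : Nonempty (Fin M) := ⟨⟨0, hM⟩⟩
  let U : Finset Z := univ.biUnion L
  have hU : ∀ v, ∀ c ∈ L v, c ∈ U := fun v c hc => mem_biUnion.2 ⟨v, mem_univ _, hc⟩
  let Lv : V → Finset U := fun v => (L v).subtype (· ∈ U)
  have hLv : ∀ v, (Lv v).card = (L v).card := by
    intro v
    change ((L v).subtype (· ∈ U)).card = _
    rw [card_subtype, filter_true_of_mem (hU v)]
  let H : U → (V → A × Fin M) → V → Prop := fun c η v =>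
    Col.Hit G X φ {w | (c : Z) ∈ L w} η v
  let Bad : V → (V → U → A × Fin M) → Prop := fun v ω =>
    ((Lv v).filter fun c => H c (fun w => ω w c) v).card < b
  have hd : (0 : ℝ) < (Δ + 1 : ℝ) ^ (2 * (S + ρ)) := by positivity
  have hpos : (0 : ℝ) < Fintype.card (V → U → A × Fin M) := by
    exact_mod_cast Fintype.card_pos
  have hprob : ∀ v, ((univ.filter (Bad v)).card : ℝ) ≤
      (1 / (4 * (Δ + 1 : ℝ) ^ (2 * (S + ρ)))) * Fintype.card (V → U → A × Fin M) := by
    intro v
    have h1 : ((univ.filter (Bad v)).card : ℝ) ≤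
        ((1 - (1 - x) * ((1 - δ) * (φ v).card / M)) ^ (L v).card / x ^ b) *
          Fintype.card (V → U → A × Fin M) := by
      apply Col.card_few (Lv v) (fun c η => H c η v) (hLv v) hx0 hx1
      intro c hc
      exact Col.card_hit hX hM rfl (mem_subtype.1 hc)
    refine h1.trans (mul_le_mul_of_nonneg_right ?_ hpos.le)
    rw [le_div_iff₀ (by positivity)]
    have h2 := h4 v
    linarith
  let Sv : V → Finset V := fun v => univ.filter fun w => Near G (S + ρ) v w
  obtain ⟨ω, hω⟩ := MP433A.lll Bad Sv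
    (by
      intro v w w' h hb
      have h1 : ((Lv v).filter fun c => H c (fun u => w' u c) v) ⊆
          (Lv v).filter fun c => H c (fun u => w u c) v := by
        intro c hc
        rw [mem_filter] at hc ⊢
        refine ⟨hc.1, Col.hit_local hX (η := fun u => w' u c) ?_ hc.2⟩
        intro u hu
        have h2 := h u (mem_filter.2 ⟨mem_univ _, hu⟩)
        change w' u c = w u c
        rw [h2]
      exact (card_le_card h1).trans_lt hb)
    (1 / (4 * (Δ + 1 : ℝ) ^ (2 * (S + ρ)))) (by positivity) hprob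
    ((Δ + 1) ^ (2 * (S + ρ))) (Nat.one_le_pow _ _ (Nat.succ_pos _))
    (by
      intro v
      refine le_trans (card_le_card ?_) (Col.card_near hΔ v (2 * (S + ρ)))
      intro v' hv'
      rw [mem_filter] at hv' ⊢
      refine ⟨mem_univ _, ?_⟩
      have h1 := hv'.2
      rw [not_disjoint_iff] at h1
      obtain ⟨w, h2, h3⟩ := h1
      have h4 := Col.near_trans (mem_filter.1 h2).2 (Col.near_symm (mem_filter.1 h3).2)
      rwa [← two_mul] at h4)
    (by
      push_cast
      refine le_of_eq ?_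
      field_simp)
  have hT : ∀ v, ∃ t ⊆ (Lv v).filter (fun c => H c (fun w => ω w c) v), t.card = b := by
    intro v
    exact exists_subset_card_eq (not_lt.1 (hω v))
  choose t ht1 ht2 using hT
  refine ⟨fun v => (t v).image Subtype.val, fun v => ⟨?_, ?_⟩, ?_⟩
  · intro c hc
    obtain ⟨c', hc', rfl⟩ := mem_image.1 hc
    exact mem_subtype.1 (mem_filter.1 (ht1 v hc')).1
  · rw [card_image_of_injective _ Subtype.val_injective, ht2]
  · intro u v huv
    rw [disjoint_left]
    intro c hcu hcv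
    obtain ⟨c1, hc1, rfl⟩ := mem_image.1 hcu
    obtain ⟨c2, hc2, h12⟩ := mem_image.1 hcv
    have h13 : c2 = c1 := Subtype.ext h12
    subst h13
    exact Col.hit_indep hφ huv (mem_filter.1 (ht1 u hc1)).2 (mem_filter.1 (ht1 v hc2)).2

/-- The numerical choice of the constants, for variable lists and demands. -/
lemma numeric_var {η : ℝ} (hη : 0 < η) :
    ∃ x : ℝ, 0 < x ∧ x < 1 ∧ ∀ C : ℝ, 0 ≤ C → ∃ b0 : ℕ, ∀ (b l : ℕ) (y : ℝ), b0 ≤ b →
      0 ≤ y → y ≤ 1 → (1 + η) * b ≤ y * l → 4 * ((1 - (1 - x) * y) ^ l / x ^ b) * C ≤ 1 := by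
  have h1η : 0 < 1 + η := by linarith
  have hs1 : 1 / (1 + η) < 1 := by
    rw [div_lt_one h1η]; linarith
  have hs0 : 0 < 1 / (1 + η) := by positivity
  obtain ⟨x, hx1, hx2⟩ := exists_between hs1
  have hx0 : 0 < x := hs0.trans hx1
  have h1x : 0 < 1 - x := by linarith
  have hc : 0 < (1 - x) * ((1 + η) - 1 / x) := by
    apply mul_pos h1x
    rw [sub_pos, div_lt_iff₀ hx0]
    rw [div_lt_iff₀ h1η] at hx1
    linarith
  set c := (1 - x) * ((1 + η) - 1 / x) with hcdef
  refine ⟨x, hx0, hx2, fun C hC => ?_⟩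
  obtain ⟨b0, hb0⟩ := exists_nat_gt (4 * C / c)
  refine ⟨b0, fun b l y hb hy0 hy1 hyl => ?_⟩
  have h2 : 0 ≤ 1 - (1 - x) * y := by nlinarith
  have h3 : (1 - (1 - x) * y) ^ l ≤ Real.exp (-((1 - x) * (1 + η) * b)) := by
    calc (1 - (1 - x) * y) ^ l ≤ Real.exp (-((1 - x) * y)) ^ l :=
          pow_le_pow_left₀ h2 (Real.one_sub_le_exp_neg _) l
      _ = Real.exp (l * -((1 - x) * y)) := (Real.exp_nat_mul _ _).symm
      _ ≤ _ := by
          apply Real.exp_le_exp.2
          have h5 := mul_le_mul_of_nonneg_left hyl h1x.le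
          linarith
  have h6 : 1 / x ^ b ≤ Real.exp ((1 - x) * (1 / x) * b) := by
    have h7 : 1 / x ≤ Real.exp ((1 - x) * (1 / x)) := by
      have h8 := Real.add_one_le_exp ((1 - x) * (1 / x))
      have h9 : (1 - x) * (1 / x) + 1 = 1 / x := by
        field_simp
        ring
      linarith
    calc 1 / x ^ b = (1 / x) ^ b := (one_div_pow x b).symm
      _ ≤ Real.exp ((1 - x) * (1 / x)) ^ b := pow_le_pow_left₀ (by positivity) h7 b
      _ = Real.exp (b * ((1 - x) * (1 / x))) := (Real.exp_nat_mul _ _).symm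
      _ = _ := by rw [mul_comm]
  have h10 : (1 - (1 - x) * y) ^ l / x ^ b ≤ Real.exp (-(c * b)) := by
    rw [div_eq_mul_one_div]
    calc (1 - (1 - x) * y) ^ l * (1 / x ^ b) ≤
          Real.exp (-((1 - x) * (1 + η) * b)) * Real.exp ((1 - x) * (1 / x) * b) :=
          mul_le_mul h3 h6 (by positivity) (Real.exp_pos _).le
      _ = _ := by
          rw [← Real.exp_add]
          congr 1
          rw [hcdef]
          ring
  have h11 : 4 * C ≤ Real.exp (c * b) := by
    have h12 : (b0 : ℝ) ≤ b := by exact_mod_cast hb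
    have h13 : 4 * C / c < b := hb0.trans_le h12
    rw [div_lt_iff₀ hc] at h13
    have h14 := Real.add_one_le_exp (c * b)
    linarith
  have h15 : 4 * ((1 - (1 - x) * y) ^ l / x ^ b) * C ≤ Real.exp (-(c * b)) * Real.exp (c * b) := by
    calc 4 * ((1 - (1 - x) * y) ^ l / x ^ b) * C =
          ((1 - (1 - x) * y) ^ l / x ^ b) * (4 * C) := by ring
      _ ≤ _ := mul_le_mul h10 h11 (by positivity) (Real.exp_pos _).le
  rw [← Real.exp_add, neg_add_cancel, Real.exp_zero] at h15
  exact h15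

end BDP
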