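import Pool.Agent.Work.MP_0890ba_co.BD.Defs
import Pool.Agent.Work.MP_433a35_co.Asm.LLL

/-!
# Multiple list colouring from local fragmentation schemes
-/

set_option linter.unusedSectionVars false

namespace BDP

namespace Col

open Finset Classical

section graph

variable {V : Type}

/-- The vertices reachable from `v` inside `W`. -/
def cmp (G : SimpleGraph V) (W : Set V) (v : V) : Set V := {w | (res G W).Reachable v w}

/-- A leader of a component. -/
noncomputable def lead [Nonempty V] (G : SimpleGraph V) (W : Set V) (v : V) : V :=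
  Classical.epsilon (· ∈ cmp G W v)

lemma self_mem_cmp (G : SimpleGraph V) (W : Set V) (v : V) : v ∈ cmp G W v :=
  SimpleGraph.Reachable.refl v

lemma cmp_congr {G : SimpleGraph V} {W : Set V} {u v : V} (h : (res G W).Reachable u v) :
    cmp G W u = cmp G W v := by
  ext w
  exact ⟨fun hw => h.symm.trans hw, fun hw => h.trans hw⟩

lemma lead_mem [Nonempty V] (G : SimpleGraph V) (W : Set V) (v : V) :
    lead G W v ∈ cmp G W v :=
  Classical.epsilon_spec (p := (· ∈ cmp G W v)) ⟨v, self_mem_cmp G W v⟩

lemma res_mono {G : SimpleGraph V} {W W' : Set V} (h : W ⊆ W') : res G W ≤ res G W' :=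
  fun _ _ hab => ⟨hab.1, h hab.2.1, h hab.2.2⟩

lemma res_le (G : SimpleGraph V) (W : Set V) : res G W ≤ G := fun _ _ h => h.1

lemma cmp_subset {G : SimpleGraph V} {W : Set V} {v : V} (hv : v ∈ W) : cmp G W v ⊆ W := by
  rintro w ⟨p⟩
  induction p with
  | nil => exact hv
  | cons h p ih => exact ih h.2.2

lemma walk_in_cmp {G : SimpleGraph V} {W : Set V} {v a b : V} (p : (res G W).Walk a b)
    (ha : a ∈ cmp G W v) : (res G (cmp G W v)).Reachable a b := by
  induction p with
  | nil => exact SimpleGraph.Reachable.refl _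
  | @cons x y z h p ih =>
    have hy : y ∈ cmp G W v := SimpleGraph.Reachable.trans ha (SimpleGraph.Adj.reachable h)
    have h1 : (res G (cmp G W v)).Adj x y := ⟨h.1, ha, hy⟩
    exact (SimpleGraph.Adj.reachable h1).trans (ih hy)

lemma conn_cmp (G : SimpleGraph V) (W : Set V) (v : V) : Conn G (cmp G W v) := by
  intro x hx y hy
  obtain ⟨p⟩ : (res G W).Reachable x y := SimpleGraph.Reachable.trans hx.symm hy
  exact walk_in_cmp p hx

lemma near_of_cmp [Fintype V] {G : SimpleGraph V} {W : Set V} {v w : V} (hw : w ∈ cmp G W v) :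
    ∃ p : G.Walk v w, p.length + 1 ≤ (cmp G W v).ncard := by
  obtain ⟨q⟩ := hw
  obtain ⟨p, hp⟩ : ∃ p : (res G W).Walk v w, p.IsPath := ⟨q.toPath.1, q.toPath.2⟩
  refine ⟨p.mapLe (res_le G W), ?_⟩
  rw [SimpleGraph.Walk.length_mapLe]
  have h1 : p.support.toFinset.card = p.length + 1 := by
    rw [List.toFinset_card_of_nodup hp.support_nodup, SimpleGraph.Walk.length_support]
  rw [← h1, ← Set.ncard_coe_finset]
  apply Set.ncard_le_ncard _ (Set.toFinite _)
  intro x hx
  rw [Finset.mem_coe, List.mem_toFinset] at hx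
  exact ⟨p.takeUntil x hx⟩

/-- Balls in graphs of bounded degree. -/
lemma card_near [Fintype V] {G : SimpleGraph V} {Δ : ℕ}
    (hΔ : ∀ v, (G.neighborSet v).ncard ≤ Δ) (v : V) :
    ∀ k : ℕ, (univ.filter fun w => Near G k v w).card ≤ (Δ + 1) ^ k := by
  intro k
  induction k with
  | zero =>
    have : (univ.filter fun w => Near G 0 v w) ⊆ {v} := by
      intro w hw
      obtain ⟨p, hp⟩ := (mem_filter.1 hw).2
      rw [mem_singleton]
      exact (SimpleGraph.Walk.eq_of_length_eq_zero (Nat.le_zero.1 hp)).symm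
    simpa using card_le_card this
  | succ k ih =>
    have hsub : (univ.filter fun w => Near G (k + 1) v w) ⊆
        (univ.filter fun w => Near G k v w).biUnion
          fun u => insert u (univ.filter fun w => G.Adj u w) := by
      intro w hw
      obtain ⟨p, hp⟩ := (mem_filter.1 hw).2
      rw [mem_biUnion]
      rcases Nat.lt_or_ge k p.length with h | h
      · have hpr : ¬ p.reverse.Nil := by
          intro hn
          have := SimpleGraph.Walk.length_eq_zero_iff.2 hn
          rw [SimpleGraph.Walk.length_reverse] at this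
          omega
        refine ⟨p.reverse.snd, mem_filter.2 ⟨mem_univ _, p.reverse.tail.reverse, ?_⟩,
          mem_insert.2 (Or.inr (mem_filter.2 ⟨mem_univ _, ?_⟩))⟩
        · have := SimpleGraph.Walk.length_tail_add_one hpr
          rw [SimpleGraph.Walk.length_reverse] at this ⊢
          omega
        · exact (SimpleGraph.Walk.adj_snd hpr).symm
      · exact ⟨w, mem_filter.2 ⟨mem_univ _, p, h⟩, mem_insert_self _ _⟩
    calc (univ.filter fun w => Near G (k + 1) v w).card ≤ _ := card_le_card hsub
      _ ≤ (univ.filter fun w => Near G k v w).card * (Δ + 1) := by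
          apply card_biUnion_le_card_mul
          intro u _
          refine (card_insert_le _ _).trans (Nat.add_le_add_right ?_ 1)
          have h1 := hΔ u
          have h2 : G.neighborSet u = ((univ.filter fun w => G.Adj u w : Finset V) : Set V) := by
            ext w
            simp [SimpleGraph.mem_neighborSet]
          rwa [h2, Set.ncard_coe_finset] at h1
      _ ≤ (Δ + 1) ^ k * (Δ + 1) := Nat.mul_le_mul_right _ ih
      _ = _ := (pow_succ _ _).symm

end graph

section event

variable {V : Type} [Fintype V] [DecidableEq V] [Nonempty V] {A : Type} [Fintype A] {M : ℕ}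

/-- The random independent set of one colour. -/
def Hit (G : SimpleGraph V) (X : (V → A) → Set V) (φ : V → Finset (Fin M)) (T : Set V)
    (η : V → A × Fin M) (v : V) : Prop :=
  v ∈ T ∧ v ∉ X (fun w => (η w).1) ∧
    (η (lead G (T \ X (fun w => (η w).1)) v)).2 ∈ φ v

lemma hit_indep {G : SimpleGraph V} {X : (V → A) → Set V} {φ : V → Finset (Fin M)} {T : Set V}
    (hφ : ∀ u v, G.Adj u v → Disjoint (φ u) (φ v)) {η : V → A × Fin M} {u v : V}
    (huv : G.Adj u v) (hu : Hit G X φ T η u) (hv : Hit G X φ T η v) : False := by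
  have h1 : (res G (T \ X (fun w => (η w).1))).Adj u v := ⟨huv, ⟨hu.1, hu.2.1⟩, ⟨hv.1, hv.2.1⟩⟩
  have h2 : lead G (T \ X (fun w => (η w).1)) u = lead G (T \ X (fun w => (η w).1)) v := by
    unfold lead
    rw [cmp_congr (SimpleGraph.Adj.reachable h1)]
  have h3 := hu.2.2
  rw [h2] at h3
  exact (Finset.disjoint_left.1 (hφ u v huv)) h3 hv.2.2

lemma near_trans {G : SimpleGraph V} {k l : ℕ} {u v w : V} (h : Near G k u v)
    (h' : Near G l v w) : Near G (k + l) u w := by
  obtain ⟨p, hp⟩ := h
  obtain ⟨q, hq⟩ := h'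
  exact ⟨p.append q, by rw [SimpleGraph.Walk.length_append]; omega⟩

lemma near_symm {G : SimpleGraph V} {k : ℕ} {u v : V} (h : Near G k u v) : Near G k v u := by
  obtain ⟨p, hp⟩ := h
  exact ⟨p.reverse, by rwa [SimpleGraph.Walk.length_reverse]⟩

lemma near_mono {G : SimpleGraph V} {k l : ℕ} (hkl : k ≤ l) {u v : V} (h : Near G k u v) :
    Near G l u v := by
  obtain ⟨p, hp⟩ := h
  exact ⟨p, hp.trans hkl⟩

lemma near_adj {G : SimpleGraph V} {u v : V} (h : G.Adj u v) : Near G 1 u v :=
  ⟨h.toWalk, by simp⟩

lemma hit_local {G : SimpleGraph V} {δ : ℝ} {S ρ : ℕ} {X : (V → A) → Set V}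
    (hX : IsScheme G A Set.univ δ S ρ X) {φ : V → Finset (Fin M)} {T : Set V}
    {η η' : V → A × Fin M} {v : V} (h : ∀ w, Near G (S + ρ) v w → η w = η' w)
    (hv : Hit G X φ T η v) : Hit G X φ T η' v := by
  obtain ⟨hvT, hvX, hvφ⟩ := hv
  -- membership in `X` agrees near `v`
  have hXX : ∀ w, Near G S v w → (w ∈ X (fun u => (η u).1) ↔ w ∈ X (fun u => (η' u).1)) := by
    intro w hw
    constructor
    · exact hX.loc w _ _ fun u hu => by
        rw [h u (near_trans hw hu)]
    · exact hX.loc w _ _ fun u hu => by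
        rw [h u (near_trans hw hu)]
  set W : Set V := T \ X (fun w => (η w).1) with hW
  set W' : Set V := T \ X (fun w => (η' w).1) with hW'
  have hvW : v ∈ W := ⟨hvT, hvX⟩
  have hWW : ∀ w, Near G S v w → (w ∈ W ↔ w ∈ W') := by
    intro w hw
    rw [hW, hW', Set.mem_sdiff, Set.mem_sdiff, hXX w hw]
  have hS : (cmp G W v).ncard ≤ S := by
    apply hX.frag (fun w => (η w).1) _ (conn_cmp G W v) (Set.subset_univ _)
    rw [Set.disjoint_left]
    intro w hw
    exact (cmp_subset hvW hw).2
  have hnear : ∀ w ∈ cmp G W v, ∃ k, k + 1 ≤ S ∧ Near G k v w := by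
    intro w hw
    obtain ⟨p, hp⟩ := near_of_cmp hw
    exact ⟨p.length, hp.trans hS, p, le_rfl⟩
  have hnear' : ∀ w ∈ cmp G W v, Near G S v w := by
    intro w hw
    obtain ⟨k, hk, hk'⟩ := hnear w hw
    exact near_mono (by omega) hk'
  -- the components agree
  have hcmp : cmp G W v = cmp G W' v := by
    apply Set.Subset.antisymm
    · have h1 : ∀ {a b : V} (p : (res G W).Walk a b), a ∈ cmp G W v →
          (res G W').Reachable a b := by
        intro a b p
        induction p with
        | nil => intro _; exact SimpleGraph.Reachable.refl _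
        | @cons x y z hxy p ih =>
          intro hx
          have hy : y ∈ cmp G W v :=
            SimpleGraph.Reachable.trans hx (SimpleGraph.Adj.reachable hxy)
          have h2 : (res G W').Adj x y :=
            ⟨hxy.1, (hWW x (hnear' x hx)).1 hxy.2.1, (hWW y (hnear' y hy)).1 hxy.2.2⟩
          exact (SimpleGraph.Adj.reachable h2).trans (ih hy)
      rintro w ⟨p⟩
      exact h1 p (self_mem_cmp G W v)
    · have h1 : ∀ {a b : V} (p : (res G W').Walk a b), a ∈ cmp G W v → b ∈ cmp G W v := by
        intro a b p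
        induction p with
        | nil => intro h; exact h
        | @cons x y z hxy p ih =>
          intro hx
          apply ih
          obtain ⟨k, hk, hk'⟩ := hnear x hx
          have hy : Near G S v y := near_mono hk (near_trans hk' (near_adj hxy.1))
          have h2 : (res G W).Adj x y :=
            ⟨hxy.1, (hWW x (hnear' x hx)).2 hxy.2.1, (hWW y hy).2 hxy.2.2⟩
          exact SimpleGraph.Reachable.trans hx (SimpleGraph.Adj.reachable h2)
      rintro w ⟨p⟩
      exact h1 p (self_mem_cmp G W v)
  have hlead : lead G W v = lead G W' v := by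
    unfold lead
    rw [hcmp]
  have hvv : Near G S v v := ⟨SimpleGraph.Walk.nil, by simp⟩
  refine ⟨hvT, fun h' => hvX ((hXX v hvv).2 h'), ?_⟩
  rw [← hlead, ← h _ (near_mono (by omega) (hnear' _ (lead_mem G W v)))]
  exact hvφ

/-- The number of maps with a prescribed range of one value. -/
lemma card_value (l : V) (F : Finset (Fin M)) :
    (univ.filter fun κ : V → Fin M => κ l ∈ F).card * M = F.card * Fintype.card (V → Fin M) := by
  have h1 : (univ.filter fun κ : V → Fin M => κ l ∈ F) =
      Fintype.piFinset fun i => if i = l then F else univ := by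
    ext κ
    simp only [mem_filter, mem_univ, true_and, Fintype.mem_piFinset]
    constructor
    · intro h i
      by_cases hi : i = l
      · subst hi; simpa using h
      · simp [hi]
    · intro h
      simpa using h l
  rw [h1, Fintype.card_piFinset, ← mul_prod_erase univ _ (mem_univ l), if_pos rfl,
    Fintype.card_fun, Fintype.card_fin, Fintype.card, ← prod_const,
    ← mul_prod_erase (univ : Finset V) (fun _ => M) (mem_univ l)]
  have h2 : ∏ i ∈ univ.erase l, (if i = l then F else univ : Finset (Fin M)).card =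
      ∏ i ∈ univ.erase l, M := by
    apply prod_congr rfl
    intro i hi
    rw [if_neg (ne_of_mem_erase hi), card_univ, Fintype.card_fin]
  rw [h2]
  ring

/-- Every vertex of `T` is hit with probability at least `(1 - δ) N / M`. -/
lemma card_hit {G : SimpleGraph V} {δ : ℝ} {S ρ : ℕ} {X : (V → A) → Set V}
    (hX : IsScheme G A Set.univ δ S ρ X) {φ : V → Finset (Fin M)} {N : ℕ} {T : Set V} {v : V}
    (hM : 0 < M) (hφ : (φ v).card = N) (hv : v ∈ T) :
    ((1 - δ) * N / M) * Fintype.card (V → A × Fin M) ≤
      ((univ.filter fun η : V → A × Fin M => Hit G X φ T η v).card : ℝ) := by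
  have hM' : (0 : ℝ) < M := by exact_mod_cast hM
  -- the fibration
  have h1 : (univ.filter fun η : V → A × Fin M => Hit G X φ T η v).card =
      ((univ.filter fun α : V → A => v ∉ X α).sigma fun α =>
        univ.filter fun κ : V → Fin M => κ (lead G (T \ X α) v) ∈ φ v).card := by
    refine card_bij' (fun η _ => ⟨fun w => (η w).1, fun w => (η w).2⟩)
      (fun q _ => fun w => (q.1 w, q.2 w)) ?_ ?_ ?_ ?_
    · intro η hη
      have h := (mem_filter.1 hη).2
      rw [mem_sigma, mem_filter, mem_filter]
      exact ⟨⟨mem_univ _, h.2.1⟩, mem_univ _, h.2.2⟩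
    · intro q hq
      rw [mem_sigma, mem_filter, mem_filter] at hq
      rw [mem_filter]
      exact ⟨mem_univ _, hv, hq.1.2, hq.2.2⟩
    · intro η _
      rfl
    · intro q _
      rfl
  have h2 : (univ.filter fun η : V → A × Fin M => Hit G X φ T η v).card * M =
      (univ.filter fun α : V → A => v ∉ X α).card * (N * Fintype.card (V → Fin M)) := by
    rw [h1, card_sigma, sum_mul]
    rw [sum_congr rfl fun α _ => card_value (lead G (T \ X α) v) (φ v), sum_const, hφ,
      smul_eq_mul]
  have h3 : (1 - δ) * Fintype.card (V → A) ≤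
      ((univ.filter fun α : V → A => v ∉ X α).card : ℝ) := by
    have h4 := hX.prob v
    have h5 : ({ω : V → A | v ∈ X ω} : Set (V → A)) =
        ((univ.filter fun α : V → A => v ∈ X α : Finset (V → A)) : Set (V → A)) := by
      ext ω; simp
    rw [h5, Set.ncard_coe_finset] at h4
    have h6 := card_filter_add_card_filter_not (s := (univ : Finset (V → A)))
      (fun α => v ∈ X α)
    rw [card_univ] at h6
    have h7 : ((univ.filter fun α : V → A => v ∈ X α).card : ℝ) +
        ((univ.filter fun α : V → A => v ∉ X α).card : ℝ) = Fintype.card (V → A) := by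
      exact_mod_cast h6
    linarith
  have h8 : ((univ.filter fun η : V → A × Fin M => Hit G X φ T η v).card : ℝ) * M =
      ((univ.filter fun α : V → A => v ∉ X α).card : ℝ) * (N * Fintype.card (V → Fin M)) := by
    exact_mod_cast h2
  have h9 : (Fintype.card (V → A × Fin M) : ℝ) =
      Fintype.card (V → A) * Fintype.card (V → Fin M) := by
    have : Fintype.card (V → A × Fin M) = Fintype.card (V → A) * Fintype.card (V → Fin M) := by
      rw [Fintype.card_fun, Fintype.card_fun, Fintype.card_fun, Fintype.card_prod, mul_pow]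
    exact_mod_cast this
  rw [h9, div_mul_eq_mul_div, div_le_iff₀ hM', h8]
  have h10 : (0 : ℝ) ≤ N * Fintype.card (V → Fin M) := by positivity
  calc (1 - δ) * N * (Fintype.card (V → A) * Fintype.card (V → Fin M)) =
        ((1 - δ) * Fintype.card (V → A)) * (N * Fintype.card (V → Fin M)) := by ring
    _ ≤ _ := mul_le_mul_of_nonneg_right h3 h10

end event

section mgf

variable {V C B : Type} [Fintype V] [DecidableEq V] [Fintype C] [DecidableEq C] [Fintype B]
  [Nonempty B]

/-- The Markov bound for independent colours. -/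
lemma card_few (Lv : Finset C) (H : C → (V → B) → Prop) {a b : ℕ} (ha : Lv.card = a) {p0 x : ℝ}
    (hx0 : 0 < x) (hx1 : x < 1)
    (hH : ∀ c ∈ Lv, p0 * Fintype.card (V → B) ≤
      ((univ.filter fun η : V → B => H c η).card : ℝ)) :
    ((univ.filter fun ω : V → C → B =>
        (Lv.filter fun c => H c fun w => ω w c).card < b).card : ℝ) ≤
      ((1 - (1 - x) * p0) ^ a / x ^ b) * Fintype.card (V → C → B) := by
  have hxb : 0 < x ^ b := pow_pos hx0 b
  let g : C → (V → B) → ℝ := fun c η => if c ∈ Lv ∧ H c η then x else 1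
  have hg0 : ∀ c η, 0 ≤ g c η := by
    intro c η
    dsimp only [g]
    split_ifs <;> linarith
  -- the number of hits as a product
  have h1 : ∀ ω : V → C → B, x ^ (Lv.filter fun c => H c fun w => ω w c).card =
      ∏ c, g c (fun w => ω w c) := by
    intro ω
    have h2 : ∏ c, g c (fun w => ω w c) =
        ∏ c ∈ Lv.filter fun c => H c fun w => ω w c, x := by
      rw [← prod_filter_mul_prod_filter_not univ
        (fun c => c ∈ Lv ∧ H c fun w => ω w c)]
      have h3 : ∏ c ∈ univ.filter (fun c => ¬ (c ∈ Lv ∧ H c fun w => ω w c)),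
          g c (fun w => ω w c) = 1 := by
        apply prod_eq_one
        intro c hc
        exact if_neg (mem_filter.1 hc).2
      rw [h3, mul_one]
      have h4 : univ.filter (fun c => c ∈ Lv ∧ H c fun w => ω w c) =
          Lv.filter fun c => H c fun w => ω w c := by
        ext c; simp
      rw [h4]
      apply prod_congr rfl
      intro c hc
      exact if_pos (mem_filter.1 hc)
    rw [h2, prod_const]
  -- the sum of the products
  have h5 : ∑ ω : V → C → B, ∏ c, g c (fun w => ω w c) = ∏ c, ∑ η : V → B, g c η := by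
    rw [prod_univ_sum, Fintype.piFinset_univ]
    exact Fintype.sum_equiv (Equiv.piComm fun _ _ => B) _ _ fun ω => rfl
  have h6 : ∀ c ∈ Lv, ∑ η : V → B, g c η ≤ (1 - (1 - x) * p0) * Fintype.card (V → B) := by
    intro c hc
    have h7 : ∀ η, g c η = 1 - (1 - x) * (if H c η then 1 else 0) := by
      intro η
      dsimp only [g]
      by_cases h : H c η
      · rw [if_pos ⟨hc, h⟩, if_pos h]; ring
      · rw [if_neg (fun h' => h h'.2), if_neg h]; ring
    rw [sum_congr rfl fun η _ => h7 η, sum_sub_distrib, ← mul_sum, sum_boole, sum_const,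
      card_univ, nsmul_eq_mul, mul_one]
    have h8 := mul_le_mul_of_nonneg_left (hH c hc) (by linarith : (0 : ℝ) ≤ 1 - x)
    linarith
  have h9 : ∏ c, ∑ η : V → B, g c η ≤
      ∏ c, (if c ∈ Lv then (1 - (1 - x) * p0) else 1) * (Fintype.card (V → B) : ℝ) := by
    apply prod_le_prod
    · intro c _
      exact sum_nonneg fun η _ => hg0 c η
    · intro c _
      by_cases hc : c ∈ Lv
      · rw [if_pos hc]; exact h6 c hc
      · rw [if_neg hc, one_mul]
        have : ∀ η, g c η = 1 := fun η => if_neg fun h => hc h.1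
        rw [sum_congr rfl fun η _ => this η, sum_const, card_univ, nsmul_eq_mul, mul_one]
  have h10 : ∏ c, (if c ∈ Lv then (1 - (1 - x) * p0) else 1) * (Fintype.card (V → B) : ℝ) =
      (1 - (1 - x) * p0) ^ a * Fintype.card (V → C → B) := by
    rw [prod_mul_distrib, prod_const, card_univ]
    congr 1
    · rw [prod_ite_mem, univ_inter, prod_const, ha]
    · have : Fintype.card (V → C → B) = Fintype.card (V → B) ^ Fintype.card C := by
        rw [Fintype.card_fun, Fintype.card_fun, Fintype.card_fun, ← pow_mul, ← pow_mul, mul_comm]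
      rw [this]
      push_cast
      rfl
  have h11 : ∑ ω : V → C → B, x ^ (Lv.filter fun c => H c fun w => ω w c).card ≤
      (1 - (1 - x) * p0) ^ a * Fintype.card (V → C → B) := by
    rw [sum_congr rfl fun ω _ => h1 ω, h5, ← h10]
    exact h9
  have h12 : ((univ.filter fun ω : V → C → B =>
      (Lv.filter fun c => H c fun w => ω w c).card < b).card : ℝ) * x ^ b ≤
      ∑ ω : V → C → B, x ^ (Lv.filter fun c => H c fun w => ω w c).card := by
    rw [← nsmul_eq_mul, ← sum_const]
    calc ∑ _ω ∈ univ.filter fun ω : V → C → B =>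
          (Lv.filter fun c => H c fun w => ω w c).card < b, x ^ b ≤
        ∑ ω ∈ univ.filter fun ω : V → C → B =>
          (Lv.filter fun c => H c fun w => ω w c).card < b,
            x ^ (Lv.filter fun c => H c fun w => ω w c).card := by
          apply sum_le_sum
          intro ω hω
          exact pow_le_pow_of_le_one hx0.le hx1.le (mem_filter.1 hω).2.le
      _ ≤ _ := sum_le_sum_of_subset_of_nonneg (filter_subset _ _)
          fun ω _ _ => pow_nonneg hx0.le _
  rw [div_mul_eq_mul_div, le_div_iff₀ hxb]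
  exact h12.trans h11

end mgf

end Col

open Finset Classical in
/-- Multiple list colouring from local fragmentation schemes. -/
theorem choosable_of_scheme {V : Type} [Fintype V] [DecidableEq V] {G : SimpleGraph V} {Δ : ℕ}
    (hΔ : ∀ v, (G.neighborSet v).ncard ≤ Δ) {A : Type} [Fintype A] [Nonempty A] {δ : ℝ}
    {S ρ : ℕ} {X : (V → A) → Set V} (hX : IsScheme G A Set.univ δ S ρ X) {M N : ℕ}
    {φ : V → Finset (Fin M)} (hN : 0 < N) (hφN : ∀ v, (φ v).card = N)
    (hφ : ∀ u v, G.Adj u v → Disjoint (φ u) (φ v)) {Z : Type} {L : V → Finset Z} {a b : ℕ}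
    (hL : ∀ v, (L v).card = a) {x : ℝ} (hx0 : 0 < x) (hx1 : x < 1)
    (h4 : 4 * ((1 - (1 - x) * ((1 - δ) * N / M)) ^ a / x ^ b) * (Δ + 1 : ℝ) ^ (2 * (S + ρ)) ≤ 1) :
    ∃ T : V → Finset Z, (∀ v, T v ⊆ L v ∧ (T v).card = b) ∧
      ∀ u v, G.Adj u v → Disjoint (T u) (T v) := by
  rcases isEmpty_or_nonempty V with hV | hV
  · exact ⟨fun _ => ∅, fun v => (hV.false v).elim, fun v => (hV.false v).elim⟩
  have hM : 0 < M := by
    obtain ⟨v⟩ := hV
    have h1 := card_le_univ (φ v)
    rw [hφN, Fintype.card_fin] at h1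
    omega
  have : Nonempty (Fin M) := ⟨⟨0, hM⟩⟩
  let U : Finset Z := univ.biUnion L
  have hU : ∀ v, ∀ c ∈ L v, c ∈ U := fun v c hc => mem_biUnion.2 ⟨v, mem_univ _, hc⟩
  let Lv : V → Finset U := fun v => (L v).subtype (· ∈ U)
  have hLv : ∀ v, (Lv v).card = a := by
    intro v
    rw [← hL v]
    change ((L v).subtype (· ∈ U)).card = _
    rw [card_subtype, filter_true_of_mem (hU v)]
  let H : U → (V → A × Fin M) → V → Prop := fun c η v =>
    Col.Hit G X φ {w | (c : Z) ∈ L w} η v
  let Bad : V → (V → U → A × Fin M) → Prop := fun v ω =>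
    ((Lv v).filter fun c => H c (fun w => ω w c) v).card < b
  have hprob : ∀ v, ((univ.filter (Bad v)).card : ℝ) ≤
      ((1 - (1 - x) * ((1 - δ) * N / M)) ^ a / x ^ b) * Fintype.card (V → U → A × Fin M) := by
    intro v
    apply Col.card_few (Lv v) (fun c η => H c η v) (hLv v) hx0 hx1
    intro c hc
    exact Col.card_hit hX hM (hφN v) (mem_subtype.1 hc)
  have hpos : (0 : ℝ) < Fintype.card (V → U → A × Fin M) := by
    exact_mod_cast Fintype.card_pos
  have hp0 : 0 ≤ (1 - (1 - x) * ((1 - δ) * N / M)) ^ a / x ^ b := by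
    obtain ⟨v⟩ := hV
    have h1 := hprob v
    have h2 : (0 : ℝ) ≤ ((univ.filter (Bad v)).card : ℝ) := Nat.cast_nonneg _
    by_contra hneg
    push Not at hneg
    have h3 := mul_neg_of_neg_of_pos hneg hpos
    linarith
  let Sv : V → Finset V := fun v => univ.filter fun w => Near G (S + ρ) v w
  obtain ⟨ω, hω⟩ := MP433A.lll Bad Sv
    (by
      intro v w w' h hb
      have h1 : ((Lv v).filter fun c => H c (fun u => w' u c) v) ⊆
          (Lv v).filter fun c => H c (fun u => w u c) v := by
        intro c hc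
        rw [mem_filter] at hc ⊢
        refine ⟨hc.1, Col.hit_local hX (η := fun u => w' u c) ?_ hc.2⟩
        intro u hu
        have h2 := h u (mem_filter.2 ⟨mem_univ _, hu⟩)
        change w' u c = w u c
        rw [h2]
      exact (card_le_card h1).trans_lt hb)
    ((1 - (1 - x) * ((1 - δ) * N / M)) ^ a / x ^ b) hp0 hprob
    ((Δ + 1) ^ (2 * (S + ρ))) (Nat.one_le_pow _ _ (Nat.succ_pos _))
    (by
      intro v
      refine le_trans (card_le_card ?_) (Col.card_near hΔ v (2 * (S + ρ)))
      intro v' hv'
      rw [mem_filter] at hv' ⊢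
      refine ⟨mem_univ _, ?_⟩
      have h1 := hv'.2
      rw [not_disjoint_iff] at h1
      obtain ⟨w, h2, h3⟩ := h1
      have h4 := Col.near_trans (mem_filter.1 h2).2 (Col.near_symm (mem_filter.1 h3).2)
      rwa [← two_mul] at h4)
    (by
      push_cast
      exact h4)
  have hT : ∀ v, ∃ t ⊆ (Lv v).filter (fun c => H c (fun w => ω w c) v), t.card = b := by
    intro v
    exact exists_subset_card_eq (not_lt.1 (hω v))
  choose t ht1 ht2 using hT
  refine ⟨fun v => (t v).image Subtype.val, fun v => ⟨?_, ?_⟩, ?_⟩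
  · intro c hc
    obtain ⟨c', hc', rfl⟩ := mem_image.1 hc
    exact mem_subtype.1 (mem_filter.1 (ht1 v hc')).1
  · rw [card_image_of_injective _ Subtype.val_injective, ht2]
  · intro u v huv
    rw [disjoint_left]
    intro c hcu hcv
    obtain ⟨c1, hc1, rfl⟩ := mem_image.1 hcu
    obtain ⟨c2, hc2, h12⟩ := mem_image.1 hcv
    have h13 : c2 = c1 := Subtype.ext h12
    subst h13
    exact Col.hit_indep hφ huv (mem_filter.1 (ht1 u hc1)).2 (mem_filter.1 (ht1 v hc2)).2

end BDP
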