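import Pool.Agent.Work.MP_0890ba_co.BD.Path

/-!
# The common neighbours of two vertices in a graph without Kuratowski minors
-/

set_option linter.unusedSectionVars false

namespace BDP

namespace Hub

open Finset Classical Pool.Agent.Work.MP_0890ba_co

variable {V : Type} {G : SimpleGraph V}

lemma conn_anti {G' : SimpleGraph V} (h : G' ≤ G) {Y : Set V} (hY : Conn G' Y) : Conn G Y := by
  intro x hx y hy
  refine (hY x hx y hy).mono ?_
  intro a b hab
  exact ⟨h hab.1, hab.2⟩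

/-- A connected set which avoids two vertices `p`, `q` sees at most two of their common
neighbours. -/
theorem bd_card [Fintype V] (h3 : ¬HasK3Minor 3 G) {p q : V} (hpq : p ≠ q) {X C : Set V}
    (hX : ∀ x ∈ X, G.Adj p x ∧ G.Adj q x) (hC : Conn G C) (hCX : Disjoint C X) (hp : p ∉ C)
    (hq : q ∉ C) : {x | x ∈ X ∧ ∃ v ∈ C, G.Adj x v}.ncard ≤ 2 := by
  by_contra hlt
  rw [not_le] at hlt
  obtain ⟨a, b, c, ha, hb, hc, hab, hac, hbc⟩ := (Set.two_lt_ncard_iff (Set.toFinite _)).1 hlt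
  have hCn : C.Nonempty := by
    obtain ⟨v, hv, -⟩ := ha.2
    exact ⟨v, hv⟩
  have hs : ∀ {x y : V}, x ≠ y → Disjoint ({x} : Set V) {y} := fun h =>
    Set.disjoint_singleton.2 h
  have hpC : Disjoint ({p} : Set V) C := Set.disjoint_singleton_left.2 hp
  have hqC : Disjoint ({q} : Set V) C := Set.disjoint_singleton_left.2 hq
  have hCx : ∀ x ∈ X, Disjoint C {x} := fun x hx => hCX.mono_right (Set.singleton_subset_iff.2 hx)
  have hCa : ∀ x, (x ∈ X ∧ ∃ v ∈ C, G.Adj x v) → Adjs G C {x} := by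
    rintro x ⟨-, v, hv, hxv⟩
    exact ⟨v, hv, x, rfl, hxv.symm⟩
  exact h3 (mkK33 (cn_sing G p) (cn_sing G q) ⟨hC, hCn⟩ (cn_sing G a) (cn_sing G b) (cn_sing G c)
    (hs hpq) hpC hqC (hs hab) (hs hac) (hs hbc)
    (hs (hX a ha.1).1.ne) (hs (hX b hb.1).1.ne) (hs (hX c hc.1).1.ne)
    (hs (hX a ha.1).2.ne) (hs (hX b hb.1).2.ne) (hs (hX c hc.1).2.ne)
    (hCx a ha.1) (hCx b hb.1) (hCx c hc.1)
    (adjs_of (hX a ha.1).1) (adjs_of (hX b hb.1).1) (adjs_of (hX c hc.1).1)
    (adjs_of (hX a ha.1).2) (adjs_of (hX b hb.1).2) (adjs_of (hX c hc.1).2)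
    (hCa a ha) (hCa b hb) (hCa c hc))

/-- Two common neighbours `x`, `y` of adjacent vertices, a connected set `A` which contains `x` and
sees `y`, and another connected set of common neighbours which sees both. -/
lemma bd_key (h5 : ¬HasK5Minor G) {p q : V} (hpq : G.Adj p q) {X A Y : Set V}
    (hX : ∀ x ∈ X, G.Adj p x ∧ G.Adj q x) {x y : V} (hx : x ∈ X) (hy : y ∈ X) (hA : Conn G A)
    (hxA : x ∈ A) (hyA : y ∉ A) (hp : p ∉ A) (hq : q ∉ A) (hAy : Adjs G {y} A) (hY : CN G Y)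
    (hYX : Y ⊆ X) (hYA : Disjoint A Y) (hyY : y ∉ Y) (h1 : Adjs G A Y) (h2 : Adjs G {y} Y) :
    False := by
  have hs : ∀ {x y : V}, x ≠ y → Disjoint ({x} : Set V) {y} := fun h =>
    Set.disjoint_singleton.2 h
  obtain ⟨z, hz⟩ := hY.2
  have hpY : p ∉ Y := fun h => (hX p (hYX h)).1.ne rfl
  have hqY : q ∉ Y := fun h => (hX q (hYX h)).2.ne rfl
  exact h5 (mkK5 (cn_sing G p) (cn_sing G q) (cn_sing G y) ⟨hA, x, hxA⟩ hY
    (hs hpq.ne) (hs (hX y hy).1.ne) (Set.disjoint_singleton_left.2 hp)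
    (Set.disjoint_singleton_left.2 hpY) (hs (hX y hy).2.ne) (Set.disjoint_singleton_left.2 hq)
    (Set.disjoint_singleton_left.2 hqY) (Set.disjoint_singleton_left.2 hyA)
    (Set.disjoint_singleton_left.2 hyY) hYA (adjs_of hpq) (adjs_of (hX y hy).1)
    ⟨p, rfl, x, hxA, (hX x hx).1⟩ ⟨p, rfl, z, hz, (hX z (hYX hz)).1⟩ (adjs_of (hX y hy).2)
    ⟨q, rfl, x, hxA, (hX x hx).2⟩ ⟨q, rfl, z, hz, (hX z (hYX hz)).2⟩ hAy h2 h1)

/-- Two common neighbours of adjacent vertices which are joined both through common neighbours and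
through a set outside are adjacent. -/
theorem bd_adj [Fintype V] (h5 : ¬HasK5Minor G) {p q : V} (hpq : G.Adj p q) {X C : Set V}
    (hX : ∀ x ∈ X, G.Adj p x ∧ G.Adj q x) (hC : Conn G C) (hCX : Disjoint C X) (hp : p ∉ C)
    (hq : q ∉ C) {x y : V} (hx : x ∈ X) (hy : y ∈ X) (hxy : x ≠ y) (hxC : ∃ v ∈ C, G.Adj x v)
    (hyC : ∃ v ∈ C, G.Adj y v) (hr : (res G X).Reachable x y) : G.Adj x y := by
  have hXe : insert x (insert y (X \ {x, y})) = X := by
    ext z
    simp only [Set.mem_insert_iff, Set.mem_sdiff, Set.mem_singleton_iff]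
    constructor
    · rintro (rfl | rfl | h)
      exacts [hx, hy, h.1]
    · intro h
      by_cases h1 : z = x
      · exact Or.inl h1
      · by_cases h2 : z = y
        · exact Or.inr (Or.inl h2)
        · exact Or.inr (Or.inr ⟨h, by rintro (h3 | h3); exacts [h1 h3, h2 h3]⟩)
  rcases join_through (G := G) (R := X \ {x, y}) hxy (fun h => h.2 (Or.inr rfl))
    (by rw [hXe]; exact hr) with h | ⟨k, hk, hkx, hky⟩
  · exact h
  exfalso
  have hYR : cmp G (X \ {x, y}) k ⊆ X \ {x, y} := comp_subset hk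
  obtain ⟨v, hv, hxv⟩ := hxC
  obtain ⟨w, hw, hyw⟩ := hyC
  have hxX : x ∉ C := fun h => Set.disjoint_left.1 hCX h hx
  have hyX : y ∉ C := fun h => Set.disjoint_left.1 hCX h hy
  refine bd_key h5 hpq hX hx hy (A := insert x C) (Y := cmp G (X \ {x, y}) k)
    (conn_ins hC hv hxv) (Set.mem_insert _ _) ?_ ?_ ?_
    ⟨y, rfl, w, Or.inr hw, hyw⟩ ⟨conn_component _ _, k, mem_comp_self _ _⟩
    (fun z hz => (hYR hz).1) ?_ (fun h => (hYR h).2 (Or.inr rfl)) ?_ hky.symm
  · rintro (h | h)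
    exacts [hxy h.symm, hyX h]
  · rintro (h | h)
    · exact (hX x hx).1.ne h
    · exact hp h
  · rintro (h | h)
    · exact (hX x hx).2.ne h
    · exact hq h
  · rw [Set.disjoint_left]
    rintro z (rfl | h) hz
    · exact (hYR hz).2 (Or.inl rfl)
    · exact Set.disjoint_left.1 hCX h (hYR hz).1
  · exact hkx.symm.mono (Set.singleton_subset_iff.2 (Set.mem_insert _ _)) subset_rfl

/-- The common neighbours of two adjacent vertices induce a forest. -/
theorem bd_acyclic (h5 : ¬HasK5Minor G) {p q : V} (hpq : G.Adj p q) {X : Set V}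
    (hX : ∀ x ∈ X, G.Adj p x ∧ G.Adj q x) : (res G X).IsAcyclic := by
  rw [SimpleGraph.isAcyclic_iff_forall_isBridge]
  intro e he
  induction e using Sym2.ind with
  | _ x y =>
  rw [SimpleGraph.mem_edgeSet] at he
  obtain ⟨hxy, hx, hy⟩ := he
  by_contra hb
  rw [SimpleGraph.isBridge_iff, not_not] at hb
  have hle : G.deleteEdges {s(x, y)} ≤ G := SimpleGraph.deleteEdges_le _
  have hr : (res (G.deleteEdges {s(x, y)}) X).Reachable x y := by
    refine hb.mono ?_
    intro a b hab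
    rw [SimpleGraph.deleteEdges_adj] at hab
    exact ⟨by rw [SimpleGraph.deleteEdges_adj]; exact ⟨hab.1.1, hab.2⟩, hab.1.2⟩
  have hXe : insert x (insert y (X \ {x, y})) = X := by
    ext z
    simp only [Set.mem_insert_iff, Set.mem_sdiff, Set.mem_singleton_iff]
    constructor
    · rintro (rfl | rfl | h)
      exacts [hx, hy, h.1]
    · intro h
      by_cases h1 : z = x
      · exact Or.inl h1
      · by_cases h2 : z = y
        · exact Or.inr (Or.inl h2)
        · exact Or.inr (Or.inr ⟨h, by rintro (h3 | h3); exacts [h1 h3, h2 h3]⟩)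
  rcases join_through (G := G.deleteEdges {s(x, y)}) (R := X \ {x, y}) hxy.ne
    (fun h => h.2 (Or.inr rfl)) (by rw [hXe]; exact hr) with h | ⟨k, hk, ⟨a, ha, x', hx', hax⟩,
      b, hb', y', hy', hby⟩
  · rw [SimpleGraph.deleteEdges_adj] at h
    exact h.2 rfl
  rw [Set.mem_singleton_iff] at hx' hy'
  subst hx' hy'
  have hYR : cmp (G.deleteEdges {s(x', y')}) (X \ {x', y'}) k ⊆ X \ {x', y'} := comp_subset hk
  refine bd_key h5 hpq hX hx hy (A := {x'}) (Y := cmp (G.deleteEdges {s(x', y')}) (X \ {x', y'}) k)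
    (conn_sing G _) rfl (fun h => hxy.ne h.symm) (fun h => (hX _ hx).1.ne h)
    (fun h => (hX _ hx).2.ne h) (adjs_of hxy.symm)
    ⟨conn_anti hle (conn_component _ _), k, mem_comp_self _ _⟩ (fun z hz => (hYR hz).1) ?_
    (fun h => (hYR h).2 (Or.inr rfl)) ⟨x', rfl, a, ha, (hle hax).symm⟩
    ⟨y', rfl, b, hb', (hle hby).symm⟩
  rw [Set.disjoint_singleton_left]
  exact fun h => (hYR h).2 (Or.inl rfl)

/-- The common neighbours of two adjacent vertices induce a bipartite graph. -/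
theorem bd_two [Fintype V] (h5 : ¬HasK5Minor G) {p q : V} (hpq : G.Adj p q) {X : Set V}
    (hX : ∀ x ∈ X, G.Adj p x ∧ G.Adj q x) :
    ∃ χ : V → Fin 2, ∀ x ∈ X, ∀ y ∈ X, G.Adj x y → χ x ≠ χ y := by
  obtain ⟨χ⟩ := (bd_acyclic h5 hpq hX).colorable_two
  exact ⟨χ, fun x hx y hy hxy => χ.valid (show (res G X).Adj x y from ⟨hxy, hx, hy⟩)⟩

end Hub

end BDP
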