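import Pool.Agent.Work.MP_0890ba_co.BD.Gen2
import Pool.Agent.Work.MP_0890ba_co.BD.Basic

/-!
# One level and one colour of the random process

The seeds `η : V → A × B` of one level define the removed set `Xs`, the components of the rest and
the mark of every component.
-/

set_option linter.unusedSectionVars false

namespace BDP

namespace Lev

open Finset Classical

section basic

variable {V A B : Type}

/-- The removed vertices. -/
def Xs (X : (V → A) → Set V) (η : V → A × B) : Set V := X fun v => (η v).1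

/-- The component of `v`. -/
def comp (Λ : SimpleGraph V) (X : (V → A) → Set V) (η : V → A × B) (v : V) : Set V :=
  Col.cmp Λ (Set.univ \ Xs X η) v

/-- The mark of the component of `v`. -/
noncomputable def mark [Nonempty V] (Λ : SimpleGraph V) (X : (V → A) → Set V) (η : V → A × B)
    (v : V) : B :=
  (η (Col.lead Λ (Set.univ \ Xs X η) v)).2

variable {Λ : SimpleGraph V} {X : (V → A) → Set V} {η : V → A × B}

lemma self_mem (v : V) : v ∈ comp Λ X η v := Col.self_mem_cmp _ _ _

lemma comp_conn (v : V) : Conn Λ (comp Λ X η v) := Col.conn_cmp _ _ _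

lemma comp_avoid {v : V} (hv : v ∉ Xs X η) : ∀ w ∈ comp Λ X η v, w ∉ Xs X η := fun _ hw =>
  (Col.cmp_subset (show v ∈ Set.univ \ Xs X η from ⟨Set.mem_univ _, hv⟩) hw).2

lemma comp_eq {u v : V} (h : u ∈ comp Λ X η v) : comp Λ X η u = comp Λ X η v :=
  (Col.cmp_congr (show (res Λ (Set.univ \ Xs X η)).Reachable v u from h)).symm

lemma mark_eq [Nonempty V] {u v : V} (h : u ∈ comp Λ X η v) : mark Λ X η u = mark Λ X η v := by
  have h1 : Col.cmp Λ (Set.univ \ Xs X η) u = Col.cmp Λ (Set.univ \ Xs X η) v := comp_eq h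
  unfold mark Col.lead
  rw [h1]

/-- A connected set which avoids the removed vertices lies in one component. -/
lemma sub_comp [Fintype V] {C : Set V} (hC : Conn Λ C) (hd : ∀ w ∈ C, w ∉ Xs X η) {v : V} (hv : v ∈ C) :
    C ⊆ comp Λ X η v :=
  hC.subset_cmp (T := Set.univ \ Xs X η) (fun w hw => ⟨Set.mem_univ _, hd w hw⟩) hv

lemma adj_mem {u v : V} (h : Λ.Adj v u) (hv : v ∉ Xs X η) (hu : u ∉ Xs X η) :
    u ∈ comp Λ X η v :=
  SimpleGraph.Adj.reachable (show (res Λ (Set.univ \ Xs X η)).Adj v u from
    ⟨h, ⟨Set.mem_univ _, hv⟩, ⟨Set.mem_univ _, hu⟩⟩)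

end basic

section scheme

variable {V A B : Type} [Fintype V] [DecidableEq V] [Fintype A] {Λ : SimpleGraph V}
  {X : (V → A) → Set V} {δ : ℝ} {S ρ : ℕ}

lemma comp_card (hX : IsScheme Λ A Set.univ δ S ρ X) {η : V → A × B} {v : V} (hv : v ∉ Xs X η) :
    (comp Λ X η v).ncard ≤ S := by
  refine hX.frag (fun w => (η w).1) _ (comp_conn v) (Set.subset_univ _) ?_
  rw [Set.disjoint_left]
  exact comp_avoid hv

lemma comp_near (hX : IsScheme Λ A Set.univ δ S ρ X) {η : V → A × B} {v w : V}
    (hv : v ∉ Xs X η) (hw : w ∈ comp Λ X η v) : Near Λ S v w :=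
  (comp_conn v).near (Set.toFinite _) (comp_card hX hv) (self_mem v) hw

variable [Nonempty V]

/-- The component and its mark depend on the seeds near `v` only. -/
lemma loc [Fintype B] (hX : IsScheme Λ A Set.univ δ S ρ X) {η η' : V → A × B} {v : V}
    (h : ∀ w, Near Λ (S + ρ) v w → η w = η' w) :
    (v ∈ Xs X η ↔ v ∈ Xs X η') ∧ (v ∉ Xs X η → comp Λ X η v = comp Λ X η' v ∧
      mark Λ X η v = mark Λ X η' v) := by
  constructor
  · constructor
    · exact hX.loc v _ _ fun u hu => by
        rw [h u (Col.near_mono (Nat.le_add_left _ _) hu)]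
    · exact hX.loc v _ _ fun u hu => by
        rw [h u (Col.near_mono (Nat.le_add_left _ _) hu)]
  · intro hv
    have h0 : Far.Hit Λ X (fun K _ => if K = comp Λ X η v then ({mark Λ X η v} : Finset B)
        else ∅) Set.univ η v := by
      refine ⟨Set.mem_univ _, hv, ?_⟩
      show mark Λ X η v ∈ (if comp Λ X η v = comp Λ X η v then
        ({mark Λ X η v} : Finset B) else ∅)
      rw [if_pos rfl]
      exact mem_singleton_self _
    have h1 := Far.hit_local hX h h0
    have h2 : mark Λ X η' v ∈ (if comp Λ X η' v = comp Λ X η v then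
      ({mark Λ X η v} : Finset B) else ∅) := h1.2.2
    by_cases h3 : comp Λ X η' v = comp Λ X η v
    · rw [if_pos h3, mem_singleton] at h2
      exact ⟨h3.symm, h2.symm⟩
    · rw [if_neg h3] at h2
      exact absurd h2 (notMem_empty _)

/-- The number of seeds for which the component of `v` gets a mark from a given set. -/
lemma card_mark [Fintype B] (Φ : Set V → Finset B) (v : V) :
    (univ.filter fun η : V → A × B => v ∉ Xs X η ∧ mark Λ X η v ∈ Φ (comp Λ X η v)).card *
        Fintype.card B =
      ∑ α ∈ univ.filter (fun α : V → A => v ∉ X α),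
        (Φ (Col.cmp Λ (Set.univ \ X α) v)).card * Fintype.card (V → B) := by
  have h1 : (univ.filter fun η : V → A × B => v ∉ Xs X η ∧
      mark Λ X η v ∈ Φ (comp Λ X η v)).card =
      ((univ.filter fun α : V → A => v ∉ X α).sigma fun α =>
        univ.filter fun κ : V → B =>
          κ (Col.lead Λ (Set.univ \ X α) v) ∈ Φ (Col.cmp Λ (Set.univ \ X α) v)).card := by
    refine card_bij' (fun η _ => ⟨fun w => (η w).1, fun w => (η w).2⟩)
      (fun q _ => fun w => (q.1 w, q.2 w)) ?_ ?_ ?_ ?_
    · intro η hη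
      have h := (mem_filter.1 hη).2
      rw [mem_sigma, mem_filter, mem_filter]
      exact ⟨⟨mem_univ _, h.1⟩, mem_univ _, h.2⟩
    · intro q hq
      rw [mem_sigma, mem_filter, mem_filter] at hq
      rw [mem_filter]
      exact ⟨mem_univ _, hq.1.2, hq.2.2⟩
    · intro η _
      rfl
    · intro q _
      rfl
  rw [h1, card_sigma, sum_mul]
  apply sum_congr rfl
  intro α _
  rw [Far.card_value]

/-- A small set is avoided with large probability. -/
lemma card_avoid (hX : IsScheme Λ A Set.univ δ S ρ X) {C : Set V} {s : ℕ} (hC : C.ncard ≤ s)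
    (hδ : 0 ≤ δ) :
    (1 - s * δ) * Fintype.card (V → A) ≤
      ((univ.filter fun α : V → A => ∀ w ∈ C, w ∉ X α).card : ℝ) := by
  have h1 : (univ.filter fun α : V → A => ¬ ∀ w ∈ C, w ∉ X α) ⊆
      C.toFinset.biUnion fun w => univ.filter fun α : V → A => w ∈ X α := by
    intro α hα
    have h2 := (mem_filter.1 hα).2
    obtain ⟨w, hw⟩ := not_forall.1 h2
    obtain ⟨hw, hwα⟩ := Classical.not_imp.1 hw
    rw [not_not] at hwα
    rw [mem_biUnion]
    exact ⟨w, Set.mem_toFinset.2 hw, mem_filter.2 ⟨mem_univ _, hwα⟩⟩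
  have h3 : ((univ.filter fun α : V → A => ¬ ∀ w ∈ C, w ∉ X α).card : ℝ) ≤
      s * (δ * Fintype.card (V → A)) := by
    calc ((univ.filter fun α : V → A => ¬ ∀ w ∈ C, w ∉ X α).card : ℝ) ≤
          ((C.toFinset.biUnion fun w => univ.filter fun α : V → A => w ∈ X α).card : ℝ) := by
          exact_mod_cast card_le_card h1
      _ ≤ ((∑ w ∈ C.toFinset, (univ.filter fun α : V → A => w ∈ X α).card : ℕ) : ℝ) := by
          exact_mod_cast card_biUnion_le
      _ = ∑ w ∈ C.toFinset, ((univ.filter fun α : V → A => w ∈ X α).card : ℝ) := by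
          push_cast
          rfl
      _ ≤ ∑ _w ∈ C.toFinset, δ * Fintype.card (V → A) := by
          apply sum_le_sum
          intro w _
          have h4 := hX.prob w
          have h5 : ({ω : V → A | w ∈ X ω} : Set (V → A)) =
              ((univ.filter fun α : V → A => w ∈ X α : Finset (V → A)) : Set (V → A)) := by
            ext ω; simp
          rw [h5, Set.ncard_coe_finset] at h4
          exact h4
      _ = C.toFinset.card * (δ * Fintype.card (V → A)) := by
          rw [sum_const, nsmul_eq_mul]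
      _ ≤ s * (δ * Fintype.card (V → A)) := by
          have h6 : (C.toFinset.card : ℝ) ≤ s := by
            rw [← Set.ncard_eq_toFinset_card']
            exact_mod_cast hC
          exact mul_le_mul_of_nonneg_right h6 (by positivity)
  have h7 := card_filter_add_card_filter_not (s := (univ : Finset (V → A)))
    (fun α => ∀ w ∈ C, w ∉ X α)
  rw [card_univ] at h7
  have h8 : ((univ.filter fun α : V → A => ∀ w ∈ C, w ∉ X α).card : ℝ) +
      ((univ.filter fun α : V → A => ¬ ∀ w ∈ C, w ∉ X α).card : ℝ) = Fintype.card (V → A) := by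
    exact_mod_cast h7
  linarith

end scheme

end Lev

end BDP
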