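import Pool.Agent.Work.MP_0890ba_co.BD.Proc
import Pool.Agent.Work.MP_0890ba_co.BD.Lev

/-!
# The random process with nested levels: recursion and locality
-/

set_option linter.unusedSectionVars false

namespace BDP

namespace Proc

open Finset Classical Hub

variable {V Z : Type} [Fintype V] [Nonempty V] [Fintype Z]

namespace Data

variable {P : Data V Z} {δ : ℕ → ℝ} {β r : ℕ → ℕ}

/-- The adversaries of a cluster come before the vertex of the cluster. -/
lemma adv_good (h : P.Good δ β r) {k : ℕ} (hk : k < P.J) {C : Set V} {v : V}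
    (hC : C.ncard ≤ P.n k) (hv : v ∈ C) (hD : v ∉ P.D k) {z : V}
    (hz : z ∈ P.adv k (P.clus k C v)) :
    P.e z < P.e v ∧ ∃ w ∈ C, P.e z < P.e w ∧ P.G.Adj z w ∧ ¬(P.L (k + 1)).Adj z w := by
  have h1 : P.clus k C v ⊆ C \ P.D k := cmp_subset (show v ∈ C \ P.D k from ⟨hv, hD⟩)
  obtain ⟨_, h2, _, h4⟩ := h.clu k hk (P.clus k C v) (conn_cmp _ _)
    ((Set.ncard_le_ncard (h1.trans Set.sdiff_subset) (Set.toFinite _)).trans hC)
    (Set.disjoint_left.2 fun w hw => (h1 hw).2)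
  refine ⟨h2 z hz v (mem_cmp_self _ _), ?_⟩
  have h5 := hz
  rw [adv, mem_filter] at h5
  obtain ⟨_, w, hw, h6, h7, _⟩ := h5
  exact ⟨w, (h1 hw).1, h6, h7, h4 z hz w hw h7⟩

lemma und_local (h : P.Good δ β r) {k : ℕ} (hk : k < P.J) {η η' : V → P.Sd k} {v : V}
    (hη : ∀ w, Near (P.L k) (P.n k + P.ρ k) v w → η w = η' w) :
    P.Und k η v ↔ P.Und k η' v :=
  ⟨Far.hit_local (h.sch k hk) hη, Far.hit_local (h.sch k hk) fun w hw => (hη w hw).symm⟩

theorem ur_local (h : P.Good δ β r) {x x' : P.Om} {k : ℕ} (m : ℕ) (c : Z) {C : Set V} {v : V}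
    (hC : ∀ y ∈ C, Near (P.L k) (P.n k) v y)
    (hx : ∀ i : P.I, k < (i.1 : ℕ) → Near (P.L i.1) (P.rad i.1) v i.2 → x i = x' i) :
    C ⊆ P.Ur x c k m ↔ C ⊆ P.Ur x' c k m := by
  have h1 : ∀ y ∈ C, (y ∈ P.Ur x c k m ↔ y ∈ P.Ur x' c k m) := by
    intro y hy
    refine forall_congr' fun i => forall_congr' fun hi => forall_congr' fun _ => ?_
    refine und_local h i.2 fun w hw => ?_
    have h2 : Near (P.L i) (P.n i) v y :=
      ((hC y hy).of_le (h.Lmono hi.le)).mono (h.nmono hi.le)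
    have h3 : Near (P.L i) (P.rad i) v w := (h2.trans hw).mono (by unfold rad; omega)
    exact congrFun (hx (i, w) hi h3) c
  exact ⟨fun h2 y hy => (h1 y hy).1 (h2 hy), fun h2 y hy => (h1 y hy).2 (h2 hy)⟩

lemma lists_local {x x' : P.Om} {S S' : V → ℕ → Finset Z} {k : ℕ} {C K : Set V}
    (hU : ∀ c, C ⊆ P.Ur x c k P.J ↔ C ⊆ P.Ur x' c k P.J) (hS : ∀ z ∈ P.adv k K, S z = S' z) :
    P.lists x S k C K = P.lists x' S' k C K := by
  funext y
  unfold lists
  by_cases hy : y ∈ K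
  · rw [if_pos hy, if_pos hy]
    congr 1
    · exact filter_congr fun c _ => hU c
    · refine biUnion_congr rfl fun z hz => ?_
      rw [hS z (mem_filter.1 hz).1]
  · rw [if_neg hy, if_neg hy]

lemma tic_local {x x' : P.Om} {S S' : V → ℕ → Finset Z} {k : ℕ} (c : Z) {C : Set V} {v : V}
    (hU : ∀ c, C ⊆ P.Ur x c k P.J ↔ C ⊆ P.Ur x' c k P.J)
    (hS : v ∉ P.D k → ∀ z ∈ P.adv k (P.clus k C v), S z = S' z) :
    P.tic x S k c C v = P.tic x' S' k c C v := by
  unfold tic
  by_cases hD : v ∈ P.D k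
  · rw [if_neg fun h1 => h1.1 hD, if_neg fun h1 => h1.1 hD]
  · rw [lists_local hU (hS hD)]
    exact if_congr (and_congr Iff.rfl (hU c)) rfl rfl

/-- The colours of `v` on level `k` depend only on the seeds near `v` on the levels from `k` on and
on the sets of the adversaries. -/
theorem tick_local (h : P.Good δ β r) {x x' : P.Om} {S S' : V → ℕ → Finset Z} {k : ℕ} {v : V}
    (hx : ∀ i : P.I, k ≤ (i.1 : ℕ) → Near (P.L i.1) (P.rad i.1) v i.2 → x i = x' i)
    (hS : k < P.J → ∀ z w, P.G.Adj z w → P.e z < P.e w → ¬(P.L (k + 1)).Adj z w →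
      Near (P.L k) (P.n k) v w → P.e z < P.e v → S z = S' z) :
    P.tick x S k v = P.tick x' S' k v := by
  unfold tick
  by_cases hk : k < P.J
  · rw [dif_pos hk, dif_pos hk]
    refine filter_congr fun c _ => ?_
    obtain ⟨h1, h2⟩ := Lev.loc (B := P.B k) (h.sch k hk) (η := P.sd x c ⟨k, hk⟩)
      (η' := P.sd x' c ⟨k, hk⟩) (v := v) (fun w hw => congrFun (hx (⟨k, hk⟩, w) le_rfl
        (hw.mono (by unfold rad; show _ ≤ 2 * P.n k + P.ρ k; omega))) c)
    by_cases hv : v ∈ Lev.Xs (P.X k) (P.sd x c ⟨k, hk⟩)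
    · exact iff_of_false (fun h3 => h3.2.1 hv) (fun h3 => h3.2.1 (h1.1 hv))
    · obtain ⟨h3, h4⟩ := h2 hv
      have h5 := Lev.comp_card (h.sch k hk) hv
      have h6 : ∀ y ∈ Lev.comp (P.L k) (P.X k) (P.sd x c ⟨k, hk⟩) v, Near (P.L k) (P.n k) v y :=
        fun y hy => Lev.comp_near (h.sch k hk) hv hy
      have h7 : P.tic x S k c (Lev.comp (P.L k) (P.X k) (P.sd x c ⟨k, hk⟩) v) v =
          P.tic x' S' k c (Lev.comp (P.L k) (P.X k) (P.sd x c ⟨k, hk⟩) v) v := by
        refine tic_local c (fun c' => ur_local h P.J c' h6 fun i hi => hx i hi.le) fun hD z hz => ?_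
        obtain ⟨h8, w, hw, h9, h10, h11⟩ := adv_good h hk h5 (Lev.self_mem v) hD hz
        exact hS hk z w h10 h9 h11 (h6 w hw) h8
      constructor
      · intro h8
        refine ⟨Set.mem_univ _, fun h9 => hv (h1.2 h9), ?_⟩
        have h10 : Lev.mark (P.L k) (P.X k) (P.sd x c ⟨k, hk⟩) v ∈
          P.tic x S k c (Lev.comp (P.L k) (P.X k) (P.sd x c ⟨k, hk⟩) v) v := h8.2.2
        rw [h7, h3, h4] at h10
        exact h10
      · intro h8
        refine ⟨Set.mem_univ _, hv, ?_⟩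
        have h10 : Lev.mark (P.L k) (P.X k) (P.sd x' c ⟨k, hk⟩) v ∈
          P.tic x' S' k c (Lev.comp (P.L k) (P.X k) (P.sd x' c ⟨k, hk⟩) v) v := h8.2.2
        rw [← h3, ← h4, ← h7] at h10
        exact h10
  · rw [dif_neg hk, dif_neg hk]

theorem tick_congr (h : P.Good δ β r) {x : P.Om} {S S' : V → ℕ → Finset Z} {v : V} (k : ℕ)
    (hS : ∀ z, P.e z < P.e v → S z = S' z) : P.tick x S k v = P.tick x S' k v :=
  tick_local h (fun _ _ _ => rfl) fun _ z _ _ _ _ _ hz => hS z hz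

/-- The approximations to the result. -/
noncomputable def app (P : Data V Z) (x : P.Om) : ℕ → V → ℕ → Finset Z
  | 0 => fun _ _ => ∅
  | n + 1 => fun v k => cut (P.b k) (P.tick x (app P x n) k v)

theorem exists_res (h : P.Good δ β r) (x : P.Om) : ∃ S, P.IsRes x S := by
  have h1 : ∀ n v, P.e v < n → app P x n v = app P x (n + 1) v := by
    intro n
    induction n with
    | zero => intro v hv; omega
    | succ n ih =>
      intro v hv
      funext k
      show cut (P.b k) (P.tick x (app P x n) k v) = cut (P.b k) (P.tick x (app P x (n + 1)) k v)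
      rw [tick_congr h k fun z hz => ih z (by omega)]
  refine ⟨app P x (univ.sup P.e + 1), fun v k => ?_⟩
  have h2 : P.e v < univ.sup P.e + 1 := Nat.lt_succ_of_le (le_sup (mem_univ v))
  exact congrFun (h1 _ v h2) k

lemma tau_le {k : ℕ} {v u : V} (hu : Near (P.L k) (r k) v u) : P.tau r k v ≤ P.e u :=
  inf'_le P.e (mem_filter.2 ⟨mem_univ _, hu⟩)

lemma exists_tau (k : ℕ) (v : V) : ∃ u, Near (P.L k) (r k) v u ∧ P.tau r k v = P.e u := by
  obtain ⟨u, hu, h1⟩ := exists_mem_eq_inf' (s := univ.filter fun u => Near (P.L k) (r k) v u)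
    ⟨v, by
      rw [mem_filter]
      exact ⟨mem_univ _, .nil, by simp⟩⟩ P.e
  exact ⟨u, (mem_filter.1 hu).2, h1⟩

theorem res_local (h : P.Good δ β r) {x x' : P.Om} {S S' : V → ℕ → Finset Z}
    (hS : P.IsRes x S) (hS' : P.IsRes x' S') (z : V)
    (hx : ∀ i : P.I, P.tau r i.1 i.2 ≤ P.e z → x i = x' i) : S z = S' z := by
  have h1 : ∀ n, ∀ z, P.e z < n → (∀ i : P.I, P.tau r i.1 i.2 ≤ P.e z → x i = x' i) →
      S z = S' z := by
    intro n
    induction n with
    | zero => intro z hz; omega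
    | succ n ih =>
      intro z hz hx
      funext k
      rw [hS z k, hS' z k]
      congr 1
      refine tick_local h (fun i _ hi => hx i (tau_le (hi.symm.mono (h.r_rad _)))) ?_
      intro _ z' _ _ _ _ _ hz'
      exact ih z' (by omega) fun i hi => hx i (hi.trans hz'.le)
  exact h1 _ z (Nat.lt_succ_self _) hx

end Data

end Proc

end BDP
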