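import Mathlib

/-!
# Sequential fixing of variables
-/

set_option linter.unusedSectionVars false

namespace BDP

namespace Seq

open Finset Classical

variable {I : Type} [Fintype I] [DecidableEq I] {Om : I → Type} [∀ i, Fintype (Om i)]

/-- Averaging over the value of one variable. -/
lemma card_update (P : (∀ i, Om i) → Prop) (i : I) :
    ∑ a : Om i, (univ.filter fun z : ∀ i, Om i => P (Function.update z i a)).card =
      Fintype.card (Om i) * (univ.filter P).card := by
  have h1 : ∑ a : Om i, (univ.filter fun z : ∀ i, Om i => P (Function.update z i a)).card =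
      ((univ : Finset (Om i × (∀ i, Om i))).filter
        fun p => P (Function.update p.2 i p.1)).card := by
    rw [card_filter, ← univ_product_univ, sum_product]
    refine sum_congr rfl fun a _ => ?_
    rw [card_filter]
  have h2 : Fintype.card (Om i) * (univ.filter P).card =
      ((univ : Finset (Om i × (∀ i, Om i))).filter fun p => P p.2).card := by
    rw [card_filter, card_filter, ← univ_product_univ, sum_product]
    show _ = ∑ _a : Om i, ∑ z, if P z then 1 else 0
    rw [sum_const, card_univ, smul_eq_mul]
  rw [h1, h2]
  refine card_nbij' (fun p => (p.2 i, Function.update p.2 i p.1))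
    (fun p => (p.2 i, Function.update p.2 i p.1)) ?_ ?_ ?_ ?_
  · intro p hp
    rw [mem_coe, mem_filter] at hp ⊢
    exact ⟨mem_univ _, hp.2⟩
  · intro p hp
    rw [mem_coe, mem_filter] at hp ⊢
    refine ⟨mem_univ _, ?_⟩
    show P (Function.update (Function.update p.2 i p.1) i (p.2 i))
    rw [Function.update_idem, Function.update_eq_self]
    exact hp.2
  · intro p _
    ext1
    · exact Function.update_self i p.1 p.2
    · show Function.update (Function.update p.2 i p.1) i (p.2 i) = p.2
      rw [Function.update_idem, Function.update_eq_self]
  · intro p _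
    ext1
    · exact Function.update_self i p.1 p.2
    · show Function.update (Function.update p.2 i p.1) i (p.2 i) = p.2
      rw [Function.update_idem, Function.update_eq_self]

lemma insert_piecewise_update {R : Finset I} {i : I} (hi : i ∉ R) (x z : ∀ i, Om i) (a : Om i) :
    (insert i R).piecewise (Function.update x i a) z = R.piecewise x (Function.update z i a) := by
  funext j
  by_cases hj : j = i
  · subst hj
    rw [piecewise_eq_of_mem _ _ _ (mem_insert_self _ _), piecewise_eq_of_notMem _ _ _ hi,
      Function.update_self, Function.update_self]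
  · by_cases hR : j ∈ R
    · rw [piecewise_eq_of_mem _ _ _ (mem_insert_of_mem hR), piecewise_eq_of_mem _ _ _ hR,
        Function.update_of_ne hj]
    · rw [piecewise_eq_of_notMem _ _ _ (by rw [mem_insert]; tauto),
        piecewise_eq_of_notMem _ _ _ hR, Function.update_of_ne hj]

variable {E : Type} [Fintype E]

/-- Sequential fixing: bad events of small conditional probability given their environments can be
avoided by fixing the variables one by one in the order `t`. -/
theorem seq_fix [∀ i, Nonempty (Om i)] (Bad : E → (∀ i, Om i) → Prop) (N Env : E → Finset I)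
    (t : I → ℕ) (henv : ∀ e, ∀ i ∈ Env e, ∀ i' ∈ N e, t i < t i')
    (hloc : ∀ e x y, (∀ i ∈ N e, x i = y i) → (∀ i ∈ Env e, x i = y i) → Bad e x → Bad e y)
    {q : ℝ} (hq : 0 ≤ q)
    (hprob : ∀ e x, ((univ.filter fun z : ∀ i, Om i => Bad e ((N e).piecewise z x)).card : ℝ) ≤
      q * Fintype.card (∀ i, Om i))
    {k M : ℕ} (hM : ∀ e, (N e).card ≤ M) (hk : ∀ i, (univ.filter fun e => i ∈ N e).card ≤ k)
    (hq1 : q * (k + 1) ^ M < 1) : ∃ x, ∀ e, ¬Bad e x := by
  have hdis : ∀ e, ∀ i ∈ Env e, i ∉ N e := fun e i hi hi' => lt_irrefl _ (henv e i hi i hi')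
  -- events with no revealed variable
  have hfresh : ∀ e (R : Finset I) x, Env e ⊆ R → (∀ i ∈ N e, i ∉ R) →
      ((univ.filter fun z : ∀ i, Om i => Bad e (R.piecewise x z)).card : ℝ) ≤
        q * Fintype.card (∀ i, Om i) := by
    intro e R x hR hN
    refine le_trans ?_ (hprob e x)
    rw [Nat.cast_le]
    refine card_le_card fun z hz => ?_
    rw [mem_filter] at hz ⊢
    refine ⟨mem_univ _, hloc e _ _ (fun i hi => ?_) (fun i hi => ?_) hz.2⟩
    · rw [piecewise_eq_of_notMem _ _ _ (hN i hi), piecewise_eq_of_mem _ _ _ hi]
    · rw [piecewise_eq_of_mem _ _ _ (hR hi), piecewise_eq_of_notMem _ _ _ (hdis e i hi)]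
  have key : ∀ n ≤ Fintype.card I, ∃ R : Finset I, R.card = n ∧ (∀ r ∈ R, ∀ s ∉ R, t r ≤ t s) ∧
      ∃ x : ∀ i, Om i, ∀ e, Env e ⊆ R →
        ((univ.filter fun z : ∀ i, Om i => Bad e (R.piecewise x z)).card : ℝ) ≤
          q * (k + 1) ^ (N e ∩ R).card * Fintype.card (∀ i, Om i) := by
    intro n
    induction n with
    | zero =>
      intro _
      refine ⟨∅, card_empty, fun r hr => absurd hr (notMem_empty r),
        fun i => Classical.arbitrary _, fun e he => ?_⟩
      rw [inter_empty, card_empty, pow_zero, mul_one]
      exact hfresh e ∅ _ he fun i _ => notMem_empty i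
    | succ n ih =>
      intro hn
      obtain ⟨R, hRc, hRt, x, hx⟩ := ih (by omega)
      -- the next variable
      have hne : (univ \ R).Nonempty := by
        rw [← card_pos, card_univ_sdiff, hRc]
        omega
      obtain ⟨i, hi, hmin⟩ := exists_min_image (univ \ R) t hne
      rw [mem_sdiff] at hi
      have hiR : i ∉ R := hi.2
      have hmin' : ∀ s, s ∉ R → t i ≤ t s := fun s hs =>
        hmin s (mem_sdiff.2 ⟨mem_univ _, hs⟩)
      set A : Finset E := univ.filter fun e => i ∈ N e with hA
      have hAe : ∀ e ∈ A, Env e ⊆ R := by
        intro e he j hj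
        by_contra hjR
        have h1 := henv e j hj i (mem_filter.1 he).2
        have h2 := hmin' j hjR
        omega
      -- the number of values that are bad for one event
      let c : E → Om i → ℝ := fun e a =>
        ((univ.filter fun z : ∀ i, Om i =>
          Bad e (R.piecewise x (Function.update z i a))).card : ℝ)
      let T : ℝ := Fintype.card (∀ i, Om i)
      have hT : 0 < T := by
        show (0 : ℝ) < Fintype.card (∀ i, Om i)
        exact_mod_cast Fintype.card_pos
      let B : E → Finset (Om i) := fun e => univ.filter fun a =>
        q * (k + 1) ^ ((N e ∩ R).card + 1) * T < c e a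
      have hB : ∀ e ∈ A, ((B e).card : ℝ) * (k + 1) ≤ Fintype.card (Om i) := by
        intro e he
        have h1 : ∑ a : Om i, c e a = Fintype.card (Om i) *
            ((univ.filter fun z : ∀ i, Om i => Bad e (R.piecewise x z)).card : ℝ) := by
          have := card_update (fun z : ∀ i, Om i => Bad e (R.piecewise x z)) i
          have h2 := congrArg (fun m : ℕ => (m : ℝ)) this
          simp only [Nat.cast_sum, Nat.cast_mul] at h2
          exact h2
        have h2 := hx e (hAe e he)
        have h3 : ∑ a ∈ B e, c e a ≤ ∑ a : Om i, c e a :=
          sum_le_sum_of_subset_of_nonneg (subset_univ _) fun a _ _ => Nat.cast_nonneg _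
        have h4 : ((B e).card : ℝ) * (q * (k + 1) ^ ((N e ∩ R).card + 1) * T) ≤
            ∑ a ∈ B e, c e a := by
          rw [← nsmul_eq_mul]
          exact card_nsmul_le_sum _ _ _ fun a ha => (mem_filter.1 ha).2.le
        have hp : 0 ≤ q * (k + 1) ^ (N e ∩ R).card * T := by positivity
        rcases hp.eq_or_lt with h0 | hpos
        · -- no value is bad
          have h5 : (B e) = ∅ := by
            rw [eq_empty_iff_forall_notMem]
            intro a ha
            have h6 := (mem_filter.1 ha).2
            have h7 : ∑ a : Om i, c e a ≤ 0 := by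
              rw [h1]
              have : ((univ.filter fun z : ∀ i, Om i => Bad e (R.piecewise x z)).card : ℝ) ≤ 0 := by
                rw [h0]
                exact h2
              exact mul_nonpos_of_nonneg_of_nonpos (Nat.cast_nonneg _) this
            have h8 : c e a ≤ ∑ a : Om i, c e a :=
              single_le_sum (f := c e) (fun b _ => Nat.cast_nonneg _) (mem_univ a)
            have h9 : 0 ≤ q * (k + 1) ^ ((N e ∩ R).card + 1) * T := by positivity
            linarith
          rw [h5, card_empty, Nat.cast_zero, zero_mul]
          exact Nat.cast_nonneg _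
        · have h5 : ((B e).card : ℝ) * (k + 1) * (q * (k + 1) ^ (N e ∩ R).card * T) ≤
              Fintype.card (Om i) * (q * (k + 1) ^ (N e ∩ R).card * T) := by
            have h6 : ((B e).card : ℝ) * (k + 1) * (q * (k + 1) ^ (N e ∩ R).card * T) =
                ((B e).card : ℝ) * (q * (k + 1) ^ ((N e ∩ R).card + 1) * T) := by ring
            rw [h6]
            refine (h4.trans h3).trans ?_
            rw [h1]
            exact mul_le_mul_of_nonneg_left h2 (Nat.cast_nonneg _)
          exact le_of_mul_le_mul_right h5 hpos
      -- a good value
      obtain ⟨a, ha⟩ : ∃ a : Om i, ∀ e ∈ A, a ∉ B e := by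
        by_contra hcon
        push Not at hcon
        have h1 : (univ : Finset (Om i)) ⊆ A.biUnion B := by
          intro a _
          obtain ⟨e, he, hae⟩ := hcon a
          exact mem_biUnion.2 ⟨e, he, hae⟩
        have h2 : (Fintype.card (Om i) : ℝ) ≤ ∑ e ∈ A, ((B e).card : ℝ) := by
          have := (card_le_card h1).trans card_biUnion_le
          rw [card_univ] at this
          exact_mod_cast this
        have h3 : (∑ e ∈ A, ((B e).card : ℝ)) * (k + 1) ≤ k * Fintype.card (Om i) := by
          rw [sum_mul]
          refine (sum_le_sum hB).trans ?_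
          rw [sum_const, nsmul_eq_mul]
          refine mul_le_mul_of_nonneg_right ?_ (Nat.cast_nonneg _)
          exact_mod_cast hk i
        have h4 : (0 : ℝ) < Fintype.card (Om i) := by exact_mod_cast Fintype.card_pos
        have h5 : (0 : ℝ) ≤ k := Nat.cast_nonneg _
        nlinarith
      refine ⟨insert i R, by rw [card_insert_of_notMem hiR, hRc], ?_,
        Function.update x i a, fun e he => ?_⟩
      · intro r hr s hs
        have hs' : s ∉ R := fun h => hs (mem_insert_of_mem h)
        rcases mem_insert.1 hr with rfl | hr
        · exact hmin' s hs'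
        · exact hRt r hr s hs'
      · have hset : (univ.filter fun z : ∀ i, Om i =>
            Bad e ((insert i R).piecewise (Function.update x i a) z)) =
            univ.filter fun z : ∀ i, Om i =>
              Bad e (R.piecewise x (Function.update z i a)) := by
          refine filter_congr fun z _ => ?_
          rw [insert_piecewise_update hiR]
        by_cases hiN : i ∈ N e
        · have heA : e ∈ A := mem_filter.2 ⟨mem_univ _, hiN⟩
          have h1 := ha e heA
          have h2 : ¬q * (k + 1) ^ ((N e ∩ R).card + 1) * T < c e a := fun h =>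
            h1 (mem_filter.2 ⟨mem_univ _, h⟩)
          have h3 : (N e ∩ insert i R).card = (N e ∩ R).card + 1 := by
            rw [inter_insert_of_mem hiN, card_insert_of_notMem]
            exact fun h => hiR (mem_inter.1 h).2
          rw [h3, hset]
          exact not_lt.1 h2
        · have h3 : N e ∩ insert i R = N e ∩ R := inter_insert_of_notMem hiN
          by_cases hiE : i ∈ Env e
          · -- the event is fresh
            have h4 : ∀ j ∈ N e, j ∉ insert i R := by
              intro j hj hjR
              have h5 := henv e i hiE j hj
              rcases mem_insert.1 hjR with rfl | hjR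
              · exact lt_irrefl _ h5
              · have h6 := hRt j hjR i hiR
                omega
            have h5 : (N e ∩ insert i R).card = 0 := by
              rw [card_eq_zero, eq_empty_iff_forall_notMem]
              intro j hj
              exact h4 j (mem_inter.1 hj).1 (mem_inter.1 hj).2
            rw [h5, pow_zero, mul_one]
            exact hfresh e _ _ he h4
          · have h4 : Env e ⊆ R := fun j hj => by
              rcases mem_insert.1 (he hj) with rfl | h
              · exact absurd hj hiE
              · exact h
            rw [h3, hset]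
            refine le_trans ?_ (hx e h4)
            rw [Nat.cast_le]
            refine card_le_card fun z hz => ?_
            rw [mem_filter] at hz ⊢
            refine ⟨mem_univ _, hloc e _ _ (fun j hj => ?_) (fun j hj => ?_) hz.2⟩
            · have hji : j ≠ i := fun h => hiN (h ▸ hj)
              by_cases hjR : j ∈ R
              · rw [piecewise_eq_of_mem _ _ _ hjR, piecewise_eq_of_mem _ _ _ hjR]
              · rw [piecewise_eq_of_notMem _ _ _ hjR, piecewise_eq_of_notMem _ _ _ hjR,
                  Function.update_of_ne hji]
            · have hjR := h4 hj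
              rw [piecewise_eq_of_mem _ _ _ hjR, piecewise_eq_of_mem _ _ _ hjR]
  obtain ⟨R, hRc, -, x, hx⟩ := key (Fintype.card I) le_rfl
  have hR : R = univ := (card_eq_iff_eq_univ R).1 hRc
  subst hR
  refine ⟨x, fun e he => ?_⟩
  have h1 := hx e (subset_univ _)
  have h2 : (univ.filter fun z : ∀ i, Om i => Bad e ((univ : Finset I).piecewise x z)) = univ := by
    rw [filter_eq_self]
    intro z _
    rw [piecewise_univ]
    exact he
  rw [h2, card_univ, inter_univ] at h1
  have hT : (0 : ℝ) < Fintype.card (∀ i, Om i) := by exact_mod_cast Fintype.card_pos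
  have h3 : q * (k + 1) ^ (N e).card ≤ q * (k + 1) ^ M := by
    refine mul_le_mul_of_nonneg_left (pow_le_pow_right₀ ?_ (hM e)) hq
    have : (0 : ℝ) ≤ k := Nat.cast_nonneg _
    linarith
  have h4 : q * (k + 1) ^ (N e).card * (Fintype.card (∀ i, Om i) : ℝ) <
      1 * Fintype.card (∀ i, Om i) :=
    mul_lt_mul_of_pos_right (h3.trans_lt hq1) hT
  rw [one_mul] at h4
  exact absurd h1 (not_le.2 h4)

end Seq

end BDP
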