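import Pool.Agent.Work.MP_0890ba_co.BD.Hub

/-!
# Small counting lemmas
-/

set_option linter.unusedSectionVars false

namespace BDP

namespace Hub

open Finset Classical

/-- Subsets of prescribed total size. -/
lemma trim {Ω : Type} [Fintype Ω] (S : Ω → Finset ℤ) {m : ℕ} (h : m ≤ ∑ ω, (S ω).card) :
    ∃ T : Ω → Finset ℤ, (∀ ω, T ω ⊆ S ω) ∧ ∑ ω, (T ω).card = m := by
  rw [← card_sigma] at h
  obtain ⟨t, ht, hm⟩ := exists_subset_card_eq h
  refine ⟨fun ω => (S ω).filter fun c => (⟨ω, c⟩ : (_ : Ω) × ℤ) ∈ t, fun ω => filter_subset _ _, ?_⟩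
  rw [← hm, ← card_sigma]
  congr 1
  ext ⟨ω, c⟩
  rw [mem_sigma, mem_filter]
  constructor
  · exact fun h' => h'.2.2
  · intro h'
    exact ⟨mem_univ _, (mem_sigma.1 (ht h')).2, h'⟩

/-- A matching, from large degrees. -/
lemma match_inj {P Ω : Type} [Fintype P] [Fintype Ω] {R : P → Ω → Prop}
    (h : ∀ p, Fintype.card P ≤ (univ.filter fun ω => R p ω).card) :
    ∃ ι : P → Ω, Function.Injective ι ∧ ∀ p, R p (ι p) := by
  obtain ⟨f, hf, hf'⟩ := (all_card_le_biUnion_card_iff_exists_injective
    (fun p : P => univ.filter fun ω => R p ω)).1 (by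
      intro s
      rcases s.eq_empty_or_nonempty with hs | ⟨p, hp⟩
      · rw [hs, card_empty]
        exact Nat.zero_le _
      · refine (card_le_univ s).trans ((h p).trans (card_le_card ?_))
        exact subset_biUnion_of_mem (fun p : P => univ.filter fun ω => R p ω) hp)
  exact ⟨f, hf, fun p => (mem_filter.1 (hf' p)).2⟩

/-- The number of maps with two prescribed values. -/
lemma count_fix {I : Type} [Fintype I] (r r' : I) (a a' : Fin 3) (h : r = r' → a = a') :
    3 ^ Fintype.card I ≤ 9 * (univ.filter fun t : I → Fin 3 => t r = a ∧ t r' = a').card := by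
  let f : (I → Fin 3) → (Fin 3 × Fin 3) × {t : I → Fin 3 // t r = a ∧ t r' = a'} := fun t =>
    ((t r, t r'), ⟨Function.update (Function.update t r a) r' a', by
      constructor
      · by_cases hr : r = r'
        · subst hr
          rw [Function.update_self]
          exact (h rfl).symm
        · rw [Function.update_of_ne hr, Function.update_self]
      · rw [Function.update_self]⟩)
  have hf : Function.Injective f := by
    intro t t' htt
    have h1 : t r = t' r := congrArg (fun q => q.1.1) htt
    have h2 : t r' = t' r' := congrArg (fun q => q.1.2) htt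
    have h3 : Function.update (Function.update t r a) r' a' =
        Function.update (Function.update t' r a) r' a' :=
      congrArg (fun q => q.2.1) htt
    funext i
    by_cases hi' : i = r'
    · rw [hi', h2]
    · by_cases hi : i = r
      · rw [hi, h1]
      · have h4 := congrFun h3 i
        rw [Function.update_of_ne hi', Function.update_of_ne hi, Function.update_of_ne hi',
          Function.update_of_ne hi] at h4
        exact h4
  have h1 := Fintype.card_le_of_injective f hf
  rw [Fintype.card_prod, Fintype.card_prod, Fintype.card_fin, Fintype.card_fun, Fintype.card_fin,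
    Fintype.card_subtype] at h1
  exact h1

/-- Repeating colourings. -/
lemma pad {V : Type} {G : SimpleGraph V} {K : Set V} {A : V → Finset ℤ} {Ω : Type} [Fintype Ω]
    (S : Ω → V → Finset ℤ)
    (hS : ∀ ω, SetCol G K A (S ω)) {N k : ℕ} (hN : N = k * Fintype.card Ω) (hk : 0 < k) :
    ∃ S' : Fin N → V → Finset ℤ, (∀ ω, SetCol G K A (S' ω)) ∧
      ∀ v, ∑ ω, (S' ω v).card = k * ∑ ω, (S ω v).card := by
  have hc : Fintype.card (Fin N) = Fintype.card (Fin k × Ω) := by
    rw [Fintype.card_fin, Fintype.card_prod, Fintype.card_fin, hN]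
  let e : Fin N ≃ Fin k × Ω := Fintype.equivOfCardEq hc
  refine ⟨fun i => S (e i).2, fun i => hS _, fun v => ?_⟩
  rw [Fintype.sum_equiv e (fun i => (S (e i).2 v).card) (fun p => (S p.2 v).card) fun _ => rfl,
    Fintype.sum_prod_type]
  simp

/-- Pairs of a colour and an index are coded by colours. -/
lemma exists_enc {Ω : Type} [Fintype Ω] : ∃ enc : ℤ × Ω → ℤ, Function.Injective enc := by
  obtain ⟨f, hf⟩ := exists_injective_nat (ℤ × Ω)
  exact ⟨fun p => (f p : ℤ), fun p q h => hf (Int.ofNat.inj h)⟩

end Hub

end BDP
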