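import Pool.Agent.Work.MP_0890ba_co.Defs

/-!
# Multiple list colouring of graphs of bounded degree: definitions
-/

namespace Pool.Agent.Work.MP_0890ba_co

/-- `G` has the complete bipartite graph with parts of `3` and `n` vertices as a minor: there are
`3 + n` connected nonempty vertex sets `B i`, `A j`, pairwise disjoint, with an edge between `B i`
and `A j` for all `i`, `j`. -/
def HasK3Minor {V : Type} (n : ℕ) (G : SimpleGraph V) : Prop :=
  ∃ (B : Fin 3 → Set V) (A : Fin n → Set V),
    (∀ i, (G.induce (B i)).Connected) ∧ (∀ j, (G.induce (A j)).Connected) ∧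
    (∀ i i', i ≠ i' → Disjoint (B i) (B i')) ∧ (∀ j j', j ≠ j' → Disjoint (A j) (A j')) ∧
    (∀ i j, Disjoint (B i) (A j)) ∧ ∀ i j, ∃ x ∈ B i, ∃ y ∈ A j, G.Adj x y

/-- The fractional chromatic number of `G` is at most `r`: for some positive integer `N` and some
`M ≤ r N` there are sets `φ v` of `N` of the `M` colours, disjoint for adjacent vertices. -/
def FracColourable {V : Type} (G : SimpleGraph V) (r : ℝ) : Prop :=
  ∃ (M N : ℕ) (φ : V → Finset (Fin M)), 0 < N ∧ (M : ℝ) ≤ r * N ∧ (∀ v, (φ v).card = N) ∧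
    ∀ u v, G.Adj u v → Disjoint (φ u) (φ v)

end Pool.Agent.Work.MP_0890ba_co

namespace BDP

variable {V : Type}

/-- The graph on the same vertices with the edges of `G` which have both ends in `W`. -/
def res (G : SimpleGraph V) (W : Set V) : SimpleGraph V where
  Adj u v := G.Adj u v ∧ u ∈ W ∧ v ∈ W
  symm := ⟨fun _ _ h => ⟨h.1.symm, h.2.2, h.2.1⟩⟩
  loopless := ⟨fun v h => G.loopless.irrefl v h.1⟩

/-- Any two vertices of `K` are joined by a walk inside `K`. -/
def Conn (G : SimpleGraph V) (K : Set V) : Prop := ∀ x ∈ K, ∀ y ∈ K, (res G K).Reachable x y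

/-- There is a walk of length at most `ρ`. -/
def Near (G : SimpleGraph V) (ρ : ℕ) (v w : V) : Prop := ∃ p : G.Walk v w, p.length ≤ ρ

/-- A local random set `X`: `ω : V → A` is uniform, membership of `v` in `X ω` depends only on `ω`
at distance at most `ρ` of `v` and has probability at most `δ`, and the connected subsets of `U`
which avoid `X ω` have at most `S` elements. -/
structure IsScheme [Fintype V] [DecidableEq V] (G : SimpleGraph V) (A : Type) [Fintype A]
    (U : Set V) (δ : ℝ) (S ρ : ℕ) (X : (V → A) → Set V) : Prop where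
  loc : ∀ v ω ω', (∀ w, Near G ρ v w → ω w = ω' w) → v ∈ X ω → v ∈ X ω'
  prob : ∀ v, (({ω : V → A | v ∈ X ω} : Set (V → A)).ncard : ℝ) ≤ δ * Fintype.card (V → A)
  frag : ∀ ω K, Conn G K → K ⊆ U → Disjoint K (X ω) → K.ncard ≤ S

end BDP
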