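import Pool.Agent.Work.MP_0890ba_co.BD.Gen

/-!
# Vertices of large degree which are far apart
-/

set_option linter.unusedSectionVars false

namespace BDP

namespace Far

open Finset Classical Pool.Agent.Work.MP_0890ba_co

/-- Tickets: `k0` for each colour of a given class of `N` colours, `k1` for every other colour. -/
abbrev Tk (M N k0 k1 : ℕ) : Type := (Fin N × Fin k0) ⊕ (Fin (M - N) × Fin k1)

lemma card_tk (M N k0 k1 : ℕ) : Fintype.card (Tk M N k0 k1) = N * k0 + (M - N) * k1 := by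
  simp [Tk]

lemma sum_tk {M N : ℕ} {k0 k1 : ℕ} {P : Finset (Fin M)} (e0 : Fin N ≃ P)
    (e1 : Fin (M - N) ≃ (Pᶜ : Finset (Fin M))) (g : Fin M → ℕ) :
    ∑ t : Tk M N k0 k1, g (Sum.elim (fun t => (e0 t.1 : Fin M)) (fun t => (e1 t.1 : Fin M)) t) =
      k0 * ∑ y ∈ P, g y + k1 * ∑ y ∈ Pᶜ, g y := by
  rw [Fintype.sum_sum_type, Fintype.sum_prod_type, Fintype.sum_prod_type]
  simp only [Sum.elim_inl, Sum.elim_inr, sum_const, card_univ, Fintype.card_fin, smul_eq_mul]
  rw [← mul_sum, ← mul_sum, Equiv.sum_comp e0 (fun y : P => g (y : Fin M)),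
    Equiv.sum_comp e1 (fun y : (Pᶜ : Finset (Fin M)) => g (y : Fin M)),
    Finset.sum_coe_sort P g, Finset.sum_coe_sort (Pᶜ) g]

lemma exists_cls {M N : ℕ} (k0 k1 : ℕ) (P : Finset (Fin M)) (hP : P.card = N) :
    ∃ cls : Tk M N k0 k1 → Fin M, ∀ F : Finset (Fin M),
      (univ.filter fun t => cls t ∈ F).card = k0 * (F ∩ P).card + k1 * (F \ P).card := by
  have hP' : (Pᶜ).card = M - N := by rw [card_compl, hP, Fintype.card_fin]
  let e0 : Fin N ≃ P := (P.equivFinOfCardEq hP).symm
  let e1 : Fin (M - N) ≃ (Pᶜ : Finset (Fin M)) := ((Pᶜ).equivFinOfCardEq hP').symm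
  refine ⟨Sum.elim (fun t => (e0 t.1 : Fin M)) (fun t => (e1 t.1 : Fin M)), fun F => ?_⟩
  rw [card_filter]
  refine (sum_tk e0 e1 (fun y => if y ∈ F then 1 else 0)).trans ?_
  rw [← card_filter, ← card_filter, filter_mem_eq_inter, filter_mem_eq_inter, inter_comm P F,
    inter_comm Pᶜ F, ← sdiff_eq_inter_compl]

lemma near_of_conn {V : Type} [Fintype V] {G : SimpleGraph V} {K : Set V} {S : ℕ}
    (hK : Conn G K) (hS : K.ncard ≤ S) {v w : V} (hv : v ∈ K) (hw : w ∈ K) : Near G S v w := by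
  have h1 : w ∈ Col.cmp G K v := hK v hv w hw
  obtain ⟨p, hp⟩ := Col.near_of_cmp h1
  refine ⟨p, ?_⟩
  have h2 : (Col.cmp G K v).ncard ≤ K.ncard :=
    Set.ncard_le_ncard (Col.cmp_subset hv) (Set.toFinite _)
  omega

lemma near_res {V : Type} {G : SimpleGraph V} {W : Set V} {k : ℕ} {u v : V}
    (h : Near (res G W) k u v) : Near G k u v := by
  obtain ⟨p, hp⟩ := h
  exact ⟨p.mapLe (Col.res_le G W), by rwa [SimpleGraph.Walk.length_mapLe]⟩

/-- Multiple list colouring when the vertices of `H` are far apart. -/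
theorem far_core {V : Type} [Fintype V] [DecidableEq V] {G : SimpleGraph V} {Δ M N k0 k1 : ℕ}
    {φ : V → Finset (Fin M)} (hφN : ∀ v, (φ v).card = N)
    (hφ : ∀ u v, G.Adj u v → Disjoint (φ u) (φ v)) {H : Set V}
    (hH : ∀ v, v ∉ H → (G.neighborSet v).ncard ≤ Δ) {A : Type} [Fintype A] [Nonempty A]
    {δ : ℝ} {S ρ : ℕ} {X : (V → A) → Set V}
    (hfar : ∀ u ∈ H, ∀ u' ∈ H, u ≠ u' → ¬ Near G (S + 2) u u')
    (hX : IsScheme (res G Hᶜ) A Set.univ δ S ρ X) (hk : k0 ≤ k1)
    (hB : 0 < Fintype.card (Tk M N k0 k1)) {a b : ℕ} (hab : b ≤ a) {x q : ℝ} (hx0 : 0 < x)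
    (hx1 : x < 1) (hq0 : 0 ≤ q)
    (hq1 : 2 * N ≤ M → (1 - (1 - x) * ((1 - δ) * ((k1 * N : ℕ) : ℝ) /
      Fintype.card (Tk M N k0 k1))) ^ (a - b) / x ^ b ≤ q)
    (hq2 : (1 - (1 - x) * ((1 - δ) * ((k0 * N : ℕ) : ℝ) /
      Fintype.card (Tk M N k0 k1))) ^ a / x ^ b ≤ q)
    (h4 : 4 * q * (Δ + 1 : ℝ) ^ (2 * (S + ρ)) ≤ 1) {Z : Type} {L : V → Finset Z}
    (hL : ∀ v, (L v).card = a) :
    ∃ T : V → Finset Z, (∀ v, T v ⊆ L v ∧ (T v).card = b) ∧
      ∀ u v, G.Adj u v → Disjoint (T u) (T v) := by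
  rcases isEmpty_or_nonempty V with hV | hV
  · exact ⟨fun _ => ∅, fun v => (hV.false v).elim, fun v => (hV.false v).elim⟩
  have hV' := hV
  obtain ⟨v0⟩ := hV'
  have : Nonempty (Tk M N k0 k1) := Fintype.card_pos_iff.1 hB
  -- the colours of the vertices of `H`
  have hs : ∀ u, ∃ s ⊆ L u, s.card = b := fun u => exists_subset_card_eq (by rw [hL]; exact hab)
  choose s hs1 hs2 using hs
  -- uniqueness of the neighbour in `H`
  have huniq : ∀ K : Set V, Conn (res G Hᶜ) K → K.ncard ≤ S → ∀ v ∈ K, ∀ w ∈ K, ∀ u ∈ H, ∀ u' ∈ H,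
      G.Adj v u → G.Adj w u' → u = u' := by
    intro K hK hKS v hv w hw u hu u' hu' h1 h2
    by_contra hne
    apply hfar u hu u' hu' hne
    have h3 : Near G S v w := near_res (near_of_conn hK hKS hv hw)
    have h5 := Col.near_trans (Col.near_trans (Col.near_adj h1.symm) h3) (Col.near_adj h2)
    exact Col.near_mono (by omega) h5
  have huniq1 : ∀ v, ∀ u ∈ H, ∀ u' ∈ H, G.Adj v u → G.Adj v u' → u = u' := by
    intro v u hu u' hu' h1 h2
    by_contra hne
    apply hfar u hu u' hu' hne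
    exact Col.near_mono (by omega) (Col.near_trans (Col.near_adj h1.symm) (Col.near_adj h2))
  -- the lists
  have hL' : ∀ v, ∃ l : Finset Z, l ⊆ L v ∧
      (v ∉ H → (∃ u ∈ H, G.Adj v u) → l.card = a - b) ∧
      (v ∉ H → (¬ ∃ u ∈ H, G.Adj v u) → l.card = a) ∧
      (v ∉ H → ∀ u ∈ H, G.Adj v u → Disjoint (s u) l) := by
    intro v
    by_cases h : ∃ u ∈ H, G.Adj v u
    · obtain ⟨u, hu, huv⟩ := h
      have h1 : a - b ≤ (L v \ s u).card := by
        have := le_card_sdiff (s u) (L v)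
        rw [hL, hs2] at this
        exact this
      obtain ⟨l, hl1, hl2⟩ := exists_subset_card_eq h1
      refine ⟨l, hl1.trans sdiff_subset, fun _ _ => hl2, fun _ h2 => (h2 ⟨u, hu, huv⟩).elim,
        fun _ u' hu' huv' => ?_⟩
      have h3 := huniq1 v u hu u' hu' huv huv'
      subst h3
      exact disjoint_sdiff.mono_right hl1
    · refine ⟨L v, Subset.refl _, fun _ h2 => (h h2).elim, fun _ _ => hL v, fun _ u hu huv => ?_⟩
      exact (h ⟨u, hu, huv⟩).elim
  choose l hl1 hl2 hl3 hl4 using hL'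
  -- the classes
  let base : Set V → Finset (Fin M) := fun K =>
    if h : ∃ u ∈ H, ∃ w ∈ K, G.Adj w u then φ (Classical.choose h) else φ v0
  have hbase : ∀ K, (base K).card = N := by
    intro K
    dsimp only [base]
    split_ifs
    · exact hφN _
    · exact hφN _
  let cls : Set V → Tk M N k0 k1 → Fin M := fun K =>
    Classical.choose (exists_cls k0 k1 (base K) (hbase K))
  have hcls : ∀ K F, (univ.filter fun t => cls K t ∈ F).card =
      k0 * (F ∩ base K).card + k1 * (F \ base K).card := fun K =>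
    Classical.choose_spec (exists_cls k0 k1 (base K) (hbase K))
  let Φ : Set V → V → Finset (Tk M N k0 k1) := fun K v => univ.filter fun t => cls K t ∈ φ v
  let N' : V → ℕ := fun v => if ∃ u ∈ H, G.Adj v u then k1 * N else k0 * N
  let b' : V → ℕ := fun v => if v ∈ H then 0 else b
  obtain ⟨T, hT1, hT2⟩ := choosable_gen (G := res G Hᶜ) (Δ := Δ)
    (by
      intro v
      by_cases hv : v ∈ H
      · have h0 : (res G Hᶜ).neighborSet v = ∅ := by
          ext w
          simp only [SimpleGraph.mem_neighborSet, Set.mem_empty_iff_false, iff_false]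
          intro h
          exact h.2.1 hv
        rw [h0, Set.ncard_empty]
        exact Nat.zero_le _
      · refine (Set.ncard_le_ncard ?_ (Set.toFinite _)).trans (hH v hv)
        intro w hw
        exact hw.1)
    hX (Φ := Φ)
    (by
      intro K u v huv
      rw [disjoint_left]
      intro t h1 h2
      exact (disjoint_left.1 (hφ u v huv.1)) (mem_filter.1 h1).2 (mem_filter.1 h2).2)
    (N := N')
    (by
      intro v K hv hK hKS
      show N' v ≤ (univ.filter fun t => cls K t ∈ φ v).card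
      rw [hcls]
      have h0 : (φ v ∩ base K).card + (φ v \ base K).card = N := by
        rw [card_inter_add_card_sdiff, hφN]
      by_cases h : ∃ u ∈ H, G.Adj v u
      · have e1 : N' v = k1 * N := if_pos h
        rw [e1]
        obtain ⟨u, hu, huv⟩ := h
        have h1 : ∃ u ∈ H, ∃ w ∈ K, G.Adj w u := ⟨u, hu, v, hv, huv⟩
        have h2 : Classical.choose h1 = u := by
          obtain ⟨h3, w, hw, h5⟩ := Classical.choose_spec h1
          exact huniq K hK hKS w hw v hv _ h3 u hu h5 huv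
        have e2 : base K = φ u := by
          dsimp only [base]
          rw [dif_pos h1, h2]
        have h6 : (φ v ∩ base K).card = 0 := by
          rw [e2, card_eq_zero, ← disjoint_iff_inter_eq_empty]
          exact hφ v u huv
        rw [h6, zero_add] at h0
        rw [h0]
        exact Nat.le_add_left _ _
      · have e1 : N' v = k0 * N := if_neg h
        rw [e1, ← h0, Nat.mul_add]
        exact Nat.add_le_add_left (Nat.mul_le_mul_right _ hk) _)
    (L := fun v => if v ∈ H then ∅ else l v) (b := b') hx0 hx1 hq0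
    (by
      intro v hbv
      have hv : v ∉ H := by
        intro hv
        exact hbv (if_pos hv)
      have e2 : b' v = b := if_neg hv
      rw [e2, if_neg hv]
      by_cases h : ∃ u ∈ H, G.Adj v u
      · have e1 : N' v = k1 * N := if_pos h
        rw [e1, hl2 v hv h]
        apply hq1
        obtain ⟨u, hu, huv⟩ := h
        have h1 := card_le_univ (φ v ∪ φ u)
        rw [card_union_of_disjoint (hφ v u huv), hφN, hφN, Fintype.card_fin] at h1
        omega
      · have e1 : N' v = k0 * N := if_neg h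
        rw [e1, hl3 v hv h]
        exact hq2)
    h4
  refine ⟨fun v => if v ∈ H then s v else T v, fun v => ?_, fun u v huv => ?_⟩
  · by_cases hv : v ∈ H
    · simp only [if_pos hv]
      exact ⟨hs1 v, hs2 v⟩
    · have h1 := hT1 v
      simp only [if_neg hv, b'] at h1 ⊢
      exact ⟨h1.1.trans (hl1 v), h1.2⟩
  · have hTl : ∀ v, v ∉ H → T v ⊆ l v := by
      intro v hv
      have h1 := (hT1 v).1
      rwa [if_neg hv] at h1
    by_cases hu : u ∈ H
    · by_cases hv : v ∈ H
      · exfalso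
        exact hfar u hu v hv huv.ne (Col.near_mono (by omega) (Col.near_adj huv))
      · simp only [if_pos hu, if_neg hv]
        exact (hl4 v hv u hu huv.symm).mono_right (hTl v hv)
    · by_cases hv : v ∈ H
      · simp only [if_neg hu, if_pos hv]
        exact ((hl4 u hu v hv huv).mono_right (hTl u hu)).symm
      · simp only [if_neg hu, if_neg hv]
        exact hT2 u v ⟨huv, hu, hv⟩

/-- The numerical bound. -/
lemma num_bound {η : ℝ} (hη : 0 < η) :
    ∃ x : ℝ, 0 < x ∧ x < 1 ∧ ∀ q : ℝ, 0 < q → ∃ b0 : ℕ, ∀ (a b : ℕ) (θ : ℝ), b0 ≤ b →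
      0 ≤ θ → θ ≤ 1 → (1 + η) * b ≤ θ * a → (1 - (1 - x) * θ) ^ a / x ^ b ≤ q := by
  have h1 : 1 / (1 + η) < 1 := by
    rw [div_lt_one (by linarith)]
    linarith
  obtain ⟨x, hx1, hx2⟩ := exists_between h1
  have hx0 : 0 < x := (by positivity : (0 : ℝ) < 1 / (1 + η)).trans hx1
  have h1x : 0 < 1 - x := by linarith
  have hc : 0 < (1 - x) * ((1 + η) - 1 / x) := by
    apply mul_pos h1x
    rw [sub_pos, div_lt_iff₀ hx0]
    rw [div_lt_iff₀ (by linarith)] at hx1
    linarith
  set c := (1 - x) * ((1 + η) - 1 / x) with hcdef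
  refine ⟨x, hx0, hx2, fun q hq => ?_⟩
  obtain ⟨b0, hb0⟩ := exists_nat_gt (1 / q / c)
  refine ⟨b0, fun a b θ hb hθ0 hθ1 hab => ?_⟩
  have h2 : 0 ≤ 1 - (1 - x) * θ := by nlinarith
  have h3 : (1 - (1 - x) * θ) ^ a ≤ Real.exp (-((1 - x) * (1 + η) * b)) := by
    calc (1 - (1 - x) * θ) ^ a ≤ Real.exp (-((1 - x) * θ)) ^ a :=
          pow_le_pow_left₀ h2 (Real.one_sub_le_exp_neg _) a
      _ = Real.exp (a * -((1 - x) * θ)) := (Real.exp_nat_mul _ _).symm
      _ ≤ _ := by
          apply Real.exp_le_exp.2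
          have h5 := mul_le_mul_of_nonneg_left hab h1x.le
          linarith
  have h6 : 1 / x ^ b ≤ Real.exp ((1 - x) * (1 / x) * b) := by
    have h7 : 1 / x ≤ Real.exp ((1 - x) * (1 / x)) := by
      have h8 := Real.add_one_le_exp ((1 - x) * (1 / x))
      have h9 : (1 - x) * (1 / x) + 1 = 1 / x := by
        field_simp
        ring
      linarith
    calc 1 / x ^ b = (1 / x) ^ b := (one_div_pow x b).symm
      _ ≤ Real.exp ((1 - x) * (1 / x)) ^ b := pow_le_pow_left₀ (by positivity) h7 b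
      _ = Real.exp (b * ((1 - x) * (1 / x))) := (Real.exp_nat_mul _ _).symm
      _ = _ := by rw [mul_comm]
  have h10 : (1 - (1 - x) * θ) ^ a / x ^ b ≤ Real.exp (-(c * b)) := by
    rw [div_eq_mul_one_div]
    calc (1 - (1 - x) * θ) ^ a * (1 / x ^ b) ≤
          Real.exp (-((1 - x) * (1 + η) * b)) * Real.exp ((1 - x) * (1 / x) * b) :=
          mul_le_mul h3 h6 (by positivity) (Real.exp_pos _).le
      _ = _ := by
          rw [← Real.exp_add]
          congr 1
          rw [hcdef]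
          ring
  have h11 : 1 / q ≤ Real.exp (c * b) := by
    have h12 : (b0 : ℝ) ≤ b := by exact_mod_cast hb
    have h13 : 1 / q / c < b := hb0.trans_le h12
    rw [div_lt_iff₀ hc] at h13
    have h14 := Real.add_one_le_exp (c * b)
    linarith
  refine h10.trans ?_
  rw [Real.exp_neg, inv_eq_one_div]
  rw [div_le_iff₀ hq] at h11
  rw [div_le_iff₀ (Real.exp_pos _)]
  linarith [mul_comm (Real.exp (c * b)) q]

lemma hasK3Minor_mono {V : Type} {G G' : SimpleGraph V} {n : ℕ} (h : G ≤ G')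
    (hG : HasK3Minor n G) : HasK3Minor n G' := by
  obtain ⟨B, A, h1, h2, h3, h4, h5, h6⟩ := hG
  refine ⟨B, A, fun i => (h1 i).mono ?_, fun j => (h2 j).mono ?_, h3, h4, h5, fun i j => ?_⟩
  · exact fun _ _ hab => h hab
  · exact fun _ _ hab => h hab
  · obtain ⟨x, hx, y, hy, hxy⟩ := h6 i j
    exact ⟨x, hx, y, hy, h hxy⟩

/-- The constants `k0`, `k1`. -/
lemma exists_ratio {r α : ℝ} (hr1 : 1 ≤ r) (hr : r < α) (hα : (r - 1) * α < (α - 1) ^ 2) :
    ∃ k0 k1 : ℕ, 0 < k0 ∧ 0 < k1 ∧ k0 ≤ k1 ∧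
      (k0 : ℝ) + (r - 1) * k1 < (α - 1) * k1 ∧ (k0 : ℝ) + (r - 1) * k1 < α * k0 := by
  have hα1 : 0 < α - 1 := by linarith
  have h1 : (r - 1) / (α - 1) < min 1 (α - r) := by
    rw [lt_min_iff]
    constructor
    · rw [div_lt_one hα1]
      linarith
    · rw [div_lt_iff₀ hα1]
      nlinarith
  obtain ⟨t, ht1, ht2⟩ := exists_rat_btwn h1
  rw [lt_min_iff] at ht2
  have h0 : (0 : ℝ) ≤ (r - 1) / (α - 1) := div_nonneg (by linarith) hα1.le
  have ht0 : (0 : ℝ) < t := lt_of_le_of_lt h0 ht1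
  have ht0' : 0 < t := by exact_mod_cast ht0
  have hnum : 0 < t.num := Rat.num_pos.2 ht0'
  have hden : (0 : ℝ) < t.den := by exact_mod_cast t.den_pos
  have hk0 : ((t.num.toNat : ℕ) : ℝ) = t * t.den := by
    have h2 : ((t.num.toNat : ℕ) : ℤ) = t.num := Int.toNat_of_nonneg hnum.le
    have h3 : ((t.num.toNat : ℕ) : ℝ) = (t.num : ℝ) := by exact_mod_cast h2
    rw [h3, Rat.cast_def]
    field_simp
  refine ⟨t.num.toNat, t.den, by omega, t.den_pos, ?_, ?_, ?_⟩
  · have h4 : ((t.num.toNat : ℕ) : ℝ) ≤ (t.den : ℝ) := by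
      rw [hk0]
      nlinarith [ht2.1]
    exact_mod_cast h4
  · rw [hk0]
    nlinarith [ht2.2]
  · rw [hk0]
    rw [div_lt_iff₀ hα1] at ht1
    nlinarith

/-- Multiple list colouring of graphs in which the vertices of large degree are far apart. -/
theorem choosable_far (n Δ : ℕ) {r α : ℝ} (hr : r < α) (hα : (r - 1) * α < (α - 1) ^ 2)
    (hS : ∀ δ : ℝ, 0 < δ → ∃ (A : Type) (_ : Fintype A) (_ : Nonempty A) (S ρ : ℕ),
      ∀ (V : Type) [Fintype V] [DecidableEq V] (G : SimpleGraph V), ¬ HasK3Minor n G →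
        (∀ v, (G.neighborSet v).ncard ≤ Δ) → ∃ X, IsScheme G A Set.univ δ S ρ X) :
    ∃ D0 b0 : ℕ, ∀ (V : Type) [Fintype V] (G : SimpleGraph V), ¬ HasK3Minor n G →
      FracColourable G r →
      (∀ u v, Δ < (G.neighborSet u).ncard → Δ < (G.neighborSet v).ncard → u ≠ v →
        ¬ Near G D0 u v) →
      ∀ a b : ℕ, b0 ≤ b → α * b ≤ a → Choosable G a b := by
  rcases lt_or_ge r 1 with hr1 | hr1
  · refine ⟨0, 0, ?_⟩
    intro V _ G _ hG _ a b _ _ L _
    obtain ⟨M, N, φ, hN, hM, hφN, _⟩ := hG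
    have hV : ∀ v : V, False := by
      intro v
      have h1 := Finset.card_le_univ (φ v)
      rw [hφN, Fintype.card_fin] at h1
      have h2 : (N : ℝ) ≤ M := by exact_mod_cast h1
      have h3 : (0 : ℝ) < N := by exact_mod_cast hN
      nlinarith
    exact ⟨fun _ => ∅, fun v => (hV v).elim, fun v => (hV v).elim⟩
  obtain ⟨k0, k1, hk0, hk1, hk, hc1, hc2⟩ := exists_ratio hr1 hr hα
  have hk0' : (0 : ℝ) < k0 := by exact_mod_cast hk0
  have hk1' : (0 : ℝ) < k1 := by exact_mod_cast hk1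
  set s : ℝ := k0 + (r - 1) * k1 with hs
  have hs0 : 0 < s := by
    have : 0 ≤ (r - 1) * k1 := mul_nonneg (by linarith) hk1'.le
    linarith
  set m : ℝ := min ((α - 1) * k1 / s) (α * k0 / s) with hm
  have hm1 : 1 < m := by
    rw [hm, lt_min_iff]
    exact ⟨(one_lt_div hs0).2 hc1, (one_lt_div hs0).2 hc2⟩
  have hma : m ≤ (α - 1) * k1 / s := min_le_left _ _
  have hmb : m ≤ α * k0 / s := min_le_right _ _
  set y : ℝ := (1 + m) / (2 * m) with hy
  have hy0 : 0 < y := by positivity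
  have hy1 : y < 1 := by
    rw [hy, div_lt_one (by linarith)]
    linarith
  have hym : y * m = 1 + (m - 1) / 2 := by
    rw [hy]
    field_simp
    ring
  obtain ⟨x, hx0, hx1, hx⟩ := num_bound (η := (m - 1) / 2) (by linarith)
  obtain ⟨A, _, _, S, ρ, hS'⟩ := hS (1 - y) (by linarith)
  set C : ℝ := (Δ + 1 : ℝ) ^ (2 * (S + ρ)) with hC
  have hC0 : 0 < C := by positivity
  obtain ⟨b0, hb0⟩ := hx (1 / (4 * C)) (by positivity)
  refine ⟨S + 2, b0, ?_⟩
  intro V _ G hminor hfrac hfar a b hb hab L hL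
  classical
  obtain ⟨M, N, φ, hN, hM, hφN, hφ⟩ := hfrac
  rcases isEmpty_or_nonempty V with hV | hV
  · exact ⟨fun _ => ∅, fun v => (hV.false v).elim, fun v => (hV.false v).elim⟩
  have hNM : N ≤ M := by
    obtain ⟨v⟩ := hV
    have h1 := Finset.card_le_univ (φ v)
    rwa [hφN, Fintype.card_fin] at h1
  have hN' : (0 : ℝ) < N := by exact_mod_cast hN
  set H : Set V := {v | Δ < (G.neighborSet v).ncard} with hH
  have hHdeg : ∀ v, v ∉ H → (G.neighborSet v).ncard ≤ Δ := fun v hv => not_lt.1 hv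
  obtain ⟨X, hX⟩ := hS' V (res G Hᶜ)
    (fun h => hminor (hasK3Minor_mono (Col.res_le G Hᶜ) h))
    (by
      intro v
      by_cases hv : v ∈ H
      · have h0 : (res G Hᶜ).neighborSet v = ∅ := by
          ext w
          simp only [SimpleGraph.mem_neighborSet, Set.mem_empty_iff_false, iff_false]
          intro h
          exact h.2.1 hv
        rw [h0, Set.ncard_empty]
        exact Nat.zero_le _
      · refine (Set.ncard_le_ncard ?_ (Set.toFinite _)).trans (hHdeg v hv)
        intro w hw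
        exact hw.1)
  have hBcard : ((Fintype.card (Tk M N k0 k1) : ℕ) : ℝ) = N * k0 + (M - N) * k1 := by
    rw [card_tk]
    push_cast [Nat.cast_sub hNM]
    ring
  set Bc : ℝ := ((Fintype.card (Tk M N k0 k1) : ℕ) : ℝ) with hBc
  have hMN : (0 : ℝ) ≤ (M : ℝ) - N := by
    have : (N : ℝ) ≤ M := by exact_mod_cast hNM
    linarith
  have hBc0 : 0 < Bc := by
    rw [hBcard]
    positivity
  have hBcle : Bc ≤ N * s := by
    rw [hBcard, hs]
    nlinarith
  have hba : b ≤ a := by
    have h1 : (b : ℝ) ≤ a := by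
      have h2 : (1 : ℝ) * b ≤ α * b := mul_le_mul_of_nonneg_right (by linarith) (Nat.cast_nonneg _)
      linarith
    exact_mod_cast h1
  have hb' : (0 : ℝ) ≤ b := Nat.cast_nonneg _
  have hyy : (1 : ℝ) - (1 - y) = y := by ring
  apply far_core (G := G) (Δ := Δ) (k0 := k0) (k1 := k1) hφN hφ (H := H) hHdeg
    (fun u hu u' hu' hne => hfar u u' hu hu' hne) hX hk
    (by
      have h1 : (0 : ℝ) < ((Fintype.card (Tk M N k0 k1) : ℕ) : ℝ) := hBc0
      exact_mod_cast h1)
    hba hx0 hx1 (q := 1 / (4 * C)) (by positivity)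
  · intro h2N
    have h2N' : (2 : ℝ) * N ≤ M := by exact_mod_cast h2N
    rw [hyy]
    apply hb0 (a - b) b _ hb
    · push_cast
      positivity
    · rw [div_le_one hBc0]
      push_cast
      have h1 : (k1 : ℝ) * N ≤ Bc := by
        rw [hBcard]
        nlinarith [mul_nonneg hN'.le hk0'.le]
      nlinarith
    · push_cast [Nat.cast_sub hba]
      have h1 : y * ((α - 1) * k1 / s) * b ≤ y * (k1 * N) / Bc * ((a : ℝ) - b) := by
        have h2 : y * k1 / s ≤ y * (k1 * N) / Bc := by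
          rw [div_le_div_iff₀ hs0 hBc0]
          have h3 := mul_le_mul_of_nonneg_left hBcle (mul_nonneg hy0.le hk1'.le)
          linarith
        have h4 : (α - 1) * b ≤ (a : ℝ) - b := by linarith
        calc y * ((α - 1) * k1 / s) * b = (y * k1 / s) * ((α - 1) * b) := by ring
          _ ≤ _ := mul_le_mul h2 h4 (mul_nonneg (by linarith) hb') (by positivity)
      have h5 : y * m * b ≤ y * ((α - 1) * k1 / s) * b :=
        mul_le_mul_of_nonneg_right (mul_le_mul_of_nonneg_left hma hy0.le) hb'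
      rw [hym] at h5
      exact h5.trans h1
  · rw [hyy]
    apply hb0 a b _ hb
    · push_cast
      positivity
    · rw [div_le_one hBc0]
      push_cast
      have h1 : (k0 : ℝ) * N ≤ Bc := by
        rw [hBcard]
        nlinarith [mul_nonneg hMN hk1'.le]
      nlinarith [mul_pos hk0' hN']
    · push_cast
      have h1 : y * (α * k0 / s) * b ≤ y * (k0 * N) / Bc * (a : ℝ) := by
        have h2 : y * k0 / s ≤ y * (k0 * N) / Bc := by
          rw [div_le_div_iff₀ hs0 hBc0]
          have h3 := mul_le_mul_of_nonneg_left hBcle (mul_nonneg hy0.le hk0'.le)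
          linarith
        calc y * (α * k0 / s) * b = (y * k0 / s) * (α * b) := by ring
          _ ≤ _ := mul_le_mul h2 hab (mul_nonneg (by linarith) hb') (by positivity)
      have h5 : y * m * b ≤ y * (α * k0 / s) * b :=
        mul_le_mul_of_nonneg_right (mul_le_mul_of_nonneg_left hmb hy0.le) hb'
      rw [hym] at h5
      exact h5.trans h1
  · rw [← hC]
    field_simp
    norm_num
  · exact hL

end Far

end BDP
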