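import Pool.Agent.Work.MP_0890ba_co.BD.Five
import Pool.Agent.Work.MP_0890ba_co.BD.Far

/-!
# A virtual edge between two precoloured vertices

If two vertices outside `K` are joined by a path outside `K`, then the graph induced by `K` and
the two vertices, with an edge between the two vertices, is a minor of `G`.
-/

set_option linter.unusedSectionVars false

namespace BDP

namespace Hub

open Finset Classical Pool.Agent.Work.MP_0890ba_co

variable {V : Type} {G : SimpleGraph V}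

/-- The graph induced by `K ∪ Z`, with all edges inside `Z`. -/
def clq (G : SimpleGraph V) (K Z : Set V) : SimpleGraph V where
  Adj x y := (G.Adj x y ∧ x ∈ K ∪ Z ∧ y ∈ K ∪ Z) ∨ (x ≠ y ∧ x ∈ Z ∧ y ∈ Z)
  symm := ⟨fun _ _ h => h.elim (fun h => Or.inl ⟨h.1.symm, h.2.2, h.2.1⟩)
    (fun h => Or.inr ⟨h.1.symm, h.2.2, h.2.1⟩)⟩
  loopless := ⟨fun v h => h.elim (fun h => G.loopless.irrefl v h.1) (fun h => h.1 rfl)⟩

lemma clq_mem {K Z : Set V} {x y : V} (h : (clq G K Z).Adj x y) : x ∈ K ∪ Z :=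
  h.elim (fun h => h.2.1) (fun h => Or.inr h.2.1)

lemma clq_sub {K Z B : Set V} (hB : Conn (clq G K Z) B) {x : V} (hx : x ∈ B) (hxK : x ∈ K ∪ Z) :
    B ⊆ K ∪ Z := by
  intro z hz
  obtain ⟨p⟩ := hB x hx z hz
  induction p with
  | nil => exact hxK
  | cons hadj p ih => exact ih hadj.2.2 (clq_mem hadj.1.symm) hz

/-- The lifted branch set. -/
def up (A : Set V) (u : V) (B : Set V) : Set V := {x | x ∈ B ∨ (u ∈ B ∧ x ∈ A)}

lemma up_conn {K A B : Set V} {u v a : V} (hA : Conn G A) (hu : u ∈ A) (ha : a ∈ A)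
    (hav : G.Adj a v) (hB : Conn (clq G K {u, v}) B) : Conn G (up A u B) := by
  have huv : u ∈ B → v ∈ B → (res G (up A u B)).Reachable u v := by
    intro h1 h2
    have h3 : (res G (up A u B)).Reachable u a :=
      (hA u hu a ha).mono (res_mono fun x hx => Or.inr ⟨h1, hx⟩)
    have h4 : (res G (up A u B)).Adj a v := ⟨hav, Or.inr ⟨h1, ha⟩, Or.inl h2⟩
    exact h3.trans h4.reachable
  have hstep : ∀ x y, (res (clq G K {u, v}) B).Adj x y → (res G (up A u B)).Reachable x y := by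
    rintro x y ⟨h1 | h1, hx, hy⟩
    · exact SimpleGraph.Adj.reachable ⟨h1.1, Or.inl hx, Or.inl hy⟩
    · obtain ⟨hne, hx' | hx', hy' | hy'⟩ := h1
      · exact absurd (hx'.trans hy'.symm) hne
      · rw [Set.mem_singleton_iff] at hy'
        subst hx' hy'
        exact huv hx hy
      · rw [Set.mem_singleton_iff] at hx'
        subst hx' hy'
        exact (huv hy hx).symm
      · rw [Set.mem_singleton_iff] at hx' hy'
        exact absurd (hx'.trans hy'.symm) hne
  have hB' : ∀ x ∈ B, ∀ y ∈ B, (res G (up A u B)).Reachable x y := by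
    intro x hx y hy
    obtain ⟨p⟩ := hB x hx y hy
    clear hx hy
    induction p with
    | nil => exact SimpleGraph.Reachable.refl _
    | cons hadj p ih => exact (hstep _ _ hadj).trans ih
  have hA' : u ∈ B → ∀ x ∈ A, (res G (up A u B)).Reachable u x := fun h x hx =>
    (hA u hu x hx).mono (res_mono fun y hy => Or.inr ⟨h, hy⟩)
  rintro x (hx | hx) y (hy | hy)
  · exact hB' x hx y hy
  · exact (hB' x hx u hy.1).trans (hA' hy.1 y hy.2)
  · exact (hA' hx.1 x hx.2).symm.trans (hB' u hx.1 y hy)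
  · exact (hA' hx.1 x hx.2).symm.trans (hA' hx.1 y hy.2)

lemma up_adj {K A B C : Set V} {u v a : V} (ha : a ∈ A) (hav : G.Adj a v)
    (h : ∃ x ∈ B, ∃ y ∈ C, (clq G K {u, v}).Adj x y) :
    ∃ x ∈ up A u B, ∃ y ∈ up A u C, G.Adj x y := by
  obtain ⟨x, hx, y, hy, h1 | h1⟩ := h
  · exact ⟨x, Or.inl hx, y, Or.inl hy, h1.1⟩
  · obtain ⟨hne, hx' | hx', hy' | hy'⟩ := h1
    · exact absurd (hx'.trans hy'.symm) hne
    · rw [Set.mem_singleton_iff] at hy'
      subst hx' hy'
      exact ⟨a, Or.inr ⟨hx, ha⟩, y, Or.inl hy, hav⟩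
    · rw [Set.mem_singleton_iff] at hx'
      subst hx' hy'
      exact ⟨x, Or.inl hx, a, Or.inr ⟨hy, ha⟩, hav.symm⟩
    · rw [Set.mem_singleton_iff] at hx' hy'
      exact absurd (hx'.trans hy'.symm) hne

lemma up_disj {K A B C : Set V} {u v : V} (hvA : v ∉ A) (hAK : Disjoint A K)
    (hB : B ⊆ K ∪ {u, v}) (hC : C ⊆ K ∪ {u, v}) (h : Disjoint B C) :
    Disjoint (up A u B) (up A u C) := by
  have key : ∀ {D E : Set V}, D ⊆ K ∪ {u, v} → Disjoint D E → ∀ x ∈ D, u ∈ E → x ∈ A → False := by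
    intro D E hD hDE x hx hu hxA
    rcases hD hx with h1 | h1 | h1
    · exact Set.disjoint_left.1 hAK hxA h1
    · subst h1
      exact Set.disjoint_left.1 hDE hx hu
    · rw [Set.mem_singleton_iff] at h1
      subst h1
      exact hvA hxA
  rw [Set.disjoint_left]
  rintro x (hx | hx) (hy | hy)
  · exact Set.disjoint_left.1 h hx hy
  · exact key hB h x hx hy.1 hy.2
  · exact key hC h.symm x hy hx.1 hx.2
  · exact Set.disjoint_left.1 h hx.1 hy.1

section lift

variable {K R : Set V} {u v : V} (huv : u ≠ v) (hRK : Disjoint R K) (hu : u ∈ R)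
  (hr : (res G R).Reachable u v)

include huv hRK hu hr

lemma exists_arm : ∃ A : Set V, Conn G A ∧ u ∈ A ∧ v ∉ A ∧ Disjoint A K ∧
    ∃ a ∈ A, G.Adj a v := by
  have hu' : u ∈ R \ {v} := ⟨hu, huv⟩
  obtain ⟨a, ha, w, hw, -, haw⟩ := enter hr hu' (Set.mem_singleton v)
  rw [Set.mem_singleton_iff] at hw
  subst hw
  have hsub : cmp G (R \ {w}) u ⊆ R \ {w} := comp_subset hu'
  exact ⟨cmp G (R \ {w}) u, conn_component _ _, mem_comp_self _ _, fun h => (hsub h).2 rfl,
    hRK.mono_left (hsub.trans Set.sdiff_subset), a, ha, haw⟩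

lemma no_five (h5 : ¬HasK5Minor G) : ¬HasK5Minor (clq G K {u, v}) := by
  obtain ⟨A, hA, huA, hvA, hAK, a, ha, hav⟩ := exists_arm huv hRK hu hr
  rintro ⟨B, hB, hdis, hadj⟩
  have hBc : ∀ i, Conn (clq G K {u, v}) (B i) := fun i => conn_of_connected (hB i)
  have hsub : ∀ i, B i ⊆ K ∪ {u, v} := by
    intro i
    obtain ⟨j, hj⟩ := exists_ne i
    obtain ⟨x, hx, y, -, hxy⟩ := hadj i j hj.symm
    exact clq_sub (hBc i) hx (clq_mem hxy)
  refine h5 ⟨fun i => up A u (B i), fun i => ?_, fun i j hij => ?_, fun i j hij => ?_⟩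
  · refine (up_conn hA huA ha hav (hBc i)).connected ?_
    obtain ⟨⟨x, hx⟩⟩ := (hB i).nonempty
    exact ⟨x, Or.inl hx⟩
  · exact up_disj hvA hAK (hsub i) (hsub j) (hdis i j hij)
  · exact up_adj ha hav (hadj i j hij)

lemma no_three (h3 : ¬HasK3Minor 3 G) : ¬HasK3Minor 3 (clq G K {u, v}) := by
  obtain ⟨A, hA, huA, hvA, hAK, a, ha, hav⟩ := exists_arm huv hRK hu hr
  rintro ⟨B, C, hB, hC, hdB, hdC, hdBC, hadj⟩
  have hBc : ∀ i, Conn (clq G K {u, v}) (B i) := fun i => conn_of_connected (hB i)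
  have hCc : ∀ i, Conn (clq G K {u, v}) (C i) := fun i => conn_of_connected (hC i)
  have hsB : ∀ i, B i ⊆ K ∪ {u, v} := by
    intro i
    obtain ⟨x, hx, y, -, hxy⟩ := hadj i 0
    exact clq_sub (hBc i) hx (clq_mem hxy)
  have hsC : ∀ i, C i ⊆ K ∪ {u, v} := by
    intro i
    obtain ⟨x, -, y, hy, hxy⟩ := hadj 0 i
    exact clq_sub (hCc i) hy (clq_mem hxy.symm)
  refine h3 ⟨fun i => up A u (B i), fun i => up A u (C i), fun i => ?_, fun i => ?_,
    fun i j hij => ?_, fun i j hij => ?_, fun i j => ?_, fun i j => ?_⟩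
  · refine (up_conn hA huA ha hav (hBc i)).connected ?_
    obtain ⟨⟨x, hx⟩⟩ := (hB i).nonempty
    exact ⟨x, Or.inl hx⟩
  · refine (up_conn hA huA ha hav (hCc i)).connected ?_
    obtain ⟨⟨x, hx⟩⟩ := (hC i).nonempty
    exact ⟨x, Or.inl hx⟩
  · exact up_disj hvA hAK (hsB i) (hsB j) (hdB i j hij)
  · exact up_disj hvA hAK (hsC i) (hsC j) (hdC i j hij)
  · exact up_disj hvA hAK (hsB i) (hsC j) (hdBC i j)
  · exact up_adj ha hav (hadj i j)

end lift

lemma hasK5Minor_mono {G' : SimpleGraph V} (h : G ≤ G') (h5 : HasK5Minor G) : HasK5Minor G' := by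
  obtain ⟨B, hB, hdis, hadj⟩ := h5
  refine ⟨B, fun i => ?_, hdis, fun i j hij => ?_⟩
  · exact (hB i).mono fun x y hxy => h hxy
  · obtain ⟨x, hx, y, hy, hxy⟩ := hadj i j hij
    exact ⟨x, hx, y, hy, h hxy⟩

/-- The graph with the virtual edge satisfies the structural hypothesis. -/
theorem sepOrGood_clq [Finite V] (h5 : ¬HasK5Minor G) (h3 : ¬HasK3Minor 3 G) {K R : Set V}
    {Z : Finset V} (hZ : Z.card ≤ 2) (hRK : Disjoint R K) (hZR : ∀ u ∈ Z, u ∈ R)
    (hr : ∀ u ∈ Z, ∀ v ∈ Z, (res G R).Reachable u v) : Five.SepOrGood (clq G K Z) := by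
  have key : ¬HasK5Minor (clq G K Z) ∧ ¬HasK3Minor 3 (clq G K Z) := by
    by_cases h2 : Z.card = 2
    · obtain ⟨p, q, hpq, rfl⟩ := card_eq_two.1 h2
      have hp : p ∈ ({p, q} : Finset V) := mem_insert_self _ _
      have hq : q ∈ ({p, q} : Finset V) := mem_insert_of_mem (mem_singleton_self _)
      rw [coe_insert, coe_singleton]
      exact ⟨no_five hpq hRK (hZR p hp) (hr p hp q hq) h5,
        no_three hpq hRK (hZR p hp) (hr p hp q hq) h3⟩
    · have h1 : Z.card ≤ 1 := by omega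
      have hle : clq G K Z ≤ G := by
        rintro x y (h | h)
        · exact h.1
        · exact absurd (card_le_one.1 h1 x h.2.1 y h.2.2) h.1
      exact ⟨fun h => h5 (hasK5Minor_mono hle h), fun h => h3 (Far.hasK3Minor_mono hle h)⟩
  exact fun Z' W x y hZ' hZn hd hx hy hxy hO =>
    sep_or_good key.1 key.2 hZ' hZn hd hx hy hxy hO

end Hub

end BDP
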