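import Pool.Agent.Work.MP_0890ba_co.BD.Hub
import Pool.Agent.Work.MP_0890ba_co.BD.Lift

/-!
# Gluing pieces of bounded order along vertices and edges
-/

set_option linter.unusedSectionVars false

namespace BDP

namespace Hub

open Finset Classical Pool.Agent.Work.MP_0890ba_co

/-- The number of colourings which are mixed. -/
def kk (n : ℕ) : ℕ := 19 + 5 * n

/-- The error of the mixture. -/
def err (n : ℕ) : ℕ := 2 ^ (n * kk n) * (kk n * kk n)

/-- The arithmetic of the mixture. -/
lemma arith {k k₀ b β M t : ℕ} (hk : k ≤ k₀) (hβ : (2 * k₀ + 1) * b < (2 * k₀ + 2) * β + (2 * k₀ + 2))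
    (hb : 2 * M + 2 ≤ b) (h : (k + 1) * β ≤ k * t + M) : b ≤ t := by
  by_contra hlt
  obtain ⟨d, hd⟩ : ∃ d, b = t + 1 + d := ⟨b - (t + 1), by omega⟩
  obtain ⟨e, he⟩ : ∃ e, k₀ = k + e := ⟨k₀ - k, by omega⟩
  subst hd
  subst he
  nlinarith [Nat.zero_le (k * d), Nat.zero_le (e * d), Nat.zero_le (e * t), Nat.zero_le (k * t),
    Nat.mul_le_mul_left (2 * (k + e) + 2) h, Nat.mul_le_mul_left (k + 1) hβ.le]

/-- Extending a colouring of at most two vertices to a piece. -/
theorem extend {V : Type} [Fintype V] {G : SimpleGraph V} {n : ℕ} {Z : Finset V} {K : Set V}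
    (hG : Five.SepOrGood (clq G K Z)) (hZ : Z.card ≤ 2) (hK : ∀ v ∈ K, v ∉ Z)
    (hKn : K.ncard ≤ n) {φ : V → Fin 4} (hφ : ∀ u v, G.Adj u v → φ u ≠ φ v) {a b : ℕ} (hb : 2 * err n + 2 ≤ b)
    (hab : (10 * kk n + 7) * b ≤ (2 * kk n + 2) * a) {L : V → Finset ℤ}
    (hL : ∀ v, (L v).card = a) {s : V → Finset ℤ} (hs : ∀ u ∈ Z, (s u).card = b) :
    ∃ T : V → Finset ℤ, (∀ v ∈ K, T v ⊆ L v ∧ (T v).card = b) ∧
      (∀ v ∈ K, ∀ u ∈ Z, G.Adj v u → Disjoint (T v) (s u)) ∧
      ∀ u ∈ K, ∀ v ∈ K, G.Adj u v → Disjoint (T u) (T v) := by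
  set k₀ := kk n with hk₀
  let A : V → Finset ℤ := fun v => L v \ (Z.filter fun u => G.Adj u v).biUnion s
  let β : ℕ := ((2 * k₀ + 1) * b) / (2 * k₀ + 2)
  have hβ1 : (2 * k₀ + 2) * β ≤ (2 * k₀ + 1) * b := Nat.mul_div_le _ _
  have hβ2 : (2 * k₀ + 1) * b < (2 * k₀ + 2) * β + (2 * k₀ + 2) := by
    have h1 := Nat.lt_mul_div_succ ((2 * k₀ + 1) * b) (show 0 < 2 * k₀ + 2 by omega)
    calc (2 * k₀ + 1) * b < (2 * k₀ + 2) * (β + 1) := h1
      _ = _ := by ring
  have hadj : ∀ u v, v ∈ K → u ∈ K ∨ u ∈ Z → ((clq G K Z).Adj u v ↔ G.Adj u v) := by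
    intro u v hv hu
    constructor
    · rintro (h | h)
      · exact h.1
      · exact absurd h.2.2 (hK v hv)
    · exact fun h => Or.inl ⟨h, hu, Or.inl hv⟩
  have hhn : ∀ v ∈ K, hn (clq G K Z) Z v = hn G Z v := by
    intro v hv
    unfold hn
    congr 1
    exact filter_congr fun u hu => hadj u v hv (Or.inr hu)
  have hA : ∀ v ∈ K, 5 * β ≤ (A v).card + hn (clq G K Z) Z v * β := by
    intro v hv
    rw [hhn v hv]
    have h1 : ((Z.filter fun u => G.Adj u v).biUnion s).card ≤ hn G Z v * b := by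
      refine card_biUnion_le_card_mul _ _ _ fun u hu => ?_
      exact (hs u (mem_filter.1 hu).1).le
    have h2 := le_card_sdiff ((Z.filter fun u => G.Adj u v).biUnion s) (L v)
    rw [hL v] at h2
    have h3 : hn G Z v ≤ 2 := (card_filter_le _ _).trans hZ
    have h4 : a ≤ (A v).card + hn G Z v * b := by
      show a ≤ (L v \ (Z.filter fun u => G.Adj u v).biUnion s).card + hn G Z v * b
      omega
    have h5 : β ≤ b := by
      have : (2 * k₀ + 2) * β ≤ (2 * k₀ + 2) * b := by nlinarith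
      exact Nat.le_of_mul_le_mul_left this (by omega)
    have h6 : 3 * β + 2 * b ≤ a := by
      have : (2 * k₀ + 2) * (3 * β + 2 * b) ≤ (2 * k₀ + 2) * a := by nlinarith
      exact Nat.le_of_mul_le_mul_left this (by omega)
    obtain ⟨d, hd⟩ : ∃ d, b = β + d := ⟨b - β, by omega⟩
    interval_cases hn G Z v <;> omega
  obtain ⟨Ω, _, S, hΩ0, hΩ, hS, hsum⟩ := tickets hG
    (fun u hu v hv huv => Or.inr ⟨huv, hu, hv⟩) hZ hK
    (fun u hu v hv huv => hφ u v ((hadj u v hv (Or.inl hu)).1 huv)) hA hKn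
  have : Nonempty Ω := Fintype.card_pos_iff.1 hΩ0
  have : Fintype K := Fintype.ofFinite K
  obtain ⟨f, hf⟩ := mix (ι := K) (Ω := Ω) (fun v => A v) (fun ω v => S ω v)
    (fun ω v => (hS ω).1 v v.2)
  have hcK : Fintype.card K ≤ n := by
    rw [← Nat.card_eq_fintype_card]
    exact hKn
  have hT0 : ∀ v, ∃ T : Finset ℤ, T ⊆ ((A v).filter fun c => c ∈ S (f c) v) ∧
      (v ∈ K → T.card = b) := by
    intro v
    by_cases hv : v ∈ K
    · have h1 := (hsum v hv).trans (hf ⟨v, hv⟩)
      have h2 : 2 ^ (Fintype.card K * Fintype.card Ω) * (Fintype.card Ω * Fintype.card Ω) ≤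
          err n := by
        refine Nat.mul_le_mul (Nat.pow_le_pow_right (by norm_num) (Nat.mul_le_mul hcK hΩ))
          (Nat.mul_le_mul hΩ hΩ)
      have h3 := arith (k := Fintype.card Ω) (k₀ := k₀) (b := b) (β := β) (M := err n)
        (t := ((A v).filter fun c => c ∈ S (f c) v).card) hΩ hβ2 hb (by
          refine h1.trans ?_
          exact Nat.add_le_add_left h2 _)
      obtain ⟨T, hT, hTc⟩ := exists_subset_card_eq h3
      exact ⟨T, hT, fun _ => hTc⟩
    · exact ⟨∅, empty_subset _, fun h => absurd h hv⟩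
  choose T hT hTc using hT0
  refine ⟨T, fun v hv => ⟨(hT v).trans ((filter_subset _ _).trans sdiff_subset), hTc v hv⟩,
    fun v _ u hu huv => ?_, fun u hu v hv huv => ?_⟩
  · rw [disjoint_left]
    intro c hc hc'
    have h1 := (mem_filter.1 (hT v hc)).1
    have h2 := (mem_sdiff.1 h1).2
    exact h2 (mem_biUnion.2 ⟨u, mem_filter.2 ⟨hu, huv.symm⟩, hc'⟩)
  · rw [disjoint_left]
    intro c hc hc'
    have h1 := (mem_filter.1 (hT u hc)).2
    have h2 := (mem_filter.1 (hT v hc')).2
    exact disjoint_left.1 ((hS (f c)).2 u hu v hv ((hadj u v hv (Or.inl hu)).2 huv)) h1 h2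

/-- The vertices in earlier pieces next to the piece `i`. -/
def back {V : Type} (G : SimpleGraph V) (piece : V → ℕ) (i : ℕ) : Set V :=
  {u | piece u < i ∧ ∃ v, piece v = i ∧ G.Adj u v}

/-- Graphs built from pieces of at most `n` vertices. -/
theorem choosable_pieces {V : Type} [Finite V] {G : SimpleGraph V} (g5 : ¬HasK5Minor G)
    (g3 : ¬HasK3Minor 3 G) (hcol : G.Colorable 4) {n : ℕ} (piece : V → ℕ)
    (h1 : ∀ i, {v | piece v = i}.ncard ≤ n) (h2 : ∀ i, (back G piece i).ncard ≤ 2)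
    (h3 : ∀ i, ∀ u ∈ back G piece i, ∀ v ∈ back G piece i,
      (res G {w | piece w < i}).Reachable u v) {a b : ℕ}
    (hb : 2 * err n + 2 ≤ b) (hab : (10 * kk n + 7) * b ≤ (2 * kk n + 2) * a) :
    Choosable G a b := by
  have := Fintype.ofFinite V
  obtain ⟨c⟩ := hcol
  have hφ : ∀ u v, G.Adj u v → c u ≠ c v := fun u v h => c.valid h
  intro L hL
  have hmain : ∀ t : ℕ, ∃ T : V → Finset _, (∀ v, piece v < t → T v ⊆ L v ∧ (T v).card = b) ∧
      ∀ u v, piece u < t → piece v < t → G.Adj u v → Disjoint (T u) (T v) := by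
    intro t
    induction t with
    | zero => exact ⟨L, fun v hv => (Nat.not_lt_zero _ hv).elim,
        fun u _ hu => (Nat.not_lt_zero _ hu).elim⟩
    | succ t ih =>
      obtain ⟨s, hs1, hs2⟩ := ih
      let Z : Finset V := univ.filter fun u => u ∈ back G piece t
      have hZ : ∀ u, u ∈ Z ↔ u ∈ back G piece t := fun u => by simp [Z]
      have hZ2 : Z.card ≤ 2 := by
        have h4 := h2 t
        rw [← Set.ncard_coe_finset]
        refine (Set.ncard_le_ncard ?_ (Set.toFinite _)).trans h4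
        intro u hu
        exact (hZ u).1 (mem_coe.1 hu)
      have hG : Five.SepOrGood (clq G {v | piece v = t} Z) := by
        refine sepOrGood_clq g5 g3 (R := {w | piece w < t}) hZ2 ?_ (fun u hu => ((hZ u).1 hu).1)
          (fun u hu v hv => h3 t u ((hZ u).1 hu) v ((hZ v).1 hv))
        rw [Set.disjoint_left]
        intro w hw hw'
        have h5 : piece w < t := hw
        have h6 : piece w = t := hw'
        omega
      obtain ⟨T, hT1, hT2, hT3⟩ := extend hG hZ2
        (fun v hv hvZ => by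
          have h4 := ((hZ v).1 hvZ).1
          have h5 : piece v = t := hv
          omega)
        (h1 t) hφ hb hab hL (s := s) (fun u hu => (hs1 u ((hZ u).1 hu).1).2)
      refine ⟨fun v => if piece v = t then T v else s v, fun v hv => ?_, fun u v hu hv huv => ?_⟩
      · by_cases h : piece v = t
        · simp only [if_pos h]
          exact hT1 v h
        · simp only [if_neg h]
          exact hs1 v (by omega)
      · by_cases h : piece u = t
        · by_cases h' : piece v = t
          · simp only [if_pos h, if_pos h']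
            exact hT3 u h v h' huv
          · simp only [if_pos h, if_neg h']
            exact hT2 u h v ((hZ v).2 ⟨by omega, u, h, huv.symm⟩) huv
        · by_cases h' : piece v = t
          · simp only [if_neg h, if_pos h']
            exact (hT2 v h' u ((hZ u).2 ⟨by omega, v, h', huv⟩) huv.symm).symm
          · simp only [if_neg h, if_neg h']
            exact hs2 u v (by omega) (by omega) huv
  obtain ⟨T, hT1, hT2⟩ := hmain ((univ.sup piece) + 1)
  have hlt : ∀ v, piece v < univ.sup piece + 1 := fun v =>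
    Nat.lt_succ_of_le (le_sup (f := piece) (mem_univ v))
  exact ⟨T, fun v => hT1 v (hlt v), fun u v huv => hT2 u v (hlt u) (hlt v) huv⟩

end Hub

end BDP
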