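import Pool.Agent.Work.MP_0890ba_co.BD.Hub

/-!
# Extension of a colouring to a component

The set `C` contains no vertex next to two vertices of the clique `Z` of precoloured vertices, and
at most two further precoloured vertices `N`, which are next to `Z`, see `C`. Then every choice of
sets of `B` colours for the vertices of `N` extends to `C` as soon as the vertices of `C` with `h`
neighbours in `Z` have `(5 - h) B` colours.
-/

set_option linter.unusedSectionVars false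

namespace BDP

namespace Hub

open Finset Classical

variable {V : Type} {G : SimpleGraph V}

/-- A clique together with some of its neighbours is connected. -/
lemma conn_clique_union {Z Y : Finset V} (hcl : ∀ u ∈ Z, ∀ v ∈ Z, u ≠ v → G.Adj u v)
    (hY : ∀ y ∈ Y, ∃ z ∈ Z, G.Adj z y) : Conn G ((Z : Set V) ∪ Y) := by
  rcases Z.eq_empty_or_nonempty with h0 | ⟨z₀, hz₀⟩
  · intro u hu
    rcases hu with hu | hu
    · rw [h0] at hu
      simp at hu
    · obtain ⟨z, hz, _⟩ := hY u (mem_coe.1 hu)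
      rw [h0] at hz
      exact absurd hz (notMem_empty z)
  · have h1 : ∀ u ∈ Z, (res G ((Z : Set V) ∪ Y)).Reachable z₀ u := by
      intro u hu
      by_cases h : z₀ = u
      · rw [h]
      · exact SimpleGraph.Adj.reachable
          ⟨hcl z₀ hz₀ u hu h, Or.inl (mem_coe.2 hz₀), Or.inl (mem_coe.2 hu)⟩
    have h2 : ∀ u ∈ (Z : Set V) ∪ Y, (res G ((Z : Set V) ∪ Y)).Reachable z₀ u := by
      rintro u (hu | hu)
      · exact h1 u (mem_coe.1 hu)
      · obtain ⟨z, hz, hzu⟩ := hY u (mem_coe.1 hu)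
        exact (h1 z hz).trans (SimpleGraph.Adj.reachable
          ⟨hzu, Or.inl (mem_coe.2 hz), Or.inr hu⟩)
    exact fun u hu v hv => (h2 u hu).symm.trans (h2 v hv)

/-- The extension, where `N` is the union of two sets with at most one vertex each. -/
lemma ext_aux [Fintype V] (hG : Five.SepOrGood G) {Z : Finset V}
    (hcl : ∀ u ∈ Z, ∀ v ∈ Z, u ≠ v → G.Adj u v) (hne : Z.Nonempty) {C : Set V}
    (hCZ : ∀ v ∈ C, v ∉ Z) (h1 : ∀ v ∈ C, hn G Z v ≤ 1) {X Y : Finset V} (hX1 : X.card ≤ 1)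
    (hY1 : Y.card ≤ 1) (hXY : Disjoint X Y) (hXZ : ∀ x ∈ X, x ∉ Z)
    (hXC : ∀ x ∈ X, x ∉ C) (hYC : ∀ x ∈ Y, x ∉ C) (hXa : ∀ x ∈ X, ∃ z ∈ Z, G.Adj z x)
    (hYa : ∀ x ∈ Y, ∃ z ∈ Z, G.Adj z x) {A : V → Finset ℤ} {B : ℕ}
    (hA : ∀ v ∈ C, 5 * B ≤ (A v).card + hn G Z v * B) {s : V → Finset ℤ}
    (hsX : ∀ x ∈ X, (s x).card = B) (hsY : ∀ x ∈ Y, (s x).card = B) :
    ∃ T : V → Finset ℤ, SetCol G C A T ∧ (∀ v ∈ C, (T v).card = B) ∧
      (∀ v ∈ C, ∀ x ∈ X, G.Adj v x → Disjoint (T v) (s x)) ∧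
      ∀ v ∈ C, ∀ x ∈ Y, G.Adj v x → Disjoint (T v) (s x) := by
  let R : V → Finset ℤ := fun v => (Y.filter fun y => G.Adj v y).biUnion s
  have hR : ∀ v, (R v).card ≤ B := by
    intro v
    calc (R v).card ≤ ∑ y ∈ Y.filter (fun y => G.Adj v y), (s y).card := card_biUnion_le
      _ = ∑ y ∈ Y.filter (fun y => G.Adj v y), B :=
          sum_congr rfl fun y hy => hsY y (mem_filter.1 hy).1
      _ = (Y.filter fun y => G.Adj v y).card * B := by rw [sum_const, smul_eq_mul]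
      _ ≤ 1 * B := Nat.mul_le_mul_right B ((card_filter_le _ _).trans hY1)
      _ = B := one_mul B
  let L : V → Finset ℤ := fun v => if v ∈ X then s v else A v \ R v
  have hLX : ∀ x ∈ X, L x = s x := fun x hx => if_pos hx
  have hLC : ∀ v ∈ C, L v = A v \ R v := fun v hv => if_neg fun h => hXC v h hv
  have hCX : ∀ v, v ∈ C ∪ (X : Set V) → v ∉ X → v ∈ C := by
    rintro v (hv | hv) h
    · exact hv
    · exact absurd (mem_coe.1 hv) h
  have hXO : ∀ x ∈ X, x ∈ outer G ((Z : Set V) ∪ Y) (C ∪ X) := by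
    intro x hx
    obtain ⟨z, hz, hzx⟩ := hXa x hx
    exact ⟨Or.inr (mem_coe.2 hx), z, Or.inl (mem_coe.2 hz), hzx⟩
  have hyp : Five.Hyp G B ((Z : Set V) ∪ Y) (C ∪ X) X L := by
    refine ⟨conn_clique_union hcl hYa, ?_, ?_, ?_, ?_, ?_, ?_, ?_⟩
    · obtain ⟨z, hz⟩ := hne
      exact ⟨z, Or.inl (mem_coe.2 hz)⟩
    · rw [Set.disjoint_left]
      rintro v (hv | hv) (hv' | hv')
      · exact hCZ v hv' (mem_coe.1 hv)
      · exact hXZ v (mem_coe.1 hv') (mem_coe.1 hv)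
      · exact hYC v (mem_coe.1 hv) hv'
      · exact disjoint_left.1 hXY (mem_coe.1 hv') (mem_coe.1 hv)
    · exact fun x hx => hXO x (mem_coe.1 hx)
    · intro u hu v hv huv
      exact absurd (card_le_one.1 hX1 u (mem_coe.1 hu) v (mem_coe.1 hv)) huv
    · intro x hx
      rw [hLX x (mem_coe.1 hx)]
      exact hsX x (mem_coe.1 hx)
    · intro v hv hvX
      have hvC : v ∈ C := hCX v hv.1 (fun h => hvX (mem_coe.2 h))
      rw [hLC v hvC]
      have h2 := le_card_sdiff (R v) (A v)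
      have h3 := hR v
      have h4 := hA v hvC
      have h5 := Nat.mul_le_mul_right B (h1 v hvC)
      omega
    · intro v hv hvO
      have hvX : v ∉ X := fun h => hvO (hXO v h)
      have hvC : v ∈ C := hCX v hv hvX
      have h2 : ∀ z ∈ (Z : Set V) ∪ Y, ¬G.Adj z v := fun z hz h => hvO ⟨hv, z, hz, h⟩
      have h3 : hn G Z v = 0 := by
        unfold hn
        rw [card_eq_zero, filter_eq_empty_iff]
        exact fun z hz h => h2 z (Or.inl (mem_coe.2 hz)) h
      have h4 : R v = ∅ := by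
        have h5 : (Y.filter fun y => G.Adj v y) = ∅ := by
          rw [filter_eq_empty_iff]
          exact fun y hy h => h2 y (Or.inr (mem_coe.2 hy)) h.symm
        show (Y.filter fun y => G.Adj v y).biUnion s = ∅
        rw [h5, biUnion_empty]
      rw [hLC v hvC, h4, sdiff_empty]
      have h5 := hA v hvC
      rw [h3, zero_mul, add_zero] at h5
      exact h5
  obtain ⟨S, hS1, hS2⟩ := Five.main hG B ((C ∪ (X : Set V)).ncard + 1) _ _ _ _
    (Nat.lt_succ_self _) (by rw [Set.ncard_coe_finset]; omega) hyp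
  have hSX : ∀ x ∈ X, S x = s x := by
    intro x hx
    have h2 := hS1 x (Or.inr (mem_coe.2 hx))
    rw [hLX x hx] at h2
    exact eq_of_subset_of_card_le h2.1 (by rw [h2.2, hsX x hx])
  have hSC : ∀ v ∈ C, S v ⊆ A v \ R v := by
    intro v hv
    have h2 := (hS1 v (Or.inl hv)).1
    rwa [hLC v hv] at h2
  refine ⟨S, ⟨fun v hv => (hSC v hv).trans sdiff_subset, fun u hu v hv huv =>
    hS2 u (Or.inl hu) v (Or.inl hv) huv⟩, fun v hv => (hS1 v (Or.inl hv)).2,
    fun v hv x hx hvx => ?_, fun v hv y hy hvy => ?_⟩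
  · rw [← hSX x hx]
    exact hS2 v (Or.inl hv) x (Or.inr (mem_coe.2 hx)) hvx
  · refine Disjoint.mono_left (hSC v hv) ?_
    refine Disjoint.mono_right ?_ (sdiff_disjoint (s := R v) (t := A v))
    exact subset_biUnion_of_mem s (mem_filter.2 ⟨hy, hvy⟩)

/-- Every choice of sets for the at most two vertices of `N` extends to `C`. -/
theorem ext_comp [Fintype V] (hG : Five.SepOrGood G) {Z : Finset V}
    (hcl : ∀ u ∈ Z, ∀ v ∈ Z, u ≠ v → G.Adj u v) (hne : Z.Nonempty) {C : Set V}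
    (hCZ : ∀ v ∈ C, v ∉ Z) (h1 : ∀ v ∈ C, hn G Z v ≤ 1) {N : Finset V} (hN2 : N.card ≤ 2)
    (hNZ : ∀ x ∈ N, x ∉ Z) (hNC : ∀ x ∈ N, x ∉ C) (hNa : ∀ x ∈ N, ∃ z ∈ Z, G.Adj z x)
    {A : V → Finset ℤ} {B : ℕ} (hA : ∀ v ∈ C, 5 * B ≤ (A v).card + hn G Z v * B)
    {s : V → Finset ℤ} (hs : ∀ x ∈ N, (s x).card = B) :
    ∃ T : V → Finset ℤ, SetCol G C A T ∧ (∀ v ∈ C, (T v).card = B) ∧
      ∀ v ∈ C, ∀ x ∈ N, G.Adj v x → Disjoint (T v) (s x) := by
  obtain ⟨X, Y, hX1, hY1, hXY, hN⟩ : ∃ X Y : Finset V, X.card ≤ 1 ∧ Y.card ≤ 1 ∧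
      Disjoint X Y ∧ N = X ∪ Y := by
    rcases N.eq_empty_or_nonempty with h0 | ⟨x, hx⟩
    · exact ⟨∅, ∅, by simp, by simp, disjoint_empty_left _, by rw [h0]; simp⟩
    · refine ⟨{x}, N.erase x, by simp, ?_, ?_, ?_⟩
      · rw [card_erase_of_mem hx]
        omega
      · rw [disjoint_singleton_left]
        exact notMem_erase x N
      · rw [← insert_eq, insert_erase hx]
  have hXN : ∀ x ∈ X, x ∈ N := fun x hx => hN ▸ mem_union_left Y hx
  have hYN : ∀ x ∈ Y, x ∈ N := fun x hx => hN ▸ mem_union_right X hx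
  obtain ⟨T, hT1, hT2, hT3, hT4⟩ := ext_aux hG hcl hne hCZ h1 hX1 hY1 hXY
    (fun x hx => hNZ x (hXN x hx)) (fun x hx => hNC x (hXN x hx))
    (fun x hx => hNC x (hYN x hx)) (fun x hx => hNa x (hXN x hx))
    (fun x hx => hNa x (hYN x hx)) hA (fun x hx => hs x (hXN x hx))
    (fun x hx => hs x (hYN x hx))
  refine ⟨T, hT1, hT2, fun v hv x hx hvx => ?_⟩
  rw [hN, mem_union] at hx
  rcases hx with hx | hx
  · exact hT3 v hv x hx hvx
  · exact hT4 v hv x hx hvx

end Hub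

end BDP
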