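import Pool.Agent.Work.MP_0890ba_co.BD.Gen

/-!
# Multiple list colouring from local fragmentation schemes, colour dependent tickets

As in `Gen`, but the allowed set and the distribution of the colouring of a component may depend
on the colour; only the sum over the colours of the numbers of tickets is needed.
-/

set_option linter.unusedSectionVars false

namespace BDP

namespace Far

open Finset Classical

section event2

variable {V : Type} [Fintype V] [DecidableEq V] [Nonempty V] {A : Type} [Fintype A]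
  {B : Type} [Fintype B]

private lemma hit_indep2 {G : SimpleGraph V} {δ : ℝ} {S ρ : ℕ} {X : (V → A) → Set V}
    (hX : IsScheme G A Set.univ δ S ρ X) {Φ : Set V → V → Finset B} {T : Set V}
    (hΦ : ∀ K, Conn G K → K.ncard ≤ S → ∀ u ∈ K, ∀ v ∈ K, G.Adj u v →
      Disjoint (Φ K u) (Φ K v)) {η : V → A × B} {u v : V}
    (huv : G.Adj u v) (hu : Hit G X Φ T η u) (hv : Hit G X Φ T η v) : False := by
  have h1 : (res G (T \ X (fun w => (η w).1))).Adj u v := ⟨huv, ⟨hu.1, hu.2.1⟩, ⟨hv.1, hv.2.1⟩⟩
  have h0 : Col.cmp G (T \ X (fun w => (η w).1)) u = Col.cmp G (T \ X (fun w => (η w).1)) v :=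
    Col.cmp_congr (SimpleGraph.Adj.reachable h1)
  have h2 : Col.lead G (T \ X (fun w => (η w).1)) u =
      Col.lead G (T \ X (fun w => (η w).1)) v := by
    unfold Col.lead
    rw [h0]
  have h3 := hu.2.2
  rw [h2, h0] at h3
  have hS : (Col.cmp G (T \ X (fun w => (η w).1)) v).ncard ≤ S := by
    apply hX.frag (fun w => (η w).1) _ (Col.conn_cmp G _ v) (Set.subset_univ _)
    rw [Set.disjoint_left]
    intro w hw
    exact (Col.cmp_subset (show v ∈ T \ X (fun w => (η w).1) from ⟨hv.1, hv.2.1⟩) hw).2
  have hmu : u ∈ Col.cmp G (T \ X (fun w => (η w).1)) v := by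
    rw [← h0]
    exact Col.self_mem_cmp G _ u
  exact (Finset.disjoint_left.1 (hΦ _ (Col.conn_cmp G _ v) hS u hmu v
    (Col.self_mem_cmp G _ v) huv)) h3 hv.2.2

/-- The number of hits of one colour. -/
private lemma card_hit2 {G : SimpleGraph V} {X : (V → A) → Set V} {Φ : Set V → V → Finset B}
    {T : Set V} {v : V} (hv : v ∈ T) :
    (univ.filter fun η : V → A × B => Hit G X Φ T η v).card * Fintype.card B =
      ∑ α ∈ univ.filter (fun α : V → A => v ∉ X α),
        (Φ (Col.cmp G (T \ X α) v) v).card * Fintype.card (V → B) := by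
  have h1 : (univ.filter fun η : V → A × B => Hit G X Φ T η v).card =
      ((univ.filter fun α : V → A => v ∉ X α).sigma fun α =>
        univ.filter fun κ : V → B =>
          κ (Col.lead G (T \ X α) v) ∈ Φ (Col.cmp G (T \ X α) v) v).card := by
    refine card_bij' (fun η _ => ⟨fun w => (η w).1, fun w => (η w).2⟩)
      (fun q _ => fun w => (q.1 w, q.2 w)) ?_ ?_ ?_ ?_
    · intro η hη
      have h := (mem_filter.1 hη).2
      rw [mem_sigma, mem_filter, mem_filter]
      exact ⟨⟨mem_univ _, h.2.1⟩, mem_univ _, h.2.2⟩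
    · intro q hq
      rw [mem_sigma, mem_filter, mem_filter] at hq
      rw [mem_filter]
      exact ⟨mem_univ _, hv, hq.1.2, hq.2.2⟩
    · intro η _
      rfl
    · intro q _
      rfl
  rw [h1, card_sigma, sum_mul]
  apply sum_congr rfl
  intro α _
  rw [card_value]

/-- The expected number of colours which hit `v`. -/
private lemma sum_hit {G : SimpleGraph V} {δ : ℝ} {S ρ : ℕ} {X : (V → A) → Set V}
    (hX : IsScheme G A Set.univ δ S ρ X) {C : Type} {Φ : C → Set V → V → Finset B} {N : ℕ}
    {T : C → Set V} {v : V} {L : Finset C} (hB : 0 < Fintype.card B) (hL : ∀ c ∈ L, v ∈ T c)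
    (hN : ∀ α : V → A, v ∉ X α → N ≤ ∑ c ∈ L, (Φ c (Col.cmp G (T c \ X α) v) v).card) :
    ((1 - δ) * N / Fintype.card B) * Fintype.card (V → A × B) ≤
      ∑ c ∈ L, ((univ.filter fun η : V → A × B => Hit G X (Φ c) (T c) η v).card : ℝ) := by
  have hM' : (0 : ℝ) < Fintype.card B := by exact_mod_cast hB
  have h2 : (univ.filter fun α : V → A => v ∉ X α).card * (N * Fintype.card (V → B)) ≤
      (∑ c ∈ L, (univ.filter fun η : V → A × B => Hit G X (Φ c) (T c) η v).card) *
        Fintype.card B := by
    rw [sum_mul, sum_congr rfl fun c hc => card_hit2 (hL c hc), sum_comm, ← smul_eq_mul,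
      ← sum_const]
    apply sum_le_sum
    intro α hα
    rw [← sum_mul]
    exact Nat.mul_le_mul_right _ (hN α (mem_filter.1 hα).2)
  have h3 : (1 - δ) * Fintype.card (V → A) ≤
      ((univ.filter fun α : V → A => v ∉ X α).card : ℝ) := by
    have h4 := hX.prob v
    have h5 : ({ω : V → A | v ∈ X ω} : Set (V → A)) =
        ((univ.filter fun α : V → A => v ∈ X α : Finset (V → A)) : Set (V → A)) := by
      ext ω; simp
    rw [h5, Set.ncard_coe_finset] at h4
    have h6 := card_filter_add_card_filter_not (s := (univ : Finset (V → A)))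
      (fun α => v ∈ X α)
    rw [card_univ] at h6
    have h7 : ((univ.filter fun α : V → A => v ∈ X α).card : ℝ) +
        ((univ.filter fun α : V → A => v ∉ X α).card : ℝ) = Fintype.card (V → A) := by
      exact_mod_cast h6
    linarith
  have h8 : ((univ.filter fun α : V → A => v ∉ X α).card : ℝ) * (N * Fintype.card (V → B)) ≤
      (∑ c ∈ L, ((univ.filter fun η : V → A × B => Hit G X (Φ c) (T c) η v).card : ℝ)) *
        Fintype.card B := by
    exact_mod_cast h2
  have h9 : (Fintype.card (V → A × B) : ℝ) =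
      Fintype.card (V → A) * Fintype.card (V → B) := by
    have : Fintype.card (V → A × B) = Fintype.card (V → A) * Fintype.card (V → B) := by
      rw [Fintype.card_fun, Fintype.card_fun, Fintype.card_fun, Fintype.card_prod, mul_pow]
    exact_mod_cast this
  rw [h9, div_mul_eq_mul_div, div_le_iff₀ hM']
  refine le_trans ?_ h8
  have h10 : (0 : ℝ) ≤ N * Fintype.card (V → B) := by positivity
  calc (1 - δ) * N * (Fintype.card (V → A) * Fintype.card (V → B)) =
        ((1 - δ) * Fintype.card (V → A)) * (N * Fintype.card (V → B)) := by ring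
    _ ≤ _ := mul_le_mul_of_nonneg_right h3 h10

end event2

section mgf2

variable {V C B : Type} [Fintype V] [DecidableEq V] [Fintype C] [DecidableEq C] [Fintype B]
  [Nonempty B]

/-- The Markov bound for independent colours with different probabilities. -/
private lemma card_few2 (Lv : Finset C) (H : C → (V → B) → Prop) {b : ℕ} {s x : ℝ}
    (hx0 : 0 < x) (hx1 : x < 1)
    (hH : s * Fintype.card (V → B) ≤
      ∑ c ∈ Lv, ((univ.filter fun η : V → B => H c η).card : ℝ)) :
    ((univ.filter fun ω : V → C → B =>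
        (Lv.filter fun c => H c fun w => ω w c).card < b).card : ℝ) ≤
      (Real.exp (-((1 - x) * s)) / x ^ b) * Fintype.card (V → C → B) := by
  have hxb : 0 < x ^ b := pow_pos hx0 b
  have hΩ : (0 : ℝ) < Fintype.card (V → B) := by exact_mod_cast Fintype.card_pos
  let g : C → (V → B) → ℝ := fun c η => if c ∈ Lv ∧ H c η then x else 1
  have hg0 : ∀ c η, 0 ≤ g c η := by
    intro c η
    dsimp only [g]
    split_ifs <;> linarith
  -- the number of hits as a product
  have h1 : ∀ ω : V → C → B, x ^ (Lv.filter fun c => H c fun w => ω w c).card =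
      ∏ c, g c (fun w => ω w c) := by
    intro ω
    have h2 : ∏ c, g c (fun w => ω w c) =
        ∏ c ∈ Lv.filter fun c => H c fun w => ω w c, x := by
      rw [← prod_filter_mul_prod_filter_not univ
        (fun c => c ∈ Lv ∧ H c fun w => ω w c)]
      have h3 : ∏ c ∈ univ.filter (fun c => ¬ (c ∈ Lv ∧ H c fun w => ω w c)),
          g c (fun w => ω w c) = 1 := by
        apply prod_eq_one
        intro c hc
        exact if_neg (mem_filter.1 hc).2
      rw [h3, mul_one]
      have h4 : univ.filter (fun c => c ∈ Lv ∧ H c fun w => ω w c) =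
          Lv.filter fun c => H c fun w => ω w c := by
        ext c; simp
      rw [h4]
      apply prod_congr rfl
      intro c hc
      exact if_pos (mem_filter.1 hc)
    rw [h2, prod_const]
  -- the sum of the products
  have h5 : ∑ ω : V → C → B, ∏ c, g c (fun w => ω w c) = ∏ c, ∑ η : V → B, g c η := by
    rw [prod_univ_sum, Fintype.piFinset_univ]
    exact Fintype.sum_equiv (Equiv.piComm fun _ _ => B) _ _ fun ω => rfl
  have h6 : ∀ c, ∑ η : V → B, g c η ≤ Fintype.card (V → B) *
      Real.exp (-(if c ∈ Lv then (1 - x) *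
        (((univ.filter fun η : V → B => H c η).card : ℝ) / Fintype.card (V → B)) else 0)) := by
    intro c
    by_cases hc : c ∈ Lv
    · have h7 : ∀ η, g c η = 1 - (1 - x) * (if H c η then 1 else 0) := by
        intro η
        dsimp only [g]
        by_cases h : H c η
        · rw [if_pos ⟨hc, h⟩, if_pos h]; ring
        · rw [if_neg (fun h' => h h'.2), if_neg h]; ring
      rw [sum_congr rfl fun η _ => h7 η, sum_sub_distrib, ← mul_sum, sum_boole, sum_const,
        card_univ, nsmul_eq_mul, mul_one, if_pos hc]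
      have h8 := Real.add_one_le_exp (-((1 - x) *
        (((univ.filter fun η : V → B => H c η).card : ℝ) / Fintype.card (V → B))))
      have h9 := mul_le_mul_of_nonneg_left h8 hΩ.le
      refine le_trans (le_of_eq ?_) h9
      field_simp
      ring
    · have h7 : ∀ η, g c η = 1 := by
        intro η
        exact if_neg (fun h' => hc h'.1)
      rw [sum_congr rfl fun η _ => h7 η, sum_const, card_univ, nsmul_eq_mul, mul_one, if_neg hc,
        neg_zero, Real.exp_zero, mul_one]
  have h9 : ∏ c, ∑ η : V → B, g c η ≤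
      Real.exp (-((1 - x) * s)) * Fintype.card (V → C → B) := by
    calc ∏ c, ∑ η : V → B, g c η ≤ ∏ c, ((Fintype.card (V → B) : ℝ) *
          Real.exp (-(if c ∈ Lv then (1 - x) *
            (((univ.filter fun η : V → B => H c η).card : ℝ) / Fintype.card (V → B)) else 0))) :=
          prod_le_prod (fun c _ => sum_nonneg fun η _ => hg0 c η) fun c _ => h6 c
      _ = (Fintype.card (V → C → B) : ℝ) * Real.exp (-((1 - x) *
            ((∑ c ∈ Lv, ((univ.filter fun η : V → B => H c η).card : ℝ)) /
              Fintype.card (V → B)))) := by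
          rw [prod_mul_distrib, prod_const, ← Real.exp_sum, card_univ]
          congr 1
          · have h10 : Fintype.card (V → C → B) =
                Fintype.card (V → B) ^ Fintype.card C := by
              rw [Fintype.card_fun, Fintype.card_fun, Fintype.card_fun, ← pow_mul, ← pow_mul,
                mul_comm]
            rw [h10]
            push_cast
            rfl
          · congr 1
            rw [sum_neg_distrib, sum_ite_mem, univ_inter, ← mul_sum, sum_div]
      _ ≤ _ := by
          rw [mul_comm]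
          apply mul_le_mul_of_nonneg_right _ (Nat.cast_nonneg _)
          apply Real.exp_le_exp.2
          apply neg_le_neg
          apply mul_le_mul_of_nonneg_left _ (by linarith)
          rw [le_div_iff₀ hΩ]
          exact hH
  -- Markov
  have h10 : x ^ b * ((univ.filter fun ω : V → C → B =>
        (Lv.filter fun c => H c fun w => ω w c).card < b).card : ℝ) ≤
      ∑ ω : V → C → B, ∏ c, g c (fun w => ω w c) := by
    rw [mul_comm, ← nsmul_eq_mul, ← sum_const]
    refine le_trans ?_ (sum_le_sum_of_subset_of_nonneg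
      (filter_subset (fun ω : V → C → B =>
        (Lv.filter fun c => H c fun w => ω w c).card < b) univ)
      fun ω _ _ => prod_nonneg fun c _ => hg0 c _)
    apply sum_le_sum
    intro ω hω
    rw [← h1 ω]
    exact pow_le_pow_of_le_one hx0.le hx1.le (mem_filter.1 hω).2.le
  rw [h5] at h10
  rw [div_mul_eq_mul_div, le_div_iff₀ hxb, mul_comm]
  exact h10.trans h9

end mgf2

/-- Multiple list colouring from local fragmentation schemes, with tickets which depend on the
colour. -/
theorem choosable_gen2 {V : Type} [Fintype V] [DecidableEq V] {G : SimpleGraph V} {Δ : ℕ}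
    (hΔ : ∀ v, (G.neighborSet v).ncard ≤ Δ) {A : Type} [Fintype A] [Nonempty A] {δ : ℝ}
    {S ρ : ℕ} {X : (V → A) → Set V} (hX : IsScheme G A Set.univ δ S ρ X) {B : Type} [Fintype B]
    [Nonempty B] {Z : Type} {T : Z → Set V} {Φ : Z → Set V → V → Finset B}
    (hΦ : ∀ c K, Conn G K → K.ncard ≤ S → ∀ u ∈ K, ∀ v ∈ K, G.Adj u v → Disjoint (Φ c K u) (Φ c K v))
    {L : V → Finset Z} {N : V → ℕ}
    (hN : ∀ v (α : V → A), v ∉ X α → N v ≤
      ∑ c ∈ (L v).filter (fun c => v ∈ T c), (Φ c (Col.cmp G (T c \ X α) v) v).card)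
    {b : V → ℕ} {x q : ℝ} (hx0 : 0 < x) (hx1 : x < 1) (hq0 : 0 ≤ q)
    (hq : ∀ v, b v ≠ 0 → Real.exp (-((1 - x) * ((1 - δ) * N v / Fintype.card B))) / x ^ (b v) ≤ q)
    (h4 : 4 * q * (Δ + 1 : ℝ) ^ (2 * (S + ρ)) ≤ 1) :
    ∃ T' : V → Finset Z, (∀ v, T' v ⊆ (L v).filter (fun c => v ∈ T c) ∧ (T' v).card = b v) ∧
      ∀ u v, G.Adj u v → Disjoint (T' u) (T' v) := by
  rcases isEmpty_or_nonempty V with hV | hV
  · exact ⟨fun _ => ∅, fun v => (hV.false v).elim, fun v => (hV.false v).elim⟩
  have hB : 0 < Fintype.card B := Fintype.card_pos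
  let L' : V → Finset Z := fun v => (L v).filter (fun c => v ∈ T c)
  let U : Finset Z := univ.biUnion L'
  have hU : ∀ v, ∀ c ∈ L' v, c ∈ U := fun v c hc => mem_biUnion.2 ⟨v, mem_univ _, hc⟩
  let Lv : V → Finset U := fun v => (L' v).subtype (· ∈ U)
  have hLv : ∀ v (f : Z → ℕ), ∑ c ∈ Lv v, f (c : Z) = ∑ c ∈ L' v, f c := by
    intro v f
    change ∑ c ∈ (L' v).subtype (· ∈ U), f (c : Z) = _
    rw [sum_subtype_of_mem f (hU v)]
  let H : U → (V → A × B) → V → Prop := fun c η v => Hit G X (Φ c) (T c) η v
  let Bad : V → (V → U → A × B) → Prop := fun v ω =>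
    ((Lv v).filter fun c => H c (fun w => ω w c) v).card < b v
  have hprob : ∀ v, ((univ.filter (Bad v)).card : ℝ) ≤ q * Fintype.card (V → U → A × B) := by
    intro v
    by_cases hb : b v = 0
    · have h0 : univ.filter (Bad v) = ∅ := by
        rw [filter_eq_empty_iff]
        intro ω _ h
        simp only [Bad, hb] at h
        exact Nat.not_lt_zero _ h
      rw [h0, card_empty]
      push_cast
      positivity
    · refine (card_few2 (Lv v) (fun c η => H c η v) (b := b v)
        (s := (1 - δ) * N v / Fintype.card B) hx0 hx1 ?_).trans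
        (mul_le_mul_of_nonneg_right (hq v hb) (Nat.cast_nonneg _))
      refine sum_hit (C := U) (Φ := fun c => Φ c) (T := fun c => T c) hX hB ?_ ?_
      · intro c hc
        exact (mem_filter.1 (mem_subtype.1 hc)).2
      · intro α hα
        rw [hLv v (fun c => (Φ c (Col.cmp G (T c \ X α) v) v).card)]
        exact hN v α hα
  let Sv : V → Finset V := fun v => univ.filter fun w => Near G (S + ρ) v w
  obtain ⟨ω, hω⟩ := MP433A.lll Bad Sv
    (by
      intro v w w' h hb
      have h1 : ((Lv v).filter fun c => H c (fun u => w' u c) v) ⊆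
          (Lv v).filter fun c => H c (fun u => w u c) v := by
        intro c hc
        rw [mem_filter] at hc ⊢
        refine ⟨hc.1, hit_local hX (η := fun u => w' u c) ?_ hc.2⟩
        intro u hu
        have h2 := h u (mem_filter.2 ⟨mem_univ _, hu⟩)
        change w' u c = w u c
        rw [h2]
      exact (card_le_card h1).trans_lt hb)
    q hq0 hprob
    ((Δ + 1) ^ (2 * (S + ρ))) (Nat.one_le_pow _ _ (Nat.succ_pos _))
    (by
      intro v
      refine le_trans (card_le_card ?_) (Col.card_near hΔ v (2 * (S + ρ)))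
      intro v' hv'
      rw [mem_filter] at hv' ⊢
      refine ⟨mem_univ _, ?_⟩
      have h1 := hv'.2
      rw [not_disjoint_iff] at h1
      obtain ⟨w, h2, h3⟩ := h1
      have h4 := Col.near_trans (mem_filter.1 h2).2 (Col.near_symm (mem_filter.1 h3).2)
      rwa [← two_mul] at h4)
    (by
      push_cast
      exact h4)
  have hT : ∀ v, ∃ t ⊆ (Lv v).filter (fun c => H c (fun w => ω w c) v), t.card = b v := by
    intro v
    exact exists_subset_card_eq (not_lt.1 (hω v))
  choose t ht1 ht2 using hT
  refine ⟨fun v => (t v).image Subtype.val, fun v => ⟨?_, ?_⟩, ?_⟩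
  · intro c hc
    obtain ⟨c', hc', rfl⟩ := mem_image.1 hc
    exact mem_subtype.1 (mem_filter.1 (ht1 v hc')).1
  · rw [card_image_of_injective _ Subtype.val_injective, ht2]
  · intro u v huv
    rw [disjoint_left]
    intro c hcu hcv
    obtain ⟨c1, hc1, rfl⟩ := mem_image.1 hcu
    obtain ⟨c2, hc2, h12⟩ := mem_image.1 hcv
    have h13 : c2 = c1 := Subtype.ext h12
    subst h13
    exact hit_indep2 hX (hΦ _) huv (mem_filter.1 (ht1 u hc1)).2 (mem_filter.1 (ht1 v hc2)).2

/-- The numerical choice of the constants. -/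
lemma num2 {η : ℝ} (hη : 0 < η) : ∃ x : ℝ, 0 < x ∧ x < 1 ∧ ∀ q : ℝ, 0 < q → ∃ b0 : ℕ, ∀ (b : ℕ) (μ : ℝ),
    b0 ≤ b → (1 + η) * b ≤ μ → Real.exp (-((1 - x) * μ)) / x ^ b ≤ q := by
  have h1η : 0 < 1 + η := by linarith
  have hs1 : 1 / (1 + η) < 1 := by
    rw [div_lt_one h1η]; linarith
  have hs0 : 0 < 1 / (1 + η) := by positivity
  obtain ⟨x, hx1, hx2⟩ := exists_between hs1
  have hx0 : 0 < x := hs0.trans hx1
  have h1x : 0 < 1 - x := by linarith
  have hc : 0 < (1 - x) * ((1 + η) - 1 / x) := by
    apply mul_pos h1x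
    rw [sub_pos, div_lt_iff₀ hx0]
    rw [div_lt_iff₀ h1η] at hx1
    linarith
  set c := (1 - x) * ((1 + η) - 1 / x) with hcdef
  refine ⟨x, hx0, hx2, fun q hq => ?_⟩
  obtain ⟨b0, hb0⟩ := exists_nat_gt (1 / q / c)
  refine ⟨b0, fun b μ hb hμ => ?_⟩
  have h3 : Real.exp (-((1 - x) * μ)) ≤ Real.exp (-((1 - x) * (1 + η) * b)) := by
    apply Real.exp_le_exp.2
    have h5 := mul_le_mul_of_nonneg_left hμ h1x.le
    linarith
  have h6 : 1 / x ^ b ≤ Real.exp ((1 - x) * (1 / x) * b) := by
    have h7 : 1 / x ≤ Real.exp ((1 - x) * (1 / x)) := by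
      have h8 := Real.add_one_le_exp ((1 - x) * (1 / x))
      have h9 : (1 - x) * (1 / x) + 1 = 1 / x := by
        field_simp
        ring
      linarith
    calc 1 / x ^ b = (1 / x) ^ b := (one_div_pow x b).symm
      _ ≤ Real.exp ((1 - x) * (1 / x)) ^ b := pow_le_pow_left₀ (by positivity) h7 b
      _ = Real.exp (b * ((1 - x) * (1 / x))) := (Real.exp_nat_mul _ _).symm
      _ = _ := by rw [mul_comm]
  have h10 : Real.exp (-((1 - x) * μ)) / x ^ b ≤ Real.exp (-(c * b)) := by
    rw [div_eq_mul_one_div]
    calc Real.exp (-((1 - x) * μ)) * (1 / x ^ b) ≤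
          Real.exp (-((1 - x) * (1 + η) * b)) * Real.exp ((1 - x) * (1 / x) * b) :=
          mul_le_mul h3 h6 (by positivity) (Real.exp_pos _).le
      _ = _ := by
          rw [← Real.exp_add]
          congr 1
          rw [hcdef]
          ring
  refine h10.trans ?_
  have h12 : (b0 : ℝ) ≤ b := by exact_mod_cast hb
  have h13 : 1 / q / c < b := hb0.trans_le h12
  rw [div_lt_iff₀ hc, div_lt_iff₀ hq] at h13
  have h14 := Real.add_one_le_exp (c * b)
  rw [Real.exp_neg, inv_le_comm₀ (Real.exp_pos _) hq]
  have h15 : q⁻¹ ≤ c * b := by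
    rw [inv_le_iff_one_le_mul₀ hq]
    linarith
  linarith

end Far

end BDP
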