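import Pool.Agent.Work.MP_0890ba_co.BD.Path

/-!
# Graphs glued from pieces of bounded order, and graphs without long paths
-/

set_option linter.unusedSectionVars false

namespace BDP

namespace Hub

open Finset Classical Pool.Agent.Work.MP_0890ba_co

/-- The ratio for pieces of at most `n` vertices. -/
noncomputable def ratio (n : ℕ) : ℝ := 5 - 3 / (2 * kk n + 2)

lemma ratio_lt (n : ℕ) : ratio n < 5 := by
  unfold ratio
  have : (0 : ℝ) < 3 / (2 * kk n + 2) := by positivity
  linarith

lemma of_ratio {n a b : ℕ} (h : ratio n * b ≤ a) : (10 * kk n + 7) * b ≤ (2 * kk n + 2) * a := by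
  have h1 : (0 : ℝ) < 2 * kk n + 2 := by positivity
  have h2 : (2 * (kk n : ℝ) + 2) * (ratio n * b) ≤ (2 * kk n + 2) * a :=
    mul_le_mul_of_nonneg_left h h1.le
  have h3 : (2 * (kk n : ℝ) + 2) * (ratio n * b) = (10 * kk n + 7) * b := by
    unfold ratio
    field_simp
    ring
  rw [h3] at h2
  exact_mod_cast h2

/-- Graphs glued from pieces of at most `n` vertices. -/
theorem choosable_ratio {V : Type} [Finite V] {G : SimpleGraph V} (g5 : ¬HasK5Minor G)
    (g3 : ¬HasK3Minor 3 G) (hcol : G.Colorable 4) {n : ℕ} (piece : V → ℕ)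
    (h1 : ∀ i, {v | piece v = i}.ncard ≤ n) (h2 : ∀ i, (back G piece i).ncard ≤ 2)
    (h3 : ∀ i, ∀ u ∈ back G piece i, ∀ v ∈ back G piece i,
      (res G {w | piece w < i}).Reachable u v) (a b : ℕ) (hb : 2 * err n + 2 ≤ b)
    (hab : ratio n * b ≤ a) : Choosable G a b :=
  choosable_pieces g5 g3 hcol piece h1 h2 h3 hb (of_ratio hab)

/-- A bound for all clusters. -/
def clb (m : ℕ) : ℕ := (range (m + 1)).sup fun d => cl d 2

lemma cl_le {d m : ℕ} (h : d ≤ m) : cl d 2 ≤ clb m :=
  le_sup (f := fun d => cl d 2) (mem_range.2 (Nat.lt_succ_of_le h))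

/-- Graphs in which all paths have at most `m` vertices are glued from pieces of bounded order. -/
theorem exists_piece {V : Type} [Finite V] {G : SimpleGraph V} (g3 : ¬HasK3Minor 3 G) {m : ℕ}
    (hm : ∀ (u v : V) (p : G.Walk u v), p.IsPath → p.length < m) :
    ∃ piece : V → ℕ, ∀ i, {v | piece v = i}.ncard ≤ clb m ∧ (back G piece i).ncard ≤ 2 ∧
      ∀ u ∈ back G piece i, ∀ v ∈ back G piece i, (res G {w | piece w < i}).Reachable u v := by
  have := Fintype.ofFinite V
  obtain ⟨piece, k, hk, h⟩ := (build_all g3 (fun d hd => cl_le hd) hm).enum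
  have hlt : ∀ v, piece v < k := fun v => (hk v).1 (Set.mem_univ v)
  refine ⟨piece, fun i => ?_⟩
  rcases Nat.lt_or_ge i k with hi | hi
  · exact h i hi
  · have h0 : {v | piece v = i} = ∅ := by
      rw [Set.eq_empty_iff_forall_notMem]
      intro v hv
      have h1 := hlt v
      have h2 : piece v = i := hv
      omega
    have h0' : back G piece i = ∅ := by
      rw [Set.eq_empty_iff_forall_notMem]
      rintro u ⟨-, v, hv, -⟩
      have h1 := hlt v
      omega
    refine ⟨?_, ?_, ?_⟩
    · rw [h0, Set.ncard_empty]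
      exact Nat.zero_le _
    · rw [h0', Set.ncard_empty]
      exact Nat.zero_le _
    · rw [h0']
      exact fun u hu => absurd hu (Set.notMem_empty u)

/-- A connection inside a set is a walk inside the set. -/
lemma walk_of_res {V : Type} {G : SimpleGraph V} {W : Set V} {u v : V} (hu : u ∈ W)
    (h : (res G W).Reachable u v) : ∃ p : G.Walk u v, ∀ w ∈ p.support, w ∈ W := by
  obtain ⟨q⟩ := h
  refine ⟨q.mapLe (res_le G _), fun w hw => ?_⟩
  rw [SimpleGraph.Walk.support_mapLe_eq_support] at hw
  exact support_res q hu w hw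

/-- A walk inside a set. -/
lemma reachable_res {V : Type} {G : SimpleGraph V} {W : Set V} {u v : V} (p : G.Walk u v)
    (h : ∀ w ∈ p.support, w ∈ W) : (res G W).Reachable u v := by
  induction p with
  | nil => exact SimpleGraph.Reachable.refl _
  | @cons u x v hadj q ih =>
    have hu : u ∈ W := h u (SimpleGraph.Walk.start_mem_support _)
    have hx : x ∈ W := h x (by
      rw [SimpleGraph.Walk.support_cons]
      exact List.mem_cons_of_mem _ (SimpleGraph.Walk.start_mem_support q))
    have h1 : (res G W).Adj u x := ⟨hadj, hu, hx⟩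
    exact h1.reachable.trans (ih fun w hw => h w (by
      rw [SimpleGraph.Walk.support_cons]
      exact List.mem_cons_of_mem _ hw))

end Hub

end BDP
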