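import Pool.Agent.Work.MP_0890ba_co.BD.Tick

/-!
# Two precoloured adjacent vertices

The graph `G` has no Kuratowski minor, `Z` is a clique of at most two precoloured vertices, and
`K` is a set of vertices which are coloured from the lists `A`. A vertex of `K` with `h` neighbours
in `Z` has `(5 - h) β` colours. We mix colourings of `K` from Thomassen's theorem in which one
vertex has twice as many colours as the others with colourings from a proper colouring of `K` with
four colours and a proper colouring of the vertices next to `Z` with three colours.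
-/

set_option linter.unusedSectionVars false

namespace BDP

namespace Hub

open Finset Classical

variable {V : Type} {G : SimpleGraph V}

/-- `S` assigns to the vertices of `K` subsets of their lists, disjoint for adjacent vertices. -/
def SetCol (G : SimpleGraph V) (K : Set V) (A S : V → Finset ℤ) : Prop :=
  (∀ v ∈ K, S v ⊆ A v) ∧ ∀ u ∈ K, ∀ v ∈ K, G.Adj u v → Disjoint (S u) (S v)

/-- The number of vertices of `Z` adjacent to `v`. -/
noncomputable def hn (G : SimpleGraph V) (Z : Finset V) (v : V) : ℕ :=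
  (Z.filter fun u => G.Adj u v).card

/-- New colours. -/
lemma fresh (D : Finset ℤ) (n : ℕ) : ∃ F : Finset ℤ, F.card = n ∧ Disjoint F D := by
  obtain ⟨F, hF, hn⟩ := (D.finite_toSet.infinite_compl).exists_subset_card_eq n
  refine ⟨F, hn, ?_⟩
  rw [disjoint_left]
  intro c hc hc'
  exact hF (mem_coe.2 hc) (mem_coe.2 hc')

/-- The vertex `x`, adjacent to both precoloured vertices, gets `2 β` colours, all others `β`. -/
lemma double [Fintype V] (hG : Five.SepOrGood G) {p q x : V} {K : Set V} {A : V → Finset ℤ}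
    {β : ℕ} (hpq : G.Adj p q) (hp : p ∉ K) (hq : q ∉ K) (hx : x ∈ K) (hxp : G.Adj p x)
    (hxq : G.Adj q x)
    (hA : ∀ v ∈ K, 5 * β ≤ (A v).card + (if G.Adj p v then β else 0) +
      (if G.Adj q v then β else 0)) :
    ∃ S : V → Finset ℤ, SetCol G K A S ∧ (∀ v ∈ K, v ≠ x → β ≤ (S v).card) ∧
      2 * β ≤ (S x).card := by
  have hT0 : 2 * β ≤ (A x).card := by
    have h1 := hA x hx
    rw [if_pos hxp, if_pos hxq] at h1
    omega
  obtain ⟨T, hTA, hTc⟩ := exists_subset_card_eq hT0
  let D : Finset ℤ := univ.biUnion A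
  have hD : ∀ v, A v ⊆ D := fun v => subset_biUnion_of_mem A (mem_univ v)
  obtain ⟨F₁, hF₁, hF₁D⟩ := fresh D β
  obtain ⟨F₂, hF₂, hF₂D⟩ := fresh (D ∪ F₁) β
  rw [disjoint_union_right] at hF₂D
  let Q : V → Finset ℤ := fun v => A v \ (if G.Adj x v then T else ∅)
  let L : V → Finset ℤ := fun v => if v = p then F₁ else if v = q then F₂ else
    (Q v ∪ (if G.Adj p v then F₁ else ∅)) ∪ (if G.Adj q v then F₂ else ∅)
  have hqp : q ≠ p := hpq.ne'
  have hLp : L p = F₁ := if_pos rfl
  have hLq : L q = F₂ := by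
    show (if q = p then F₁ else if q = q then F₂ else _) = F₂
    rw [if_neg hqp, if_pos rfl]
  have hLK : ∀ v ∈ K, L v = (Q v ∪ (if G.Adj p v then F₁ else ∅)) ∪
      (if G.Adj q v then F₂ else ∅) := by
    intro v hv
    have h1 : v ≠ p := fun h => hp (h ▸ hv)
    have h2 : v ≠ q := fun h => hq (h ▸ hv)
    show (if v = p then F₁ else if v = q then F₂ else _) = _
    rw [if_neg h1, if_neg h2]
  have hQD : ∀ v, Q v ⊆ D := fun v => sdiff_subset.trans (hD v)
  have hLc : ∀ v ∈ K, (L v).card = (Q v).card + (if G.Adj p v then β else 0) +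
      (if G.Adj q v then β else 0) := by
    intro v hv
    rw [hLK v hv, card_union_of_disjoint, card_union_of_disjoint]
    · congr 1
      · congr 1
        split_ifs
        · exact hF₁
        · rfl
      · split_ifs
        · exact hF₂
        · rfl
    · split_ifs
      · exact (hF₁D.mono_right (hQD v)).symm
      · exact disjoint_empty_right _
    · rw [disjoint_union_left]
      constructor
      · split_ifs
        · exact (hF₂D.1.mono_right (hQD v)).symm
        · exact disjoint_empty_right _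
      · split_ifs
        · exact hF₂D.2.symm
        · exact disjoint_empty_right _
        · exact disjoint_empty_left _
        · exact disjoint_empty_left _
  set W : Set V := (K \ {x}) ∪ {p, q} with hW
  have hpW : p ∈ outer G {x} W := ⟨Or.inr (Or.inl rfl), x, rfl, hxp.symm⟩
  have hqW : q ∈ outer G {x} W := ⟨Or.inr (Or.inr rfl), x, rfl, hxq.symm⟩
  have hyp : Five.Hyp G β {x} W {p, q} L := by
    refine ⟨?_, ⟨x, rfl⟩, ?_, ?_, ?_, ?_, ?_, ?_⟩
    · intro a ha c hc
      rw [Set.mem_singleton_iff] at ha hc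
      rw [ha, hc]
    · rw [Set.disjoint_singleton_left]
      rintro (h | h | h)
      · exact h.2 rfl
      · exact hp (h ▸ hx)
      · rw [Set.mem_singleton_iff] at h
        exact hq (h ▸ hx)
    · rintro u (rfl | hu)
      · exact hpW
      · rw [Set.mem_singleton_iff] at hu
        subst hu
        exact hqW
    · rintro u (rfl | hu) v (rfl | hv) huv
      · exact absurd rfl huv
      · rw [Set.mem_singleton_iff] at hv
        subst hv
        rw [hLp, hLq]
        exact ⟨hpq, hF₂D.2.symm⟩
      · rw [Set.mem_singleton_iff] at hu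
        subst hu
        rw [hLp, hLq]
        exact ⟨hpq.symm, hF₂D.2⟩
      · rw [Set.mem_singleton_iff] at hu hv
        exact absurd (hu.trans hv.symm) huv
    · rintro u (rfl | hu)
      · rw [hLp, hF₁]
      · rw [Set.mem_singleton_iff] at hu
        subst hu
        rw [hLq, hF₂]
    · rintro v ⟨hv, z, hz, hzv⟩ hvB
      rw [Set.mem_singleton_iff] at hz
      subst hz
      have hvK : v ∈ K := by
        rcases hv with h | h
        · exact h.1
        · exact absurd h hvB
      rw [hLc v hvK]
      have h1 := hA v hvK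
      have h2 : (A v).card ≤ (Q v).card + 2 * β := by
        have h3 := le_card_sdiff (if G.Adj z v then T else ∅) (A v)
        rw [if_pos hzv, hTc] at h3
        show (A v).card ≤ (A v \ (if G.Adj z v then T else ∅)).card + 2 * β
        rw [if_pos hzv]
        omega
      omega
    · intro v hv hvO
      have hvK : v ∈ K := by
        rcases hv with h | h | h
        · exact h.1
        · exact absurd (h ▸ hpW) hvO
        · rw [Set.mem_singleton_iff] at h
          exact absurd (h ▸ hqW) hvO
      have hxv : ¬ G.Adj x v := fun h => hvO ⟨hv, x, rfl, h⟩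
      rw [hLc v hvK]
      have h1 := hA v hvK
      have h2 : Q v = A v := by
        show A v \ (if G.Adj x v then T else ∅) = A v
        rw [if_neg hxv, sdiff_empty]
      rw [h2]
      exact h1
  obtain ⟨S, hS1, hS2⟩ := Five.main hG β (W.ncard + 1) _ _ _ _ (Nat.lt_succ_self _)
    (Five.ncard_pair_le p q) hyp
  have hSp : S p = F₁ := by
    have h1 := hS1 p hpW.1
    rw [hLp] at h1
    exact eq_of_subset_of_card_le h1.1 (by rw [h1.2, hF₁])
  have hSq : S q = F₂ := by
    have h1 := hS1 q hqW.1
    rw [hLq] at h1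
    exact eq_of_subset_of_card_le h1.1 (by rw [h1.2, hF₂])
  have hSK : ∀ v ∈ K, v ≠ x → S v ⊆ Q v := by
    intro v hv hvx c hc
    have hvW : v ∈ W := Or.inl ⟨hv, hvx⟩
    have h1 := (hS1 v hvW).1 hc
    rw [hLK v hv, mem_union, mem_union] at h1
    rcases h1 with (h1 | h1) | h1
    · exact h1
    · split_ifs at h1 with h2
      · have h3 := hS2 p hpW.1 v hvW h2
        rw [hSp] at h3
        exact absurd hc (disjoint_left.1 h3 h1)
      · exact absurd h1 (notMem_empty c)
    · split_ifs at h1 with h2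
      · have h3 := hS2 q hqW.1 v hvW h2
        rw [hSq] at h3
        exact absurd hc (disjoint_left.1 h3 h1)
      · exact absurd h1 (notMem_empty c)
  have hTQ : ∀ v ∈ K, v ≠ x → G.Adj x v → Disjoint T (S v) := by
    intro v hv hvx h
    refine Disjoint.mono_right (hSK v hv hvx) ?_
    show Disjoint T (A v \ (if G.Adj x v then T else ∅))
    rw [if_pos h]
    exact disjoint_sdiff
  refine ⟨Function.update S x T, ⟨fun v hv => ?_, fun u hu v hv huv => ?_⟩, fun v hv hvx => ?_, ?_⟩
  · by_cases h : v = x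
    · subst h
      rw [Function.update_self]
      exact hTA
    · rw [Function.update_of_ne h]
      exact (hSK v hv h).trans sdiff_subset
  · by_cases h : u = x
    · subst h
      rw [Function.update_self, Function.update_of_ne huv.ne']
      exact hTQ v hv huv.ne' huv
    · rw [Function.update_of_ne h]
      by_cases h' : v = x
      · subst h'
        rw [Function.update_self]
        exact (hTQ u hu h huv.symm).symm
      · rw [Function.update_of_ne h']
        exact hS2 u (Or.inl ⟨hu, h⟩) v (Or.inl ⟨hv, h'⟩) huv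
  · rw [Function.update_of_ne hvx]
    exact (hS1 v (Or.inl ⟨hv, hvx⟩)).2.ge
  · rw [Function.update_self, hTc]

/-- The vertices next to a connected set have a proper colouring with three colours. -/
lemma three [Fintype V] (hG : Five.SepOrGood G) {Z W : Set V} (hZ : Conn G Z) (hne : Z.Nonempty)
    (hd : Disjoint Z W) (hW : ∀ v ∈ W, ∃ z ∈ Z, G.Adj z v) :
    ∃ ψ : V → Fin 3, ∀ u ∈ W, ∀ v ∈ W, G.Adj u v → ψ u ≠ ψ v := by
  have hyp : Five.Hyp G 1 Z W ∅ (fun _ => ({0, 1, 2} : Finset ℤ)) := by
    refine ⟨hZ, hne, hd, Set.empty_subset _, ?_, ?_, ?_, ?_⟩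
    · exact fun u hu => absurd hu (Set.notMem_empty u)
    · exact fun u hu => absurd hu (Set.notMem_empty u)
    · exact fun u _ _ => by decide
    · exact fun u hu hu' => absurd ⟨hu, hW u hu⟩ hu'
  obtain ⟨S, hS1, hS2⟩ := Five.main hG 1 (W.ncard + 1) _ _ _ _ (Nat.lt_succ_self _)
    (by rw [Set.ncard_empty]; omega) hyp
  have h1 : ∀ v : V, ∃ i : Fin 3, v ∈ W → ((i : ℕ) : ℤ) ∈ S v := by
    intro v
    by_cases hv : v ∈ W
    · obtain ⟨c, hc⟩ := card_eq_one.1 (hS1 v hv).2
      have h2 := (hS1 v hv).1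
      rw [hc] at h2
      have h3 := h2 (mem_singleton_self c)
      simp only [mem_insert, mem_singleton] at h3
      rcases h3 with rfl | rfl | rfl
      · exact ⟨0, fun _ => by rw [hc]; simp⟩
      · exact ⟨1, fun _ => by rw [hc]; simp⟩
      · exact ⟨2, fun _ => by rw [hc]; simp⟩
    · exact ⟨0, fun h => absurd h hv⟩
  choose ψ hψ using h1
  refine ⟨ψ, fun u hu v hv huv h => ?_⟩
  exact disjoint_left.1 (hS2 u hu v hv huv) (hψ u hu) (h ▸ hψ v hv)

lemma hn_pair {p q : V} (hpq : p ≠ q) (v : V) :
    hn G {p, q} v = (if G.Adj p v then 1 else 0) + (if G.Adj q v then 1 else 0) := by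
  unfold hn
  rw [filter_insert, filter_singleton]
  by_cases h1 : G.Adj p v <;> by_cases h2 : G.Adj q v <;> simp [h1, h2, hpq]

/-- The mixture for a piece. -/
theorem tickets_eq [Fintype V] (hG : Five.SepOrGood G) {Z : Finset V}
    (hcl : ∀ u ∈ Z, ∀ v ∈ Z, u ≠ v → G.Adj u v) (hZ : Z.card ≤ 2) {K : Set V}
    (hK : ∀ v ∈ K, v ∉ Z) {φ : V → Fin 4} (hφ : ∀ u ∈ K, ∀ v ∈ K, G.Adj u v → φ u ≠ φ v)
    {A : V → Finset ℤ} {β : ℕ} (hA : ∀ v ∈ K, 5 * β ≤ (A v).card + hn G Z v * β) :
    ∃ (Ω : Type) (_ : Fintype Ω) (S : Ω → V → Finset ℤ),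
      Fintype.card Ω = 19 + 5 * (univ.filter fun v => v ∈ K ∧ hn G Z v = 2).card ∧
      (∀ ω, SetCol G K A (S ω)) ∧
      ∀ v ∈ K, (Fintype.card Ω + 1) * β ≤ ∑ ω, (S ω v).card := by
  -- the colouring with three colours
  obtain ⟨ψ, hψ⟩ : ∃ ψ : V → Fin 3, ∀ u ∈ K, ∀ v ∈ K, hn G Z u ≠ 0 → hn G Z v ≠ 0 →
      G.Adj u v → ψ u ≠ ψ v := by
    rcases Z.eq_empty_or_nonempty with h0 | h0
    · refine ⟨fun _ => 0, fun u _ v _ h => absurd ?_ h⟩
      rw [h0]
      rfl
    · have h1 : Conn G (Z : Set V) := by
        intro u hu v hv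
        by_cases huv : u = v
        · rw [huv]
        · exact SimpleGraph.Adj.reachable ⟨hcl u hu v hv huv, hu, hv⟩
      have h2 : ∀ v, hn G Z v ≠ 0 → ∃ z ∈ (Z : Set V), G.Adj z v := by
        intro v hv
        obtain ⟨z, hz⟩ := card_pos.1 (Nat.pos_of_ne_zero hv)
        rw [mem_filter] at hz
        exact ⟨z, hz.1, hz.2⟩
      obtain ⟨ψ, hψ⟩ := three hG (W := {v | v ∈ K ∧ hn G Z v ≠ 0}) h1 h0 (by
        rw [Set.disjoint_left]
        exact fun u hu hu' => hK u hu'.1 hu) (fun v hv => h2 v hv.2)
      exact ⟨ψ, fun u hu v hv hu' hv' huv => hψ u ⟨hu, hu'⟩ v ⟨hv, hv'⟩ huv⟩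
  -- the doubled vertices
  let X : Finset V := univ.filter fun v => v ∈ K ∧ hn G Z v = 2
  have hX : ∀ x : X, ∃ S : V → Finset ℤ, SetCol G K A S ∧
      (∀ v ∈ K, v ≠ x → β ≤ (S v).card) ∧ 2 * β ≤ (S x).card := by
    rintro ⟨x, hx⟩
    obtain ⟨-, hxK, hx2⟩ := mem_filter.1 hx
    have h1 : (Z.filter fun u => G.Adj u x) = Z := by
      refine filter_eq_self.2 ?_
      have h2 : (Z.filter fun u => G.Adj u x) = Z :=
        eq_of_subset_of_card_le (filter_subset _ _) (by
          have h3 : (Z.filter fun u => G.Adj u x).card = 2 := hx2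
          omega)
      intro u hu
      rw [← h2] at hu
      exact (mem_filter.1 hu).2
    have h2 : Z.card = 2 := by
      rw [← h1]
      exact hx2
    obtain ⟨p, q, hpq, hZ'⟩ := card_eq_two.1 h2
    have hp : p ∈ Z := by rw [hZ']; simp
    have hq : q ∈ Z := by rw [hZ']; simp
    have hp' : G.Adj p x := by
      rw [← h1] at hp
      exact (mem_filter.1 hp).2
    have hq' : G.Adj q x := by
      rw [← h1] at hq
      exact (mem_filter.1 hq).2
    refine double hG (hcl p hp q hq hpq) (fun h => hK p h hp) (fun h => hK q h hq) hxK hp' hq' ?_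
    intro v hv
    have h3 := hA v hv
    rw [hZ', hn_pair hpq] at h3
    split_ifs at h3 ⊢ <;> omega
  choose T hT1 hT2 hT3 using hX
  let S : (Fin 4 × Fin 4) ⊕ (Fin 3 ⊕ (X × Fin 5)) → V → Finset ℤ := fun ω v => match ω with
    | .inl (j, _) => if φ v = j then A v else ∅
    | .inr (.inl j) => if hn G Z v ≠ 0 ∧ ψ v = j then A v else ∅
    | .inr (.inr (x, _)) => T x v
  have hcard : Fintype.card ((Fin 4 × Fin 4) ⊕ (Fin 3 ⊕ (X × Fin 5))) = 19 + 5 * X.card := by
    simp only [Fintype.card_sum, Fintype.card_prod, Fintype.card_fin, Fintype.card_coe]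
    ring
  refine ⟨_, inferInstance, S, hcard, ?_, ?_⟩
  · rintro (⟨j, i⟩ | j | ⟨x, i⟩)
    · refine ⟨fun v _ => ?_, fun u hu v hv huv => ?_⟩
      · show (if φ v = j then A v else ∅) ⊆ A v
        split_ifs
        · exact Subset.refl _
        · exact empty_subset _
      · show Disjoint (if φ u = j then A u else ∅) (if φ v = j then A v else ∅)
        split_ifs with h1 h2
        · exact absurd (h1.trans h2.symm) (hφ u hu v hv huv)
        · exact disjoint_empty_right _
        · exact disjoint_empty_left _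
        · exact disjoint_empty_left _
    · refine ⟨fun v _ => ?_, fun u hu v hv huv => ?_⟩
      · show (if hn G Z v ≠ 0 ∧ ψ v = j then A v else ∅) ⊆ A v
        split_ifs
        · exact Subset.refl _
        · exact empty_subset _
      · show Disjoint (if hn G Z u ≠ 0 ∧ ψ u = j then A u else ∅)
          (if hn G Z v ≠ 0 ∧ ψ v = j then A v else ∅)
        split_ifs with h1 h2
        · exact absurd (h1.2.trans h2.2.symm) (hψ u hu v hv h1.1 h2.1 huv)
        · exact disjoint_empty_right _
        · exact disjoint_empty_left _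
        · exact disjoint_empty_left _
    · exact hT1 x
  · intro v hv
    rw [hcard, Fintype.sum_sum_type, Fintype.sum_sum_type, Fintype.sum_prod_type,
      Fintype.sum_prod_type]
    have e1 : ∑ j : Fin 4, ∑ i : Fin 4, (S (.inl (j, i)) v).card = 4 * (A v).card := by
      have h1 : ∀ j i : Fin 4, (S (.inl (j, i)) v).card = if φ v = j then (A v).card else 0 := by
        intro j i
        show (if φ v = j then A v else ∅).card = _
        split_ifs
        · rfl
        · rfl
      simp only [h1, sum_const, card_univ, Fintype.card_fin, smul_eq_mul]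
      rw [← mul_sum, sum_ite_eq]
      simp
    have e2 : hn G Z v ≠ 0 → ∑ j : Fin 3, (S (.inr (.inl j)) v).card = (A v).card := by
      intro h0
      have h1 : ∀ j : Fin 3, (S (.inr (.inl j)) v).card = if ψ v = j then (A v).card else 0 := by
        intro j
        show (if hn G Z v ≠ 0 ∧ ψ v = j then A v else ∅).card = _
        by_cases h : ψ v = j
        · rw [if_pos ⟨h0, h⟩, if_pos h]
        · rw [if_neg (fun h' => h h'.2), if_neg h, card_empty]
      simp only [h1]
      rw [sum_ite_eq]
      simp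
    have e3 : ∑ x : X, ∑ i : Fin 5, (S (.inr (.inr (x, i))) v).card =
        5 * ∑ x : X, (T x v).card := by
      have h1 : ∀ (x : X) (i : Fin 5), (S (.inr (.inr (x, i))) v).card = (T x v).card :=
        fun _ _ => rfl
      simp only [h1, sum_const, card_univ, Fintype.card_fin, smul_eq_mul]
      rw [← mul_sum]
    have e4 : X.card * β ≤ ∑ x : X, (T x v).card := by
      have h1 : ∀ x : X, β ≤ (T x v).card := by
        intro x
        by_cases h : v = x
        · have h2 := hT3 x
          rw [← h] at h2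
          omega
        · exact hT2 x v hv h
      calc X.card * β = ∑ _x : X, β := by simp
        _ ≤ _ := sum_le_sum fun x _ => h1 x
    have e5 : v ∈ X → (X.card + 1) * β ≤ ∑ x : X, (T x v).card := by
      intro hvX
      have h1 : ∀ x : X, β + (if x = ⟨v, hvX⟩ then β else 0) ≤ (T x v).card := by
        intro x
        by_cases h : x = ⟨v, hvX⟩
        · have h2 := hT3 x
          rw [if_pos h]
          rw [h] at h2 ⊢
          have h3 : 2 * β ≤ (T ⟨v, hvX⟩ v).card := h2
          omega
        · rw [if_neg h]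
          exact hT2 x v hv (fun h' => h (Subtype.ext h'.symm))
      calc (X.card + 1) * β = ∑ x : X, (β + (if x = ⟨v, hvX⟩ then β else 0)) := by
            rw [sum_add_distrib, sum_ite_eq']
            simp
            ring
        _ ≤ _ := sum_le_sum fun x _ => h1 x
    have hAv := hA v hv
    have h2 : hn G Z v ≤ 2 := (card_filter_le _ _).trans hZ
    rw [e1, e3]
    rcases Nat.eq_zero_or_pos (hn G Z v) with h0 | h0
    · rw [h0] at hAv
      nlinarith [Nat.zero_le (∑ j : Fin 3, (S (.inr (.inl j)) v).card)]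
    · rw [e2 h0.ne']
      by_cases h3 : hn G Z v = 1
      · rw [h3] at hAv
        nlinarith
      · have h4 : hn G Z v = 2 := by omega
        have h5 := e5 (mem_filter.2 ⟨mem_univ v, hv, h4⟩)
        rw [h4] at hAv
        nlinarith

/-- The mixture for a piece of at most `n` vertices. -/
theorem tickets [Fintype V] (hG : Five.SepOrGood G) {Z : Finset V}
    (hcl : ∀ u ∈ Z, ∀ v ∈ Z, u ≠ v → G.Adj u v) (hZ : Z.card ≤ 2) {K : Set V}
    (hK : ∀ v ∈ K, v ∉ Z) {φ : V → Fin 4} (hφ : ∀ u ∈ K, ∀ v ∈ K, G.Adj u v → φ u ≠ φ v)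
    {A : V → Finset ℤ} {β : ℕ} (hA : ∀ v ∈ K, 5 * β ≤ (A v).card + hn G Z v * β) {n : ℕ}
    (hKn : K.ncard ≤ n) :
    ∃ (Ω : Type) (_ : Fintype Ω) (S : Ω → V → Finset ℤ), 0 < Fintype.card Ω ∧
      Fintype.card Ω ≤ 19 + 5 * n ∧ (∀ ω, SetCol G K A (S ω)) ∧
      ∀ v ∈ K, (Fintype.card Ω + 1) * β ≤ ∑ ω, (S ω v).card := by
  obtain ⟨Ω, hΩ, S, hc, h1, h2⟩ := tickets_eq hG hcl hZ hK hφ hA
  have hXn : (univ.filter fun v => v ∈ K ∧ hn G Z v = 2).card ≤ n := by
    refine le_trans ?_ hKn
    rw [← Set.ncard_coe_finset]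
    refine Set.ncard_le_ncard ?_ (Set.toFinite _)
    intro v hv
    exact (mem_filter.1 (mem_coe.1 hv)).2.1
  exact ⟨Ω, hΩ, S, by omega, by omega, h1, h2⟩

end Hub

end BDP
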