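import Pool.Agent.Work.MP_0890ba_co.BD.Colour

/-!
# The choice of the constants
-/

namespace BDP

open Pool.Agent.Work.MP_0890ba_co

/-- The numerical choice of the constants. -/
lemma numeric {r ε : ℝ} (hr : 0 < r) (hε : 0 < ε) :
    ∃ δ > 0, ∃ x : ℝ, 0 < x ∧ x < 1 ∧ ∀ C : ℝ, 0 ≤ C → ∃ b0 : ℕ, ∀ a b M N : ℕ, b0 ≤ b →
      (r + ε) * b ≤ a → 0 < N → N ≤ M → (M : ℝ) ≤ r * N →
      4 * ((1 - (1 - x) * ((1 - δ) * N / M)) ^ a / x ^ b) * C ≤ 1 := by
  have hre : 0 < r + ε := by linarith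
  have hs1 : r / (r + ε) < 1 := by
    rw [div_lt_one hre]; linarith
  have hs0 : 0 < r / (r + ε) := div_pos hr hre
  obtain ⟨y, hy1, hy2⟩ := exists_between hs1
  have hy0 : 0 < y := hs0.trans hy1
  -- `y = 1 - δ`
  have hx : r / (r + ε) / y < 1 := by
    rw [div_lt_one hy0]; exact hy1
  obtain ⟨x, hx1, hx2⟩ := exists_between hx
  have hx0 : 0 < x := (div_pos hs0 hy0).trans hx1
  have h1x : 0 < 1 - x := by linarith
  -- the exponent
  have hc : 0 < (1 - x) * ((r + ε) * (y / r) - 1 / x) := by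
    apply mul_pos h1x
    rw [sub_pos, div_lt_iff₀ hx0]
    rw [div_lt_iff₀ hy0, div_lt_iff₀ hre] at hx1
    have : (r + ε) * (y / r) * x = (x * y * (r + ε)) / r := by ring
    rw [this, lt_div_iff₀ hr, one_mul]
    exact hx1
  set c := (1 - x) * ((r + ε) * (y / r) - 1 / x) with hcdef
  refine ⟨1 - y, by linarith, x, hx0, hx2, fun C hC => ?_⟩
  obtain ⟨b0, hb0⟩ := exists_nat_gt (4 * C / c)
  refine ⟨b0, fun a b M N hb hab hN hNM hM => ?_⟩
  have hN' : (0 : ℝ) < N := by exact_mod_cast hN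
  have hNM' : (N : ℝ) ≤ M := by exact_mod_cast hNM
  have hM' : (0 : ℝ) < M := hN'.trans_le hNM'
  have e1 : 1 - (1 - y) = y := by ring
  rw [e1]
  set θ := y * N / M with hθ
  have hθ1 : θ ≤ 1 := by
    rw [hθ, div_le_one hM']
    nlinarith
  have hθ0 : y / r ≤ θ := by
    rw [hθ, div_le_div_iff₀ hr hM']
    have := mul_le_mul_of_nonneg_left hM hy0.le
    linarith
  have hθpos : 0 ≤ θ := le_trans (by positivity) hθ0
  have h2 : 0 ≤ 1 - (1 - x) * θ := by nlinarith
  have h3 : (1 - (1 - x) * θ) ^ a ≤ Real.exp (-((1 - x) * ((r + ε) * (y / r)) * b)) := by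
    calc (1 - (1 - x) * θ) ^ a ≤ Real.exp (-((1 - x) * θ)) ^ a :=
          pow_le_pow_left₀ h2 (Real.one_sub_le_exp_neg _) a
      _ = Real.exp (a * -((1 - x) * θ)) := (Real.exp_nat_mul _ _).symm
      _ ≤ _ := by
          apply Real.exp_le_exp.2
          have h4 : (r + ε) * b * (y / r) ≤ a * θ := by
            apply mul_le_mul hab hθ0 (by positivity) (Nat.cast_nonneg _)
          have h5 := mul_le_mul_of_nonneg_left h4 h1x.le
          linarith
  have h6 : 1 / x ^ b ≤ Real.exp ((1 - x) * (1 / x) * b) := by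
    have h7 : 1 / x ≤ Real.exp ((1 - x) * (1 / x)) := by
      have h8 := Real.add_one_le_exp ((1 - x) * (1 / x))
      have h9 : (1 - x) * (1 / x) + 1 = 1 / x := by
        field_simp
        ring
      linarith
    calc 1 / x ^ b = (1 / x) ^ b := (one_div_pow x b).symm
      _ ≤ Real.exp ((1 - x) * (1 / x)) ^ b := pow_le_pow_left₀ (by positivity) h7 b
      _ = Real.exp (b * ((1 - x) * (1 / x))) := (Real.exp_nat_mul _ _).symm
      _ = _ := by rw [mul_comm]
  have h10 : (1 - (1 - x) * θ) ^ a / x ^ b ≤ Real.exp (-(c * b)) := by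
    rw [div_eq_mul_one_div]
    calc (1 - (1 - x) * θ) ^ a * (1 / x ^ b) ≤
          Real.exp (-((1 - x) * ((r + ε) * (y / r)) * b)) * Real.exp ((1 - x) * (1 / x) * b) :=
          mul_le_mul h3 h6 (by positivity) (Real.exp_pos _).le
      _ = _ := by
          rw [← Real.exp_add]
          congr 1
          rw [hcdef]
          ring
  have h11 : 4 * C ≤ Real.exp (c * b) := by
    have h12 : (b0 : ℝ) ≤ b := by exact_mod_cast hb
    have h13 : 4 * C / c < b := hb0.trans_le h12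
    rw [div_lt_iff₀ hc] at h13
    have h14 := Real.add_one_le_exp (c * b)
    linarith
  have h15 : 4 * ((1 - (1 - x) * θ) ^ a / x ^ b) * C ≤ Real.exp (-(c * b)) * Real.exp (c * b) := by
    calc 4 * ((1 - (1 - x) * θ) ^ a / x ^ b) * C =
          ((1 - (1 - x) * θ) ^ a / x ^ b) * (4 * C) := by ring
      _ ≤ _ := mul_le_mul h10 h11 (by positivity) (Real.exp_pos _).le
  rw [← Real.exp_add, neg_add_cancel, Real.exp_zero] at h15
  exact h15

/-- Multiple list colouring from local fragmentation schemes, with the constants chosen. -/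
theorem choosable_of_family (Δ : ℕ) (r : ℝ) {ε : ℝ} (hε : 0 < ε) :
    ∃ δ > 0, ∀ S ρ : ℕ, ∃ b0 : ℕ, ∀ (V : Type) [Fintype V] [DecidableEq V] (G : SimpleGraph V)
      (A : Type) [Fintype A] [Nonempty A] (X : (V → A) → Set V),
      (∀ v, (G.neighborSet v).ncard ≤ Δ) → IsScheme G A Set.univ δ S ρ X →
      FracColourable G r → ∀ a b : ℕ, b0 ≤ b → (r + ε) * b ≤ a → Choosable G a b := by
  rcases lt_or_ge r 1 with hr | hr
  · -- then there are no vertices
    refine ⟨1, one_pos, fun S ρ => ⟨0, ?_⟩⟩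
    intro V _ _ G A _ _ X _ _ hG a b _ _ L _
    obtain ⟨M, N, φ, hN, hM, hφN, _⟩ := hG
    have hV : ∀ v : V, False := by
      intro v
      have h1 := Finset.card_le_univ (φ v)
      rw [hφN, Fintype.card_fin] at h1
      have h2 : (N : ℝ) ≤ M := by exact_mod_cast h1
      have h3 : (0 : ℝ) < N := by exact_mod_cast hN
      nlinarith
    exact ⟨fun _ => ∅, fun v => (hV v).elim, fun v => (hV v).elim⟩
  · obtain ⟨δ, hδ, x, hx0, hx1, hnum⟩ := numeric (by linarith : 0 < r) hε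
    refine ⟨δ, hδ, fun S ρ => ?_⟩
    obtain ⟨b0, hb0⟩ := hnum ((Δ + 1 : ℝ) ^ (2 * (S + ρ))) (by positivity)
    refine ⟨b0, ?_⟩
    intro V _ _ G A _ _ X hΔ hX hG a b hb hab L hL
    obtain ⟨M, N, φ, hN, hM, hφN, hφ⟩ := hG
    rcases isEmpty_or_nonempty V with hV | hV
    · exact ⟨fun _ => ∅, fun v => (hV.false v).elim, fun v => (hV.false v).elim⟩
    have hNM : N ≤ M := by
      obtain ⟨v⟩ := hV
      have h1 := Finset.card_le_univ (φ v)
      rwa [hφN, Fintype.card_fin] at h1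
    exact choosable_of_scheme hΔ hX hN hφN hφ hL hx0 hx1 (hb0 a b M N hb hab hN hNM hM)

end BDP
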