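import Pool.Agent.Work.MP_0890ba_co.BD.Basic

/-!
# The step for local schemes: from bands and double bands of a layering to the whole set
-/

set_option autoImplicit false
set_option linter.unusedSectionVars false

namespace BDP

open Classical

variable {V : Type}

section Count

variable [Fintype V] [DecidableEq V] {A B : Type} [Fintype A] [Fintype B]

theorem marg1 (P : (V → A) → Prop) :
    ({ω : V → A × B | P fun w => (ω w).1} : Set _).ncard =
      ({ω : V → A | P ω} : Set _).ncard * Fintype.card (V → B) := by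
  have e := Equiv.arrowProdEquivProdArrow V (fun _ => A) (fun _ => B)
  have h : ({ω : V → A × B | P fun w => (ω w).1} : Set _) =
      (Equiv.arrowProdEquivProdArrow V (fun _ => A) (fun _ => B)) ⁻¹' ({ω : V → A | P ω} ×ˢ Set.univ) := by
    ext ω
    simp [Equiv.arrowProdEquivProdArrow]
  rw [h, Set.ncard_preimage_of_injective_subset_range (Equiv.injective _)
    (by rw [(Equiv.surjective _).range_eq]; exact Set.subset_univ _), Set.ncard_prod,
    Set.ncard_univ, Nat.card_eq_fintype_card]

theorem marg2 (P : (V → B) → Prop) :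
    ({ω : V → A × B | P fun w => (ω w).2} : Set _).ncard =
      Fintype.card (V → A) * ({ω : V → B | P ω} : Set _).ncard := by
  have h : ({ω : V → A × B | P fun w => (ω w).2} : Set _) =
      (Equiv.arrowProdEquivProdArrow V (fun _ => A) (fun _ => B)) ⁻¹' (Set.univ ×ˢ {ω : V → B | P ω}) := by
    ext ω
    simp [Equiv.arrowProdEquivProdArrow]
  rw [h, Set.ncard_preimage_of_injective_subset_range (Equiv.injective _)
    (by rw [(Equiv.surjective _).range_eq]; exact Set.subset_univ _), Set.ncard_prod,
    Set.ncard_univ, Nat.card_eq_fintype_card]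

theorem card_prod_fun : Fintype.card (V → A × B) = Fintype.card (V → A) * Fintype.card (V → B) := by
  rw [Fintype.card_congr (Equiv.arrowProdEquivProdArrow V (fun _ => A) (fun _ => B)),
    Fintype.card_prod]

/-- Exactly the part `1 / R` of the choices has a given value at a vertex which depends only on the
first component. -/
theorem cut_card {R : ℕ} (c : (V → A) → V) (k : ℕ) :
    R * ({ω : V → A × Fin R × B | ((ω (c fun w => (ω w).1)).2.1 : ℕ) = k} : Set _).ncard ≤
      Fintype.card (V → A × Fin R × B) := by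
  set E : Set (V → A × Fin R × B) := {ω | ((ω (c fun w => (ω w).1)).2.1 : ℕ) = k} with hE
  have h1 : R * E.ncard = Fintype.card (Fin R × E) := by
    rw [Fintype.card_prod, Fintype.card_fin, ← Nat.card_eq_fintype_card (α := E),
      Nat.card_coe_set_eq]
  rw [h1]
  let f : Fin R × E → (V → A × Fin R × B) := fun q w =>
    if w = c (fun w => (q.2.1 w).1) then ((q.2.1 w).1, q.1, (q.2.1 w).2.2) else q.2.1 w
  have hf1 : ∀ q w, (f q w).1 = (q.2.1 w).1 := by
    intro q w
    simp only [f]
    split_ifs <;> rfl
  refine Fintype.card_le_of_injective f ?_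
  rintro ⟨i, ω, hω⟩ ⟨i', ω', hω'⟩ h
  have h2 : (fun w => (ω w).1) = fun w => (ω' w).1 := by
    funext w
    have := congrArg Prod.fst (congrFun h w)
    rw [hf1, hf1] at this
    exact this
  have h3 : ∀ w, f (i, ⟨ω, hω⟩) w = f (i', ⟨ω', hω'⟩) w := congrFun h
  have hc := h3 (c fun w => (ω w).1)
  simp only [f, ← h2, if_true] at hc
  have hi : i = i' := congrArg (fun x => x.2.1) hc
  refine Prod.ext hi (Subtype.ext (funext fun w => ?_))
  change ω w = ω' w
  by_cases hw : w = c (fun w => (ω w).1)
  · have g1 : ((ω (c fun w => (ω w).1)).2.1 : ℕ) = k := hω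
    have g2 : ((ω' (c fun w => (ω' w).1)).2.1 : ℕ) = k := hω'
    rw [← h2] at g2
    subst hw
    have q1 := congrArg Prod.fst hc
    have q2 := congrArg (fun x => x.2.2) hc
    exact Prod.ext q1 (Prod.ext (Fin.ext (g1.trans g2.symm)) q2)
  · have := h3 w
    simp only [f, ← h2, if_neg hw] at this
    exact this

end Count

/-- The step. -/
theorem step [Fintype V] [DecidableEq V] {G : SimpleGraph V} {U : Set V} (l : V → ℕ)
    (hl : ∀ u v, G.Adj u v → u ∈ U → v ∈ U → l u ≤ l v + 1) {R : ℕ} (hR : 0 < R) {A1 A2 : Type}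
    [Fintype A1] [Fintype A2] {d1 d2 : ℝ} {S1 S2 r1 r2 : ℕ}
    (h1 : ∀ j, ∃ X, IsScheme G A1 {v | v ∈ U ∧ j * R ≤ l v ∧ l v < (j + 1) * R} d1 S1 r1 X)
    (h2 : ∀ j, ∃ Y, IsScheme G A2 {v | v ∈ U ∧ j * R ≤ l v ∧ l v < (j + 2) * R} d2 S2 r2 Y) :
    ∃ X, IsScheme G (A1 × Fin R × A2) U (d1 + 1 / R + 2 * d2) S2 (S1 + r1 + r2) X := by
  rcases isEmpty_or_nonempty V with hV | hV
  · refine ⟨fun _ => ∅, ⟨fun v => isEmptyElim v, fun v => isEmptyElim v, fun ω K _ _ _ => ?_⟩⟩
    rw [Set.eq_empty_of_isEmpty K, Set.ncard_empty]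
    exact Nat.zero_le _
  choose X hX using h1
  choose Y hY using h2
  let bd : ℕ → Set V := fun j => {v | v ∈ U ∧ j * R ≤ l v ∧ l v < (j + 1) * R}
  let cc : V → (V → A1) → V := fun v α => pick v (cmp G (bd (l v / R) \ X (l v / R) α) v)
  have hbd : ∀ v ∈ U, v ∈ bd (l v / R) := fun v hv => by
    refine ⟨hv, Nat.div_mul_le_self _ _, ?_⟩
    rw [add_mul, one_mul]
    exact Nat.lt_div_mul_add hR
  let Z : (V → A1 × Fin R × A2) → Set V := fun ω => {v | v ∈ U ∧
    (v ∈ X (l v / R) (fun w => (ω w).1) ∨
      ((ω (cc v fun w => (ω w).1)).2.1 : ℕ) = l v % R ∨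
      v ∈ Y (l v / R) (fun w => (ω w).2.2) ∨ v ∈ Y (l v / R - 1) (fun w => (ω w).2.2))}
  refine ⟨Z, ⟨?_, ?_, ?_⟩⟩
  · -- locality
    rintro v ω ω' h ⟨hvU, hv⟩
    refine ⟨hvU, ?_⟩
    have n1 : ∀ w, Near G r1 v w → (ω w).1 = (ω' w).1 := fun w hw => by
      rw [h w (hw.mono (by omega))]
    have n2 : ∀ w, Near G r2 v w → (ω w).2.2 = (ω' w).2.2 := fun w hw => by
      rw [h w (hw.mono (by omega))]
    rcases hv with hv | hv | hv | hv
    · exact Or.inl ((hX _).loc v _ _ n1 hv)
    · by_cases hx : v ∈ X (l v / R) (fun w => (ω w).1)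
      · exact Or.inl ((hX _).loc v _ _ n1 hx)
      · refine Or.inr (Or.inl ?_)
        have e1 : cmp G (bd (l v / R) \ X (l v / R) fun w => (ω w).1) v =
            cmp G (bd (l v / R) \ X (l v / R) fun w => (ω' w).1) v :=
          (hX (l v / R)).cmp_eq (le_refl _) ⟨hbd v hvU, hx⟩
            (fun w hw => by rw [h w (hw.mono (by omega))])
        have e2 : cc v (fun w => (ω w).1) = cc v fun w => (ω' w).1 := by
          simp only [cc, e1]
        have e3 : Near G S1 v (cc v fun w => (ω w).1) :=
          (hX (l v / R)).cmp_near (le_refl _) _ ⟨hbd v hvU, hx⟩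
            (pick_mem v ⟨v, mem_cmp_self _ _⟩)
        rw [← e2, ← h _ (e3.mono (by omega))]
        exact hv
    · exact Or.inr (Or.inr (Or.inl ((hY _).loc v _ _ n2 hv)))
    · exact Or.inr (Or.inr (Or.inr ((hY _).loc v _ _ n2 hv)))
  · -- probability
    intro v
    set N : ℝ := (Fintype.card (V → A1 × Fin R × A2) : ℝ) with hN
    have hN1 : N = (Fintype.card (V → A1) : ℝ) * (Fintype.card (V → Fin R) * Fintype.card (V → A2)) := by
      rw [hN, card_prod_fun, card_prod_fun]
      push_cast
      ring
    let E1 : Set (V → A1 × Fin R × A2) := {ω | v ∈ X (l v / R) (fun w => (ω w).1)}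
    let E2 : Set (V → A1 × Fin R × A2) := {ω | ((ω (cc v fun w => (ω w).1)).2.1 : ℕ) = l v % R}
    let E3 : ℕ → Set (V → A1 × Fin R × A2) := fun j => {ω | v ∈ Y j (fun w => (ω w).2.2)}
    have hsub : ({ω | v ∈ Z ω} : Set _) ⊆ E1 ∪ (E2 ∪ (E3 (l v / R) ∪ E3 (l v / R - 1))) := by
      rintro ω ⟨-, hω⟩
      exact hω
    have c1 : (E1.ncard : ℝ) ≤ d1 * N := by
      have := marg1 (V := V) (A := A1) (B := Fin R × A2) (fun α => v ∈ X (l v / R) α)
      have h3 : E1.ncard = _ := this
      rw [h3, hN1, card_prod_fun]
      push_cast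
      have := (hX (l v / R)).prob v
      nlinarith [this, mul_nonneg (Nat.cast_nonneg (α := ℝ) (Fintype.card (V → Fin R)))
        (Nat.cast_nonneg (α := ℝ) (Fintype.card (V → A2)))]
    have c2 : (E2.ncard : ℝ) ≤ 1 / R * N := by
      have := cut_card (V := V) (A := A1) (B := A2) (R := R) (cc v) (l v % R)
      have h4 : (R : ℝ) * E2.ncard ≤ N := by
        rw [hN]
        exact_mod_cast this
      have hR' : (0 : ℝ) < R := by exact_mod_cast hR
      rw [one_div, ← div_eq_inv_mul, le_div_iff₀ hR']
      linarith
    have c3 : ∀ j, ((E3 j).ncard : ℝ) ≤ d2 * N := by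
      intro j
      have := marg2 (V := V) (A := A1) (B := Fin R × A2) (fun α => v ∈ Y j (fun w => (α w).2))
      have h3 : (E3 j).ncard = _ := this
      rw [h3, marg2 (V := V) (A := Fin R) (B := A2) (fun α => v ∈ Y j α), hN1]
      push_cast
      have := (hY j).prob v
      have h5 := mul_le_mul_of_nonneg_left this (mul_nonneg
        (Nat.cast_nonneg (α := ℝ) (Fintype.card (V → A1)))
        (Nat.cast_nonneg (α := ℝ) (Fintype.card (V → Fin R))))
      linarith
    have hle : ({ω | v ∈ Z ω} : Set _).ncard ≤
        E1.ncard + (E2.ncard + ((E3 (l v / R)).ncard + (E3 (l v / R - 1)).ncard)) := by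
      refine (Set.ncard_le_ncard hsub (Set.toFinite _)).trans ?_
      refine (Set.ncard_union_le _ _).trans (Nat.add_le_add_left ?_ _)
      refine (Set.ncard_union_le _ _).trans (Nat.add_le_add_left ?_ _)
      exact Set.ncard_union_le _ _
    have hle' : (({ω | v ∈ Z ω} : Set _).ncard : ℝ) ≤
        E1.ncard + (E2.ncard + ((E3 (l v / R)).ncard + (E3 (l v / R - 1)).ncard)) := by
      exact_mod_cast hle
    have := c3 (l v / R)
    have := c3 (l v / R - 1)
    linarith
  · -- fragments
    intro ω K hK hKU hKZ
    rcases K.eq_empty_or_nonempty with rfl | ⟨v0, hv0⟩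
    · rw [Set.ncard_empty]
      exact Nat.zero_le _
    set α : V → A1 := fun w => (ω w).1 with hα
    set γ : V → A2 := fun w => (ω w).2.2 with hγ
    let cut : V → ℕ := fun v => ((ω (cc v α)).2.1 : ℕ)
    have hcut : ∀ v, cut v < R := fun v => (ω (cc v α)).2.1.isLt
    have hnot : ∀ v ∈ K, v ∉ X (l v / R) α ∧ cut v ≠ l v % R ∧ v ∉ Y (l v / R) γ ∧
        v ∉ Y (l v / R - 1) γ := by
      intro v hv
      have : v ∉ Z ω := fun hz => Set.disjoint_left.1 hKZ hv hz
      by_contra hcon
      apply this
      refine ⟨hKU hv, ?_⟩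
      by_contra h
      push Not at h
      exact hcon ⟨h.1, h.2.1, h.2.2.1, h.2.2.2⟩
    let z : V → ℕ := fun v => if l v % R < cut v then l v / R else l v / R + 1
    -- one direction of the edges
    have key : ∀ u v, G.Adj u v → u ∈ K → v ∈ K → l u ≤ l v → z u = z v := by
      intro u v huv hu hv hle
      have h5 : l v ≤ l u + 1 := hl v u huv.symm (hKU hv) (hKU hu)
      have mu := Nat.div_add_mod (l u) R
      have mv := Nat.div_add_mod (l v) R
      have ru := Nat.mod_lt (l u) hR
      have rv := Nat.mod_lt (l v) hR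
      by_cases hb : l u / R = l v / R
      · have e1 : cut u = cut v := by
          have : cc u α = cc v α := by
            simp only [cc]
            have g1 : cmp G (bd (l v / R) \ X (l v / R) α) v =
                cmp G (bd (l u / R) \ X (l u / R) α) u := by
              rw [hb]
              refine cmp_adj ?_ ⟨hbd v (hKU hv), (hnot v hv).1⟩ huv
              rw [← hb]
              exact ⟨hbd u (hKU hu), (hnot u hu).1⟩
            rw [g1]
            exact pick_eq _ _ ⟨u, mem_cmp_self _ _⟩
          simp only [cut, this]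
        have nu := (hnot u hu).2.1
        have nv := (hnot v hv).2.1
        simp only [z]
        rw [hb] at mu ⊢
        rw [e1] at nu ⊢
        by_cases h6 : l u % R < cut v
        · have h7 : l v % R < cut v := by omega
          rw [if_pos h6, if_pos h7]
        · have h7 : ¬ l v % R < cut v := by omega
          rw [if_neg h6, if_neg h7]
      · -- different bands
        have hdiv : l u / R ≤ l v / R := Nat.div_le_div_right hle
        have hlt : l u / R < l v / R := lt_of_le_of_ne hdiv hb
        have h8 : l v / R ≤ l u / R + 1 := by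
          calc l v / R ≤ (l u + 1) / R := Nat.div_le_div_right h5
            _ ≤ (l u + R) / R := Nat.div_le_div_right (by omega)
            _ = l u / R + 1 := Nat.add_div_right _ hR
        have h9 : l v / R = l u / R + 1 := by omega
        have hu1 : l u % R = R - 1 ∧ l v % R = 0 := by
          rw [h9, mul_add, mul_one] at mv
          omega
        have nu := (hnot u hu).2.1
        have nv := (hnot v hv).2.1
        have cu := hcut u
        have cv := hcut v
        simp only [z]
        have h10 : ¬ l u % R < cut u := by omega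
        have h11 : l v % R < cut v := by omega
        rw [if_neg h10, if_pos h11, h9]
    have key2 : ∀ u v, G.Adj u v → u ∈ K → v ∈ K → z u = z v := by
      intro u v huv hu hv
      rcases le_total (l u) (l v) with h | h
      · exact key u v huv hu hv h
      · exact (key v u huv.symm hv hu h).symm
    have hz : ∀ v ∈ K, z v0 = z v := by
      intro v hv
      obtain ⟨p⟩ := hK v0 hv0 v hv
      clear hv hv0
      induction p with
      | nil => rfl
      | cons h p ih => exact (key2 _ _ h.1 h.2.1 h.2.2).trans ih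
    refine (hY (z v0 - 1)).frag γ K hK ?_ ?_
    · intro v hv
      have h6 := hz v hv
      have mv := Nat.div_add_mod (l v) R
      have rv := Nat.mod_lt (l v) hR
      refine ⟨hKU hv, ?_, ?_⟩
      · have h7 : z v0 - 1 ≤ l v / R := by
          rw [h6]
          simp only [z]
          generalize l v / R = q
          split_ifs <;> omega
        exact (Nat.mul_le_mul_right R h7).trans (Nat.div_mul_le_self _ _)
      · have h7 : l v / R + 1 ≤ z v0 - 1 + 2 := by
          rw [h6]
          simp only [z]
          generalize l v / R = q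
          split_ifs <;> omega
        have h8 : l v < (l v / R + 1) * R := by
          rw [add_mul, one_mul]
          exact Nat.lt_div_mul_add hR
        exact lt_of_lt_of_le h8 (Nat.mul_le_mul_right R h7)
    · rw [Set.disjoint_left]
      intro v hv hy
      have h6 := hz v hv
      rw [h6] at hy
      simp only [z] at hy
      split_ifs at hy with h7
      · exact (hnot v hv).2.2.2 hy
      · rw [Nat.add_sub_cancel] at hy
        exact (hnot v hv).2.2.1 hy

end BDP
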