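import Pool.Agent.Work.MP_0890ba_co.BD.Bfs
import Pool.Agent.Work.MP_0890ba_co.BD.Scheme
import Pool.Agent.Work.MP_0890ba_co.BD.Num

/-!
# Multiple list colouring of graphs of bounded degree without a complete bipartite minor
-/

namespace BDP

open Finset Pool.Agent.Work.MP_0890ba_co

variable {V : Type} {G : SimpleGraph V}

/-- The trivial scheme of a set all of whose connected subsets are small. -/
theorem scheme_triv [Fintype V] [DecidableEq V] {U : Set V} {S : ℕ}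
    (h : ∀ K, Conn G K → K ⊆ U → K.ncard ≤ S) :
    IsScheme G Unit U 0 S 0 (fun _ => ∅) := by
  refine ⟨fun v ω ω' _ hv => hv.elim, fun v => ?_, fun ω K h1 h2 _ => h K h1 h2⟩
  have h1 : ({ω : V → Unit | v ∈ (∅ : Set V)} : Set (V → Unit)) = ∅ := by
    ext ω
    exact ⟨fun h => h.elim, fun h => h.elim⟩
  rw [h1, Set.ncard_empty]
  simp

/-- The scheme of a band. -/
theorem scheme_band [Fintype V] [DecidableEq V] {n Δ : ℕ}
    (hΔ : ∀ v, (G.neighborSet v).ncard ≤ Δ) (hG : ¬HasK3Minor n G) {R : ℕ} (hR : 0 < R)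
    (s0 H0 : ℕ) : ∃ X, IsScheme G (Unit × Fin R × Unit) (band G Set.univ s0 H0) (1 / R)
      ((n + 1) * (Δ + 1) ^ (3 * H0 + 2 * R + 2)) ((n + 1) * (Δ + 1) ^ (3 * H0 + R + 2)) X := by
  have hl : ∀ u v, G.Adj u v → u ∈ band G Set.univ s0 H0 → v ∈ band G Set.univ s0 H0 →
      lev (res G (band G Set.univ s0 H0)) u ≤ lev (res G (band G Set.univ s0 H0)) v + 1 :=
    fun u v h hu hv =>
      lev_le_succ (G := res G (band G Set.univ s0 H0)) (u := v) (v := u) ⟨h.symm, hv, hu⟩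
  have h1 : ∀ j, ∃ X, IsScheme G Unit {v | v ∈ band G Set.univ s0 H0 ∧
      j * R ≤ lev (res G (band G Set.univ s0 H0)) v ∧
      lev (res G (band G Set.univ s0 H0)) v < (j + 1) * R} 0
      ((n + 1) * (Δ + 1) ^ (3 * H0 + R + 2)) 0 X := by
    intro j
    refine ⟨_, scheme_triv fun K h1 h2 => band_card hΔ hG s0 H0 (j * R) R h1 ?_⟩
    intro v hv
    obtain ⟨h3, h4, h5⟩ := h2 hv
    exact ⟨h3, h4, by rw [add_mul, one_mul] at h5; exact h5⟩
  have h2 : ∀ j, ∃ X, IsScheme G Unit {v | v ∈ band G Set.univ s0 H0 ∧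
      j * R ≤ lev (res G (band G Set.univ s0 H0)) v ∧
      lev (res G (band G Set.univ s0 H0)) v < (j + 2) * R} 0
      ((n + 1) * (Δ + 1) ^ (3 * H0 + 2 * R + 2)) 0 X := by
    intro j
    refine ⟨_, scheme_triv fun K h1 h2 => band_card hΔ hG s0 H0 (j * R) (2 * R) h1 ?_⟩
    intro v hv
    obtain ⟨h3, h4, h5⟩ := h2 hv
    exact ⟨h3, h4, by rw [add_mul] at h5; exact h5⟩
  obtain ⟨X, hX⟩ := step _ hl hR h1 h2
  exact ⟨X, hX.mono (le_of_eq (by ring)) le_rfl (by omega)⟩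

/-- The alphabet of the final scheme. -/
abbrev Alph (R : ℕ) : Type := (Unit × Fin R × Unit) × Fin R × (Unit × Fin R × Unit)

/-- Every graph of bounded degree without a complete bipartite minor has a scheme. -/
theorem exists_scheme (n Δ : ℕ) {R : ℕ} (hR : 0 < R) : ∃ S ρ : ℕ,
    ∀ (V : Type) [Fintype V] [DecidableEq V] (G : SimpleGraph V),
      (∀ v, (G.neighborSet v).ncard ≤ Δ) → ¬HasK3Minor n G →
      ∃ X, IsScheme G (Alph R) Set.univ (4 / R) S ρ X := by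
  refine ⟨(n + 1) * (Δ + 1) ^ (3 * (2 * R) + 2 * R + 2),
    (n + 1) * (Δ + 1) ^ (3 * R + 2 * R + 2) + (n + 1) * (Δ + 1) ^ (3 * R + R + 2) +
      (n + 1) * (Δ + 1) ^ (3 * (2 * R) + R + 2), ?_⟩
  intro V _ _ G hΔ hG
  have hl : ∀ u v, G.Adj u v → u ∈ (Set.univ : Set V) → v ∈ (Set.univ : Set V) →
      lev G u ≤ lev G v + 1 := fun u v h _ _ => lev_le_succ h.symm
  have h1 : ∀ j, ∃ X, IsScheme G (Unit × Fin R × Unit) {v | v ∈ (Set.univ : Set V) ∧
      j * R ≤ lev G v ∧ lev G v < (j + 1) * R} (1 / R)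
      ((n + 1) * (Δ + 1) ^ (3 * R + 2 * R + 2)) ((n + 1) * (Δ + 1) ^ (3 * R + R + 2)) X := by
    intro j
    obtain ⟨X, hX⟩ := scheme_band hΔ hG hR (j * R) R
    refine ⟨X, hX.mono_set ?_⟩
    rintro v ⟨_, h4, h5⟩
    exact mem_band_univ.2 ⟨h4, by rw [add_mul, one_mul] at h5; exact h5⟩
  have h2 : ∀ j, ∃ X, IsScheme G (Unit × Fin R × Unit) {v | v ∈ (Set.univ : Set V) ∧
      j * R ≤ lev G v ∧ lev G v < (j + 2) * R} (1 / R)
      ((n + 1) * (Δ + 1) ^ (3 * (2 * R) + 2 * R + 2))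
      ((n + 1) * (Δ + 1) ^ (3 * (2 * R) + R + 2)) X := by
    intro j
    obtain ⟨X, hX⟩ := scheme_band hΔ hG hR (j * R) (2 * R)
    refine ⟨X, hX.mono_set ?_⟩
    rintro v ⟨_, h4, h5⟩
    exact mem_band_univ.2 ⟨h4, by rw [add_mul] at h5; exact h5⟩
  obtain ⟨X, hX⟩ := step _ hl hR h1 h2
  exact ⟨X, hX.mono (le_of_eq (by ring)) le_rfl le_rfl⟩

/-- Graphs of bounded degree without a complete bipartite minor and with fractional chromatic
number at most `r` are `(a, b)`-choosable for all large `b` and all `a ≥ (r + ε) b`. -/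
theorem choosable_of_noMinor (n Δ : ℕ) (r : ℝ) {ε : ℝ} (hε : 0 < ε) :
    ∃ b₀ : ℕ, ∀ (V : Type) [Finite V] (G : SimpleGraph V), (∀ v, (G.neighborSet v).ncard ≤ Δ) →
      ¬HasK3Minor n G → FracColourable G r → ∀ a b : ℕ, b₀ ≤ b → (r + ε) * b ≤ a →
      Choosable G a b := by
  classical
  obtain ⟨δ, hδ, h⟩ := choosable_of_family Δ r hε
  obtain ⟨R, hR⟩ := exists_nat_gt (4 / δ)
  have hR0 : (0 : ℝ) < R := (by positivity : (0 : ℝ) < 4 / δ).trans hR
  have hR1 : 0 < R := by exact_mod_cast hR0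
  obtain ⟨S, ρ, hS⟩ := exists_scheme n Δ hR1
  obtain ⟨b₀, hb₀⟩ := h S ρ
  refine ⟨b₀, ?_⟩
  intro V _ G hΔ hG hr a b hb hab
  have := Fintype.ofFinite V
  have : Nonempty (Fin R) := ⟨⟨0, hR1⟩⟩
  obtain ⟨X, hX⟩ := hS V G hΔ hG
  have hle : (4 : ℝ) / R ≤ δ := by
    rw [div_le_iff₀ hR0]
    rw [div_lt_iff₀ hδ] at hR
    linarith
  exact hb₀ V G (Alph R) X hΔ (hX.mono hle le_rfl le_rfl) hr a b hb hab

end BDP
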