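import Pool.Agent.Work.MP_0890ba_co.BD.Far
import Pool.Agent.Work.MP_0890ba_co.BD.Main

/-!
# Layered graphs

Multiple list colouring of graphs whose vertices are split in layers such that every vertex has
few neighbours in its own layer and at most one neighbour in the lower layers.
-/

set_option linter.unusedSectionVars false

namespace BDP

namespace Far

open Finset Classical Pool.Agent.Work.MP_0890ba_co

section tickets

variable {V : Type} {G : SimpleGraph V} {P U : Set V} {φ : V → Fin 4}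

/-- The vertex `v` has a neighbour of colour `i` in `P`. -/
def Nh (G : SimpleGraph V) (P : Set V) (φ : V → Fin 4) (i : Fin 4) (v : V) : Prop :=
  ∃ u ∈ P, G.Adj v u ∧ φ u = i

/-- The modified class: the colour `i` is replaced by the colour `j` at the neighbours of the
vertices of `P` of colour `i`. -/
def Mod (G : SimpleGraph V) (P U : Set V) (φ : V → Fin 4) (i j : Fin 4) (v : V) : Prop :=
  (φ v = j ∧ Nh G P φ i v) ∨ (φ v = i ∧ ∀ w ∈ U, G.Adj v w → ¬ (φ w = j ∧ Nh G P φ i w))

/-- The tickets. -/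
abbrev Tix (k m : ℕ) : Type := (Fin 4 × Fin k) ⊕ (Fin 4 × Fin 4 × Fin m)

/-- The independent set of a ticket of the second kind. -/
def Clm (G : SimpleGraph V) (P U : Set V) (φ : V → Fin 4) (i j : Fin 4) (v : V) : Prop :=
  (j = i ∧ φ v = i) ∨ (j ≠ i ∧ Mod G P U φ i j v)

/-- The independent set of a ticket. -/
def Cls (G : SimpleGraph V) (P U : Set V) (φ : V → Fin 4) {k m : ℕ} : Tix k m → V → Prop
  | .inl (i, _), v => φ v = i
  | .inr (i, j, _), v => Clm G P U φ i j v

lemma card_tix (k m : ℕ) : Fintype.card (Tix k m) = 4 * k + 16 * m := by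
  simp [Tix]
  ring

lemma cls_indep (hφ : ∀ u v, G.Adj u v → φ u ≠ φ v) {k m : ℕ} (t : Tix k m) {u v : V}
    (huU : u ∈ U) (hvU : v ∈ U) (huv : G.Adj u v) (hu : Cls G P U φ t u)
    (hv : Cls G P U φ t v) : False := by
  rcases t with ⟨i, s⟩ | ⟨i, j, s⟩
  · exact hφ u v huv (hu.trans hv.symm)
  · have hu' : Clm G P U φ i j u := hu
    have hv' : Clm G P U φ i j v := hv
    rcases hu' with ⟨_, hu'⟩ | ⟨hij, hu'⟩
    · rcases hv' with ⟨_, hv'⟩ | ⟨hij', _⟩
      · exact hφ u v huv (hu'.trans hv'.symm)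
      · exact hij' ‹_›
    · rcases hv' with ⟨hij', _⟩ | ⟨_, hv'⟩
      · exact hij hij'
      · rcases hu' with hu' | hu'
        · rcases hv' with hv' | hv'
          · exact hφ u v huv (hu'.1.trans hv'.1.symm)
          · exact hv'.2 u huU huv.symm hu'
        · rcases hv' with hv' | hv'
          · exact hu'.2 v hvU huv hv'
          · exact hφ u v huv (hu'.1.trans hv'.1.symm)

lemma card_cls_other (k m : ℕ) (v : V) :
    k + m ≤ (univ.filter fun t : Tix k m => Cls G P U φ t v).card := by
  have h0 : ∀ s : Fin m, Cls G P U φ (.inr (φ v, φ v, s) : Tix k m) v :=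
    fun s => Or.inl ⟨rfl, rfl⟩
  have h1 : Fintype.card (Fin k ⊕ Fin m) ≤ Fintype.card {t : Tix k m // Cls G P U φ t v} := by
    apply Fintype.card_le_of_injective
      (fun x : Fin k ⊕ Fin m => match x with
        | .inl s => (⟨.inl (φ v, s), rfl⟩ : {t : Tix k m // Cls G P U φ t v})
        | .inr s => ⟨.inr (φ v, φ v, s), h0 s⟩)
    intro x y hxy
    rcases x with s | s <;> rcases y with s' | s' <;> simp_all
  rw [Fintype.card_subtype] at h1
  simpa using h1

lemma card_cls_near (hφ : ∀ u v, G.Adj u v → φ u ≠ φ v)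
    (hfar : ∀ v ∈ U, ∀ v' ∈ U, ∀ u ∈ P, ∀ u' ∈ P, G.Adj v v' → G.Adj v u → G.Adj v' u' → u = u')
    (k m : ℕ) {u v : V} (hu : u ∈ P) (hv : v ∈ U) (huv : G.Adj v u) :
    k + 5 * m ≤ (univ.filter fun t : Tix k m => Cls G P U φ t v).card := by
  have hne : φ u ≠ φ v := (hφ v u huv).symm
  have h2 : ∀ (j : Fin 4) (s : Fin m), Cls G P U φ (.inr (φ v, j, s) : Tix k m) v := by
    intro j s
    by_cases hj : j = φ v
    · exact Or.inl ⟨hj, rfl⟩
    · refine Or.inr ⟨hj, Or.inr ⟨rfl, fun w hw hvw hw' => ?_⟩⟩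
      obtain ⟨-, u', hu', hwu, hc⟩ := hw'
      have e : u = u' := hfar v hv w hw u hu u' hu' hvw huv hwu
      exact hne (e ▸ hc)
  have h3 : ∀ s : Fin m, Cls G P U φ (.inr (φ u, φ v, s) : Tix k m) v :=
    fun s => Or.inr ⟨hne.symm, Or.inl ⟨rfl, u, hu, huv, rfl⟩⟩
  have h1 : Fintype.card (Fin k ⊕ ((Fin 4 × Fin m) ⊕ Fin m)) ≤
      Fintype.card {t : Tix k m // Cls G P U φ t v} := by
    apply Fintype.card_le_of_injective
      (fun x : Fin k ⊕ ((Fin 4 × Fin m) ⊕ Fin m) => match x with
        | .inl s => (⟨.inl (φ v, s), rfl⟩ : {t : Tix k m // Cls G P U φ t v})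
        | .inr (.inl (j, s)) => ⟨.inr (φ v, j, s), h2 j s⟩
        | .inr (.inr s) => ⟨.inr (φ u, φ v, s), h3 s⟩)
    intro x y hxy
    rcases x with s | ⟨j, s⟩ | s <;> rcases y with s' | ⟨j', s'⟩ | s' <;>
      simp_all [Ne.symm hne]
  rw [Fintype.card_subtype] at h1
  simp only [Fintype.card_sum, Fintype.card_prod, Fintype.card_fin] at h1
  omega

end tickets

/-- One layer. -/
theorem layer_core {V : Type} [Fintype V] [DecidableEq V] {G : SimpleGraph V} {Δ k m : ℕ}
    {φ : V → Fin 4} (hφ : ∀ u v, G.Adj u v → φ u ≠ φ v) {P U : Set V}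
    (hU : ∀ v ∈ U, {w | w ∈ U ∧ G.Adj v w}.ncard ≤ Δ)
    (hone : ∀ v ∈ U, ∀ u ∈ P, ∀ u' ∈ P, G.Adj v u → G.Adj v u' → u = u')
    (hfar : ∀ v ∈ U, ∀ v' ∈ U, ∀ u ∈ P, ∀ u' ∈ P, G.Adj v v' → G.Adj v u → G.Adj v' u' → u = u')
    {A : Type} [Fintype A] [Nonempty A] {δ : ℝ} {S ρ : ℕ} {X : (V → A) → Set V}
    (hX : IsScheme (res G U) A Set.univ δ S ρ X) (hB : 0 < Fintype.card (Tix k m))
    {a b : ℕ} {x q : ℝ} (hx0 : 0 < x) (hx1 : x < 1) (hq0 : 0 ≤ q)
    (hq1 : (1 - (1 - x) * ((1 - δ) * ((k + 5 * m : ℕ) : ℝ) /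
      Fintype.card (Tix k m))) ^ (a - b) / x ^ b ≤ q)
    (hq2 : (1 - (1 - x) * ((1 - δ) * ((k + m : ℕ) : ℝ) /
      Fintype.card (Tix k m))) ^ a / x ^ b ≤ q)
    (h4 : 4 * q * (Δ + 1 : ℝ) ^ (2 * (S + ρ)) ≤ 1) {Z : Type} {L : V → Finset Z}
    (hL : ∀ v, (L v).card = a) {s : V → Finset Z} (hs : ∀ u ∈ P, (s u).card = b) :
    ∃ T : V → Finset Z, (∀ v ∈ U, T v ⊆ L v ∧ (T v).card = b) ∧
      (∀ v ∈ U, ∀ u ∈ P, G.Adj v u → Disjoint (T v) (s u)) ∧
      ∀ u ∈ U, ∀ v ∈ U, G.Adj u v → Disjoint (T u) (T v) := by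
  rcases isEmpty_or_nonempty V with hV | hV
  · exact ⟨fun _ => ∅, fun v => (hV.false v).elim, fun v => (hV.false v).elim,
      fun v => (hV.false v).elim⟩
  have : Nonempty (Tix k m) := Fintype.card_pos_iff.1 hB
  -- the lists
  have hL' : ∀ v, ∃ l : Finset Z, l ⊆ L v ∧
      (v ∈ U → (∃ u ∈ P, G.Adj v u) → l.card = a - b) ∧
      (v ∈ U → (¬ ∃ u ∈ P, G.Adj v u) → l.card = a) ∧
      (v ∈ U → ∀ u ∈ P, G.Adj v u → Disjoint l (s u)) := by
    intro v
    by_cases h : ∃ u ∈ P, G.Adj v u
    · obtain ⟨u, hu, huv⟩ := h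
      have h1 : a - b ≤ (L v \ s u).card := by
        have := le_card_sdiff (s u) (L v)
        rw [hL, hs u hu] at this
        exact this
      obtain ⟨l, hl1, hl2⟩ := exists_subset_card_eq h1
      refine ⟨l, hl1.trans sdiff_subset, fun _ _ => hl2, fun _ h2 => (h2 ⟨u, hu, huv⟩).elim,
        fun hv u' hu' huv' => ?_⟩
      have h3 := hone v hv u hu u' hu' huv huv'
      subst h3
      exact (disjoint_sdiff.mono_right hl1).symm
    · refine ⟨L v, Subset.refl _, fun _ h2 => (h h2).elim, fun _ _ => hL v, fun _ u hu huv => ?_⟩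
      exact (h ⟨u, hu, huv⟩).elim
  choose l hl1 hl2 hl3 hl4 using hL'
  let Φ : Set V → V → Finset (Tix k m) := fun _ v => univ.filter fun t => Cls G P U φ t v
  let N' : V → ℕ := fun v => if v ∈ U ∧ ∃ u ∈ P, G.Adj v u then k + 5 * m else k + m
  let b' : V → ℕ := fun v => if v ∈ U then b else 0
  obtain ⟨T, hT1, hT2⟩ := choosable_gen (G := res G U) (Δ := Δ)
    (by
      intro v
      by_cases hv : v ∈ U
      · refine (Set.ncard_le_ncard ?_ (Set.toFinite _)).trans (hU v hv)
        intro w hw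
        exact ⟨hw.2.2, hw.1⟩
      · have h0 : (res G U).neighborSet v = ∅ := by
          ext w
          simp only [SimpleGraph.mem_neighborSet, Set.mem_empty_iff_false, iff_false]
          intro h
          exact hv h.2.1
        rw [h0, Set.ncard_empty]
        exact Nat.zero_le _)
    hX (Φ := Φ)
    (by
      intro K u v huv
      rw [disjoint_left]
      intro t h1 h2
      exact cls_indep hφ t huv.2.1 huv.2.2 huv.1 (mem_filter.1 h1).2 (mem_filter.1 h2).2)
    (N := N')
    (by
      intro v K hv hK hKS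
      show N' v ≤ (univ.filter fun t : Tix k m => Cls G P U φ t v).card
      by_cases h : v ∈ U ∧ ∃ u ∈ P, G.Adj v u
      · have e1 : N' v = k + 5 * m := if_pos h
        rw [e1]
        obtain ⟨hvU, u, hu, huv⟩ := h
        exact card_cls_near hφ hfar k m hu hvU huv
      · have e1 : N' v = k + m := if_neg h
        rw [e1]
        exact card_cls_other k m v)
    (L := fun v => if v ∈ U then l v else ∅) (b := b') hx0 hx1 hq0
    (by
      intro v hbv
      have hv : v ∈ U := by
        by_contra hv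
        exact hbv (if_neg hv)
      have e2 : b' v = b := if_pos hv
      rw [e2, if_pos hv]
      by_cases h : ∃ u ∈ P, G.Adj v u
      · have e1 : N' v = k + 5 * m := if_pos ⟨hv, h⟩
        rw [e1, hl2 v hv h]
        exact hq1
      · have e1 : N' v = k + m := if_neg fun h' => h h'.2
        rw [e1, hl3 v hv h]
        exact hq2)
    h4
  refine ⟨T, fun v hv => ?_, fun v hv u hu huv => ?_, fun u hu v hv huv => ?_⟩
  · have h1 := hT1 v
    simp only [if_pos hv, b'] at h1
    exact ⟨h1.1.trans (hl1 v), h1.2⟩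
  · have h1 := (hT1 v).1
    rw [if_pos hv] at h1
    exact (hl4 v hv u hu huv).mono_left h1
  · exact hT2 u v ⟨huv, hu, hv⟩

/-- The constants `k`, `m`. -/
lemma exists_km {α : ℝ} (hα1 : 1 < α) (hα : 5 * α < α ^ 2 + 1) :
    ∃ k m : ℕ, 0 < k + 4 * m ∧
      4 * ((k : ℝ) + 4 * m) < α * (k + m) ∧ 4 * ((k : ℝ) + 4 * m) < (α - 1) * (k + 5 * m) := by
  have hα4 : 4 < α := by nlinarith
  have hα0 : 0 < α - 1 := by linarith
  have h1 : max 0 (4 / (α - 1) - 1) < min ((1 - 4 / α) / 3) (1 / 4) := by
    rw [lt_min_iff, max_lt_iff, max_lt_iff]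
    have h2 : 4 / α < 1 := by
      rw [div_lt_one (by linarith)]
      exact hα4
    refine ⟨⟨by linarith [h2], ?_⟩, by norm_num, ?_⟩
    · have h3 : 4 / (α - 1) = 1 + (5 - α) / (α - 1) := by
        field_simp
        ring
      have h4 : (1 - 4 / α) / 3 = (α - 4) / (3 * α) := by
        field_simp
      rw [h3, h4, add_sub_cancel_left, div_lt_div_iff₀ hα0 (by linarith)]
      nlinarith
    · have h3 : 4 / (α - 1) < 5 / 4 := by
        rw [div_lt_iff₀ hα0]
        nlinarith
      linarith
  obtain ⟨t, ht1, ht2⟩ := exists_rat_btwn h1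
  rw [lt_min_iff] at ht2
  rw [max_lt_iff] at ht1
  have ht0' : 0 < t := by exact_mod_cast ht1.1
  have hnum : 0 < t.num := Rat.num_pos.2 ht0'
  have hden : (0 : ℝ) < t.den := by exact_mod_cast t.den_pos
  have hm : ((t.num.toNat : ℕ) : ℝ) = t * t.den := by
    have h2 : ((t.num.toNat : ℕ) : ℤ) = t.num := Int.toNat_of_nonneg hnum.le
    have h3 : ((t.num.toNat : ℕ) : ℝ) = (t.num : ℝ) := by exact_mod_cast h2
    rw [h3, Rat.cast_def]
    field_simp
  have hmle : 4 * t.num.toNat ≤ t.den := by
    have h4 : (4 : ℝ) * ((t.num.toNat : ℕ) : ℝ) ≤ (t.den : ℝ) := by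
      rw [hm]
      nlinarith [ht2.2]
    exact_mod_cast h4
  have hk : ((t.den - 4 * t.num.toNat : ℕ) : ℝ) = t.den - 4 * (t * t.den) := by
    rw [Nat.cast_sub hmle]
    push_cast
    rw [hm]
  refine ⟨t.den - 4 * t.num.toNat, t.num.toNat, ?_, ?_, ?_⟩
  · have := t.den_pos
    omega
  · rw [hk, hm]
    have h5 : 3 * (t : ℝ) < 1 - 4 / α := by
      have := ht2.1
      rw [lt_div_iff₀ (by norm_num)] at this
      linarith
    have h6 : 4 < α * (1 - 3 * t) := by
      have h7 : 4 / α < 1 - 3 * t := by linarith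
      rw [div_lt_iff₀ (by linarith)] at h7
      linarith
    nlinarith
  · rw [hk, hm]
    have h6 : 4 < (α - 1) * (1 + t) := by
      have h7 : 4 / (α - 1) < 1 + t := by linarith [ht1.2]
      rw [div_lt_iff₀ hα0] at h7
      linarith
    nlinarith

/-- The numbers for one layer. -/
lemma exists_numbers {α : ℝ} (hα1 : 1 < α) (hα : 5 * α < α ^ 2 + 1) :
    ∃ (k m : ℕ) (δ x : ℝ), 0 < Fintype.card (Tix k m) ∧ 0 < δ ∧ 0 < x ∧ x < 1 ∧
      ∀ q : ℝ, 0 < q → ∃ b0 : ℕ, ∀ a b : ℕ, b0 ≤ b → α * b ≤ a →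
        (1 - (1 - x) * ((1 - δ) * ((k + 5 * m : ℕ) : ℝ) /
          Fintype.card (Tix k m))) ^ (a - b) / x ^ b ≤ q ∧
        (1 - (1 - x) * ((1 - δ) * ((k + m : ℕ) : ℝ) /
          Fintype.card (Tix k m))) ^ a / x ^ b ≤ q := by
  obtain ⟨k, m, hkm, hc1, hc2⟩ := exists_km hα1 hα
  have hk0 : (0 : ℝ) ≤ k := Nat.cast_nonneg _
  have hm0 : (0 : ℝ) ≤ m := Nat.cast_nonneg _
  have hcard : ((Fintype.card (Tix k m) : ℕ) : ℝ) = 4 * ((k : ℝ) + 4 * m) := by
    rw [card_tix]
    push_cast
    ring
  set C : ℝ := ((Fintype.card (Tix k m) : ℕ) : ℝ) with hC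
  have hC0 : 0 < C := by
    rw [hcard]
    have : (0 : ℝ) < ((k + 4 * m : ℕ) : ℝ) := by exact_mod_cast hkm
    push_cast at this
    linarith
  set M : ℝ := min ((α - 1) * (k + 5 * m) / C) (α * (k + m) / C) with hM
  have hM1 : 1 < M := by
    rw [hM, lt_min_iff]
    constructor
    · rw [one_lt_div hC0, hcard]
      exact hc2
    · rw [one_lt_div hC0, hcard]
      exact hc1
  have hMa : M ≤ (α - 1) * (k + 5 * m) / C := min_le_left _ _
  have hMb : M ≤ α * (k + m) / C := min_le_right _ _
  set y : ℝ := (1 + M) / (2 * M) with hy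
  have hy0 : 0 < y := by positivity
  have hy1 : y < 1 := by
    rw [hy, div_lt_one (by linarith)]
    linarith
  have hyM : y * M = 1 + (M - 1) / 2 := by
    rw [hy]
    field_simp
    ring
  obtain ⟨x, hx0, hx1, hx⟩ := num_bound (η := (M - 1) / 2) (by linarith)
  refine ⟨k, m, 1 - y, x, ?_, by linarith, hx0, hx1, fun q hq => ?_⟩
  · have h1 : (0 : ℝ) < ((Fintype.card (Tix k m) : ℕ) : ℝ) := hC0
    exact_mod_cast h1
  obtain ⟨b0, hb0⟩ := hx q hq
  refine ⟨b0, fun a b hb hab => ?_⟩
  have hb' : (0 : ℝ) ≤ b := Nat.cast_nonneg _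
  have hba : b ≤ a := by
    have h1 : (b : ℝ) ≤ a := by
      have h2 : (1 : ℝ) * b ≤ α * b := mul_le_mul_of_nonneg_right (by linarith) hb'
      linarith
    exact_mod_cast h1
  have hyy : (1 : ℝ) - (1 - y) = y := by ring
  rw [hyy]
  constructor
  · apply hb0 (a - b) b _ hb
    · push_cast
      positivity
    · rw [div_le_one hC0]
      push_cast
      have h1 : (k : ℝ) + 5 * m ≤ C := by
        rw [hcard]
        nlinarith
      nlinarith
    · push_cast [Nat.cast_sub hba]
      have h4 : (α - 1) * b ≤ (a : ℝ) - b := by linarith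
      have h5 : y * M * b ≤ y * ((α - 1) * (k + 5 * m) / C) * b :=
        mul_le_mul_of_nonneg_right (mul_le_mul_of_nonneg_left hMa hy0.le) hb'
      rw [hyM] at h5
      refine h5.trans ?_
      calc y * ((α - 1) * (k + 5 * m) / C) * b = (y * (k + 5 * m) / C) * ((α - 1) * b) := by ring
        _ ≤ (y * (k + 5 * m) / C) * ((a : ℝ) - b) :=
            mul_le_mul_of_nonneg_left h4 (by positivity)
  · apply hb0 a b _ hb
    · push_cast
      positivity
    · rw [div_le_one hC0]
      push_cast
      have h1 : (k : ℝ) + m ≤ C := by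
        rw [hcard]
        nlinarith
      nlinarith
    · push_cast
      have h5 : y * M * b ≤ y * (α * (k + m) / C) * b :=
        mul_le_mul_of_nonneg_right (mul_le_mul_of_nonneg_left hMb hy0.le) hb'
      rw [hyM] at h5
      refine h5.trans ?_
      calc y * (α * (k + m) / C) * b = (y * (k + m) / C) * (α * b) := by ring
        _ ≤ (y * (k + m) / C) * (a : ℝ) :=
            mul_le_mul_of_nonneg_left hab (by positivity)

/-- Multiple list colouring of layered graphs: if every vertex has at most `Δ` neighbours in its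
own layer and at most one neighbour in the lower layers, and adjacent vertices of one layer which
have neighbours in the lower layers have the same such neighbour, then a graph with a proper
colouring with four colours and without a complete bipartite minor is `(a, b)`-choosable for all
large `b` and all `a ≥ α b`, where `α² - 5 α + 1 > 0`. -/
theorem choosable_layers (n Δ : ℕ) {α : ℝ} (hα1 : 1 < α) (hα : 5 * α < α ^ 2 + 1) :
    ∃ b0 : ℕ, ∀ (V : Type) [Finite V] (G : SimpleGraph V), ¬HasK3Minor n G →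
      G.Colorable 4 → ∀ layer : V → ℕ,
      (∀ v, {w | layer w = layer v ∧ G.Adj v w}.ncard ≤ Δ) →
      (∀ v u u', G.Adj v u → G.Adj v u' → layer u < layer v → layer u' < layer v → u = u') →
      (∀ v v' u u', G.Adj v v' → layer v = layer v' → G.Adj v u → G.Adj v' u' →
        layer u < layer v → layer u' < layer v' → u = u') →
      ∀ a b : ℕ, b0 ≤ b → α * b ≤ a → Choosable G a b := by
  obtain ⟨k, m, δ, x, hB, hδ, hx0, hx1, hq⟩ := exists_numbers hα1 hα
  obtain ⟨R, hR⟩ := exists_nat_gt (4 / δ)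
  have hR0 : (0 : ℝ) < R := (by positivity : (0 : ℝ) < 4 / δ).trans hR
  have hR1 : 0 < R := by exact_mod_cast hR0
  obtain ⟨S, ρ, hS⟩ := exists_scheme n Δ hR1
  set C : ℝ := (Δ + 1 : ℝ) ^ (2 * (S + ρ)) with hC
  have hC0 : 0 < C := by positivity
  obtain ⟨b0, hb0⟩ := hq (1 / (4 * C)) (by positivity)
  refine ⟨b0, ?_⟩
  intro V _ G hminor hcol layer hdeg hone hfar a b hb hab L hL
  have := Fintype.ofFinite V
  have : Nonempty (Fin R) := ⟨⟨0, hR1⟩⟩
  obtain ⟨c⟩ := hcol
  have hφ : ∀ u v, G.Adj u v → c u ≠ c v := fun u v h => c.valid h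
  obtain ⟨hb1, hb2⟩ := hb0 a b hb hab
  have hmain : ∀ t : ℕ, ∃ T : V → Finset _, (∀ v, layer v < t → T v ⊆ L v ∧ (T v).card = b) ∧
      ∀ u v, layer u < t → layer v < t → G.Adj u v → Disjoint (T u) (T v) := by
    intro t
    induction t with
    | zero => exact ⟨L, fun v hv => (Nat.not_lt_zero _ hv).elim,
        fun u _ hu => (Nat.not_lt_zero _ hu).elim⟩
    | succ t ih =>
      obtain ⟨s, hs1, hs2⟩ := ih
      set U : Set V := {v | layer v = t} with hU
      set P : Set V := {v | layer v < t} with hP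
      obtain ⟨X, hX⟩ := hS V (res G U)
        (by
          intro v
          by_cases hv : v ∈ U
          · refine (Set.ncard_le_ncard ?_ (Set.toFinite _)).trans (hdeg v)
            intro w hw
            exact ⟨(show layer w = t from hw.2.2).trans (show layer v = t from hv).symm, hw.1⟩
          · have h0 : (res G U).neighborSet v = ∅ := by
              ext w
              simp only [SimpleGraph.mem_neighborSet, Set.mem_empty_iff_false, iff_false]
              intro h
              exact hv h.2.1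
            rw [h0, Set.ncard_empty]
            exact Nat.zero_le _)
        (fun h => hminor (hasK3Minor_mono (Col.res_le G U) h))
      have hle : (4 : ℝ) / R ≤ δ := by
        rw [div_le_iff₀ hR0]
        rw [div_lt_iff₀ hδ] at hR
        linarith
      obtain ⟨T, hT1, hT2, hT3⟩ := layer_core (Δ := Δ) (k := k) (m := m) hφ (P := P) (U := U)
        (by
          intro v hv
          have e : {w | w ∈ U ∧ G.Adj v w} = {w | layer w = layer v ∧ G.Adj v w} := by
            ext w
            have hv' : layer v = t := hv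
            simp only [Set.mem_ofPred_eq, hU, hv']
          rw [e]
          exact hdeg v)
        (by
          intro v hv u hu u' hu' h1 h2
          have hv' : layer v = t := hv
          exact hone v u u' h1 h2 (hv' ▸ hu) (hv' ▸ hu'))
        (by
          intro v hv v' hv' u hu u' hu' h0 h1 h2
          have e : layer v = t := hv
          have e' : layer v' = t := hv'
          exact hfar v v' u u' h0 (e.trans e'.symm) h1 h2 (e ▸ hu) (e' ▸ hu'))
        (hX.mono hle le_rfl le_rfl) hB hx0 hx1 (q := 1 / (4 * C)) (by positivity) hb1 hb2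
        (by
          rw [← hC]
          field_simp
          norm_num)
        hL (s := s) (fun u hu => (hs1 u hu).2)
      refine ⟨fun v => if layer v = t then T v else s v, fun v hv => ?_, fun u v hu hv huv => ?_⟩
      · by_cases h : layer v = t
        · simp only [if_pos h]
          exact hT1 v h
        · simp only [if_neg h]
          exact hs1 v (by omega)
      · by_cases h : layer u = t
        · by_cases h' : layer v = t
          · simp only [if_pos h, if_pos h']
            exact hT3 u h v h' huv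
          · simp only [if_pos h, if_neg h']
            exact hT2 u h v (show layer v < t by omega) huv
        · by_cases h' : layer v = t
          · simp only [if_neg h, if_pos h']
            exact (hT2 v h' u (show layer u < t by omega) huv.symm).symm
          · simp only [if_neg h, if_neg h']
            exact hs2 u v (by omega) (by omega) huv
  obtain ⟨T, hT1, hT2⟩ := hmain ((univ.sup layer) + 1)
  have hlt : ∀ v, layer v < univ.sup layer + 1 := fun v =>
    Nat.lt_succ_of_le (le_sup (f := layer) (mem_univ v))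
  exact ⟨T, fun v => hT1 v (hlt v), fun u v huv => hT2 u v (hlt u) (hlt v) huv⟩

/-- Multiple list colouring of graphs whose vertices of large degree are at distance at least
four from one another. -/
theorem choosable_hubs (n Δ : ℕ) {α : ℝ} (hα1 : 1 < α) (hα : 5 * α < α ^ 2 + 1) :
    ∃ b0 : ℕ, ∀ (V : Type) [Finite V] (G : SimpleGraph V), ¬HasK3Minor n G →
      G.Colorable 4 →
      (∀ u v, Δ < (G.neighborSet u).ncard → Δ < (G.neighborSet v).ncard → u ≠ v →
        ¬ Near G 3 u v) →
      ∀ a b : ℕ, b0 ≤ b → α * b ≤ a → Choosable G a b := by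
  obtain ⟨b0, h⟩ := choosable_layers n Δ hα1 hα
  refine ⟨b0, ?_⟩
  intro V _ G hminor hcol hfar a b hb hab
  have := Fintype.ofFinite V
  rcases isEmpty_or_nonempty V with hV | hV
  · exact fun _ _ => ⟨fun _ => ∅, fun v => (hV.false v).elim, fun v => (hV.false v).elim⟩
  have hlt : ∀ v, (if Δ < (G.neighborSet v).ncard then 0 else 1) < 1 →
      Δ < (G.neighborSet v).ncard := by
    intro v hv
    by_contra hn
    rw [if_neg hn] at hv
    exact lt_irrefl _ hv
  have hle : ∀ v, (if Δ < (G.neighborSet v).ncard then 0 else 1) ≤ 1 := by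
    intro v
    split_ifs <;> omega
  refine h V G hminor hcol (fun v => if Δ < (G.neighborSet v).ncard then 0 else 1) ?_ ?_ ?_
    a b hb hab
  · intro v
    by_cases hv : Δ < (G.neighborSet v).ncard
    · have h0 : {w | (if Δ < (G.neighborSet w).ncard then 0 else 1) =
          (if Δ < (G.neighborSet v).ncard then 0 else 1) ∧ G.Adj v w} = ∅ := by
        ext w
        simp only [Set.mem_ofPred_eq, Set.mem_empty_iff_false, iff_false]
        rintro ⟨h1, h2⟩
        rw [if_pos hv] at h1
        have hw := hlt w (by omega)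
        exact hfar v w hv hw h2.ne (Col.near_mono (by omega) (Col.near_adj h2))
      rw [h0, Set.ncard_empty]
      exact Nat.zero_le _
    · refine (Set.ncard_le_ncard ?_ (Set.toFinite _)).trans (not_lt.1 hv)
      intro w hw
      exact hw.2
  · intro v u u' h1 h2 h3 h4
    by_contra hne
    have hu := hlt u (lt_of_lt_of_le h3 (hle v))
    have hu' := hlt u' (lt_of_lt_of_le h4 (hle v))
    exact hfar u u' hu hu' hne
      (Col.near_mono (by omega) (Col.near_trans (Col.near_adj h1.symm) (Col.near_adj h2)))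
  · intro v v' u u' h0 _ h1 h2 h3 h4
    by_contra hne
    have hu := hlt u (lt_of_lt_of_le h3 (hle v))
    have hu' := hlt u' (lt_of_lt_of_le h4 (hle v'))
    exact hfar u u' hu hu' hne (Col.near_trans (Col.near_trans (Col.near_adj h1.symm)
      (Col.near_adj h0)) (Col.near_adj h2))

/-- The condition on `α`. -/
lemma alpha_cond {η : ℝ} (hη : 0 < η) :
    1 < (5 + √21) / 2 + η ∧
      5 * ((5 + √21) / 2 + η) < ((5 + √21) / 2 + η) ^ 2 + 1 := by
  have h1 : 0 ≤ √21 := Real.sqrt_nonneg _
  have h2 : √21 * √21 = 21 := Real.mul_self_sqrt (by norm_num)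
  constructor
  · linarith
  · nlinarith [mul_pos hη hη, mul_nonneg hη.le h1]

end Far

end BDP
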