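import Pool.Agent.Work.MP_0890ba_co.BD.Bad

/-!
# Awareness graphs of a vertex order

For an injective rank function `e` and numbers `R j` the graphs `Lam G e R j` are subgraphs of `G`:
there are no edges for `j = 0`, and an edge `u w` with `e u < e w` belongs to `Lam G e R (j + 1)`
if `w` lies in a set `P` of at most `R j` vertices after `u`, connected in `Lam G e R j`, which
sees three vertices up to `u` or two which are not joined outside `P`.
-/

set_option linter.unusedSectionVars false

namespace BDP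

namespace Ord

open Hub Classical

variable {V : Type}

/-- The vertices up to `u`. -/
def upto (e : V → ℕ) (u : V) : Set V := {x | e x ≤ e u}

/-- The vertices after `u`. -/
def after (e : V → ℕ) (u : V) : Set V := {x | e u < e x}

/-- The vertex `u` is aware of the later vertex `w`. -/
def Aw (G L : SimpleGraph V) (e : V → ℕ) (r : ℕ) (u w : V) : Prop :=
  ∃ P : Set V, w ∈ P ∧ P ⊆ after e u ∧ Conn L P ∧ P.ncard ≤ r ∧ ¬Nice G (upto e u) P

/-- The next awareness graph. -/
def nxt (G L : SimpleGraph V) (e : V → ℕ) (r : ℕ) : SimpleGraph V where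
  Adj u w := G.Adj u w ∧ ((e u < e w ∧ Aw G L e r u w) ∨ (e w < e u ∧ Aw G L e r w u))
  symm := ⟨fun _ _ h => ⟨h.1.symm, h.2.symm⟩⟩
  loopless := ⟨fun v h => G.loopless.irrefl v h.1⟩

/-- The awareness graphs. -/
def Lam (G : SimpleGraph V) (e : V → ℕ) (R : ℕ → ℕ) : ℕ → SimpleGraph V
  | 0 => ⊥
  | j + 1 => nxt G (Lam G e R j) e (R j)

variable {G : SimpleGraph V} {e : V → ℕ} {R : ℕ → ℕ}

lemma lam_le (j : ℕ) : Lam G e R j ≤ G := by
  cases j with
  | zero => exact bot_le
  | succ j => exact fun _ _ h => h.1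

lemma lam_adj {j : ℕ} {u w : V} (hlt : e u < e w) :
    (Lam G e R (j + 1)).Adj u w ↔ G.Adj u w ∧ Aw G (Lam G e R j) e (R j) u w := by
  constructor
  · rintro ⟨h, h' | h'⟩
    · exact ⟨h, h'.2⟩
    · exact absurd h'.1 (by omega)
  · exact fun h => ⟨h.1, Or.inl ⟨hlt, h.2⟩⟩

lemma conn_of_le {L L' : SimpleGraph V} (h : L ≤ L') {P : Set V} (hP : Conn L P) : Conn L' P :=
  fun x hx y hy => (hP x hx y hy).mono (show res L P ≤ res L' P from fun _ _ hab => ⟨h hab.1, hab.2⟩)

lemma aw_mono {L L' : SimpleGraph V} (h : L ≤ L') {r r' : ℕ} (hr : r ≤ r') {u w : V}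
    (hA : Aw G L e r u w) : Aw G L' e r' u w := by
  obtain ⟨P, h1, h2, h3, h4, h5⟩ := hA
  exact ⟨P, h1, h2, conn_of_le h h3, h4.trans hr, h5⟩

lemma lam_succ (hR : Monotone R) (j : ℕ) : Lam G e R j ≤ Lam G e R (j + 1) := by
  induction j with
  | zero => exact bot_le
  | succ j ih =>
    rintro u w ⟨h, h' | h'⟩
    · exact ⟨h, Or.inl ⟨h'.1, aw_mono ih (hR (Nat.le_succ j)) h'.2⟩⟩
    · exact ⟨h, Or.inr ⟨h'.1, aw_mono ih (hR (Nat.le_succ j)) h'.2⟩⟩

lemma lam_mono (hR : Monotone R) {i j : ℕ} (h : i ≤ j) : Lam G e R i ≤ Lam G e R j :=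
  monotone_nat_of_le_succ (lam_succ hR) h

/-- A larger set is not nice either. -/
lemma nice_sub [Fintype V] {H K K' : Set V} (hK : K ⊆ K') (h : Nice G H K') : Nice G H K := by
  have h1 : seen G H K ⊆ seen G H K' := by
    rintro u ⟨hu, v, hv, huv⟩
    exact ⟨hu, v, hK hv, huv⟩
  exact ⟨(Set.ncard_le_ncard h1 (Set.toFinite _)).trans h.1, fun u hu v hv =>
    (h.2 u (h1 hu) v (h1 hv)).mono (res_mono (Set.compl_subset_compl.2 hK))⟩

/-- More visible vertices. -/
lemma nice_anti [Fintype V] {H H' K : Set V} (hH : H ⊆ H') (h : Nice G H' K) : Nice G H K := by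
  have h1 : seen G H K ⊆ seen G H' K := fun u hu => ⟨hH hu.1, hu.2⟩
  exact ⟨(Set.ncard_le_ncard h1 (Set.toFinite _)).trans h.1, fun u hu v hv =>
    h.2 u (h1 hu) v (h1 hv)⟩

/-- An edge which leaves the component of `w` in `K ∩ T`. -/
lemma exit [Fintype V] {L : SimpleGraph V} {K T : Set V} (hK : Conn L K) {w t₀ : V} (hw : w ∈ K)
    (hwT : w ∈ T) (ht : t₀ ∈ K) (ht' : t₀ ∉ cmp L (K ∩ T) w) :
    ∃ x ∈ cmp L (K ∩ T) w, ∃ t ∈ K, t ∉ T ∧ L.Adj x t := by
  obtain ⟨p⟩ := hK w hw t₀ ht
  have key : ∀ {a b : V} (p : (res L K).Walk a b), a ∈ cmp L (K ∩ T) w → b ∉ cmp L (K ∩ T) w →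
      ∃ x ∈ cmp L (K ∩ T) w, ∃ t ∈ K, t ∉ T ∧ L.Adj x t := by
    intro a b p
    induction p with
    | nil => exact fun h h' => absurd h h'
    | @cons a c b hac p ih =>
      intro ha hb
      by_cases hc : c ∈ cmp L (K ∩ T) w
      · exact ih hc hb
      · refine ⟨a, ha, c, hac.2.2, fun hcT => hc ?_, hac.1⟩
        have haKT : a ∈ K ∩ T := cmp_subset (show w ∈ K ∩ T from ⟨hw, hwT⟩) ha
        have h1 : (res L (K ∩ T)).Adj a c := ⟨hac.1, haKT, hac.2.2, hcT⟩
        exact SimpleGraph.Reachable.trans ha h1.reachable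
  exact key p (mem_cmp_self _ _) ht'

lemma conn_union' {L : SimpleGraph V} {A B : Set V} (hA : Conn L A) (hB : Conn L B) {a : V}
    (ha : a ∈ A) (hb : a ∈ B) : Conn L (A ∪ B) := by
  refine Conn.of_center (c := a) ?_
  rintro x (hx | hx)
  · exact (hA a ha x hx).mono (res_mono Set.subset_union_left)
  · exact (hB a hb x hx).mono (res_mono Set.subset_union_right)

lemma ncard_union' {A B : Set V} {a b : ℕ} (hA : A.ncard ≤ a) (hB : B.ncard ≤ b) :
    (A ∪ B).ncard ≤ a + b :=
  (Set.ncard_union_le A B).trans (Nat.add_le_add hA hB)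

/-- THE CLAIM: if `u` is not aware of its later neighbour `w` on level `j + 1`, then every small
set which contains `w` and is connected on level `j` lies after `u` and is nice. -/
theorem claim [Fintype V] (hR : Monotone R) {j r : ℕ}
    (hr : r + R (j - 1) + R (j - 2) ≤ R j) {u w : V} (huw : G.Adj u w) (hlt : e u < e w)
    (hn : ¬(Lam G e R (j + 1)).Adj u w) {K : Set V} (hK : Conn (Lam G e R j) K) (hwK : w ∈ K)
    (hc : K.ncard ≤ r) : K ⊆ after e u ∧ Nice G (upto e u) K := by
  -- sets after `u` are nice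
  have star : ∀ P : Set V, w ∈ P → P ⊆ after e u → Conn (Lam G e R j) P → P.ncard ≤ R j →
      Nice G (upto e u) P := by
    intro P h1 h2 h3 h4
    by_contra h5
    exact hn ((lam_adj hlt).2 ⟨huw, P, h1, h2, h3, h4, h5⟩)
  have hKsub : K ⊆ after e u := by
    by_contra hnot
    rw [Set.not_subset] at hnot
    obtain ⟨t₀, ht₀K, ht₀⟩ := hnot
    set P := cmp (Lam G e R j) (K ∩ after e u) w with hPdef
    have hwT : w ∈ after e u := hlt
    have hwKT : w ∈ K ∩ after e u := ⟨hwK, hwT⟩
    have hPsub : P ⊆ K ∩ after e u := cmp_subset hwKT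
    have hPc : Conn (Lam G e R j) P := conn_cmp _ _
    have hPn : P.ncard ≤ r :=
      (Set.ncard_le_ncard (hPsub.trans Set.inter_subset_left) (Set.toFinite _)).trans hc
    have hwP : w ∈ P := mem_cmp_self _ _
    obtain ⟨w', hw', t, htK, htT, hadj⟩ := exit hK hwK hwT ht₀K (fun h => ht₀ (hPsub h).2)
    have htu : e t ≤ e u := not_lt.1 htT
    have hw'u : e u < e w' := (hPsub hw').2
    have htw' : e t < e w' := lt_of_le_of_lt htu hw'u
    cases j with
    | zero => exact hadj.elim
    | succ j =>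
      obtain ⟨hG1, Q, hwQ, hQa, hQc, hQn, hQbad⟩ := (lam_adj htw').1 hadj.symm
      set Q' := cmp (Lam G e R j) (Q ∩ after e u) w' with hQ'def
      have hw'Q : w' ∈ Q ∩ after e u := ⟨hwQ, hw'u⟩
      have hQ'sub : Q' ⊆ Q ∩ after e u := cmp_subset hw'Q
      have hQ'c : Conn (Lam G e R j) Q' := conn_cmp _ _
      have hQ'n : Q'.ncard ≤ R j :=
        (Set.ncard_le_ncard (hQ'sub.trans Set.inter_subset_left) (Set.toFinite _)).trans hQn
      have hw'Q' : w' ∈ Q' := mem_cmp_self _ _
      have hle : Lam G e R j ≤ Lam G e R (j + 1) := lam_succ hR j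
      have hPQ : Conn (Lam G e R (j + 1)) (P ∪ Q') :=
        conn_union' hPc (conn_of_le hle hQ'c) hw' hw'Q'
      have hPQn : (P ∪ Q').ncard ≤ r + R j := ncard_union' hPn hQ'n
      have hPQa : P ∪ Q' ⊆ after e u :=
        Set.union_subset (fun x hx => (hPsub hx).2) (fun x hx => (hQ'sub hx).2)
      have h1 : j + 1 - 1 = j := by omega
      rw [h1] at hr
      have hnice : Nice G (upto e u) (P ∪ Q') :=
        star _ (Or.inl hwP) hPQa hPQ (by omega)
      by_cases hQQ : Q ⊆ after e u
      · -- the whole bad set lies after `u`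
        have h2 : Q ⊆ Q' := by
          have h3 : Q ∩ after e u = Q := Set.inter_eq_left.2 hQQ
          rw [hQ'def, h3]
          exact Conn.subset_cmp hQc (Set.Subset.refl _) hwQ
        refine hQbad (nice_anti (H' := upto e u) ?_ (nice_sub (K' := P ∪ Q') ?_ hnice))
        · intro x hx
          exact le_trans (show e x ≤ e t from hx) htu
        · exact h2.trans Set.subset_union_right
      · rw [Set.not_subset] at hQQ
        obtain ⟨s₀, hs₀Q, hs₀⟩ := hQQ
        obtain ⟨q', hq', s, hsQ, hsT, hqs⟩ :=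
          exit hQc hwQ hw'u hs₀Q (fun h => hs₀ (hQ'sub h).2)
        have hsu : e s ≤ e u := not_lt.1 hsT
        have hts : e t < e s := hQa hsQ
        -- `t`, `s`, `u` are seen
        have mt : t ∈ seen G (upto e u) (P ∪ Q') := ⟨htu, w', Or.inl hw', hG1⟩
        have ms : s ∈ seen G (upto e u) (P ∪ Q') := ⟨hsu, q', Or.inr hq', (lam_le j hqs).symm⟩
        have mu : u ∈ seen G (upto e u) (P ∪ Q') := ⟨le_refl (e u), w, Or.inl hwP, huw⟩
        have hsu' : s = u := by
          by_contra hne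
          have h3 : ({t, s, u} : Set V) ⊆ seen G (upto e u) (P ∪ Q') := by
            rintro x (rfl | rfl | rfl)
            · exact mt
            · exact ms
            · exact mu
          have h4 : ({t, s, u} : Set V).ncard = 3 := by
            rw [Set.ncard_eq_three]
            refine ⟨t, s, u, ?_, ?_, hne, rfl⟩
            · rintro rfl
              exact absurd hts (lt_irrefl _)
            · rintro rfl
              omega
          have h5 := Set.ncard_le_ncard h3 (Set.toFinite _)
          have h6 := hnice.1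
          omega
        subst hsu'
        have hq's : e s < e q' := (hQ'sub hq').2
        cases j with
        | zero => exact hqs.elim
        | succ j =>
          obtain ⟨-, Q'', hqQ'', hQ''a, hQ''c, hQ''n, hQ''bad⟩ := (lam_adj hq's).1 hqs.symm
          have h7 : Lam G e R j ≤ Lam G e R (j + 1 + 1) := lam_mono hR (by omega)
          have h8 : Conn (Lam G e R (j + 1 + 1)) ((P ∪ Q') ∪ Q'') :=
            conn_union' hPQ (conn_of_le h7 hQ''c) (Or.inr hq') hqQ''
          have h9 : ((P ∪ Q') ∪ Q'').ncard ≤ r + R (j + 1) + R j := ncard_union' hPQn hQ''n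
          have h10 : j + 1 + 1 - 2 = j := by omega
          rw [h10] at hr
          have h11 := star _ (Or.inl (Or.inl hwP)) (Set.union_subset hPQa hQ''a) h8
            (by omega)
          exact hQ''bad (nice_sub Set.subset_union_right h11)
  exact ⟨hKsub, star K hwK hKsub hK (by omega)⟩

end Ord

end BDP
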