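import Pool.Agent.Work.MP_0890ba_co.BD.Ray2

/-!
# Parities of walks in plane drawings
-/

namespace BDP

open Pool.Agent.Work.MP_0890ba_co

variable {V : Type} {G : SimpleGraph V}

/-- The number of edges of the walk which pass above the point `z`, modulo `2`. -/
noncomputable def walkUp (f : V → ℝ × ℝ) {a b : V} (p : G.Walk a b) (z : ℝ × ℝ) : ZMod 2 :=
  (p.darts.map fun d => up (f d.fst) (f d.snd) z).sum

theorem walkUp_nil (f : V → ℝ × ℝ) (a : V) (z : ℝ × ℝ) :
    walkUp f (SimpleGraph.Walk.nil : G.Walk a a) z = 0 := by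
  simp [walkUp]

theorem walkUp_cons (f : V → ℝ × ℝ) {a b c : V} (h : G.Adj a b) (p : G.Walk b c) (z : ℝ × ℝ) :
    walkUp f (SimpleGraph.Walk.cons h p) z = up (f a) (f b) z + walkUp f p z := by
  simp [walkUp]

/-- Two disjoint edges of a drawing in general position. -/
theorem edge_edge {f : V → ℝ × ℝ} (hf : IsPlaneDrawing G f)
    (hg : ∀ v w, v ≠ w → (f v).1 ≠ (f w).1) {x y z z' : V} (hxy : G.Adj x y) (hz : G.Adj z z')
    (h1 : x ≠ z) (h2 : x ≠ z') (h3 : y ≠ z) (h4 : y ≠ z') :
    up (f x) (f y) (f z) + up (f x) (f y) (f z') + dn (f z) (f z') (f x) +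
      dn (f z) (f z') (f y) = 0 := by
  apply ident_one (hg _ _ hxy.ne) (hg _ _ hz.ne) (hg _ _ h1) (hg _ _ h2) (hg _ _ h3) (hg _ _ h4)
  rw [Set.disjoint_left]
  intro p hp hq
  obtain ⟨w, hw1, hw2, -⟩ := hf.cross x y z z' p hxy hz (by
    intro h
    rcases Sym2.eq_iff.1 h with ⟨h5, -⟩ | ⟨h5, -⟩
    · exact h1 h5
    · exact h2 h5) hp hq
  rcases hw1 with rfl | rfl
  · rcases hw2 with h | h
    · exact h1 h
    · exact h2 h
  · rcases hw2 with h | h
    · exact h3 h
    · exact h4 h

theorem zmod_aux1 : ∀ A B C D E F H : ZMod 2, A + B + E + F = 0 → C + D = F + H →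
    A + C + (B + D) = E + H := by decide

theorem zmod_aux2 : ∀ A B C D : ZMod 2, A + B = C + D → A + C = B + D := by decide

/-- Moving the point along an edge which avoids the walk. -/
theorem par_edge {f : V → ℝ × ℝ} (hf : IsPlaneDrawing G f)
    (hg : ∀ v w, v ≠ w → (f v).1 ≠ (f w).1) {z z' : V} (hz : G.Adj z z') {a b : V}
    (p : G.Walk a b) (h1 : z ∉ p.support) (h2 : z' ∉ p.support) :
    walkUp f p (f z) + walkUp f p (f z') =
      dn (f z) (f z') (f a) + dn (f z) (f z') (f b) := by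
  induction p with
  | nil => rw [walkUp_nil, walkUp_nil, add_self_zmod, add_self_zmod]
  | @cons a c b h p ih =>
    rw [SimpleGraph.Walk.support_cons, List.mem_cons, not_or] at h1 h2
    have h3 := ih h1.2 h2.2
    have hc1 : c ≠ z := fun e => h1.2 (e ▸ p.start_mem_support)
    have hc2 : c ≠ z' := fun e => h2.2 (e ▸ p.start_mem_support)
    have h4 := edge_edge hf hg h hz (Ne.symm h1.1) (Ne.symm h2.1) hc1 hc2
    rw [walkUp_cons, walkUp_cons]
    exact zmod_aux1 _ _ _ _ _ _ _ h4 h3

/-- Two walks with the same ends: the parity of the closed walk does not change along an edge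
which avoids both. -/
theorem par_closed {f : V → ℝ × ℝ} (hf : IsPlaneDrawing G f)
    (hg : ∀ v w, v ≠ w → (f v).1 ≠ (f w).1) {a b : V} (p p' : G.Walk a b) {z z' : V}
    (hz : G.Adj z z') (h1 : z ∉ p.support) (h2 : z' ∉ p.support) (h3 : z ∉ p'.support)
    (h4 : z' ∉ p'.support) :
    walkUp f p (f z) + walkUp f p' (f z) = walkUp f p (f z') + walkUp f p' (f z') := by
  have h5 := par_edge hf hg hz p h1 h2
  have h6 := par_edge hf hg hz p' h3 h4
  exact zmod_aux2 _ _ _ _ (h5.trans h6.symm)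

/-- The parity of a closed walk does not change along a walk which avoids it. -/
theorem par_const {f : V → ℝ × ℝ} (hf : IsPlaneDrawing G f)
    (hg : ∀ v w, v ≠ w → (f v).1 ≠ (f w).1) {a b : V} (p p' : G.Walk a b) {z z' : V}
    (q : G.Walk z z') (hq : ∀ v ∈ q.support, v ∉ p.support ∧ v ∉ p'.support) :
    walkUp f p (f z) + walkUp f p' (f z) = walkUp f p (f z') + walkUp f p' (f z') := by
  induction q with
  | nil => rfl
  | @cons z w z' h q ih =>
    have hz := hq z (by simp)
    have hw := hq w (by simp)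
    refine (par_closed hf hg p p' h hz.1 hw.1 hz.2 hw.2).trans (ih fun v hv => hq v ?_)
    rw [SimpleGraph.Walk.support_cons]
    exact List.mem_cons_of_mem _ hv

end BDP
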