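import Pool.Agent.Work.MP_0890ba_co.BD.Ext

/-!
# Graphs without long paths are built from pieces of bounded order
-/

set_option linter.unusedSectionVars false

namespace BDP

namespace Hub

open Finset Classical Pool.Agent.Work.MP_0890ba_co

variable {V : Type} {G : SimpleGraph V}

/-- The vertices outside `Q` next to `Q`. -/
def nbh (G : SimpleGraph V) (Q : Set V) : Set V := {u | u ∉ Q ∧ ∃ v ∈ Q, G.Adj u v}

/-- Only few disjoint connected sets see three vertices of a small set. -/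
lemma card_bad [Fintype V] (h3 : ¬HasK3Minor 3 G) (𝒦 : Finset (Set V))
    (hconn : ∀ B ∈ 𝒦, CN G B) (hdis : ∀ B ∈ 𝒦, ∀ B' ∈ 𝒦, B ≠ B' → Disjoint B B') {H : Set V}
    (hH : ∀ B ∈ 𝒦, nbh G B ⊆ H) (hHB : ∀ B ∈ 𝒦, Disjoint H B) {h : ℕ} (hh : H.ncard ≤ h)
    (hbad : ∀ B ∈ 𝒦, 3 ≤ (nbh G B).ncard) : 𝒦.card ≤ 2 * 2 ^ h := by
  have ht : ∀ B : Set V, ∃ t : Finset V, B ∈ 𝒦 → t.card = 3 ∧ (t : Set V) ⊆ nbh G B := by
    intro B
    by_cases hB : B ∈ 𝒦
    · obtain ⟨t, ht, htc⟩ := Set.exists_subset_card_eq (hbad B hB)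
      refine ⟨t.toFinset, fun _ => ⟨?_, ?_⟩⟩
      · rw [← Set.ncard_eq_toFinset_card']
        exact htc
      · rw [Set.coe_toFinset]
        exact ht
    · exact ⟨∅, fun h => absurd h hB⟩
  choose t ht using ht
  have h1 : (𝒦.image t).card ≤ 2 ^ h := by
    have h2 : 𝒦.image t ⊆ H.toFinset.powerset := by
      intro s hs
      obtain ⟨B, hB, rfl⟩ := mem_image.1 hs
      rw [mem_powerset]
      intro x hx
      rw [Set.mem_toFinset]
      exact hH B hB ((ht B hB).2 (mem_coe.2 hx))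
    refine (card_le_card h2).trans ?_
    rw [card_powerset, ← Set.ncard_eq_toFinset_card']
    exact Nat.pow_le_pow_right (by norm_num) hh
  refine (card_le_mul_card_image 𝒦 2 fun a _ => ?_).trans (Nat.mul_le_mul_left 2 h1)
  by_contra hlt
  rw [not_le] at hlt
  obtain ⟨B₁, B₂, B₃, m₁, m₂, m₃, n₁₂, n₁₃, n₂₃⟩ := two_lt_card_iff.1 hlt
  rw [mem_filter] at m₁ m₂ m₃
  obtain ⟨p, q, r, hpq, hpr, hqr, ha⟩ := card_eq_three.1 (m₁.2 ▸ (ht B₁ m₁.1).1)
  have hmem : ∀ B, B ∈ 𝒦 → t B = a → ∀ x ∈ a, Adjs G {x} B := by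
    intro B hB hta x hx
    obtain ⟨-, v, hv, hxv⟩ := (ht B hB).2 (mem_coe.2 (hta ▸ hx))
    exact ⟨x, rfl, v, hv, hxv⟩
  have hd : ∀ B, B ∈ 𝒦 → ∀ x ∈ a, Disjoint ({x} : Set V) B := by
    intro B hB x hx
    refine (hHB B hB).mono_left ?_
    rw [Set.singleton_subset_iff]
    exact hH B₁ m₁.1 ((ht B₁ m₁.1).2 (mem_coe.2 (m₁.2 ▸ hx)))
  have hp : p ∈ a := by rw [ha]; simp
  have hq : q ∈ a := by rw [ha]; simp
  have hr : r ∈ a := by rw [ha]; simp
  have hs : ∀ {x y : V}, x ≠ y → Disjoint ({x} : Set V) {y} := fun h =>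
    Set.disjoint_singleton.2 h
  exact h3 (mkK33 (cn_sing G p) (cn_sing G q) (cn_sing G r) (hconn _ m₁.1) (hconn _ m₂.1)
    (hconn _ m₃.1) (hs hpq) (hs hpr) (hs hqr) (hdis _ m₁.1 _ m₂.1 n₁₂) (hdis _ m₁.1 _ m₃.1 n₁₃)
    (hdis _ m₂.1 _ m₃.1 n₂₃) (hd _ m₁.1 p hp) (hd _ m₂.1 p hp) (hd _ m₃.1 p hp)
    (hd _ m₁.1 q hq) (hd _ m₂.1 q hq) (hd _ m₃.1 q hq) (hd _ m₁.1 r hr) (hd _ m₂.1 r hr)
    (hd _ m₃.1 r hr) (hmem _ m₁.1 m₁.2 p hp) (hmem _ m₂.1 m₂.2 p hp) (hmem _ m₃.1 m₃.2 p hp)
    (hmem _ m₁.1 m₁.2 q hq) (hmem _ m₂.1 m₂.2 q hq) (hmem _ m₃.1 m₃.2 q hq)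
    (hmem _ m₁.1 m₁.2 r hr) (hmem _ m₂.1 m₂.2 r hr) (hmem _ m₃.1 m₃.2 r hr))

/-- The bound for the order of a cluster. -/
def cl : ℕ → ℕ → ℕ
  | 0, _ => 0
  | d + 1, h => 1 + 2 * 2 ^ (h + 1) * cl d (h + 1)

/-- A connected set with a root, in which all paths from the root have at most `d` vertices. -/
structure Rooted (G : SimpleGraph V) (Q : Set V) (r : V) (d : ℕ) : Prop where
  conn : Conn G Q
  mem : r ∈ Q
  path : ∀ v (p : (res G Q).Walk r v), p.IsPath → p.length < d

lemma Rooted.mono {Q : Set V} {r : V} {d d' : ℕ} (h : Rooted G Q r d) (hd : d ≤ d') :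
    Rooted G Q r d' := ⟨h.conn, h.mem, fun v p hp => (h.path v p hp).trans_le hd⟩

lemma Rooted.pos {Q : Set V} {r : V} {d : ℕ} (h : Rooted G Q r d) : 0 < d :=
  Nat.lt_of_le_of_lt (Nat.zero_le _) (h.path r .nil SimpleGraph.Walk.IsPath.nil)

lemma support_res {W : Set V} {u v : V} (p : (res G W).Walk u v) (hu : u ∈ W) :
    ∀ z ∈ p.support, z ∈ W := by
  induction p with
  | nil =>
    intro z hz
    rw [SimpleGraph.Walk.support_nil, List.mem_singleton] at hz
    rw [hz]
    exact hu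
  | cons hadj q ih =>
    intro z hz
    rw [SimpleGraph.Walk.support_cons, List.mem_cons] at hz
    rcases hz with rfl | hz
    · exact hu
    · exact ih hadj.2.2 z hz

/-- The components of a rooted set without its root. -/
lemma Rooted.comp {Q : Set V} {r : V} {d : ℕ} (h : Rooted G Q r (d + 1)) {k : V}
    (hk : k ∈ Q \ {r}) : ∃ r' ∈ cmp G (Q \ {r}) k, G.Adj r r' ∧
      Rooted G (cmp G (Q \ {r}) k) r' d := by
  have hsub : cmp G (Q \ {r}) k ⊆ Q \ {r} := comp_subset hk
  obtain ⟨u, hu, w, hw, -, huw⟩ := enter (h.conn k hk.1 r h.mem) hk (Set.mem_singleton r)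
  rw [Set.mem_singleton_iff] at hw
  subst hw
  refine ⟨u, hu, huw.symm, conn_component _ _, hu, fun v p hp => ?_⟩
  have hadj : (res G Q).Adj w u := ⟨huw.symm, h.mem, (hsub hu).1⟩
  have hle : res G (cmp G (Q \ {w}) k) ≤ res G Q :=
    res_mono (hsub.trans Set.sdiff_subset)
  have h1 := h.path v (SimpleGraph.Walk.cons hadj (p.mapLe hle)) (by
    rw [SimpleGraph.Walk.cons_isPath_iff]
    refine ⟨SimpleGraph.Walk.IsPath.mapLe hle hp, fun hmem => ?_⟩
    rw [SimpleGraph.Walk.support_mapLe_eq_support] at hmem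
    exact (hsub (support_res p hu _ hmem)).2 rfl)
  rw [SimpleGraph.Walk.length_cons, SimpleGraph.Walk.length_mapLe] at h1
  omega

lemma nbh_comp {Q C : Set V} {k : V} (hk : k ∈ Q \ C) :
    nbh G (cmp G (Q \ C) k) ⊆ nbh G Q ∪ C := by
  rintro u ⟨hu, v, hv, huv⟩
  have hvQ := comp_subset hk hv
  by_cases huQ : u ∈ Q
  · by_cases huC : u ∈ C
    · exact Or.inr huC
    · refine absurd ?_ hu
      have h1 := comp_adj (G := G) hvQ (show u ∈ Q \ C from ⟨huQ, huC⟩) huv.symm
      rw [← comp_congr hv, ← h1]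
      exact mem_comp_self _ _
  · exact Or.inl ⟨huQ, v, hvQ.1, huv⟩

lemma cmp_disj {T : Set V} {k l : V} (h : cmp G T k ≠ cmp G T l) :
    Disjoint (cmp G T k) (cmp G T l) := by
  rw [Set.disjoint_left]
  intro x hx hx'
  exact h ((comp_congr hx).symm.trans (comp_congr hx'))

lemma cmp_mono {S T : Set V} (h : S ⊆ T) (k : V) : cmp G S k ⊆ cmp G T k :=
  fun _ hx => SimpleGraph.Reachable.mono (res_mono h) hx

lemma ncard_biUnion_le' [Fintype V] {ι : Type} (s : Finset ι) (f : ι → Set V) {m : ℕ}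
    (h : ∀ i ∈ s, (f i).ncard ≤ m) : (⋃ i ∈ s, f i).ncard ≤ s.card * m := by
  induction s using Finset.induction_on with
  | empty => simp
  | insert a s ha ih =>
    rw [set_biUnion_insert, card_insert_of_notMem ha]
    refine (Set.ncard_union_le _ _).trans ?_
    have h1 := h a (mem_insert_self _ _)
    have h2 := ih fun i hi => h i (mem_insert_of_mem hi)
    calc _ ≤ m + s.card * m := Nat.add_le_add h1 h2
      _ = _ := by ring

/-- The cluster of the root: a small connected set such that every component of the rest sees at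
most two vertices. -/
theorem cluster [Fintype V] (h3 : ¬HasK3Minor 3 G) : ∀ (d h : ℕ) (Q : Set V) (r : V),
    Rooted G Q r d → (nbh G Q).ncard ≤ h → ∃ C ⊆ Q, r ∈ C ∧ C.ncard ≤ cl d h ∧ Conn G C ∧
      ∀ k ∈ Q \ C, (nbh G (cmp G (Q \ C) k)).ncard ≤ 2 ∧
        ∃ r' ∈ cmp G (Q \ C) k, (∃ c ∈ C, G.Adj c r') ∧
          Rooted G (cmp G (Q \ C) k) r' (d - 1) := by
  intro d
  induction d with
  | zero => exact fun h Q r hQ _ => absurd hQ.pos (Nat.lt_irrefl 0)
  | succ d ih =>
    intro h Q r hQ hh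
    -- the bad components
    let 𝒦 : Finset (Set V) := univ.filter fun B =>
      (∃ k ∈ Q \ {r}, B = cmp G (Q \ {r}) k) ∧ 3 ≤ (nbh G B).ncard
    have hcomp : ∀ k ∈ Q \ {r}, (nbh G (cmp G (Q \ {r}) k)).ncard ≤ h + 1 := by
      intro k hk
      refine (Set.ncard_le_ncard (nbh_comp hk) (Set.toFinite _)).trans ?_
      refine (Set.ncard_union_le _ _).trans ?_
      rw [Set.ncard_singleton]
      omega
    have hch : ∀ B : Set V, ∃ C : Set V, B ∈ 𝒦 → C ⊆ B ∧ C.ncard ≤ cl d (h + 1) ∧ Conn G C ∧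
        (∃ r' ∈ C, G.Adj r r') ∧
        ∀ k ∈ B \ C, (nbh G (cmp G (B \ C) k)).ncard ≤ 2 ∧
          ∃ r' ∈ cmp G (B \ C) k, (∃ c ∈ C, G.Adj c r') ∧
            Rooted G (cmp G (B \ C) k) r' (d - 1) := by
      intro B
      by_cases hB : B ∈ 𝒦
      · obtain ⟨-, ⟨k, hk, rfl⟩, -⟩ := mem_filter.1 hB
        obtain ⟨r', -, hrr, hroot⟩ := hQ.comp hk
        obtain ⟨C, h1, h2, h4, h5, h6⟩ := ih (h + 1) _ r' hroot (hcomp k hk)
        exact ⟨C, fun _ => ⟨h1, h4, h5, ⟨r', h2, hrr⟩, h6⟩⟩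
      · exact ⟨∅, fun h => absurd h hB⟩
    choose F hF using hch
    have hbad : 𝒦.card ≤ 2 * 2 ^ (h + 1) := by
      refine card_bad h3 𝒦 ?_ ?_ (H := nbh G Q ∪ {r}) ?_ ?_ ?_ ?_
      · intro B hB
        obtain ⟨-, ⟨k, hk, rfl⟩, -⟩ := mem_filter.1 hB
        exact ⟨conn_component _ _, k, mem_comp_self _ _⟩
      · intro B hB B' hB' hne
        obtain ⟨-, ⟨k, hk, rfl⟩, -⟩ := mem_filter.1 hB
        obtain ⟨-, ⟨k', hk', rfl⟩, -⟩ := mem_filter.1 hB'
        exact cmp_disj hne
      · intro B hB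
        obtain ⟨-, ⟨k, hk, rfl⟩, -⟩ := mem_filter.1 hB
        exact nbh_comp hk
      · intro B hB
        obtain ⟨-, ⟨k, hk, rfl⟩, -⟩ := mem_filter.1 hB
        rw [Set.disjoint_left]
        rintro x (hx | hx) hx'
        · exact hx.1 (comp_subset hk hx').1
        · exact (comp_subset hk hx').2 hx
      · refine (Set.ncard_union_le _ _).trans ?_
        rw [Set.ncard_singleton]
        omega
      · exact fun B hB => (mem_filter.1 hB).2.2
    set C : Set V := {r} ∪ ⋃ B ∈ 𝒦, F B with hC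
    have hFC : ∀ B ∈ 𝒦, F B ⊆ C := fun B hB x hx =>
      Or.inr (Set.mem_iUnion₂.2 ⟨B, hB, hx⟩)
    have hCQ : C ⊆ Q := by
      rintro x (hx | hx)
      · rw [Set.mem_singleton_iff] at hx
        rw [hx]
        exact hQ.mem
      · obtain ⟨B, hB, hx⟩ := Set.mem_iUnion₂.1 hx
        obtain ⟨-, ⟨k, hk, hBk⟩, -⟩ := mem_filter.1 hB
        have h1 := (hF B hB).1 hx
        rw [hBk] at h1
        exact (comp_subset hk h1).1
    have hinter : ∀ k ∈ Q \ {r}, ∀ x ∈ cmp G (Q \ {r}) k, x ∈ C →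
        cmp G (Q \ {r}) k ∈ 𝒦 ∧ x ∈ F (cmp G (Q \ {r}) k) := by
      rintro k hk x hx (hxC | hxC)
      · exact absurd hxC (comp_subset hk hx).2
      · obtain ⟨B, hB, hxB⟩ := Set.mem_iUnion₂.1 hxC
        obtain ⟨-, ⟨k', hk', hBk⟩, -⟩ := mem_filter.1 hB
        have h1 := (hF B hB).1 hxB
        have h2 : cmp G (Q \ {r}) k = B := by
          rw [hBk] at h1 ⊢
          exact (comp_congr hx).symm.trans (comp_congr h1)
        rw [h2]
        exact ⟨hB, hxB⟩
    refine ⟨C, hCQ, Or.inl rfl, ?_, ?_, ?_⟩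
    · refine (Set.ncard_union_le _ _).trans ?_
      rw [Set.ncard_singleton]
      have h1 := ncard_biUnion_le' 𝒦 F (m := cl d (h + 1)) fun B hB => (hF B hB).2.1
      have h2 := Nat.mul_le_mul_right (cl d (h + 1)) hbad
      show 1 + _ ≤ 1 + 2 * 2 ^ (h + 1) * cl d (h + 1)
      omega
    · refine Conn.of_center (c := r) ?_
      rintro x (hx | hx)
      · rw [Set.mem_singleton_iff] at hx
        rw [hx]
      · obtain ⟨B, hB, hx⟩ := Set.mem_iUnion₂.1 hx
        obtain ⟨-, -, h5, ⟨r', hr', hrr⟩, -⟩ := hF B hB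
        have h1 : (res G C).Adj r r' := ⟨hrr, Or.inl rfl, hFC B hB hr'⟩
        exact h1.reachable.trans ((h5 r' hr' x hx).mono (res_mono (hFC B hB)))
    · intro k hk
      have hkr : k ∈ Q \ {r} := ⟨hk.1, fun h => hk.2 (Or.inl h)⟩
      have hsub : Q \ C ⊆ Q \ {r} := fun x hx => ⟨hx.1, fun h => hx.2 (Or.inl h)⟩
      by_cases hB : cmp G (Q \ {r}) k ∈ 𝒦
      · obtain ⟨-, -, -, -, h6⟩ := hF _ hB
        have hkB : k ∈ cmp G (Q \ {r}) k \ F (cmp G (Q \ {r}) k) :=
          ⟨mem_comp_self _ _, fun h => hk.2 (hFC _ hB h)⟩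
        have e : cmp G (Q \ C) k =
            cmp G (cmp G (Q \ {r}) k \ F (cmp G (Q \ {r}) k)) k := by
          apply Set.Subset.antisymm
          · refine (conn_component (G := G) (Q \ C) k).subset_comp ?_ (mem_comp_self _ _)
            intro x hx
            exact ⟨cmp_mono hsub k hx, fun h => (comp_subset hk hx).2 (hFC _ hB h)⟩
          · refine cmp_mono ?_ k
            intro x hx
            exact ⟨(comp_subset hkr hx.1).1, fun h => hx.2 (hinter k hkr x hx.1 h).2⟩
        obtain ⟨h7, r', hr', ⟨c, hc, hcr⟩, hroot⟩ := h6 k hkB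
        rw [e]
        exact ⟨h7, r', hr', ⟨c, hFC _ hB hc, hcr⟩, hroot.mono (by omega)⟩
      · have e : cmp G (Q \ C) k = cmp G (Q \ {r}) k := by
          apply Set.Subset.antisymm (cmp_mono hsub k)
          refine (conn_component (G := G) (Q \ {r}) k).subset_comp ?_ (mem_comp_self _ _)
          intro x hx
          exact ⟨(comp_subset hkr hx).1, fun h => hB (hinter k hkr x hx h).1⟩
        rw [e]
        obtain ⟨r', hr', hrr, hroot⟩ := hQ.comp hkr
        refine ⟨?_, r', hr', ⟨r, Or.inl rfl, hrr⟩, hroot⟩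
        by_contra hlt
        exact hB (mem_filter.2 ⟨mem_univ _, ⟨k, hkr, rfl⟩, by omega⟩)

/-- Sets built from pieces of at most `n` vertices. -/
inductive BS (G : SimpleGraph V) (n : ℕ) : Set V → Prop
  | empty : BS G n ∅
  | step {W C : Set V} : BS G n W → Disjoint C W → C.ncard ≤ n →
      {u | u ∈ W ∧ ∃ v ∈ C, G.Adj u v}.ncard ≤ 2 →
      (∀ u ∈ W, ∀ v ∈ W, (∃ w ∈ C, G.Adj u w) → (∃ w ∈ C, G.Adj v w) →
        (res G W).Reachable u v) → BS G n (W ∪ C)

/-- A rooted set can be added. -/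
theorem build [Fintype V] (h3 : ¬HasK3Minor 3 G) {n m : ℕ} (hn : ∀ d ≤ m, cl d 2 ≤ n) :
    ∀ (d : ℕ), d ≤ m → ∀ (Q : Set V) (r : V), Rooted G Q r d → (nbh G Q).ncard ≤ 2 →
      ∀ W, BS G n W → Disjoint Q W → nbh G Q ⊆ W →
      (∀ u ∈ nbh G Q, ∀ v ∈ nbh G Q, (res G W).Reachable u v) →
      ((nbh G Q).Nonempty → ∃ u ∈ nbh G Q, G.Adj u r) → BS G n (W ∪ Q) := by
  intro d
  induction d with
  | zero => exact fun _ Q r hQ => absurd hQ.pos (Nat.lt_irrefl 0)
  | succ d ih =>
    intro hdm Q r hQ h2 W hW hQW hNW hreach hadj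
    obtain ⟨C, hCQ, hrC, hCn, hCc, hrest⟩ := cluster h3 (d + 1) 2 Q r hQ h2
    have hCW : Disjoint C W := hQW.mono_left hCQ
    have hnb : ∀ u ∈ W, (∃ w ∈ C, G.Adj u w) → u ∈ nbh G Q := by
      rintro u hu ⟨w, hw, huw⟩
      exact ⟨fun h => Set.disjoint_left.1 hQW h hu, w, hCQ hw, huw⟩
    have hWC : BS G n (W ∪ C) := by
      refine BS.step hW hCW (hCn.trans (hn _ hdm)) ?_ ?_
      · refine (Set.ncard_le_ncard ?_ (Set.toFinite _)).trans h2
        exact fun u hu => hnb u hu.1 hu.2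
      · exact fun u hu v hv h4 h5 => hreach u (hnb u hu h4) v (hnb v hv h5)
    -- everything seen by the rest is joined
    have hjoin : ∀ u ∈ nbh G Q ∪ C, (res G (W ∪ C)).Reachable r u := by
      rintro u (hu | hu)
      · obtain ⟨u₀, hu₀, h4⟩ := hadj ⟨u, hu⟩
        have h5 : (res G (W ∪ C)).Adj r u₀ := ⟨h4.symm, Or.inr hrC, Or.inl (hNW hu₀)⟩
        exact h5.reachable.trans ((hreach u₀ hu₀ u hu).mono (res_mono Set.subset_union_left))
      · exact (hCc r hrC u hu).mono (res_mono Set.subset_union_right)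
    let 𝒞 : Finset (Set V) := univ.filter fun B => ∃ k ∈ Q \ C, B = cmp G (Q \ C) k
    have key : ∀ 𝒮 : Finset (Set V), 𝒮 ⊆ 𝒞 → BS G n ((W ∪ C) ∪ ⋃ B ∈ 𝒮, B) := by
      intro 𝒮
      induction 𝒮 using Finset.induction_on with
      | empty =>
        intro _
        simpa using hWC
      | insert B 𝒮 hB ih' =>
        intro hsub
        have hS := ih' ((subset_insert _ _).trans hsub)
        obtain ⟨-, k, hk, hBk⟩ := mem_filter.1 (hsub (mem_insert_self _ _))
        obtain ⟨h4, r', hr', ⟨c, hc, hcr⟩, hroot⟩ := hrest k hk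
        rw [← hBk] at h4 hr' hroot
        have hBQ : B ⊆ Q \ C := by
          rw [hBk]
          exact comp_subset hk
        have hnB : nbh G B ⊆ nbh G Q ∪ C := by
          rw [hBk]
          exact nbh_comp hk
        have hW' : nbh G B ⊆ (W ∪ C) ∪ ⋃ B ∈ 𝒮, B := by
          intro u hu
          rcases hnB hu with h5 | h5
          · exact Or.inl (Or.inl (hNW h5))
          · exact Or.inl (Or.inr h5)
        have h6 := ih (by omega) B r' hroot h4 _ hS (by
          rw [Set.disjoint_left]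
          rintro x hx ((hx' | hx') | hx')
          · exact Set.disjoint_left.1 hQW (hBQ hx).1 hx'
          · exact (hBQ hx).2 hx'
          · obtain ⟨B', hB', hxB'⟩ := Set.mem_iUnion₂.1 hx'
            obtain ⟨-, k', hk', hBk'⟩ := mem_filter.1 (hsub (mem_insert_of_mem hB'))
            have hne : B ≠ B' := fun h => hB (h ▸ hB')
            rw [hBk, hBk'] at hne
            rw [hBk] at hx
            rw [hBk'] at hxB'
            exact Set.disjoint_left.1 (cmp_disj hne) hx hxB') hW'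
          (fun u hu v hv => ((hjoin u (hnB hu)).symm.trans (hjoin v (hnB hv))).mono
            (res_mono Set.subset_union_left))
          (fun _ => ⟨c, ⟨fun h => (hBQ h).2 hc, r', hr', hcr⟩, hcr⟩)
        rw [set_biUnion_insert, Set.union_comm B, ← Set.union_assoc]
        exact h6
    have hfin := key 𝒞 (Subset.refl _)
    have e : (W ∪ C) ∪ (⋃ B ∈ 𝒞, B) = W ∪ Q := by
      ext x
      constructor
      · rintro ((hx | hx) | hx)
        · exact Or.inl hx
        · exact Or.inr (hCQ hx)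
        · obtain ⟨B, hB, hxB⟩ := Set.mem_iUnion₂.1 hx
          obtain ⟨-, k, hk, hBk⟩ := mem_filter.1 hB
          rw [hBk] at hxB
          exact Or.inr (comp_subset hk hxB).1
      · rintro (hx | hx)
        · exact Or.inl (Or.inl hx)
        · by_cases hxC : x ∈ C
          · exact Or.inl (Or.inr hxC)
          · exact Or.inr (Set.mem_iUnion₂.2 ⟨cmp G (Q \ C) x,
              mem_filter.2 ⟨mem_univ _, x, ⟨hx, hxC⟩, rfl⟩, mem_comp_self _ _⟩)
    rw [← e]
    exact hfin

/-- Graphs in which all paths have at most `m` vertices. -/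
theorem build_all [Fintype V] (h3 : ¬HasK3Minor 3 G) {n m : ℕ} (hn : ∀ d ≤ m, cl d 2 ≤ n)
    (hm : ∀ (u v : V) (p : G.Walk u v), p.IsPath → p.length < m) : BS G n Set.univ := by
  let 𝒞 : Finset (Set V) := univ.filter fun B => ∃ k, B = cmp G Set.univ k
  have hnb : ∀ k, nbh G (cmp G Set.univ k) = ∅ := by
    intro k
    rw [Set.eq_empty_iff_forall_notMem]
    rintro u ⟨hu, v, hv, huv⟩
    have h1 := comp_adj (G := G) (Set.mem_univ v) (Set.mem_univ u) huv.symm
    exact hu (by rw [← comp_congr hv, ← h1]; exact mem_comp_self _ _)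
  have key : ∀ 𝒮 : Finset (Set V), 𝒮 ⊆ 𝒞 → BS G n (⋃ B ∈ 𝒮, B) := by
    intro 𝒮
    induction 𝒮 using Finset.induction_on with
    | empty =>
      intro _
      simpa using BS.empty
    | insert B 𝒮 hB ih' =>
      intro hsub
      have hS := ih' ((subset_insert _ _).trans hsub)
      obtain ⟨-, k, hBk⟩ := mem_filter.1 (hsub (mem_insert_self _ _))
      have hnB : nbh G B = ∅ := by
        rw [hBk]
        exact hnb k
      have hroot : Rooted G B k m := by
        rw [hBk]
        refine ⟨conn_component _ _, mem_comp_self _ _, fun v p hp => ?_⟩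
        have h1 := hm k v (p.mapLe (res_le G _)) (SimpleGraph.Walk.IsPath.mapLe _ hp)
        rwa [SimpleGraph.Walk.length_mapLe] at h1
      have h6 := build h3 hn m le_rfl B k hroot (by rw [hnB, Set.ncard_empty]; omega) _ hS (by
        rw [Set.disjoint_left]
        intro x hx hx'
        obtain ⟨B', hB', hxB'⟩ := Set.mem_iUnion₂.1 hx'
        obtain ⟨-, k', hBk'⟩ := mem_filter.1 (hsub (mem_insert_of_mem hB'))
        have hne : B ≠ B' := fun h => hB (h ▸ hB')
        rw [hBk, hBk'] at hne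
        rw [hBk] at hx
        rw [hBk'] at hxB'
        exact Set.disjoint_left.1 (cmp_disj hne) hx hxB') (by rw [hnB]; exact Set.empty_subset _)
        (by rw [hnB]; exact fun u hu => absurd hu (Set.notMem_empty u))
        (by
          rw [hnB]
          rintro ⟨u, hu⟩
          exact absurd hu (Set.notMem_empty u))
      rw [set_biUnion_insert, Set.union_comm B]
      exact h6
  have hfin := key 𝒞 (Subset.refl _)
  have e : (⋃ B ∈ 𝒞, B) = Set.univ := by
    ext x
    simp only [Set.mem_univ, iff_true]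
    exact Set.mem_iUnion₂.2 ⟨cmp G Set.univ x, mem_filter.2 ⟨mem_univ _, x, rfl⟩,
      mem_comp_self _ _⟩
  rw [← e]
  exact hfin

/-- From sets to an enumeration of the pieces. -/
theorem BS.enum {n : ℕ} {W : Set V} (h : BS G n W) : ∃ (piece : V → ℕ) (k : ℕ),
    (∀ v, v ∈ W ↔ piece v < k) ∧ ∀ i < k, {v | piece v = i}.ncard ≤ n ∧
      (back G piece i).ncard ≤ 2 ∧ ∀ u ∈ back G piece i, ∀ v ∈ back G piece i,
        (res G {w | piece w < i}).Reachable u v := by
  induction h with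
  | empty => exact ⟨fun _ => 0, 0, fun v => by simp, fun i hi => absurd hi (Nat.not_lt_zero i)⟩
  | @step W C _ hd hc h2 hr ih =>
    obtain ⟨piece, k, h4, h5⟩ := ih
    let pc : V → ℕ := fun v => if v ∈ W then piece v else if v ∈ C then k else k + 1
    have hW : ∀ v, v ∈ W → pc v = piece v := fun v hv => if_pos hv
    have hC : ∀ v, v ∈ C → pc v = k := by
      intro v hv
      have h6 : v ∉ W := fun h => Set.disjoint_left.1 hd hv h
      show (if v ∈ W then piece v else if v ∈ C then k else k + 1) = k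
      rw [if_neg h6, if_pos hv]
    have hN : ∀ v, v ∉ W → v ∉ C → pc v = k + 1 := by
      intro v h6 h7
      show (if v ∈ W then piece v else if v ∈ C then k else k + 1) = k + 1
      rw [if_neg h6, if_neg h7]
    have hlt : ∀ v i, i < k → (pc v = i ↔ piece v = i) := by
      intro v i hi
      by_cases h6 : v ∈ W
      · rw [hW v h6]
      · have h7 : ¬ piece v < k := fun h => h6 ((h4 v).2 h)
        by_cases h8 : v ∈ C
        · rw [hC v h8]
          omega
        · rw [hN v h6 h8]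
          omega
    have hlt' : ∀ v i, i ≤ k → (pc v < i ↔ piece v < i) := by
      intro v i hi
      by_cases h6 : v ∈ W
      · rw [hW v h6]
      · have h7 : ¬ piece v < k := fun h => h6 ((h4 v).2 h)
        by_cases h8 : v ∈ C
        · rw [hC v h8]
          omega
        · rw [hN v h6 h8]
          omega
    have hkC : ∀ v, pc v = k ↔ v ∈ C := by
      intro v
      constructor
      · intro h6
        by_contra h7
        by_cases h8 : v ∈ W
        · have h9 := (h4 v).1 h8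
          rw [hW v h8] at h6
          omega
        · rw [hN v h8 h7] at h6
          omega
      · exact hC v
    have hkW : ∀ v, pc v < k ↔ v ∈ W := fun v => (hlt' v k le_rfl).trans (h4 v).symm
    refine ⟨pc, k + 1, fun v => ?_, fun i hi => ?_⟩
    · constructor
      · rintro (hv | hv)
        · have := (hkW v).2 hv
          omega
        · have := hC v hv
          omega
      · intro hv
        rcases Nat.lt_succ_iff_lt_or_eq.1 hv with h6 | h6
        · exact Or.inl ((hkW v).1 h6)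
        · exact Or.inr ((hkC v).1 h6)
    · rcases Nat.lt_succ_iff_lt_or_eq.1 hi with h6 | h6
      · have e1 : {v | pc v = i} = {v | piece v = i} := by
          ext v
          exact hlt v i h6
        have e2 : back G pc i = back G piece i := by
          ext u
          constructor
          · rintro ⟨h7, v, h8, h9⟩
            exact ⟨(hlt' u i h6.le).1 h7, v, (hlt v i h6).1 h8, h9⟩
          · rintro ⟨h7, v, h8, h9⟩
            exact ⟨(hlt' u i h6.le).2 h7, v, (hlt v i h6).2 h8, h9⟩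
        have e3 : {w | pc w < i} = {w | piece w < i} := by
          ext w
          exact hlt' w i h6.le
        rw [e1, e2, e3]
        exact h5 i h6
      · subst h6
        have e1 : {v | pc v = i} = C := by
          ext v
          exact hkC v
        have e2 : back G pc i = {u | u ∈ W ∧ ∃ v ∈ C, G.Adj u v} := by
          ext u
          constructor
          · rintro ⟨h7, v, h8, h9⟩
            exact ⟨(hkW u).1 h7, v, (hkC v).1 h8, h9⟩
          · rintro ⟨h7, v, h8, h9⟩
            exact ⟨(hkW u).2 h7, v, (hkC v).2 h8, h9⟩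
        have e3 : {w | pc w < i} = W := by
          ext w
          exact hkW w
        rw [e1, e2, e3]
        exact ⟨hc, h2, fun u hu v hv => hr u hu.1 v hv.1 hu.2 hv.2⟩

end Hub

end BDP
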