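import Pool.Agent.Work.MP_0890ba_co.BD.PieceT
import Pool.Agent.Work.MP_0890ba_co.BD.Bad
import Pool.Agent.Work.MP_0890ba_co.BD.Gen2

/-!
# The second phase: the local lemma outside the precoloured vertices
-/

set_option linter.unusedSectionVars false

namespace BDP

namespace Hub

open Finset Classical Pool.Agent.Work.MP_0890ba_co

variable {V : Type} {G : SimpleGraph V}

/-- Counting the tickets of a vertex colour by colour. -/
lemma sum_tickets {Ω : Type} [Fintype Ω] {S : Ω → Finset ℤ} {A : Finset ℤ} (h : ∀ ω, S ω ⊆ A) :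
    ∑ ω, (S ω).card = ∑ c ∈ A, (univ.filter fun ω => c ∈ S ω).card := by
  have h1 : ∀ ω, (S ω).card = ∑ c ∈ A, if c ∈ S ω then 1 else 0 := by
    intro ω
    rw [← sum_filter, sum_const, smul_eq_mul, mul_one, filter_mem_eq_inter,
      inter_eq_right.2 (h ω)]
  rw [sum_congr rfl fun ω _ => h1 ω, sum_comm]
  apply sum_congr rfl
  intro c _
  rw [← sum_filter, sum_const, smul_eq_mul, mul_one]

/-- The colours of the list with the property `p` which no neighbour in `H` has. -/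
noncomputable def av (G : SimpleGraph V) (H : Set V) (s L : V → Finset ℤ) (p : ℤ → Prop) (v : V) :
    Finset ℤ := (L v).filter fun c => p c ∧ ∀ u ∈ H, G.Adj u v → c ∉ s u

lemma mem_av {H : Set V} {s L : V → Finset ℤ} {p : ℤ → Prop} {v : V} {c : ℤ} :
    c ∈ av G H s L p v ↔ c ∈ L v ∧ p c ∧ ∀ u ∈ H, G.Adj u v → c ∉ s u := by
  unfold av
  simp only [mem_filter]

/-- Tickets for a nice set. -/
lemma nice_tickets [Fintype V] (g5 : ¬HasK5Minor G) (g3 : ¬HasK3Minor 3 G) {φ : V → Fin 4}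
    (hφ : ∀ u v, G.Adj u v → φ u ≠ φ v) {H K : Set V} (hHK : Disjoint H K) (hK : Nice G H K)
    {n : ℕ} (hn' : K.ncard ≤ n) {s L : V → Finset ℤ} {p : ℤ → Prop} [DecidablePred p] {B Q : ℕ}
    (hBQ : B ≤ Q)
    (hL : ∀ v ∈ K, 3 * B + 2 * Q ≤ ((L v).filter p).card)
    (hs : ∀ u ∈ H, ((s u).filter p).card ≤ Q) :
    ∃ S : Fin (nT n) → V → Finset ℤ, (∀ ω, SetCol G K (av G H s L p) (S ω)) ∧
      ∀ v ∈ K, gT n * B ≤ ∑ ω, (S ω v).card := by
  have hZm : ∀ u, u ∈ (seen G H K).toFinset ↔ u ∈ seen G H K := fun u => Set.mem_toFinset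
  have hZ : (seen G H K).toFinset.card ≤ 2 := by
    rw [← Set.ncard_eq_toFinset_card']
    exact hK.1
  refine piece_tickets g5 g3 hZ ?_ ?_ hφ hn' ?_
  · intro v hv h
    exact Set.disjoint_left.1 hHK (seen_sub H K ((hZm v).1 h)) hv
  · intro u hu v hv
    exact hK.2 u ((hZm u).1 hu) v ((hZm v).1 hv)
  · intro v hv
    let Zv := (seen G H K).toFinset.filter fun u => G.Adj u v
    have h1 : (L v).filter p \ Zv.biUnion (fun u => (s u).filter p) ⊆ av G H s L p v := by
      intro c hc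
      rw [mem_sdiff, mem_filter, mem_biUnion] at hc
      rw [mem_av]
      refine ⟨hc.1.1, hc.1.2, fun u hu huv hcu => hc.2 ⟨u, ?_, ?_⟩⟩
      · rw [mem_filter]
        exact ⟨(hZm u).2 ⟨hu, v, hv, huv⟩, huv⟩
      · rw [mem_filter]
        exact ⟨hcu, hc.1.2⟩
    have h2 : (Zv.biUnion fun u => (s u).filter p).card ≤ Zv.card * Q := by
      refine card_biUnion_le.trans ?_
      rw [← smul_eq_mul, ← sum_const]
      apply sum_le_sum
      intro u hu
      exact hs u (seen_sub H K ((hZm u).1 (mem_filter.1 hu).1))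
    have h3 := le_card_sdiff (Zv.biUnion fun u => (s u).filter p) ((L v).filter p)
    have h4 := card_le_card h1
    have h5 : Zv.card ≤ 2 := (card_filter_le _ _).trans hZ
    have h6 : hn G (seen G H K).toFinset v = Zv.card := rfl
    have h7 := hL v hv
    rw [h6]
    have h8 : Zv.card * Q ≤ 2 * Q := Nat.mul_le_mul_right _ h5
    obtain ⟨d, rfl⟩ := Nat.exists_eq_add_of_le hBQ
    have h9 : Zv.card * d ≤ 2 * d := Nat.mul_le_mul_right _ h5
    have h10 : Zv.card * (B + d) = Zv.card * B + Zv.card * d := Nat.mul_add _ _ _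
    omega

/-- The second phase. -/
theorem phase2 [Fintype V] [DecidableEq V] (g5 : ¬HasK5Minor G) (g3 : ¬HasK3Minor 3 G)
    {φ : V → Fin 4} (hφ : ∀ u v, G.Adj u v → φ u ≠ φ v) {U H : Set V} (hHU : Disjoint H U)
    {D : ℕ} (hD : ∀ v, ((res G U).neighborSet v).ncard ≤ D) {A : Type} [Fintype A] [Nonempty A]
    {δ : ℝ} {S ρ : ℕ} {X : (V → A) → Set V} (hX : IsScheme (res G U) A Set.univ δ S ρ X)
    {m : ℕ} {jc : ℤ → Fin m} {W : Fin m → Set V} {Yb Yp : Set V} (hWU : ∀ j, W j ⊆ U)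
    (hWY : ∀ j, ∀ v ∈ U, v ∉ Yb → v ∈ W j)
    (hYp : ∀ K ⊆ U, Conn (res G U) K → K.ncard ≤ S → ¬Disjoint K Yb → K ⊆ Yp)
    (hnice : ∀ j, ∀ K ⊆ W j, K.Nonempty → Conn G K → K.ncard ≤ S → Nice G H K) {q β₂ : ℕ}
    (hβ : β₂ ≤ q) {L s : V → Finset ℤ} (hs1 : ∀ u ∈ H, (s u).card ≤ m * q)
    (hs2 : ∀ u ∈ H, ∀ j, ((s u).filter fun c => jc c = j).card ≤ q)
    (hL1 : ∀ v ∈ Yp, ∀ j, 3 * β₂ + 2 * q ≤ ((L v).filter fun c => jc c = j).card)
    (hL2 : ∀ v ∈ U, m * (3 * β₂ + 2 * q) ≤ (L v).card) {x q₀ : ℝ} (hx0 : 0 < x) (hx1 : x < 1)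
    (hq0 : 0 ≤ q₀)
    (hq : ∀ J : ℕ, 0 < J → Real.exp (-((1 - x) * ((1 - δ) * ((gT S * (β₂ * J) : ℕ) : ℝ) / nT S))) /
      x ^ (q * J) ≤ q₀)
    (h4 : 4 * q₀ * (D + 1 : ℝ) ^ (2 * (S + ρ)) ≤ 1) :
    ∃ T : V → Finset ℤ, (∀ v ∈ U, T v ⊆ L v ∧ (∀ c ∈ T v, v ∈ W (jc c)) ∧
        (T v).card = q * (univ.filter fun j => v ∈ W j).card ∧
        ∀ u ∈ H, G.Adj u v → Disjoint (T v) (s u)) ∧
      ∀ u ∈ U, ∀ v ∈ U, G.Adj u v → Disjoint (T u) (T v) := by
  have hle : res G U ≤ G := fun _ _ h => h.1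
  have : Nonempty (Fin (nT S)) := ⟨⟨0, nT_pos S⟩⟩
  -- the tickets in one share
  have e1 : ∀ (K : Set V) (j : Fin m), ∃ F : Fin (nT S) → V → Finset ℤ,
      (∀ ω, ∀ u ∈ K, ∀ v ∈ K, G.Adj u v → Disjoint (F ω u) (F ω v)) ∧
      (K ⊆ W j → K ⊆ Yp → K.Nonempty → Conn G K → K.ncard ≤ S →
        (∀ ω, ∀ v ∈ K, F ω v ⊆ av G H s L (fun c => jc c = j) v) ∧
          ∀ v ∈ K, gT S * β₂ ≤ ∑ ω, (F ω v).card) := by
    intro K j
    by_cases h : K ⊆ W j ∧ K ⊆ Yp ∧ K.Nonempty ∧ Conn G K ∧ K.ncard ≤ S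
    · obtain ⟨h1, h2, h3, h5, h6⟩ := h
      obtain ⟨F, hF1, hF2⟩ := nice_tickets g5 g3 hφ (hHU.mono_right (h1.trans (hWU j)))
        (hnice j K h1 h3 h5 h6) h6 (s := s) (L := L) (p := fun c => jc c = j) hβ
        (fun v hv => hL1 v (h2 hv) j) (fun u hu => hs2 u hu j)
      exact ⟨F, fun ω => (hF1 ω).2, fun _ _ _ _ _ => ⟨fun ω => (hF1 ω).1, hF2⟩⟩
    · exact ⟨fun _ _ => ∅, fun _ _ _ _ _ _ => disjoint_empty_left _,
        fun h1 h2 h3 h5 h6 => absurd ⟨h1, h2, h3, h5, h6⟩ h⟩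
  -- the tickets for the whole lists
  have e2 : ∀ (K : Set V), ∃ F : Fin (nT S) → V → Finset ℤ,
      (∀ ω, ∀ u ∈ K, ∀ v ∈ K, G.Adj u v → Disjoint (F ω u) (F ω v)) ∧
      ((∃ j, K ⊆ W j) → K.Nonempty → Conn G K → K.ncard ≤ S →
        (∀ ω, ∀ v ∈ K, F ω v ⊆ av G H s L (fun _ => True) v) ∧
          ∀ v ∈ K, gT S * (m * β₂) ≤ ∑ ω, (F ω v).card) := by
    intro K
    by_cases h : (∃ j, K ⊆ W j) ∧ K.Nonempty ∧ Conn G K ∧ K.ncard ≤ S
    · obtain ⟨⟨j, h1⟩, h3, h5, h6⟩ := h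
      obtain ⟨F, hF1, hF2⟩ := nice_tickets g5 g3 hφ (hHU.mono_right (h1.trans (hWU j)))
        (hnice j K h1 h3 h5 h6) h6 (s := s) (L := L) (p := fun _ => True)
        (Nat.mul_le_mul_left m hβ)
        (fun v hv => by
          rw [filter_true]
          have h7 := hL2 v (hWU j (h1 hv))
          have h8 : m * (3 * β₂ + 2 * q) = 3 * (m * β₂) + 2 * (m * q) := by ring
          omega)
        (fun u hu => by
          rw [filter_true]
          exact hs1 u hu)
      exact ⟨F, fun ω => (hF1 ω).2, fun _ _ _ _ => ⟨fun ω => (hF1 ω).1, hF2⟩⟩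
    · exact ⟨fun _ _ => ∅, fun _ _ _ _ _ _ => disjoint_empty_left _,
        fun h1 h3 h5 h6 => absurd ⟨h1, h3, h5, h6⟩ h⟩
  choose F hF1 hF2 using e1
  choose F' hF1' hF2' using e2
  let Φ : ℤ → Set V → V → Finset (Fin (nT S)) := fun c K v =>
    if K ⊆ Yp then univ.filter fun ω => c ∈ F K (jc c) ω v else univ.filter fun ω => c ∈ F' K ω v
  have hΦ : ∀ c K, Conn (res G U) K → K.ncard ≤ S → ∀ u ∈ K, ∀ v ∈ K, (res G U).Adj u v →
      Disjoint (Φ c K u) (Φ c K v) := by
    intro c K _ _ u hu v hv huv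
    rw [Finset.disjoint_left]
    intro ω h1 h2
    dsimp only [Φ] at h1 h2
    by_cases hK : K ⊆ Yp
    · rw [if_pos hK, mem_filter] at h1 h2
      exact Finset.disjoint_left.1 (hF1 K (jc c) ω u hu v hv huv.1) h1.2 h2.2
    · rw [if_neg hK, mem_filter] at h1 h2
      exact Finset.disjoint_left.1 (hF1' K ω u hu v hv huv.1) h1.2 h2.2
  let J : V → ℕ := fun v => (univ.filter fun j => v ∈ W j).card
  let L' : V → Finset ℤ := fun v => if v ∈ U then av G H s L (fun _ => True) v else ∅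
  have hL' : ∀ v ∈ U, L' v = av G H s L (fun _ => True) v := fun v hv => if_pos hv
  have hav : ∀ v (j : Fin m), (av G H s L (fun _ => True) v).filter (fun c => jc c = j) =
      av G H s L (fun c => jc c = j) v := by
    intro v j
    ext c
    simp only [mem_filter, mem_av]
    tauto
  -- the number of tickets
  have hN : ∀ v (α : V → A), v ∉ X α → (if v ∈ U then gT S * (β₂ * J v) else 0) ≤
      ∑ c ∈ (L' v).filter (fun c => v ∈ W (jc c)),
        (Φ c (Col.cmp (res G U) (W (jc c) \ X α) v) v).card := by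
    intro v α hα
    by_cases hv : v ∈ U
    swap
    · rw [if_neg hv]
      exact Nat.zero_le _
    rw [if_pos hv, hL' v hv]
    have hK0s : Col.cmp (res G U) (U \ X α) v ⊆ U \ X α := Col.cmp_subset ⟨hv, hα⟩
    have hfr : ∀ K : Set V, Conn (res G U) K → (∀ w ∈ K, w ∉ X α) → K.ncard ≤ S := by
      intro K hK hKX
      exact hX.frag α K hK (Set.subset_univ _) (Set.disjoint_left.2 hKX)
    have hK0c : Conn (res G U) (Col.cmp (res G U) (U \ X α) v) := Col.conn_cmp _ _ _
    have hK0S := hfr _ hK0c fun w hw => (hK0s hw).2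
    have hKjs : ∀ j, v ∈ W j → Col.cmp (res G U) (W j \ X α) v ⊆ W j \ X α :=
      fun j hj => Col.cmp_subset ⟨hj, hα⟩
    have hKjc : ∀ j, Conn (res G U) (Col.cmp (res G U) (W j \ X α) v) :=
      fun j => Col.conn_cmp _ _ _
    have hKjS : ∀ j, v ∈ W j → (Col.cmp (res G U) (W j \ X α) v).ncard ≤ S :=
      fun j hj => hfr _ (hKjc j) fun w hw => (hKjs j hj hw).2
    have hKj0 : ∀ j, Col.cmp (res G U) (W j \ X α) v ⊆ Col.cmp (res G U) (U \ X α) v := by
      intro j w hw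
      exact SimpleGraph.Reachable.mono
        (Col.res_mono (Set.sdiff_subset_sdiff_left (hWU j))) hw
    by_cases hc : Col.cmp (res G U) (U \ X α) v ⊆ Yp
    · -- share by share
      have key : ∀ j ∈ univ.filter (fun j => v ∈ W j), gT S * β₂ ≤
          ∑ c ∈ ((av G H s L (fun _ => True) v).filter fun c => v ∈ W (jc c)) with jc c = j,
            (Φ c (Col.cmp (res G U) (W (jc c) \ X α) v) v).card := by
        intro j hj
        have hj' := (mem_filter.1 hj).2
        have h1 : (((av G H s L (fun _ => True) v).filter fun c => v ∈ W (jc c)).filter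
            fun c => jc c = j) = av G H s L (fun c => jc c = j) v := by
          rw [← hav, filter_filter]
          apply filter_congr
          intro c _
          constructor
          · exact fun h => h.2
          · rintro rfl
            exact ⟨hj', rfl⟩
        have h2 := hF2 (Col.cmp (res G U) (W j \ X α) v) j
          ((hKjs j hj').trans Set.sdiff_subset) ((hKj0 j).trans hc)
          ⟨v, Col.self_mem_cmp _ _ _⟩ (conn_anti hle (hKjc j)) (hKjS j hj')
        rw [h1]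
        refine (h2.2 v (Col.self_mem_cmp _ _ _)).trans (le_of_eq ?_)
        rw [sum_tickets (fun ω => h2.1 ω v (Col.self_mem_cmp _ _ _))]
        apply sum_congr rfl
        intro c hcc
        have hcj : jc c = j := (mem_av.1 hcc).2.1
        subst hcj
        dsimp only [Φ]
        rw [if_pos ((hKj0 _).trans hc)]
      have h3 := sum_le_sum key
      rw [sum_const, smul_eq_mul, sum_fiberwise_of_maps_to] at h3
      · refine le_trans (le_of_eq ?_) h3
        show gT S * (β₂ * J v) = J v * (gT S * β₂)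
        ring
      · intro c hcc
        rw [mem_filter] at hcc ⊢
        exact ⟨mem_univ _, hcc.2⟩
    · -- the whole lists
      have hd : Disjoint (Col.cmp (res G U) (U \ X α) v) Yb := by
        by_contra h
        exact hc (hYp _ (hK0s.trans Set.sdiff_subset) hK0c hK0S h)
      have hW : ∀ j, ∀ w ∈ Col.cmp (res G U) (U \ X α) v, w ∈ W j := fun j w hw =>
        hWY j w (hK0s hw).1 (Set.disjoint_left.1 hd hw)
      have hvW : ∀ j, v ∈ W j := fun j => hW j v (Col.self_mem_cmp _ _ _)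
      have heq : ∀ j, Col.cmp (res G U) (W j \ X α) v = Col.cmp (res G U) (U \ X α) v := by
        intro j
        refine Set.Subset.antisymm (hKj0 j) ?_
        exact hK0c.subset_cmp (T := W j \ X α) (fun w hw => ⟨hW j w hw, (hK0s hw).2⟩)
          (Col.self_mem_cmp _ _ _)
      have hJ : J v = m := by
        show (univ.filter fun j => v ∈ W j).card = m
        rw [filter_true_of_mem fun j _ => hvW j, card_univ, Fintype.card_fin]
      have h2 := hF2' (Col.cmp (res G U) (U \ X α) v) ⟨jc 0, fun w hw => hW _ w hw⟩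
        ⟨v, Col.self_mem_cmp _ _ _⟩ (conn_anti hle hK0c) hK0S
      rw [hJ, filter_true_of_mem fun c _ => hvW (jc c), mul_comm β₂ m]
      refine (h2.2 v (Col.self_mem_cmp _ _ _)).trans (le_of_eq ?_)
      rw [sum_tickets (fun ω => h2.1 ω v (Col.self_mem_cmp _ _ _))]
      apply sum_congr rfl
      intro c _
      dsimp only [Φ]
      rw [heq, if_neg hc]
  -- the probability
  have hP : ∀ v, (if v ∈ U then q * J v else 0) ≠ 0 → Real.exp (-((1 - x) * ((1 - δ) *
      ((if v ∈ U then gT S * (β₂ * J v) else 0 : ℕ) : ℝ) / Fintype.card (Fin (nT S))))) /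
        x ^ (if v ∈ U then q * J v else 0) ≤ q₀ := by
    intro v hb
    by_cases hv : v ∈ U
    swap
    · exact absurd (if_neg hv) hb
    have hJ : 0 < J v := by
      rw [Nat.pos_iff_ne_zero]
      intro h
      apply hb
      show (if v ∈ U then q * J v else 0) = 0
      rw [h, mul_zero, ite_self]
    have h1 := hq (J v) hJ
    rw [if_pos hv, if_pos hv, Fintype.card_fin]
    exact h1
  obtain ⟨T, hT1, hT2⟩ := Far.choosable_gen2 (G := res G U) hD hX (T := fun c => W (jc c)) hΦ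
    (L := L') (N := fun v => if v ∈ U then gT S * (β₂ * J v) else 0) hN
    (b := fun v => if v ∈ U then q * J v else 0) hx0 hx1 hq0 hP h4
  · refine ⟨T, ?_, ?_⟩
    · intro v hv
      have h1 := (hT1 v).1
      rw [hL' v hv] at h1
      have h2 : ∀ c ∈ T v, c ∈ L v ∧ (∀ u ∈ H, G.Adj u v → c ∉ s u) ∧ v ∈ W (jc c) := by
        intro c hc
        have h3 := mem_filter.1 (h1 hc)
        have h5 := mem_av.1 h3.1
        exact ⟨h5.1, h5.2.2, h3.2⟩
      refine ⟨fun c hc => (h2 c hc).1, fun c hc => (h2 c hc).2.2, ?_, ?_⟩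
      · rw [(hT1 v).2, if_pos hv]
      · intro u hu huv
        rw [Finset.disjoint_left]
        exact fun c hc => (h2 c hc).2.1 u hu huv
    · intro u hu v hv huv
      exact hT2 u v ⟨huv, hu, hv⟩

end Hub

end BDP
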