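import Pool.Agent.Work.MP_0890ba_co.BD.Uni

/-!
# Tickets for a piece which sees at most two vertices
-/

set_option linter.unusedSectionVars false

namespace BDP

namespace Hub

open Finset Classical Pool.Agent.Work.MP_0890ba_co

variable {V : Type} {G : SimpleGraph V}

/-- The graph with the virtual edge has no Kuratowski minor. -/
lemma minor_clq (h5 : ¬HasK5Minor G) (h3 : ¬HasK3Minor 3 G) {K R : Set V} {Z : Finset V}
    (hZ : Z.card ≤ 2) (hRK : Disjoint R K) (hZR : ∀ u ∈ Z, u ∈ R)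
    (hr : ∀ u ∈ Z, ∀ v ∈ Z, (res G R).Reachable u v) :
    ¬HasK5Minor (clq G K Z) ∧ ¬HasK3Minor 3 (clq G K Z) := by
  by_cases h2 : Z.card = 2
  · obtain ⟨p, q, hpq, rfl⟩ := card_eq_two.1 h2
    have hp : p ∈ ({p, q} : Finset V) := mem_insert_self _ _
    have hq : q ∈ ({p, q} : Finset V) := mem_insert_of_mem (mem_singleton_self _)
    rw [coe_insert, coe_singleton]
    exact ⟨no_five hpq hRK (hZR p hp) (hr p hp q hq) h5,
      no_three hpq hRK (hZR p hp) (hr p hp q hq) h3⟩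
  · have h1 : Z.card ≤ 1 := by omega
    have hle : clq G K Z ≤ G := by
      rintro x y (h | h)
      · exact h.1
      · exact absurd (card_le_one.1 h1 x h.2.1 y h.2.2) h.1
    exact ⟨fun h => h5 (hasK5Minor_mono hle h), fun h => h3 (Far.hasK3Minor_mono hle h)⟩

/-- The number of tickets. -/
def nT (n : ℕ) : ℕ := 19 * (785 * 3 ^ n)

/-- The number of tickets a vertex gets, for each `β`. -/
def gT (n : ℕ) : ℕ := 19 * (786 * 3 ^ n)

lemma nT_pos (n : ℕ) : 0 < nT n := by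
  unfold nT
  positivity

lemma gT_nT (n : ℕ) : 785 * gT n = 786 * nT n := by
  unfold gT nT
  ring

/-- Tickets for a set `K` of at most `n` vertices and at most two precoloured vertices which are
joined outside `K`. -/
theorem piece_tickets [Fintype V] (g5 : ¬HasK5Minor G) (g3 : ¬HasK3Minor 3 G) {Z : Finset V}
    (hZ : Z.card ≤ 2) {K : Set V} (hKZ : ∀ v ∈ K, v ∉ Z)
    (hr : ∀ u ∈ Z, ∀ v ∈ Z, (res G Kᶜ).Reachable u v) {φ : V → Fin 4}
    (hφ : ∀ u v, G.Adj u v → φ u ≠ φ v) {n : ℕ} (hn' : K.ncard ≤ n) {A : V → Finset ℤ} {β : ℕ}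
    (hA : ∀ v ∈ K, 5 * β ≤ (A v).card + hn G Z v * β) :
    ∃ S : Fin (nT n) → V → Finset ℤ, (∀ ω, SetCol G K A (S ω)) ∧
      ∀ v ∈ K, gT n * β ≤ ∑ ω, (S ω v).card := by
  obtain ⟨h5, h3⟩ := minor_clq g5 g3 (K := K) (R := Kᶜ) hZ
    (by
      rw [Set.disjoint_left]
      exact fun x hx hx' => hx hx')
    (fun u hu h => hKZ u h hu) hr
  have hadj : ∀ u v, v ∈ K → u ∈ K ∨ u ∈ Z → ((clq G K Z).Adj u v ↔ G.Adj u v) := by
    intro u v hv hu
    constructor
    · rintro (h | h)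
      · exact h.1
      · exact absurd h.2.2 (hKZ v hv)
    · exact fun h => Or.inl ⟨h, hu, Or.inl hv⟩
  have hhn : ∀ v ∈ K, hn (clq G K Z) Z v = hn G Z v := by
    intro v hv
    unfold hn
    congr 1
    exact filter_congr fun u hu => hadj u v hv (Or.inr hu)
  obtain ⟨S, hS, hsum⟩ := uniform h5 h3 (Z := Z) (fun u hu v hv huv => Or.inr ⟨huv, hu, hv⟩) hZ
    (K := K) hKZ (φ := φ)
    (fun u v huv hu hv => by
      rcases huv with h | h
      · exact hφ u v h.1
      · exact absurd h.2.1 hu)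
    (A := A) (β := β) (fun v hv => by rw [hhn v hv]; exact hA v hv) hn'
  refine ⟨S, fun ω => ⟨(hS ω).1, fun u hu v hv huv => ?_⟩, hsum⟩
  exact (hS ω).2 u hu v hv ((hadj u v hv (Or.inl hu)).2 huv)

end Hub

end BDP
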