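import Pool.Agent.Work.MP_0890ba_co.BD.Ord2
import Pool.Agent.Work.MP_0890ba_co.BD.PieceT
import Pool.Agent.Work.MP_0890ba_co.BD.Main

/-!
# The random process with nested levels: definitions

Levels are `k < J`; level `k` has the graph `L k`, the dropped vertices `D k` and a local scheme
`X k`. Every colour has independent seeds on every level. On level `k` a component of
`L k` minus `X k` is decided (then it is coloured by a law which depends on the sets of its
adversaries) or undecided. A colour is used on level `k` in a component only if the whole component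
is undecided on all levels above `k`.
-/

set_option linter.unusedSectionVars false

namespace BDP

namespace Proc

open Finset Classical Hub

/-- The data of the process. -/
structure Data (V Z : Type) where
  /-- the graph -/
  G : SimpleGraph V
  /-- the order -/
  e : V → ℕ
  /-- the number of levels -/
  J : ℕ
  /-- the graphs of the levels, also for `k = J` -/
  L : ℕ → SimpleGraph V
  /-- the parameter of the alphabet of the scheme -/
  rr : ℕ → ℕ
  /-- the size of the components of a level -/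
  n : ℕ → ℕ
  /-- the locality radius of the scheme -/
  ρ : ℕ → ℕ
  /-- the weight of a level -/
  w : ℕ → ℕ
  /-- the sum of the weights up to a level -/
  W : ℕ → ℕ
  /-- the schemes -/
  X : (k : ℕ) → (V → Alph (rr k)) → Set V
  /-- the lists of colours -/
  l : V → Finset Z
  /-- the quotas of the levels -/
  b : ℕ → ℕ
  /-- the laws -/
  law : (k : ℕ) → Set V → Finset V → (V → Finset Z) → Fin (nT (n k)) → V → Finset Z

variable {V Z : Type} [Fintype V] [Nonempty V] [Fintype Z]

namespace Data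

variable (P : Data V Z)

/-- The seeds for the choice of the law: a coin and the index of a colouring. -/
abbrev B (k : ℕ) : Type := Fin (P.W k) × Fin (nT (P.n k))

/-- The seeds of a colour at a vertex on level `k`. -/
abbrev Sd (k : ℕ) : Type := Alph (P.rr k) × P.B k

/-- The index set of the variables: level and vertex. -/
abbrev I : Type := Fin P.J × V

/-- All seeds. -/
abbrev Om : Type := (i : P.I) → Z → P.Sd i.1

/-- The seeds of the colour `c` on level `k`. -/
def sd (x : P.Om) (c : Z) (k : Fin P.J) : V → P.Sd k := fun v => x (k, v) c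

/-- The coins which mean: decided. -/
def dec (k : ℕ) : Finset (P.B k) := univ.filter fun β => (β.1 : ℕ) < P.w k

/-- The vertices which are dropped on level `k`. -/
def D (k : ℕ) : Set V :=
  {w | ∃ z, P.e z < P.e w ∧ P.G.Adj z w ∧ ¬(P.L k).Adj z w ∧ (P.L (k + 1)).Adj z w}

/-- The adversaries of `K` on level `k`. -/
noncomputable def adv (k : ℕ) (K : Set V) : Finset V :=
  univ.filter fun z => ∃ w ∈ K, P.e z < P.e w ∧ P.G.Adj z w ∧ ¬(P.L k).Adj z w

/-- The vertex `v` is undecided on level `k` for seeds `η` of this level. -/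
def Und (k : ℕ) (η : V → P.Sd k) (v : V) : Prop :=
  Far.Hit (P.L k) (P.X k) (fun _ _ => (P.dec k)ᶜ) Set.univ η v

/-- The vertices which are undecided for the colour `c` on all levels `i` with `k < i < m`. -/
def Ur (x : P.Om) (c : Z) (k m : ℕ) : Set V :=
  {v | ∀ i : Fin P.J, k < (i : ℕ) → (i : ℕ) < m → P.Und i (P.sd x c i) v}

/-- The lists for the cluster `K` in the component `C` on level `k`, where `S` are the sets of the
earlier vertices. -/
noncomputable def lists (x : P.Om) (S : V → ℕ → Finset Z) (k : ℕ) (C K : Set V) (v : V) :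
    Finset Z :=
  if v ∈ K then ((P.l v).filter fun c => C ⊆ P.Ur x c k P.J) \
    ((P.adv k K).filter fun z => P.G.Adj z v).biUnion fun z => (range P.J).biUnion (S z)
  else ∅

/-- The cluster of `v` in the component `C`. -/
def clus (k : ℕ) (C : Set V) (v : V) : Set V := cmp (P.L k) (C \ P.D k) v

/-- The seeds for which `v` gets the colour `c` on level `k`, if its component is `C`. -/
noncomputable def tic (x : P.Om) (S : V → ℕ → Finset Z) (k : ℕ) (c : Z) (C : Set V) (v : V) :
    Finset (P.B k) :=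
  if v ∉ P.D k ∧ C ⊆ P.Ur x c k P.J then
    (P.dec k).filter fun β => c ∈ P.law k (P.clus k C v) (P.adv k (P.clus k C v))
      (P.lists x S k C (P.clus k C v)) β.2 v
  else ∅

/-- The colours which `v` gets on level `k`. -/
noncomputable def tick (x : P.Om) (S : V → ℕ → Finset Z) (k : ℕ) (v : V) : Finset Z :=
  if h : k < P.J then
    (P.l v).filter fun c =>
      Far.Hit (P.L k) (P.X k) (P.tic x S k c) Set.univ (P.sd x c ⟨k, h⟩) v
  else ∅

/-- A subset with at most `m` elements, as large as possible. -/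
noncomputable def cut (m : ℕ) (T : Finset Z) : Finset Z :=
  if h : m ≤ T.card then (exists_subset_card_eq h).choose else T

/-- `S` is the result of the process with seeds `x`. -/
def IsRes (x : P.Om) (S : V → ℕ → Finset Z) : Prop :=
  ∀ v k, S v k = cut (P.b k) (P.tick x S k v)

/-- The radius of the seeds which matter for a vertex on level `k`. -/
def rad (k : ℕ) : ℕ := 2 * P.n k + P.ρ k

/-- The time at which the seeds of `v` on level `k` are revealed: the first vertex in the ball of
radius `r` around `v`. -/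
noncomputable def tau (r : ℕ → ℕ) (k : ℕ) (v : V) : ℕ :=
  (univ.filter fun u => Near (P.L k) (r k) v u).inf' ⟨v, by
    rw [mem_filter]
    exact ⟨mem_univ _, .nil, by simp⟩⟩ P.e

/-- The variables which matter for `v` on level `k`. -/
noncomputable def N (i : P.I) : Finset P.I :=
  univ.filter fun i' => i'.1 = i.1 ∧ Near (P.L i.1) (P.rad i.1) i.2 i'.2

/-- The time of a variable: first the time of the ball, then higher levels first. -/
noncomputable def tm (r : ℕ → ℕ) (i : P.I) : ℕ := P.tau r i.1 i.2 * P.J + (P.J - 1 - i.1)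

/-- The earlier variables. -/
noncomputable def Env (r : ℕ → ℕ) (i : P.I) : Finset P.I :=
  univ.filter fun i' => ∀ i'' ∈ P.N i, P.tm r i' < P.tm r i''

/-- Too few colours of a list stay undecided on a set `C`. -/
def Bad1 (ε err : ℝ) (i : P.I) (x : P.Om) : Prop :=
  ∃ (C : Set V) (j : ℕ), j < (i.1 : ℕ) ∧ i.2 ∈ C ∧ Conn (P.L j) C ∧ C.ncard ≤ P.n j ∧
    (((P.l i.2).filter fun c => C ⊆ P.Ur x c i.1 P.J ∧
      ∀ y ∈ C, P.Und i.1 (P.sd x c i.1) y).card : ℝ) + err <
    (((P.W i.1 : ℝ) - P.w i.1) / P.W i.1 * (1 - ε)) *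
      ((P.l i.2).filter fun c => C ⊆ P.Ur x c i.1 P.J).card

/-- Too many colours of an adversary stay undecided. -/
def Bad2 (err : ℝ) (i : P.I) (x : P.Om) (S : V → ℕ → Finset Z) : Prop :=
  ∃ (m : ℕ) (z : V), m ≤ P.J ∧ (i.1 : ℕ) < m ∧ P.e z < P.e i.2 ∧ P.G.Adj z i.2 ∧
    ¬(P.L m).Adj z i.2 ∧
    ((P.W i.1 : ℝ) - P.w i.1) / P.W i.1 *
      (((range (m + 1)).biUnion (S z)).filter fun c => i.2 ∈ P.Ur x c i.1 m).card + err <
    (((range (m + 1)).biUnion (S z)).filter fun c => i.2 ∈ P.Ur x c i.1 m ∧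
      P.Und i.1 (P.sd x c i.1) i.2).card

/-- The lists of the clusters of `v` on level `k` are large enough. -/
def EnvGood (β : ℕ → ℕ) (i : P.I) (x : P.Om) (S : V → ℕ → Finset Z) : Prop :=
  ∀ C : Set V, Conn (P.L i.1) C → C.ncard ≤ P.n i.1 → i.2 ∈ C → ∀ y ∈ P.clus i.1 C i.2,
    5 * β i.1 ≤ (P.lists x S i.1 C (P.clus i.1 C i.2) y).card +
      hn P.G (P.adv i.1 (P.clus i.1 C i.2)) y * β i.1

/-- Too few colours on a level. -/
def Bad3 (β : ℕ → ℕ) (i : P.I) (x : P.Om) (S : V → ℕ → Finset Z) : Prop :=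
  i.2 ∉ P.D i.1 ∧ P.EnvGood β i x S ∧ (P.tick x S i.1 i.2).card < P.b i.1

/-- The hypotheses. -/
structure Good (P : Data V Z) (δ : ℕ → ℝ) (β r : ℕ → ℕ) : Prop where
  Lle : ∀ k, P.L k ≤ P.G
  Lmono : Monotone P.L
  nmono : Monotone P.n
  sch : ∀ k < P.J, IsScheme (P.L k) (Alph (P.rr k)) Set.univ (δ k) (P.n k) (P.ρ k) (P.X k)
  rr_pos : ∀ k, 0 < P.rr k
  w_pos : ∀ k, 0 < P.w k
  w_zero : P.w 0 = P.W 0
  w_succ : ∀ k, P.W (k + 1) = P.W k + P.w (k + 1)
  law_sub : ∀ k K Zs A ω, ∀ v ∈ K, P.law k K Zs A ω v ⊆ A v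
  law_disj : ∀ k K Zs A ω, ∀ u ∈ K, ∀ v ∈ K, P.G.Adj u v →
    Disjoint (P.law k K Zs A ω u) (P.law k K Zs A ω v)
  law_many : ∀ k K Zs A, Zs.card ≤ 2 → (∀ v ∈ K, v ∉ Zs) →
    (∀ u ∈ Zs, ∀ v ∈ Zs, (res P.G Kᶜ).Reachable u v) → K.ncard ≤ P.n k →
    (∀ v ∈ K, 5 * β k ≤ (A v).card + hn P.G Zs v * β k) →
    ∀ v ∈ K, gT (P.n k) * β k ≤ ∑ ω, (P.law k K Zs A ω v).card
  clu : ∀ k < P.J, ∀ K, Conn (P.L k) K → K.ncard ≤ P.n k → Disjoint K (P.D k) →
    (P.adv k K).card ≤ 2 ∧ (∀ z ∈ P.adv k K, ∀ w ∈ K, P.e z < P.e w) ∧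
    (∀ z ∈ P.adv k K, ∀ z' ∈ P.adv k K, (res P.G Kᶜ).Reachable z z') ∧
    ∀ z ∈ P.adv k K, ∀ w ∈ K, P.G.Adj z w → ¬(P.L (k + 1)).Adj z w
  fresh : ∀ k < P.J, ∀ z w, P.G.Adj z w → P.e z < P.e w → ¬(P.L (k + 1)).Adj z w →
    ∀ x, Near (P.L k) (r k + 2 * P.rad k) w x → P.e z < P.e x
  r_rad : ∀ k, P.rad k ≤ r k
  r_succ : ∀ k, r k + P.rad k + P.rad (k + 1) ≤ r (k + 1)

end Data

end Proc

end BDP
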