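import Pool.Agent.Work.MP_0890ba_co.BD.Defs

/-!
# Vertical rays and segments

For points of the plane with different abscissas, `up x y p` is `1` if the segment `xy` passes
above the point `p`, and `dn x y p` is `1` if it passes below `p`; both are in `ZMod 2`.
-/

namespace BDP

/-- The abscissa of `p` is strictly between those of `x` and `y`. -/
def btw (x y p : ℝ × ℝ) : Prop := (x.1 - p.1) * (y.1 - p.1) < 0

/-- Twice the signed area of the triangle `x y p`. -/
def det (x y p : ℝ × ℝ) : ℝ := (y.1 - x.1) * (p.2 - x.2) - (y.2 - x.2) * (p.1 - x.1)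

open Classical in
/-- The segment `xy` passes above `p`. -/
noncomputable def up (x y p : ℝ × ℝ) : ZMod 2 :=
  if btw x y p ∧ det x y p * (y.1 - x.1) < 0 then 1 else 0

open Classical in
/-- The segment `xy` passes below `p`. -/
noncomputable def dn (x y p : ℝ × ℝ) : ZMod 2 :=
  if btw x y p ∧ 0 < det x y p * (y.1 - x.1) then 1 else 0

theorem btw_comm (x y p : ℝ × ℝ) : btw x y p ↔ btw y x p := by
  unfold btw
  rw [mul_comm]

theorem det_mul_comm (x y p : ℝ × ℝ) :
    det x y p * (y.1 - x.1) = det y x p * (x.1 - y.1) := by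
  unfold det
  ring

theorem up_comm (x y p : ℝ × ℝ) : up x y p = up y x p := by
  unfold up
  rw [btw_comm, det_mul_comm]

theorem dn_comm (x y p : ℝ × ℝ) : dn x y p = dn y x p := by
  unfold dn
  rw [btw_comm, det_mul_comm]

theorem btw_iff {x y : ℝ × ℝ} (h : x.1 < y.1) (p : ℝ × ℝ) :
    btw x y p ↔ x.1 < p.1 ∧ p.1 < y.1 := by
  unfold btw
  constructor
  · intro h2
    rcases mul_neg_iff.1 h2 with ⟨h3, h4⟩ | ⟨h3, h4⟩
    · exfalso
      linarith
    · exact ⟨by linarith, by linarith⟩
  · rintro ⟨h3, h4⟩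
    exact mul_neg_of_neg_of_pos (by linarith) (by linarith)

theorem up_eq_zero {x y p : ℝ × ℝ} (h : ¬ btw x y p) : up x y p = 0 := by
  unfold up
  rw [if_neg (fun h2 => h h2.1)]

theorem dn_eq_zero {x y p : ℝ × ℝ} (h : ¬ btw x y p) : dn x y p = 0 := by
  unfold dn
  rw [if_neg (fun h2 => h h2.1)]

/-- The height of the line `xy` above the point `p`. -/
noncomputable def ht (x y : ℝ × ℝ) (t : ℝ) : ℝ := x.2 + (y.2 - x.2) / (y.1 - x.1) * (t - x.1)

theorem det_neg_iff {x y : ℝ × ℝ} (h : x.1 < y.1) (p : ℝ × ℝ) :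
    det x y p * (y.1 - x.1) < 0 ↔ p.2 < ht x y p.1 := by
  have h1 : 0 < y.1 - x.1 := by linarith
  have h2 : det x y p = (y.1 - x.1) * (p.2 - ht x y p.1) := by
    unfold det ht
    field_simp
    ring
  rw [h2]
  constructor
  · intro h3
    by_contra h4
    have h5 : 0 ≤ p.2 - ht x y p.1 := by linarith
    have h6 : 0 ≤ (y.1 - x.1) * (p.2 - ht x y p.1) * (y.1 - x.1) := by positivity
    linarith
  · intro h3
    have h5 : 0 < ht x y p.1 - p.2 := by linarith
    have h6 : 0 < (y.1 - x.1) * (ht x y p.1 - p.2) * (y.1 - x.1) := by positivity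
    nlinarith

theorem det_pos_iff {x y : ℝ × ℝ} (h : x.1 < y.1) (p : ℝ × ℝ) :
    0 < det x y p * (y.1 - x.1) ↔ ht x y p.1 < p.2 := by
  have h1 : 0 < y.1 - x.1 := by linarith
  have h2 : det x y p = (y.1 - x.1) * (p.2 - ht x y p.1) := by
    unfold det ht
    field_simp
    ring
  rw [h2]
  constructor
  · intro h3
    by_contra h4
    have h5 : 0 ≤ ht x y p.1 - p.2 := by linarith
    have h6 : 0 ≤ (y.1 - x.1) * (ht x y p.1 - p.2) * (y.1 - x.1) := by positivity
    nlinarith
  · intro h3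
    have h5 : 0 < p.2 - ht x y p.1 := by linarith
    positivity

theorem ht_left (x y : ℝ × ℝ) : ht x y x.1 = x.2 := by simp [ht]

theorem ht_right {x y : ℝ × ℝ} (h : x.1 < y.1) : ht x y y.1 = y.2 := by
  have h1 : y.1 - x.1 ≠ 0 := by linarith
  unfold ht
  field_simp
  ring

/-- The points of the segment. -/
theorem mem_segment_ht {x y : ℝ × ℝ} (h : x.1 < y.1) {t : ℝ} (h1 : x.1 ≤ t) (h2 : t ≤ y.1) :
    ((t, ht x y t) : ℝ × ℝ) ∈ segment ℝ x y := by
  have h3 : 0 < y.1 - x.1 := by linarith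
  rw [segment_eq_image]
  refine ⟨(t - x.1) / (y.1 - x.1), ⟨by positivity, ?_⟩, ?_⟩
  · rw [div_le_one h3]
    linarith
  · ext
    · simp only [Prod.fst_add, Prod.smul_fst, smul_eq_mul]
      field_simp
      ring
    · simp only [Prod.snd_add, Prod.smul_snd, smul_eq_mul, ht]
      field_simp
      ring

/-- Disjoint segments do not change their order over a common interval of abscissas. -/
theorem order_of_disjoint {x y p q : ℝ × ℝ} (hxy : x.1 < y.1) (hpq : p.1 < q.1)
    (hd : Disjoint (segment ℝ x y) (segment ℝ p q)) {s t : ℝ}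
    (hs1 : x.1 ≤ s) (hs2 : s ≤ y.1) (hs3 : p.1 ≤ s) (hs4 : s ≤ q.1)
    (ht1 : x.1 ≤ t) (ht2 : t ≤ y.1) (ht3 : p.1 ≤ t) (ht4 : t ≤ q.1)
    (h : ht p q s < ht x y s) : ht p q t < ht x y t := by
  by_contra hcon
  have hb : ht x y t ≤ ht p q t := not_lt.1 hcon
  -- the difference is affine
  set F : ℝ → ℝ := fun u => ht x y u - ht p q u with hF
  have hs0 : 0 < F s := by simp only [hF]; linarith
  have ht0 : F t ≤ 0 := by simp only [hF]; linarith
  set lam : ℝ := F s / (F s - F t) with hlam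
  have hden : 0 < F s - F t := by linarith
  have hl0 : 0 ≤ lam := by positivity
  have hl1 : lam ≤ 1 := by
    rw [hlam, div_le_one hden]
    linarith
  have hzero : F (s + lam * (t - s)) = 0 := by
    have haff : F (s + lam * (t - s)) = F s + lam * (F t - F s) := by
      simp only [hF, ht]
      ring
    rw [haff, hlam]
    field_simp
    ring
  have hr : ∀ {a b : ℝ}, a ≤ s → s ≤ b → a ≤ t → t ≤ b →
      a ≤ s + lam * (t - s) ∧ s + lam * (t - s) ≤ b := by
    intro a b h1 h2 h3 h4
    constructor <;> nlinarith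
  obtain ⟨r1, r2⟩ := hr hs1 hs2 ht1 ht2
  obtain ⟨r3, r4⟩ := hr hs3 hs4 ht3 ht4
  have m1 := mem_segment_ht hxy r1 r2
  have m2 := mem_segment_ht hpq r3 r4
  have heq : ht x y (s + lam * (t - s)) = ht p q (s + lam * (t - s)) := by
    simp only [hF] at hzero
    linarith
  rw [heq] at m1
  exact Set.disjoint_left.1 hd m1 m2

theorem up_eq {x y : ℝ × ℝ} (h : x.1 < y.1) {p : ℝ × ℝ} (h1 : x.1 < p.1) (h2 : p.1 < y.1)
    [Decidable (p.2 < ht x y p.1)] : up x y p = if p.2 < ht x y p.1 then 1 else 0 := by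
  unfold up
  by_cases h3 : p.2 < ht x y p.1
  · rw [if_pos h3, if_pos ⟨(btw_iff h p).2 ⟨h1, h2⟩, (det_neg_iff h p).2 h3⟩]
  · rw [if_neg h3, if_neg (fun h4 => h3 ((det_neg_iff h p).1 h4.2))]

theorem dn_eq {x y : ℝ × ℝ} (h : x.1 < y.1) {p : ℝ × ℝ} (h1 : x.1 < p.1) (h2 : p.1 < y.1)
    [Decidable (ht x y p.1 < p.2)] : dn x y p = if ht x y p.1 < p.2 then 1 else 0 := by
  unfold dn
  by_cases h3 : ht x y p.1 < p.2
  · rw [if_pos h3, if_pos ⟨(btw_iff h p).2 ⟨h1, h2⟩, (det_pos_iff h p).2 h3⟩]
  · rw [if_neg h3, if_neg (fun h4 => h3 ((det_pos_iff h p).1 h4.2))]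

theorem add_self_zmod (a : ZMod 2) : a + a = 0 := CharTwo.add_self_eq_zero a

/-- Identity (I) for segments directed to the right. -/
theorem ident_one_aux {x y p q : ℝ × ℝ} (hxy : x.1 < y.1) (hpq : p.1 < q.1)
    (hxp : x.1 ≠ p.1) (hxq : x.1 ≠ q.1) (hyp : y.1 ≠ p.1) (hyq : y.1 ≠ q.1)
    (hd : Disjoint (segment ℝ x y) (segment ℝ p q)) :
    up x y p + up x y q + dn p q x + dn p q y = 0 := by
  classical
  have key : ∀ {s t : ℝ}, x.1 ≤ s → s ≤ y.1 → p.1 ≤ s → s ≤ q.1 →
      x.1 ≤ t → t ≤ y.1 → p.1 ≤ t → t ≤ q.1 →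
      (ht p q s < ht x y s ↔ ht p q t < ht x y t) := by
    intro s t h1 h2 h3 h4 h5 h6 h7 h8
    exact ⟨order_of_disjoint hxy hpq hd h1 h2 h3 h4 h5 h6 h7 h8,
      order_of_disjoint hxy hpq hd h5 h6 h7 h8 h1 h2 h3 h4⟩
  have zu : ∀ {r : ℝ × ℝ}, ¬ (x.1 < r.1 ∧ r.1 < y.1) → up x y r = 0 := fun h =>
    up_eq_zero (fun h2 => h ((btw_iff hxy _).1 h2))
  have zd : ∀ {r : ℝ × ℝ}, ¬ (p.1 < r.1 ∧ r.1 < q.1) → dn p q r = 0 := fun h =>
    dn_eq_zero (fun h2 => h ((btw_iff hpq _).1 h2))
  rcases lt_or_gt_of_ne hxp with h1 | h1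
  · -- x < p
    rcases lt_or_gt_of_ne hyp with h2 | h2
    · -- y < p
      rw [zu (by intro h; linarith [h.2]), zu (by intro h; linarith [h.2]),
        zd (by intro h; linarith [h.1]), zd (by intro h; linarith [h.1])]
      simp
    · -- x < p < y
      rcases lt_or_gt_of_ne hyq with h3 | h3
      · -- x < p < y < q
        rw [zu (r := q) (by intro h; linarith [h.2]), zd (r := x) (by intro h; linarith [h.1]),
          up_eq hxy h1 h2, dn_eq hpq h2 h3]
        have := key (s := p.1) (t := y.1) h1.le h2.le le_rfl hpq.le hxy.le le_rfl h2.le h3.le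
        rw [ht_left, ht_right hxy] at this
        simp only [this]
        rw [add_zero, add_zero]
        exact add_self_zmod _
      · -- x < p < q < y
        rw [zd (r := x) (by intro h; linarith [h.1]), zd (r := y) (by intro h; linarith [h.2]),
          up_eq hxy h1 h2, up_eq hxy (h1.trans hpq) h3]
        have := key (s := p.1) (t := q.1) h1.le h2.le le_rfl hpq.le (h1.trans hpq).le h3.le hpq.le
          le_rfl
        rw [ht_left, ht_right hpq] at this
        simp only [this]
        rw [add_zero, add_zero]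
        exact add_self_zmod _
  · -- p < x
    rcases lt_or_gt_of_ne hxq with h2 | h2
    · -- p < x < q
      rcases lt_or_gt_of_ne hyq with h3 | h3
      · -- p < x < y < q
        rw [zu (r := p) (by intro h; linarith [h.1]), zu (r := q) (by intro h; linarith [h.2]),
          dn_eq hpq h1 h2, dn_eq hpq (h1.trans hxy) h3]
        have := key (s := x.1) (t := y.1) le_rfl hxy.le h1.le h2.le hxy.le le_rfl
          (h1.trans hxy).le h3.le
        rw [ht_left, ht_right hxy] at this
        simp only [this]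
        rw [add_zero, zero_add]
        exact add_self_zmod _
      · -- p < x < q < y
        rw [zu (r := p) (by intro h; linarith [h.1]), zd (r := y) (by intro h; linarith [h.2]),
          up_eq hxy h2 h3, dn_eq hpq h1 h2]
        have := key (s := x.1) (t := q.1) le_rfl hxy.le h1.le h2.le h2.le h3.le hpq.le le_rfl
        rw [ht_left, ht_right hpq] at this
        simp only [this]
        rw [zero_add, add_zero]
        exact add_self_zmod _
    · -- q < x
      rw [zu (by intro h; linarith [h.1]), zu (by intro h; linarith [h.1]),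
        zd (by intro h; linarith [h.2]), zd (by intro h; linarith [h.2])]
      simp

/-- Identity (I): for disjoint segments `xy` and `pq` whose ends have different abscissas. -/
theorem ident_one {x y p q : ℝ × ℝ} (hxy : x.1 ≠ y.1) (hpq : p.1 ≠ q.1)
    (hxp : x.1 ≠ p.1) (hxq : x.1 ≠ q.1) (hyp : y.1 ≠ p.1) (hyq : y.1 ≠ q.1)
    (hd : Disjoint (segment ℝ x y) (segment ℝ p q)) :
    up x y p + up x y q + dn p q x + dn p q y = 0 := by
  rcases lt_or_gt_of_ne hxy with h1 | h1
  · rcases lt_or_gt_of_ne hpq with h2 | h2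
    · exact ident_one_aux h1 h2 hxp hxq hyp hyq hd
    · have := ident_one_aux (p := q) (q := p) h1 h2 hxq hxp hyq hyp
        (by rwa [segment_symm ℝ q p])
      rw [dn_comm p q, dn_comm p q, add_comm (up x y p)]
      exact this
  · rcases lt_or_gt_of_ne hpq with h2 | h2
    · have := ident_one_aux (x := y) (y := x) h1 h2 hyp hyq hxp hxq
        (by rwa [segment_symm ℝ y x])
      rw [up_comm x y, up_comm x y, add_assoc, add_comm (dn p q x), ← add_assoc]
      exact this
    · have := ident_one_aux (x := y) (y := x) (p := q) (q := p) h1 h2 hyq hyp hxq hxp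
        (by rwa [segment_symm ℝ y x, segment_symm ℝ q p])
      rw [up_comm x y, up_comm x y, dn_comm p q, dn_comm p q, add_comm (up y x p), add_assoc,
        add_comm (dn q p x), ← add_assoc]
      exact this

end BDP
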