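import Pool.Agent.Work.MP_0890ba_co.BD.Ray

/-!
# Identity (II), and drawings in general position
-/

namespace BDP

open Pool.Agent.Work.MP_0890ba_co

theorem det_eq_zero_mem {x y p : ℝ × ℝ} (h : x.1 < y.1) (h1 : x.1 < p.1) (h2 : p.1 < y.1)
    (h3 : ¬ p.2 < ht x y p.1) (h4 : ¬ ht x y p.1 < p.2) : p ∈ segment ℝ x y := by
  have h5 : ht x y p.1 = p.2 := le_antisymm (not_lt.1 h3) (not_lt.1 h4)
  have h6 := mem_segment_ht h h1.le h2.le
  rw [h5] at h6
  exact h6

/-- A point between the ends of a segment is below or above it. -/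
theorem up_add_dn {x y p : ℝ × ℝ} (hb : btw x y p) (hs : p ∉ segment ℝ x y) :
    up x y p + dn x y p = 1 := by
  classical
  have key : ∀ {x y : ℝ × ℝ}, x.1 < y.1 → btw x y p → p ∉ segment ℝ x y →
      up x y p + dn x y p = 1 := by
    intro x y hxy hb hs
    obtain ⟨h1, h2⟩ := (btw_iff hxy p).1 hb
    rw [up_eq hxy h1 h2, dn_eq hxy h1 h2]
    by_cases h3 : p.2 < ht x y p.1
    · rw [if_pos h3, if_neg (not_lt.2 h3.le), add_zero]
    · by_cases h4 : ht x y p.1 < p.2
      · rw [if_neg h3, if_pos h4, zero_add]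
      · exact (hs (det_eq_zero_mem hxy h1 h2 h3 h4)).elim
  rcases lt_trichotomy x.1 y.1 with h | h | h
  · exact key h hb hs
  · exfalso
    unfold btw at hb
    rw [h] at hb
    exact absurd hb (not_lt.2 (mul_self_nonneg _))
  · rw [up_comm, dn_comm]
    exact key h ((btw_comm _ _ _).1 hb) (by rwa [segment_symm ℝ y x])

/-- The term of the pair `a`, `b`. -/
noncomputable def pr (p a b : ℝ × ℝ) : ZMod 2 :=
  up p b a + dn p a b + (up p a b + dn p b a)

theorem pr_comm (p a b : ℝ × ℝ) : pr p a b = pr p b a := by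
  unfold pr
  rw [add_comm]

theorem pr_same {p a b : ℝ × ℝ} (hab : a.1 ≠ b.1) (h : 0 < (a.1 - p.1) * (b.1 - p.1))
    (hs : a ∉ segment ℝ p b) (hs' : b ∉ segment ℝ p a) : pr p a b = 1 := by
  have key : ∀ {a b : ℝ × ℝ}, 0 < (a.1 - p.1) * (b.1 - p.1) →
      0 < (a.1 - p.1) * (b.1 - a.1) → a ∉ segment ℝ p b → pr p a b = 1 := by
    intro a b h h1 hs
    have h2 : btw p b a := by
      unfold btw
      nlinarith
    have h3 : ¬ btw p a b := by
      unfold btw
      intro h4
      -- (p - b) (a - b) < 0 and (a - p) (b - a) > 0, (a - p) (b - p) > 0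
      have h5 : 0 < (b.1 - p.1) * (b.1 - a.1) := by
        rcases lt_trichotomy a.1 p.1 with h6 | h6 | h6
        · have h7 : b.1 - p.1 < 0 := by
            by_contra hc
            nlinarith [mul_nonneg (sub_nonneg.2 h6.le) (not_lt.1 hc)]
          have h8 : b.1 - a.1 < 0 := by
            by_contra hc
            nlinarith [mul_nonneg (sub_nonneg.2 h6.le) (not_lt.1 hc)]
          exact mul_pos_of_neg_of_neg h7 h8
        · rw [h6] at h
          simp at h
        · have h7 : 0 < b.1 - p.1 := by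
            by_contra hc
            nlinarith [mul_nonneg (sub_nonneg.2 h6.le) (neg_nonneg.2 (not_lt.1 hc))]
          have h8 : 0 < b.1 - a.1 := by
            by_contra hc
            nlinarith [mul_nonneg (sub_nonneg.2 h6.le) (neg_nonneg.2 (not_lt.1 hc))]
          exact mul_pos h7 h8
      nlinarith
    unfold pr
    rw [up_eq_zero h3, dn_eq_zero h3, add_zero, zero_add]
    exact up_add_dn h2 hs
  rcases lt_or_gt_of_ne (show (a.1 - p.1) * (b.1 - a.1) ≠ 0 by
    intro h0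
    rcases mul_eq_zero.1 h0 with h1 | h1
    · rw [h1] at h
      simp at h
    · exact hab (by linarith)) with h1 | h1
  · have h2 : 0 < (b.1 - p.1) * (a.1 - p.1) := by linarith [mul_comm (b.1 - p.1) (a.1 - p.1)]
    have h3 : 0 < (b.1 - p.1) * (a.1 - b.1) := by
      rcases lt_trichotomy a.1 p.1 with h6 | h6 | h6
      · have h7 : b.1 - p.1 < 0 := by
          by_contra hc
          nlinarith [mul_nonneg (sub_nonneg.2 h6.le) (not_lt.1 hc)]
        have h8 : a.1 - b.1 < 0 := by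
          by_contra hc
          nlinarith [mul_nonneg (sub_nonneg.2 h6.le) (not_lt.1 hc)]
        exact mul_pos_of_neg_of_neg h7 h8
      · rw [h6] at h
        simp at h
      · have h7 : 0 < b.1 - p.1 := by
          by_contra hc
          nlinarith [mul_nonneg (sub_nonneg.2 h6.le) (neg_nonneg.2 (not_lt.1 hc))]
        have h8 : 0 < a.1 - b.1 := by
          by_contra hc
          nlinarith [mul_nonneg (sub_nonneg.2 h6.le) (neg_nonneg.2 (not_lt.1 hc))]
        exact mul_pos h7 h8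
    rw [pr_comm]
    exact key h2 h3 hs'
  · exact key h h1 hs

theorem pr_diff {p a b : ℝ × ℝ} (h : (a.1 - p.1) * (b.1 - p.1) < 0) : pr p a b = 0 := by
  have h1 : ¬ btw p b a := by
    unfold btw
    intro h2
    nlinarith [mul_self_nonneg (a.1 - p.1)]
  have h2 : ¬ btw p a b := by
    unfold btw
    intro h2
    nlinarith [mul_self_nonneg (b.1 - p.1)]
  unfold pr
  rw [up_eq_zero h1, dn_eq_zero h2, up_eq_zero h2, dn_eq_zero h1]
  simp

/-- Identity (II). -/
theorem ident_two (p : ℝ × ℝ) (y : Fin 3 → ℝ × ℝ) (hp : ∀ i, (y i).1 ≠ p.1)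
    (hy : ∀ i j, i ≠ j → (y i).1 ≠ (y j).1) (hs : ∀ i j, i ≠ j → y i ∉ segment ℝ p (y j)) :
    ∑ i, ∑ j ∈ Finset.univ.erase i, (up p (y j) (y i) + dn p (y i) (y j)) = 1 := by
  have e0 : (Finset.univ.erase (0 : Fin 3)) = {1, 2} := by decide
  have e1 : (Finset.univ.erase (1 : Fin 3)) = {0, 2} := by decide
  have e2 : (Finset.univ.erase (2 : Fin 3)) = {0, 1} := by decide
  have hsum : ∑ i, ∑ j ∈ Finset.univ.erase i, (up p (y j) (y i) + dn p (y i) (y j)) =
      pr p (y 0) (y 1) + pr p (y 0) (y 2) + pr p (y 1) (y 2) := by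
    rw [Fin.sum_univ_three, e0, e1, e2, Finset.sum_pair (by decide), Finset.sum_pair (by decide),
      Finset.sum_pair (by decide)]
    unfold pr
    ring
  rw [hsum]
  have side : ∀ i j, i ≠ j → (0 < ((y i).1 - p.1) * ((y j).1 - p.1) → pr p (y i) (y j) = 1) ∧
      (((y i).1 - p.1) * ((y j).1 - p.1) < 0 → pr p (y i) (y j) = 0) := fun i j hij =>
    ⟨fun h => pr_same (hy i j hij) h (hs i j hij) (hs j i hij.symm), fun h => pr_diff h⟩
  have s01 := side 0 1 (by decide)
  have s02 := side 0 2 (by decide)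
  have s12 := side 1 2 (by decide)
  have t : ∀ i, (y i).1 - p.1 < 0 ∨ 0 < (y i).1 - p.1 := by
    intro i
    rcases lt_or_gt_of_ne (hp i) with h | h
    · left; linarith
    · right; linarith
  rcases t 0 with h0 | h0 <;> rcases t 1 with h1 | h1 <;> rcases t 2 with h2 | h2
  · rw [s01.1 (mul_pos_of_neg_of_neg h0 h1), s02.1 (mul_pos_of_neg_of_neg h0 h2),
      s12.1 (mul_pos_of_neg_of_neg h1 h2)]
    decide
  · rw [s01.1 (mul_pos_of_neg_of_neg h0 h1), s02.2 (mul_neg_of_neg_of_pos h0 h2),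
      s12.2 (mul_neg_of_neg_of_pos h1 h2)]
    decide
  · rw [s01.2 (mul_neg_of_neg_of_pos h0 h1), s02.1 (mul_pos_of_neg_of_neg h0 h2),
      s12.2 (mul_neg_of_pos_of_neg h1 h2)]
    decide
  · rw [s01.2 (mul_neg_of_neg_of_pos h0 h1), s02.2 (mul_neg_of_neg_of_pos h0 h2),
      s12.1 (mul_pos h1 h2)]
    decide
  · rw [s01.2 (mul_neg_of_pos_of_neg h0 h1), s02.2 (mul_neg_of_pos_of_neg h0 h2),
      s12.1 (mul_pos_of_neg_of_neg h1 h2)]
    decide
  · rw [s01.2 (mul_neg_of_pos_of_neg h0 h1), s02.1 (mul_pos h0 h2),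
      s12.2 (mul_neg_of_neg_of_pos h1 h2)]
    decide
  · rw [s01.1 (mul_pos h0 h1), s02.2 (mul_neg_of_pos_of_neg h0 h2),
      s12.2 (mul_neg_of_pos_of_neg h1 h2)]
    decide
  · rw [s01.1 (mul_pos h0 h1), s02.1 (mul_pos h0 h2), s12.1 (mul_pos h1 h2)]
    decide

/-- Linear injections keep plane drawings. -/
theorem map_drawing {V : Type} {G : SimpleGraph V} {f : V → ℝ × ℝ}
    (h : IsPlaneDrawing G f) (L : (ℝ × ℝ) →ₗ[ℝ] (ℝ × ℝ)) (hL : Function.Injective L) :
    IsPlaneDrawing G (fun v => L (f v)) := by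
  have hseg : ∀ a b : ℝ × ℝ, segment ℝ (L a) (L b) = L '' segment ℝ a b := fun a b =>
    (image_segment ℝ L.toAffineMap a b).symm
  refine ⟨fun a b hab => h.inj (hL hab), fun a b w hab hw => ?_, fun a b c d p hab hcd hne hp hq => ?_⟩
  · rw [hseg] at hw
    obtain ⟨z, hz, hzw⟩ := hw
    rw [hL hzw] at hz
    exact h.vertex a b w hab hz
  · rw [hseg] at hp hq
    obtain ⟨z, hz, rfl⟩ := hp
    obtain ⟨z', hz', hzz⟩ := hq
    rw [hL hzz] at hz'
    obtain ⟨w, h1, h2, h3⟩ := h.cross a b c d z hab hcd hne hz hz'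
    exact ⟨w, h1, h2, by rw [h3]⟩

/-- The shear `(x, y) ↦ (x + t y, y)`. -/
noncomputable def shear (t : ℝ) : (ℝ × ℝ) →ₗ[ℝ] (ℝ × ℝ) :=
  ((LinearMap.fst ℝ ℝ ℝ) + t • (LinearMap.snd ℝ ℝ ℝ)).prod (LinearMap.snd ℝ ℝ ℝ)

theorem shear_apply (t : ℝ) (p : ℝ × ℝ) : shear t p = (p.1 + t * p.2, p.2) := by
  simp [shear]

theorem shear_injective (t : ℝ) : Function.Injective (shear t) := by
  intro p q h
  rw [shear_apply, shear_apply] at h
  have h2 : p.2 = q.2 := (Prod.ext_iff.1 h).2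
  have h1 : p.1 + t * p.2 = q.1 + t * q.2 := (Prod.ext_iff.1 h).1
  rw [h2] at h1
  exact Prod.ext (by linarith) h2

/-- A planar graph has a straight line drawing with different abscissas. -/
theorem exists_generic {V : Type} [Finite V] {G : SimpleGraph V} {f : V → ℝ × ℝ}
    (h : IsPlaneDrawing G f) :
    ∃ g : V → ℝ × ℝ, IsPlaneDrawing G g ∧ ∀ v w, v ≠ w → (g v).1 ≠ (g w).1 := by
  let bad : Set ℝ := ⋃ z : V × V, {((f z.2).1 - (f z.1).1) / ((f z.1).2 - (f z.2).2)}
  have hfin : bad.Finite := Set.finite_iUnion fun z => Set.finite_singleton _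
  obtain ⟨t, ht⟩ := hfin.exists_notMem
  refine ⟨fun v => shear t (f v), map_drawing h (shear t) (shear_injective t), fun v w hvw heq => ?_⟩
  simp only [shear_apply] at heq
  by_cases h2 : (f v).2 = (f w).2
  · rw [h2] at heq
    exact hvw (h.inj (Prod.ext (by linarith) h2))
  · apply ht
    simp only [bad, Set.mem_iUnion, Set.mem_singleton_iff]
    refine ⟨(v, w), ?_⟩
    have h3 : (f v).2 - (f w).2 ≠ 0 := sub_ne_zero.2 h2
    rw [eq_div_iff h3]
    linarith

end BDP
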