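import Pool.Agent.Work.MP_0890ba_co.BD.Basic
import Pool.Agent.Work.MP_0890ba_co.BD.DefsT

/-!
# Planar graphs are `(5b, b)`-choosable: the induction
-/

set_option linter.unusedSectionVars false

namespace BDP

open Pool.Agent.Work.MP_0890ba_co

namespace Five

variable {V : Type} [Finite V] {G : SimpleGraph V} {b : ℕ}

lemma ncard_pair_le (x y : V) : ({x, y} : Set V).ncard ≤ 2 := by
  have h1 := Set.ncard_insert_le x {y}
  rwa [Set.ncard_singleton] at h1

/-- `S` is a `b`-fold colouring of `W` from the lists `L`. -/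
def ColF (G : SimpleGraph V) (b : ℕ) (W : Set V) (L S : V → Finset ℤ) : Prop :=
  (∀ v ∈ W, S v ⊆ L v ∧ (S v).card = b) ∧ ∀ u ∈ W, ∀ v ∈ W, G.Adj u v → Disjoint (S u) (S v)

/-- The induction hypothesis. -/
structure Hyp (G : SimpleGraph V) (b : ℕ) (Z W B : Set V) (L : V → Finset ℤ) : Prop where
  conn : Conn G Z
  ne : Z.Nonempty
  disj : Disjoint Z W
  sub : B ⊆ outer G Z W
  clique : ∀ u ∈ B, ∀ v ∈ B, u ≠ v → G.Adj u v ∧ Disjoint (L u) (L v)
  cardB : ∀ v ∈ B, (L v).card = b
  cardO : ∀ v ∈ outer G Z W, v ∉ B → 3 * b ≤ (L v).card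
  card5 : ∀ v ∈ W, v ∉ outer G Z W → 5 * b ≤ (L v).card

open Classical in
/-- The lists after the removal of the colours `A` from the lists of the neighbours of `v` which
are not in `E`. -/
noncomputable def del (G : SimpleGraph V) (v : V) (E : Set V) (A : Finset ℤ)
    (L : V → Finset ℤ) : V → Finset ℤ := fun u => if G.Adj v u ∧ u ∉ E then L u \ A else L u

lemma del_subset (v : V) (E : Set V) (A : Finset ℤ) (L : V → Finset ℤ) (u : V) :
    del G v E A L u ⊆ L u := by
  unfold del
  split_ifs
  · exact Finset.sdiff_subset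
  · exact Finset.Subset.refl _

lemma del_disj {v : V} {E : Set V} {A : Finset ℤ} {L : V → Finset ℤ} {u : V} (h : G.Adj v u)
    (hu : u ∉ E) : Disjoint A (del G v E A L u) := by
  unfold del
  rw [if_pos ⟨h, hu⟩]
  exact Finset.disjoint_sdiff

lemma del_eq {v : V} {E : Set V} {A : Finset ℤ} {L : V → Finset ℤ} {u : V}
    (h : G.Adj v u → u ∈ E ∨ Disjoint A (L u)) : del G v E A L u = L u := by
  unfold del
  split_ifs with h1
  · rcases h h1.1 with h2 | h2
    · exact absurd h2 h1.2
    · exact Finset.sdiff_eq_self_of_disjoint h2.symm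
  · rfl

lemma del_card (v : V) (E : Set V) (A : Finset ℤ) (L : V → Finset ℤ) (u : V) :
    (L u).card ≤ (del G v E A L u).card + A.card := by
  unfold del
  split_ifs
  · have := Finset.le_card_sdiff A (L u)
    omega
  · omega

open Classical in
/-- Adding one vertex to a colouring. -/
lemma ColF.add {W : Set V} {L L' S : V → Finset ℤ} {v : V} {T : Finset ℤ}
    (h : ColF G b (W \ {v}) L' S) (hL : ∀ u, L' u ⊆ L u) (hT : T ⊆ L v) (hTb : T.card = b)
    (hd : ∀ u ∈ W \ {v}, G.Adj v u → Disjoint T (S u)) :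
    ColF G b W L (Function.update S v T) := by
  constructor
  · intro u hu
    by_cases huv : u = v
    · subst huv
      rw [Function.update_self]
      exact ⟨hT, hTb⟩
    · rw [Function.update_of_ne huv]
      have h1 := h.1 u ⟨hu, huv⟩
      exact ⟨h1.1.trans (hL u), h1.2⟩
  · intro u hu w hw huw
    by_cases huv : u = v
    · subst huv
      have hwu : w ≠ u := huw.ne'
      rw [Function.update_self, Function.update_of_ne hwu]
      exact hd w ⟨hw, hwu⟩ huw
    · rw [Function.update_of_ne huv]
      by_cases hwv : w = v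
      · subst hwv
        rw [Function.update_self]
        exact (hd u ⟨hu, huv⟩ huw.symm).symm
      · rw [Function.update_of_ne hwv]
        exact h.2 u ⟨hu, huv⟩ w ⟨hw, hwv⟩ huw

lemma conn_insert {Z : Set V} (hZ : Conn G Z) {v z : V} (hz : z ∈ Z) (hzv : G.Adj z v) :
    Conn G (Z ∪ {v}) := by
  have h1 : ∀ x ∈ Z ∪ {v}, (res G (Z ∪ {v})).Reachable z x := by
    rintro x (hx | hx)
    · exact (hZ z hz x hx).mono (res_mono Set.subset_union_left)
    · rw [Set.mem_singleton_iff] at hx
      subst hx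
      exact SimpleGraph.Adj.reachable ⟨hzv, Or.inl hz, Or.inr rfl⟩
  exact Conn.of_center h1

/-- Moving an outer vertex to the other side. -/
lemma Hyp.remove {Z W B : Set V} {L : V → Finset ℤ} (h : Hyp G b Z W B L) {v : V}
    (hv : v ∈ outer G Z W) {A : Finset ℤ} (hA : A.card ≤ 2 * b) {E : Set V}
    (hN : ∀ u ∈ outer G Z W, G.Adj v u → u ∈ E ∨ (u ∈ B ∧ Disjoint A (L u))) :
    Hyp G b (Z ∪ {v}) (W \ {v}) (B \ {v}) (del G v E A L) := by
  have hout : ∀ u, u ∈ outer G (Z ∪ {v}) (W \ {v}) ↔
      (u ∈ W ∧ u ≠ v) ∧ (u ∈ outer G Z W ∨ G.Adj v u) := by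
    intro u
    constructor
    · rintro ⟨h1, z, hz, h2⟩
      refine ⟨h1, ?_⟩
      rcases hz with hz | hz
      · exact Or.inl ⟨h1.1, z, hz, h2⟩
      · rw [Set.mem_singleton_iff] at hz
        subst hz
        exact Or.inr h2
    · rintro ⟨h1, h2⟩
      refine ⟨h1, ?_⟩
      rcases h2 with ⟨_, z, hz, h2⟩ | h2
      · exact ⟨z, Or.inl hz, h2⟩
      · exact ⟨v, Or.inr rfl, h2⟩
  obtain ⟨hvW, z, hz, hzv⟩ := hv
  have hBO : ∀ u ∈ B, G.Adj v u → u ∈ E ∨ Disjoint A (L u) := by
    intro u hu hvu
    rcases hN u (h.sub hu) hvu with h1 | h1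
    · exact Or.inl h1
    · exact Or.inr h1.2
  refine ⟨conn_insert h.conn hz hzv, ⟨z, Or.inl hz⟩, ?_, ?_, ?_, ?_, ?_, ?_⟩
  · rw [Set.disjoint_left]
    rintro u (hu | hu) hu'
    · exact (Set.disjoint_left.1 h.disj) hu hu'.1
    · exact hu'.2 hu
  · intro u hu
    have h1 := h.sub hu.1
    exact (hout u).2 ⟨⟨h1.1, hu.2⟩, Or.inl h1⟩
  · intro u hu w hw huw
    have h1 := h.clique u hu.1 w hw.1 huw
    exact ⟨h1.1, (h1.2.mono_left (del_subset v E A L u)).mono_right (del_subset v E A L w)⟩
  · intro u hu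
    rw [del_eq (hBO u hu.1)]
    exact h.cardB u hu.1
  · intro u hu huB
    rw [hout] at hu
    have hub : u ∉ B := fun h1 => huB ⟨h1, hu.1.2⟩
    by_cases huo : u ∈ outer G Z W
    · rw [del_eq]
      · exact h.cardO u huo hub
      · intro hvu
        rcases hN u huo hvu with h1 | h1
        · exact Or.inl h1
        · exact absurd h1.1 hub
    · have h1 := h.card5 u hu.1.1 huo
      have h2 := del_card (G := G) v E A L u
      omega
  · intro u hu huo
    have h1 : ¬ G.Adj v u := fun h1 => huo ((hout u).2 ⟨hu, Or.inr h1⟩)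
    have h2 : u ∉ outer G Z W := fun h2 => huo ((hout u).2 ⟨hu, Or.inl h2⟩)
    rw [del_eq (fun h3 => absurd h3 h1)]
    exact h.card5 u hu.1 h2

/-- Starting with one vertex. -/
lemma Hyp.start {W : Set V} {L : V → Finset ℤ} {v : V} {T : Finset ℤ} (hT : T.card ≤ 2 * b)
    (hL : ∀ u ∈ W, 5 * b ≤ (L u).card) : Hyp G b {v} (W \ {v}) ∅ (del G v ∅ T L) := by
  refine ⟨?_, ⟨v, rfl⟩, ?_, Set.empty_subset _, ?_, ?_, ?_, ?_⟩
  · intro x hx y hy
    rw [Set.mem_singleton_iff] at hx hy
    rw [hx, hy]
  · rw [Set.disjoint_left]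
    intro u hu hu'
    exact hu'.2 hu
  · intro u hu
    exact absurd hu (Set.notMem_empty u)
  · intro u hu
    exact absurd hu (Set.notMem_empty u)
  · intro u hu _
    have h1 := hL u hu.1.1
    have h2 := del_card (G := G) v ∅ T L u
    omega
  · intro u hu huo
    have h1 : ¬ G.Adj v u := fun h1 => huo ⟨hu, v, rfl, h1⟩
    rw [del_eq (fun h3 => absurd h3 h1)]
    exact hL u hu.1

/-- The statement for all sets with fewer than `n` vertices. -/
def IH (G : SimpleGraph V) (b n : ℕ) : Prop :=
  ∀ (Z W B : Set V) (L : V → Finset ℤ), W.ncard < n → B.ncard ≤ 2 → Hyp G b Z W B L →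
    ∃ S, ColF G b W L S

lemma card_remove {W : Set V} {v : V} (hv : v ∈ W) {n : ℕ} (hn : W.ncard = n) :
    (W \ {v}).ncard < n := by
  rw [← hn]
  exact Set.ncard_lt_ncard ⟨Set.sdiff_subset, fun h => (h hv).2 rfl⟩ (Set.toFinite _)

lemma card_diff_le (B : Set V) (v : V) : (B \ {v}).ncard ≤ B.ncard :=
  Set.ncard_le_ncard Set.sdiff_subset (Set.toFinite _)

/-- Removing an outer vertex `v` with a fixed set `T` of colours. -/
lemma remove_fixed {n : ℕ} (ih : IH G b n) {Z W B : Set V} {L : V → Finset ℤ}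
    (hn : W.ncard = n) (hB : B.ncard ≤ 2) (h : Hyp G b Z W B L) {v : V}
    (hv : v ∈ outer G Z W) {T : Finset ℤ} (hT : T ⊆ L v) (hTb : T.card = b)
    (hN : ∀ u ∈ outer G Z W, G.Adj v u → u ∈ B ∧ Disjoint T (L u)) : ∃ S, ColF G b W L S := by
  obtain ⟨S, hS⟩ := ih _ _ _ _ (card_remove hv.1 hn) ((card_diff_le B v).trans hB)
    (h.remove hv (A := T) (E := ∅) (by omega) (fun u hu hvu => Or.inr (hN u hu hvu)))
  refine ⟨_, hS.add (fun u => del_subset v ∅ T L u) hT hTb ?_⟩
  intro u hu hvu
  exact (del_disj hvu (Set.notMem_empty u)).mono_right (hS.1 u hu).1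

/-- Removing an outer vertex `v` with one outer neighbour `z` coloured later. -/
lemma remove_double {n : ℕ} (ih : IH G b n) {Z W B : Set V} {L : V → Finset ℤ}
    (hn : W.ncard = n) (hB : B.ncard ≤ 2) (h : Hyp G b Z W B L) {v x z : V}
    (hv : v ∈ outer G Z W) (hvB : v ∉ B) (hx : x ∈ B)
    (hN : ∀ u ∈ outer G Z W, G.Adj v u → u = z ∨ u = x) : ∃ S, ColF G b W L S := by
  have h1 : 2 * b ≤ (L v \ L x).card := by
    have h2 := Finset.le_card_sdiff (L x) (L v)
    have h3 := h.cardO v hv hvB
    have h4 := h.cardB x hx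
    omega
  obtain ⟨A, hA, hAb⟩ := Finset.exists_subset_card_eq h1
  obtain ⟨S, hS⟩ := ih _ _ _ _ (card_remove hv.1 hn) ((card_diff_le B v).trans hB)
    (h.remove hv (A := A) (E := {z}) (by omega) (fun u hu hvu => by
      rcases hN u hu hvu with h5 | h5
      · exact Or.inl h5
      · subst h5
        refine Or.inr ⟨hx, ?_⟩
        exact (Finset.disjoint_sdiff.mono_right hA).symm))
  -- the colours of `z`
  obtain ⟨Q, hQ, hQz⟩ : ∃ Q : Finset ℤ, Q.card ≤ b ∧ (z ∈ W \ {v} → Q = S z) := by
    by_cases hz : z ∈ W \ {v}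
    · exact ⟨S z, (hS.1 z hz).2.le, fun _ => rfl⟩
    · exact ⟨∅, Nat.zero_le _, fun h5 => absurd h5 hz⟩
  have h6 : b ≤ (A \ Q).card := by
    have h7 := Finset.le_card_sdiff Q A
    omega
  obtain ⟨T, hT, hTb⟩ := Finset.exists_subset_card_eq h6
  have hTA : T ⊆ A := hT.trans Finset.sdiff_subset
  refine ⟨_, hS.add (fun u => del_subset v {z} A L u)
    (hTA.trans (hA.trans Finset.sdiff_subset)) hTb ?_⟩
  intro u hu hvu
  by_cases huz : u = z
  · subst huz
    rw [← hQz hu]
    exact (Finset.disjoint_sdiff.mono_right hT).symm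
  · exact ((del_disj hvu (fun h8 => huz h8)).mono_left hTA).mono_right (hS.1 u hu).1

/-- The case of a separation. -/
lemma of_sep {n : ℕ} (ih : IH G b n) {Z W : Set V} {L : V → Finset ℤ} (hn : W.ncard = n)
    {x y : V} (h : Hyp G b Z W {x, y} L) (hs : Sep G Z W x y) : ∃ S, ColF G b W L S := by
  classical
  obtain ⟨W₁, W₂, hU, hW1, hW2, hx, hy, hout, hcard, hcl, hno⟩ := hs
  have hs1 : W₁ ⊆ W := hU ▸ Set.subset_union_left
  have hs2 : W₂ ⊆ W := hU ▸ Set.subset_union_right
  have hn1 : W₁.ncard < n := by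
    rw [← hn]
    exact Set.ncard_lt_ncard (hs1.ssubset_of_ne hW1) (Set.toFinite _)
  have hn2 : W₂.ncard < n := by
    rw [← hn]
    exact Set.ncard_lt_ncard (hs2.ssubset_of_ne hW2) (Set.toFinite _)
  have ho : ∀ {W' : Set V}, W' ⊆ W → ∀ u, u ∈ outer G Z W' ↔ u ∈ W' ∧ u ∈ outer G Z W :=
    fun hW' u => ⟨fun h1 => ⟨h1.1, hW' h1.1, h1.2⟩, fun h1 => ⟨h1.1, h1.2.2⟩⟩
  have hxy1 : ∀ u ∈ ({x, y} : Set V), u ∈ W₁ := by
    rintro u (rfl | hu)
    · exact hx
    · rw [Set.mem_singleton_iff] at hu
      rw [hu]; exact hy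
  -- the first part
  obtain ⟨S₁, hS₁⟩ := ih Z W₁ {x, y} L hn1 (ncard_pair_le x y)
    { conn := h.conn
      ne := h.ne
      disj := h.disj.mono_right hs1
      sub := fun u hu => (ho hs1 u).2 ⟨hxy1 u hu, h.sub hu⟩
      clique := h.clique
      cardB := h.cardB
      cardO := fun u hu huB => h.cardO u ((ho hs1 u).1 hu).2 huB
      card5 := fun u hu huo => h.card5 u (hs1 hu) fun h1 => huo ((ho hs1 u).2 ⟨hu, h1⟩) }
  -- the second part
  obtain ⟨S₂, hS₂⟩ := ih Z W₂ (W₁ ∩ W₂) (fun u => if u ∈ W₁ then S₁ u else L u) hn2 hcard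
    { conn := h.conn
      ne := h.ne
      disj := h.disj.mono_right hs2
      sub := fun u hu => (ho hs2 u).2 ⟨hu.2, hout hu⟩
      clique := fun u hu w hw huw => by
        have h1 := hcl u hu w hw huw
        refine ⟨h1, ?_⟩
        simp only [if_pos hu.1, if_pos hw.1]
        exact hS₁.2 u hu.1 w hw.1 h1
      cardB := fun u hu => by
        simp only [if_pos hu.1]
        exact (hS₁.1 u hu.1).2
      cardO := fun u hu huB => by
        have h1 := (ho hs2 u).1 hu
        have h2 : u ∉ W₁ := fun h2 => huB ⟨h2, h1.1⟩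
        simp only [if_neg h2]
        exact h.cardO u h1.2 fun h3 => h2 (hxy1 u h3)
      card5 := fun u hu huo => by
        have h1 : u ∉ outer G Z W := fun h1 => huo ((ho hs2 u).2 ⟨hu, h1⟩)
        have h2 : u ∉ W₁ := fun h2 => h1 (hout ⟨h2, hu⟩)
        simp only [if_neg h2]
        exact h.card5 u (hs2 hu) h1 }
  have heq : ∀ u ∈ W₁ ∩ W₂, S₂ u = S₁ u := by
    intro u hu
    have h1 := hS₂.1 u hu.2
    simp only [if_pos hu.1] at h1
    exact Finset.eq_of_subset_of_card_le h1.1 (by rw [h1.2, (hS₁.1 u hu.1).2])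
  refine ⟨fun u => if u ∈ W₁ then S₁ u else S₂ u, ?_, ?_⟩
  · intro u hu
    by_cases hu1 : u ∈ W₁
    · simp only [if_pos hu1]
      exact hS₁.1 u hu1
    · have hu2 : u ∈ W₂ := by
        rw [← hU] at hu
        exact hu.resolve_left hu1
      have h1 := hS₂.1 u hu2
      simp only [if_neg hu1] at h1 ⊢
      exact h1
  · have key : ∀ u ∈ W₁, ∀ w ∈ W₂, w ∉ W₁ → G.Adj u w → Disjoint (S₁ u) (S₂ w) := by
      intro u hu w hw hw1 huw
      have hu2 : u ∈ W₂ := by
        by_contra hu2
        exact hno u ⟨hu, hu2⟩ w ⟨hw, hw1⟩ huw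
      rw [← heq u ⟨hu, hu2⟩]
      exact hS₂.2 u hu2 w hw huw
    intro u hu w hw huw
    rw [← hU] at hu hw
    by_cases hu1 : u ∈ W₁
    · by_cases hw1 : w ∈ W₁
      · simp only [if_pos hu1, if_pos hw1]
        exact hS₁.2 u hu1 w hw1 huw
      · simp only [if_pos hu1, if_neg hw1]
        exact key u hu1 w (hw.resolve_left hw1) hw1 huw
    · by_cases hw1 : w ∈ W₁
      · simp only [if_neg hu1, if_pos hw1]
        exact (key w hw1 u (hu.resolve_left hu1) hu1 huw.symm).symm
      · simp only [if_neg hu1, if_neg hw1]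
        exact hS₂.2 u (hu.resolve_left hu1) w (hw.resolve_left hw1) huw

/-- The structural hypothesis on `G`. -/
def SepOrGood (G : SimpleGraph V) : Prop :=
  ∀ (Z W : Set V) (x y : V), Conn G Z → Z.Nonempty → Disjoint Z W → x ∈ outer G Z W →
    y ∈ outer G Z W → G.Adj x y → (∃ v ∈ outer G Z W, v ≠ x ∧ v ≠ y) →
    Sep G Z W x y ∨ ∃ v, Good G Z W x y v

/-- Two precoloured vertices. -/
lemma case_two (hG : SepOrGood G) {n : ℕ} (ih : IH G b n) {Z W : Set V} {L : V → Finset ℤ}
    (hn : W.ncard = n) {x y : V} (hxy : x ≠ y) (h : Hyp G b Z W {x, y} L) :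
    ∃ S, ColF G b W L S := by
  have hxB : x ∈ ({x, y} : Set V) := Or.inl rfl
  have hyB : y ∈ ({x, y} : Set V) := Or.inr rfl
  have hadj := h.clique x hxB y hyB hxy
  have hB2 : ({x, y} : Set V).ncard ≤ 2 := ncard_pair_le x y
  by_cases hO : ∃ v ∈ outer G Z W, v ≠ x ∧ v ≠ y
  · rcases hG Z W x y h.conn h.ne h.disj (h.sub hxB) (h.sub hyB) hadj.1 hO with hs | ⟨v, hv⟩
    · exact of_sep ih hn h hs
    · obtain ⟨hvO, hvx, hvy, hv⟩ := hv
      have hvB : v ∉ ({x, y} : Set V) := by
        rintro (h1 | h1)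
        · exact hvx h1
        · exact hvy h1
      rcases hv with hv | ⟨z, _, _, hv | hv⟩
      · have h1 : b ≤ (L v \ (L x ∪ L y)).card := by
          have h2 := Finset.le_card_sdiff (L x ∪ L y) (L v)
          have h3 := h.cardO v hvO hvB
          have h4 := h.cardB x hxB
          have h5 := h.cardB y hyB
          have h6 := Finset.card_union_le (L x) (L y)
          omega
        obtain ⟨T, hT, hTb⟩ := Finset.exists_subset_card_eq h1
        have h7 : Disjoint T (L x ∪ L y) := (Finset.disjoint_sdiff.mono_right hT).symm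
        refine remove_fixed ih hn hB2 h hvO (hT.trans Finset.sdiff_subset) hTb ?_
        intro u hu hvu
        rcases hv u hu hvu with rfl | rfl
        · exact ⟨hxB, h7.mono_right Finset.subset_union_left⟩
        · exact ⟨hyB, h7.mono_right Finset.subset_union_right⟩
      · exact remove_double ih hn hB2 h hvO hvB hxB hv
      · exact remove_double ih hn hB2 h hvO hvB hyB hv
  · push Not at hO
    refine remove_fixed ih hn hB2 h (h.sub hxB) (Finset.Subset.refl (L x)) (h.cardB x hxB) ?_
    intro u hu hxu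
    have hux : u ≠ x := hxu.ne'
    have huy : u = y := hO u hu hux
    subst huy
    exact ⟨hyB, hadj.2⟩

/-- One precoloured vertex. -/
lemma case_one (hG : SepOrGood G) {n : ℕ} (ih : IH G b n) {Z W : Set V} {L : V → Finset ℤ}
    (hn : W.ncard = n) {x : V} (h : Hyp G b Z W {x} L) : ∃ S, ColF G b W L S := by
  classical
  have hxB : x ∈ ({x} : Set V) := rfl
  by_cases hy : ∃ y ∈ outer G Z W, G.Adj x y
  · obtain ⟨y, hyO, hxy⟩ := hy
    have hyx : y ≠ x := hxy.ne'
    have h1 : b ≤ (L y \ L x).card := by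
      have h2 := Finset.le_card_sdiff (L x) (L y)
      have h3 := h.cardO y hyO hyx
      have h4 := h.cardB x hxB
      omega
    obtain ⟨T, hT, hTb⟩ := Finset.exists_subset_card_eq h1
    have hxT : Disjoint (L x) T := Finset.disjoint_sdiff.mono_right hT
    obtain ⟨S, hS⟩ := case_two hG ih (Z := Z) (L := Function.update L y T) hn hyx.symm
      { conn := h.conn
        ne := h.ne
        disj := h.disj
        sub := by
          rintro u (rfl | hu)
          · exact h.sub rfl
          · rw [Set.mem_singleton_iff] at hu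
            rw [hu]; exact hyO
        clique := by
          rintro u (rfl | hu) w (rfl | hw) huw
          · exact absurd rfl huw
          · rw [Set.mem_singleton_iff] at hw
            subst hw
            rw [Function.update_self, Function.update_of_ne hyx.symm]
            exact ⟨hxy, hxT⟩
          · rw [Set.mem_singleton_iff] at hu
            subst hu
            rw [Function.update_self, Function.update_of_ne hyx.symm]
            exact ⟨hxy.symm, hxT.symm⟩
          · rw [Set.mem_singleton_iff] at hu hw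
            exact absurd (hu.trans hw.symm) huw
        cardB := by
          rintro u (rfl | hu)
          · rw [Function.update_of_ne hyx.symm]
            exact h.cardB u rfl
          · rw [Set.mem_singleton_iff] at hu
            subst hu
            rw [Function.update_self]
            exact hTb
        cardO := fun u hu huB => by
          have hux : u ≠ x := fun h5 => huB (Or.inl h5)
          have huy : u ≠ y := fun h5 => huB (Or.inr h5)
          rw [Function.update_of_ne huy]
          exact h.cardO u hu hux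
        card5 := fun u hu huo => by
          have huy : u ≠ y := fun h5 => huo (h5 ▸ hyO)
          rw [Function.update_of_ne huy]
          exact h.card5 u hu huo }
    refine ⟨S, fun u hu => ⟨?_, (hS.1 u hu).2⟩, hS.2⟩
    have h6 := (hS.1 u hu).1
    by_cases huy : u = y
    · subst huy
      rw [Function.update_self] at h6
      exact h6.trans (hT.trans Finset.sdiff_subset)
    · rwa [Function.update_of_ne huy] at h6
  · push Not at hy
    refine remove_fixed ih hn (by rw [Set.ncard_singleton]; omega) h (h.sub hxB)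
      (Finset.Subset.refl (L x)) (h.cardB x hxB) ?_
    intro u hu hxu
    exact absurd hxu (hy u hu)

/-- No precoloured vertex. -/
lemma case_zero (hG : SepOrGood G) {n : ℕ} (ih : IH G b n) {Z W : Set V} {L : V → Finset ℤ}
    (hn : W.ncard = n) (h : Hyp G b Z W ∅ L) : ∃ S, ColF G b W L S := by
  classical
  by_cases hO : ∃ v, v ∈ outer G Z W
  · obtain ⟨v, hv⟩ := hO
    have h1 : b ≤ (L v).card := by
      have h3 := h.cardO v hv (Set.notMem_empty v)
      omega
    obtain ⟨T, hT, hTb⟩ := Finset.exists_subset_card_eq h1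
    obtain ⟨S, hS⟩ := case_one hG ih (Z := Z) (L := Function.update L v T) (x := v) hn
      { conn := h.conn
        ne := h.ne
        disj := h.disj
        sub := by
          intro u hu
          rw [Set.mem_singleton_iff] at hu
          rw [hu]; exact hv
        clique := by
          intro u hu w hw huw
          rw [Set.mem_singleton_iff] at hu hw
          exact absurd (hu.trans hw.symm) huw
        cardB := by
          intro u hu
          rw [Set.mem_singleton_iff] at hu
          subst hu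
          rw [Function.update_self]
          exact hTb
        cardO := fun u hu huB => by
          rw [Function.update_of_ne (fun h5 => huB h5)]
          exact h.cardO u hu (Set.notMem_empty u)
        card5 := fun u hu huo => by
          have huy : u ≠ v := fun h5 => huo (h5 ▸ hv)
          rw [Function.update_of_ne huy]
          exact h.card5 u hu huo }
    refine ⟨S, fun u hu => ⟨?_, (hS.1 u hu).2⟩, hS.2⟩
    have h6 := (hS.1 u hu).1
    by_cases huy : u = v
    · subst huy
      rw [Function.update_self] at h6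
      exact h6.trans hT
    · rwa [Function.update_of_ne huy] at h6
  · push Not at hO
    have hL : ∀ u ∈ W, 5 * b ≤ (L u).card := fun u hu => h.card5 u hu (hO u)
    rcases W.eq_empty_or_nonempty with hW | ⟨v, hv⟩
    · subst hW
      exact ⟨fun _ => ∅, fun u hu => absurd hu (Set.notMem_empty u),
        fun u hu => absurd hu (Set.notMem_empty u)⟩
    · have h1 : b ≤ (L v).card := by
        have h3 := hL v hv
        omega
      obtain ⟨T, hT, hTb⟩ := Finset.exists_subset_card_eq h1
      obtain ⟨S, hS⟩ := ih _ _ _ _ (card_remove hv hn) (by rw [Set.ncard_empty]; omega)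
        (Hyp.start (G := G) (v := v) (T := T) (by omega) hL)
      refine ⟨_, hS.add (fun u => del_subset v ∅ T L u) hT hTb ?_⟩
      intro u hu hvu
      exact (del_disj hvu (Set.notMem_empty u)).mono_right (hS.1 u hu).1

theorem main (hG : SepOrGood G) (b n : ℕ) : IH G b n := by
  induction n with
  | zero =>
    intro Z W B L hn
    exact absurd hn (Nat.not_lt_zero _)
  | succ n ih =>
    intro Z W B L hn hB h
    rcases Nat.lt_succ_iff_lt_or_eq.1 hn with hn | hn
    · exact ih Z W B L hn hB h
    · rcases Nat.lt_or_ge B.ncard 1 with h0 | h1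
      · have : B = ∅ := by
          rw [← Set.ncard_eq_zero (Set.toFinite B)]
          omega
        subst this
        exact case_zero hG ih hn h
      · rcases Nat.lt_or_ge B.ncard 2 with h2 | h2
        · obtain ⟨x, hx⟩ := Set.ncard_eq_one.1 (by omega : B.ncard = 1)
          subst hx
          exact case_one hG ih hn h
        · obtain ⟨x, y, hxy, hx⟩ := Set.ncard_eq_two.1 (by omega : B.ncard = 2)
          subst hx
          exact case_two hG ih hn hxy h

theorem choosable_of_sepOrGood (hG : SepOrGood G) (b : ℕ) : Choosable G (5 * b) b := by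
  classical
  intro L hL
  rcases isEmpty_or_nonempty V with hV | ⟨⟨v⟩⟩
  · exact ⟨fun _ => ∅, fun v => (hV.false v).elim, fun v => (hV.false v).elim⟩
  have h1 : b ≤ (L v).card := by
    rw [hL v]; omega
  obtain ⟨T, hT, hTb⟩ := Finset.exists_subset_card_eq h1
  obtain ⟨S, hS⟩ := main hG b (((Set.univ : Set V) \ {v}).ncard + 1) _ _ _ _ (Nat.lt_succ_self _)
    (by rw [Set.ncard_empty]; omega)
    (Hyp.start (G := G) (v := v) (T := T) (W := Set.univ) (L := L) (by omega)
      (fun u _ => (hL u).ge))
  have h2 := hS.add (fun u => del_subset v ∅ T L u) hT hTb (by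
    intro u hu hvu
    exact (del_disj hvu (Set.notMem_empty u)).mono_right (hS.1 u hu).1)
  exact ⟨_, fun u => h2.1 u trivial, fun u w huw => h2.2 u trivial w trivial huw⟩

end Five

end BDP
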