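import Pool.Agent.Work.MP_0890ba_co.BD.Five

/-!
# Mixing set colourings

Set colourings of a graph of bounded order from large lists can be mixed in equal proportions.
-/

set_option linter.unusedSectionVars false

namespace BDP

namespace Hub

open Finset Classical

/-- Splitting a finite set of colours evenly. -/
lemma equi (k : ℕ) (hk : 0 < k) (D : Finset ℤ) :
    ∃ g : ℤ → Fin k, ∀ i, D.card / k ≤ (D.filter fun c => g c = i).card := by
  let e := D.equivFin
  refine ⟨fun c => if h : c ∈ D then ⟨(e ⟨c, h⟩ : ℕ) % k, Nat.mod_lt _ hk⟩ else ⟨0, hk⟩,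
    fun i => ?_⟩
  have h1 : ∀ j : Fin (D.card / k), (j : ℕ) * k + i < D.card := by
    intro j
    have h2 := j.2
    have h3 := i.2
    have h4 : (j : ℕ) * k + k ≤ (D.card / k) * k := by
      calc (j : ℕ) * k + k = ((j : ℕ) + 1) * k := by ring
        _ ≤ (D.card / k) * k := Nat.mul_le_mul_right _ h2
    have h5 := Nat.div_mul_le_self D.card k
    omega
  have h6 := Finset.card_le_card_of_injOn (s := (Finset.univ : Finset (Fin (D.card / k))))
    (t := D.filter fun c => (if h : c ∈ D then (⟨(e ⟨c, h⟩ : ℕ) % k, Nat.mod_lt _ hk⟩ : Fin k)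
      else ⟨0, hk⟩) = i)
    (fun j => ((e.symm ⟨(j : ℕ) * k + i, h1 j⟩ : D) : ℤ))
    (by
      intro j _
      rw [Finset.mem_coe, mem_filter]
      refine ⟨(e.symm _).2, ?_⟩
      rw [dif_pos (e.symm _).2]
      apply Fin.ext
      simp only [Subtype.coe_eta, Equiv.apply_symm_apply]
      rw [Nat.add_comm, Nat.add_mul_mod_self_right, Nat.mod_eq_of_lt i.2])
    (by
      intro j _ j' _ h
      have h7 := e.symm.injective (Subtype.ext h)
      have h8 : (j : ℕ) * k + i = (j' : ℕ) * k + i := congrArg Fin.val h7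
      apply Fin.ext
      exact Nat.eq_of_mul_eq_mul_right hk (by omega))
  simpa using h6

/-- Splitting a finite set of colours evenly, with labels in a finite type. -/
lemma equi' {Ω : Type} [Fintype Ω] [Nonempty Ω] (D : Finset ℤ) :
    ∃ g : ℤ → Ω, ∀ i, D.card / Fintype.card Ω ≤ (D.filter fun c => g c = i).card := by
  obtain ⟨g, hg⟩ := equi (Fintype.card Ω) Fintype.card_pos D
  let e := Fintype.equivFin Ω
  refine ⟨fun c => e.symm (g c), fun i => ?_⟩
  refine (hg (e i)).trans (card_le_card ?_)
  intro c hc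
  rw [mem_filter] at hc ⊢
  refine ⟨hc.1, ?_⟩
  show e.symm (g c) = i
  rw [hc.2, Equiv.symm_apply_apply]

/-- Mixing: every colour chooses one of the colourings `S ω`; up to a constant, every vertex gets
its average number of colours. -/
theorem mix {ι Ω : Type} [Fintype ι] [Fintype Ω] [Nonempty Ω] (A : ι → Finset ℤ)
    (S : Ω → ι → Finset ℤ) (hS : ∀ ω v, S ω v ⊆ A v) :
    ∃ f : ℤ → Ω, ∀ v, ∑ ω, (S ω v).card ≤
      Fintype.card Ω * ((A v).filter fun c => c ∈ S (f c) v).card +
        2 ^ (Fintype.card ι * Fintype.card Ω) * (Fintype.card Ω * Fintype.card Ω) := by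
  set k := Fintype.card Ω with hk
  let D : Finset ℤ := univ.biUnion A
  let τ : ℤ → Finset (ι × Ω) := fun c => univ.filter fun p => c ∈ S p.2 p.1
  have hD : ∀ v, A v ⊆ D := fun v => subset_biUnion_of_mem A (mem_univ v)
  choose g hg using fun T : Finset (ι × Ω) => equi' (Ω := Ω) (D.filter fun c => τ c = T)
  refine ⟨fun c => g (τ c) c, fun v => ?_⟩
  have hτ : ∀ c ω, (v, ω) ∈ τ c ↔ c ∈ S ω v := by
    intro c ω
    simp [τ]
  -- left side
  have h1 : ∀ ω, (S ω v).card = ∑ T : Finset (ι × Ω),
      if (v, ω) ∈ T then (D.filter fun c => τ c = T).card else 0 := by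
    intro ω
    have h2 := card_eq_sum_card_fiberwise (f := τ) (s := S ω v) (t := univ)
      (fun _ _ => mem_coe.2 (mem_univ _))
    rw [h2]
    refine sum_congr rfl fun T _ => ?_
    split_ifs with h
    · congr 1
      ext c
      simp only [mem_filter]
      constructor
      · rintro ⟨h3, h4⟩
        exact ⟨hD v (hS ω v h3), h4⟩
      · rintro ⟨h3, h4⟩
        exact ⟨(hτ c ω).1 (h4 ▸ h), h4⟩
    · rw [card_eq_zero, filter_eq_empty_iff]
      intro c hc hcT
      exact h (hcT ▸ (hτ c ω).2 hc)
  -- right side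
  have h5 : ∀ T : Finset (ι × Ω), ∑ ω, (if (v, ω) ∈ T then
      (D.filter fun c => τ c = T).card / k else 0) ≤
      (((A v).filter fun c => c ∈ S (g (τ c) c) v).filter fun c => τ c = T).card := by
    intro T
    have h6 : (((A v).filter fun c => c ∈ S (g (τ c) c) v).filter fun c => τ c = T) =
        (D.filter fun c => τ c = T).filter fun c => (v, g T c) ∈ T := by
      ext c
      simp only [mem_filter]
      constructor
      · rintro ⟨⟨h7, h8⟩, h9⟩
        refine ⟨⟨hD v h7, h9⟩, ?_⟩
        rw [← h9]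
        exact (hτ c _).2 h8
      · rintro ⟨⟨h7, h8⟩, h9⟩
        have h10 : c ∈ S (g (τ c) c) v := by
          rw [← hτ c, h8]
          exact h9
        exact ⟨⟨hS _ _ h10, h10⟩, h8⟩
    rw [h6, card_eq_sum_card_fiberwise (f := g T)
      (s := (D.filter fun c => τ c = T).filter fun c => (v, g T c) ∈ T) (t := (univ : Finset Ω))
      (fun _ _ => mem_coe.2 (mem_univ _))]
    refine sum_le_sum fun ω _ => ?_
    split_ifs with h
    · refine (hg T ω).trans (card_le_card ?_)
      intro c hc
      rw [mem_filter] at hc ⊢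
      refine ⟨?_, hc.2⟩
      rw [mem_filter]
      refine ⟨hc.1, ?_⟩
      rw [hc.2]
      exact h
    · exact Nat.zero_le _
  have h7 : ∑ T : Finset (ι × Ω), ∑ ω, (if (v, ω) ∈ T then
      (D.filter fun c => τ c = T).card / k else 0) ≤
      ((A v).filter fun c => c ∈ S (g (τ c) c) v).card := by
    rw [card_eq_sum_card_fiberwise (f := τ) (s := (A v).filter fun c => c ∈ S (g (τ c) c) v)
      (t := (univ : Finset (Finset (ι × Ω)))) (fun _ _ => mem_coe.2 (mem_univ _))]
    exact sum_le_sum fun T _ => h5 T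
  calc ∑ ω, (S ω v).card = ∑ ω, ∑ T : Finset (ι × Ω),
        (if (v, ω) ∈ T then (D.filter fun c => τ c = T).card else 0) :=
        sum_congr rfl fun ω _ => h1 ω
    _ = ∑ T : Finset (ι × Ω), ∑ ω,
        (if (v, ω) ∈ T then (D.filter fun c => τ c = T).card else 0) := sum_comm
    _ ≤ ∑ T : Finset (ι × Ω), ∑ ω, (k * (if (v, ω) ∈ T then
        (D.filter fun c => τ c = T).card / k else 0) + k) := by
        refine sum_le_sum fun T _ => sum_le_sum fun ω _ => ?_
        split_ifs
        · have hk0 : 0 < k := Fintype.card_pos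
          have h8 := Nat.div_add_mod (D.filter fun c => τ c = T).card k
          have h9 := Nat.mod_lt (D.filter fun c => τ c = T).card hk0
          omega
        · exact Nat.zero_le _
    _ = k * (∑ T : Finset (ι × Ω), ∑ ω, (if (v, ω) ∈ T then
        (D.filter fun c => τ c = T).card / k else 0)) +
          2 ^ (Fintype.card ι * k) * (k * k) := by
        simp only [sum_add_distrib, mul_sum, sum_const, card_univ, smul_eq_mul]
        rw [Fintype.card_finset, Fintype.card_prod, ← hk]
    _ ≤ _ := by
        gcongr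

end Hub

end BDP
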