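import Pool.Agent.Work.MP_0890ba_co.BD.ExtC
import Pool.Agent.Work.MP_0890ba_co.BD.Count

/-!
# Transfer: a family of colourings of the common neighbours is extended to a component
-/

set_option linter.unusedSectionVars false

namespace BDP

namespace Hub

open Finset Classical Pool.Agent.Work.MP_0890ba_co

variable {V : Type} {G : SimpleGraph V}

/-- Membership in a filtered set, for any decision procedure. -/
lemma mem_filt {α : Type} {p : α → Prop} {i : DecidablePred p} {s : Finset α} {a : α} :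
    a ∈ @Finset.filter α p i s ↔ a ∈ s ∧ p a := Finset.mem_filter

/-- Counting pairs of a colour and an index. -/
lemma card_pairs {Ω : Type} [Fintype Ω] (D : Finset ℤ) (S : Ω → Finset ℤ) (hS : ∀ ω, S ω ⊆ D) :
    ((D ×ˢ (univ : Finset Ω)).filter fun z => z.1 ∈ S z.2).card = ∑ ω, (S ω).card := by
  rw [card_filter, sum_product_right]
  refine sum_congr rfl fun ω _ => ?_
  rw [← card_filter]
  congr 1
  ext c
  rw [mem_filter]
  exact ⟨fun h => h.2, fun h => ⟨hS ω h, h⟩⟩

/-- The family of colourings of the set `N` is extended to the component `C`. -/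
theorem comp_family [Fintype V] (hG : Five.SepOrGood G) {Z : Finset V}
    (hcl : ∀ u ∈ Z, ∀ v ∈ Z, u ≠ v → G.Adj u v) (hne : Z.Nonempty) (hZ : Z.card ≤ 2) {C : Set V}
    (hCZ : ∀ v ∈ C, v ∉ Z) (h1 : ∀ v ∈ C, hn G Z v ≤ 1) {N : Finset V} (hN2 : N.card ≤ 2)
    (hNZ : ∀ x ∈ N, x ∉ Z) (hNC : ∀ x ∈ N, x ∉ C) (hNh : ∀ x ∈ N, hn G Z x = 2)
    {φ : V → Fin 4} (hφ : ∀ u v, G.Adj u v → u ∉ Z → v ∉ Z → φ u ≠ φ v)
    {A : V → Finset ℤ} {β : ℕ} (hA : ∀ v ∈ C, 5 * β ≤ (A v).card + hn G Z v * β)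
    (hAN : ∀ x ∈ N, (A x).card = 3 * β) {Ω : Type} [Fintype Ω] (U : Ω → V → Finset ℤ)
    (hU : ∀ ω, ∀ x ∈ N, U ω x ⊆ A x) (hUc : ∀ x ∈ N, ∑ ω, (U ω x).card = Fintype.card Ω * β)
    {M : ℕ} (hst : ∀ S : V → Finset ℤ, (∀ x ∈ N, S x ⊆ A x) →
      (∀ x ∈ N, ∀ y ∈ N, G.Adj x y → Disjoint (S x) (S y)) → ∀ c : ℤ,
      29 * M ≤ (univ.filter fun ω => ∀ x ∈ N, (c ∈ U ω x ↔ c ∈ S x)).card) :
    ∃ S : Ω → V → Finset ℤ, (∀ ω, ∀ v ∈ C, S ω v ⊆ A v) ∧
      (∀ ω, ∀ u ∈ C, ∀ v ∈ C, G.Adj u v → Disjoint (S ω u) (S ω v)) ∧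
      (∀ ω, ∀ v ∈ C, ∀ x ∈ N, G.Adj v x → Disjoint (S ω v) (U ω x)) ∧
      ∀ v ∈ C, (Fintype.card Ω + M) * β ≤ ∑ ω, (S ω v).card := by
  -- the aware tickets
  obtain ⟨Ω', hΩ', S', hc', hS', hsum'⟩ := tickets_eq hG hcl hZ (K := C ∪ N)
    (by
      rintro v (hv | hv)
      · exact hCZ v hv
      · exact hNZ v hv)
    (φ := φ)
    (by
      intro u hu v hv huv
      refine hφ u v huv ?_ ?_
      · rcases hu with hu | hu
        · exact hCZ u hu
        · exact hNZ u hu
      · rcases hv with hv | hv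
        · exact hCZ v hv
        · exact hNZ v hv)
    (A := A) (β := β)
    (by
      rintro v (hv | hv)
      · exact hA v hv
      · rw [hAN v hv, hNh v hv]
        omega)
  have hc2 : Fintype.card Ω' = 19 + 5 * N.card := by
    rw [hc']
    congr 3
    ext v
    refine mem_filt.trans ?_
    constructor
    · rintro ⟨-, hv | hv, h2⟩
      · have := h1 v hv
        omega
      · exact hv
    · exact fun hv => ⟨mem_univ _, Or.inr hv, hNh v hv⟩
  -- trimming
  have htr : ∀ x, ∃ T : Ω' → Finset ℤ, x ∈ N → (∀ ω, T ω ⊆ S' ω x) ∧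
      ∑ ω, (T ω).card = Fintype.card Ω' * β := by
    intro x
    by_cases hx : x ∈ N
    · obtain ⟨T, h2, h3⟩ := trim (fun ω => S' ω x) (m := Fintype.card Ω' * β)
        ((Nat.mul_le_mul_right β (Nat.le_succ _)).trans (hsum' x (Or.inr hx)))
      exact ⟨T, fun _ => ⟨h2, h3⟩⟩
    · exact ⟨fun _ => ∅, fun h => absurd h hx⟩
  choose Tr hTr using htr
  let S2 : Ω' → V → Finset ℤ := fun ω v => if v ∈ N then Tr v ω else S' ω v
  have hS2N : ∀ ω, ∀ x ∈ N, S2 ω x = Tr x ω := fun ω x hx => if_pos hx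
  have hS2C : ∀ ω, ∀ v ∈ C, S2 ω v = S' ω v := fun ω v hv =>
    if_neg fun h => hNC v h hv
  have hS2S : ∀ ω, ∀ v, v ∈ C ∨ v ∈ N → S2 ω v ⊆ S' ω v := by
    rintro ω v (hv | hv)
    · rw [hS2C ω v hv]
    · rw [hS2N ω v hv]
      exact (hTr v hv).1 ω
  have hS2A : ∀ ω, ∀ v, v ∈ C ∨ v ∈ N → S2 ω v ⊆ A v := fun ω v hv =>
    (hS2S ω v hv).trans ((hS' ω).1 v hv)
  have hS2d : ∀ ω, ∀ u, u ∈ C ∨ u ∈ N → ∀ v, v ∈ C ∨ v ∈ N → G.Adj u v →
      Disjoint (S2 ω u) (S2 ω v) := fun ω u hu v hv huv =>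
    ((hS' ω).2 u hu v hv huv).mono (hS2S ω u hu) (hS2S ω v hv)
  have hN19 : Fintype.card Ω' ≤ 29 := by omega
  -- the injections
  have hPc : Fintype.card (Ω' × Fin M) = Fintype.card Ω' * M := by
    rw [Fintype.card_prod, Fintype.card_fin]
  have hinj : ∀ c : ℤ, ∃ ι : Ω' × Fin M → Ω, Function.Injective ι ∧
      ∀ p, ∀ x ∈ N, (c ∈ U (ι p) x ↔ c ∈ S2 p.1 x) := by
    intro c
    refine match_inj (R := fun (p : Ω' × Fin M) ω => ∀ x ∈ N, (c ∈ U ω x ↔ c ∈ S2 p.1 x)) ?_
    intro p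
    rw [hPc]
    refine (Nat.mul_le_mul_right M hN19).trans ((hst (S2 p.1)
      (fun x hx => hS2A p.1 x (Or.inr hx))
      (fun x hx y hy hxy => hS2d p.1 x (Or.inr hx) y (Or.inr hy) hxy) c).trans (card_le_card ?_))
    exact fun ω hω => mem_filt.2 ⟨mem_univ _, (mem_filt.1 hω).2⟩
  choose ι hι hιst using hinj
  set P : ℕ := Fintype.card Ω' * M with hP
  have hPΩ : P ≤ Fintype.card Ω := by
    rw [← hPc]
    exact Fintype.card_le_of_injective (ι 0) (hι 0)
  obtain ⟨R, hR⟩ : ∃ R, Fintype.card Ω = P + R := ⟨Fintype.card Ω - P, by omega⟩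
  obtain ⟨enc, henc⟩ := exists_enc (Ω := Ω)
  let J : ℤ × (Ω' × Fin M) → ℤ × Ω := fun z => (z.1, ι z.1 z.2)
  have hJ : Function.Injective J := by
    rintro ⟨c, p⟩ ⟨c', p'⟩ h
    have h2 : c = c' := congrArg Prod.fst h
    subst h2
    have h3 : ι c p = ι c p' := congrArg Prod.snd h
    rw [hι c h3]
  -- the pairs of the aware part
  let Q : V → Finset (ℤ × (Ω' × Fin M)) := fun v =>
    ((A v) ×ˢ univ).filter fun z => z.1 ∈ S2 z.2.1 v
  have hQ : ∀ v, v ∈ C ∨ v ∈ N → (Q v).card = M * ∑ ω, (S2 ω v).card := by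
    intro v hv
    show (((A v) ×ˢ (univ : Finset (Ω' × Fin M))).filter fun z => z.1 ∈ S2 z.2.1 v).card = _
    rw [card_pairs (A v) (fun p : Ω' × Fin M => S2 p.1 v) (fun p => hS2A p.1 v hv),
      Fintype.sum_prod_type]
    simp only [sum_const, card_univ, Fintype.card_fin, smul_eq_mul]
    rw [← mul_sum]
  -- the rest
  let Ar : V → Finset (ℤ × Ω) := fun v =>
    ((A v) ×ˢ univ).filter fun z => ∀ p, ι z.1 p ≠ z.2
  have hAr : ∀ v, (Ar v).card = (A v).card * R := by
    intro v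
    have h2 : (Ar v).card + (A v).card * P = (A v).card * Fintype.card Ω := by
      have h3 := card_filter_add_card_filter_not (s := (A v) ×ˢ (univ : Finset Ω))
        (fun z => ∀ p, ι z.1 p ≠ z.2)
      rw [card_product, card_univ] at h3
      rw [← h3]
      congr 1
      have h4 : (((A v) ×ˢ (univ : Finset Ω)).filter fun z => ¬ ∀ p, ι z.1 p ≠ z.2) =
          ((A v) ×ˢ (univ : Finset (Ω' × Fin M))).image J := by
        ext ⟨c, ω⟩
        rw [mem_filter, mem_image, mem_product]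
        constructor
        · rintro ⟨⟨h5, -⟩, h6⟩
          rw [not_forall] at h6
          obtain ⟨p, hp⟩ := h6
          rw [not_not] at hp
          exact ⟨(c, p), mem_product.2 ⟨h5, mem_univ _⟩, Prod.ext rfl hp⟩
        · rintro ⟨⟨c', p⟩, h5, h6⟩
          have h7 : c' = c := congrArg Prod.fst h6
          subst h7
          exact ⟨⟨(mem_product.1 h5).1, mem_univ _⟩, fun h8 => h8 p (congrArg Prod.snd h6)⟩
      rw [h4, card_image_of_injective _ hJ, card_product, card_univ, hPc]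
    rw [hR, Nat.mul_add] at h2
    omega
  let F : V → Finset (ℤ × Ω) := fun x =>
    (((A x) ×ˢ univ).filter fun z => z.1 ∈ U z.2 x).filter fun z => ∀ p, ι z.1 p ≠ z.2
  have hF : ∀ x ∈ N, (F x).card = R * β := by
    intro x hx
    have h2 : (F x).card + P * β = Fintype.card Ω * β := by
      have h3 := card_filter_add_card_filter_not
        (s := ((A x) ×ˢ (univ : Finset Ω)).filter fun z => z.1 ∈ U z.2 x)
        (fun z => ∀ p, ι z.1 p ≠ z.2)
      rw [card_pairs (A x) (fun ω => U ω x) (fun ω => hU ω x hx), hUc x hx] at h3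
      rw [← h3]
      congr 1
      have h4 : ((((A x) ×ˢ (univ : Finset Ω)).filter fun z => z.1 ∈ U z.2 x).filter
          fun z => ¬ ∀ p, ι z.1 p ≠ z.2) = (Q x).image J := by
        ext ⟨c, ω⟩
        rw [mem_filter, mem_image, mem_filter, mem_product]
        constructor
        · rintro ⟨⟨⟨h5, -⟩, h5'⟩, h6⟩
          rw [not_forall] at h6
          obtain ⟨p, hp⟩ := h6
          rw [not_not] at hp
          refine ⟨(c, p), mem_filter.2 ⟨mem_product.2 ⟨h5, mem_univ _⟩, ?_⟩, Prod.ext rfl hp⟩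
          have h7 : ι c p = ω := hp
          have h8 : c ∈ U ω x := h5'
          rw [← h7] at h8
          exact (hιst c p x hx).1 h8
        · rintro ⟨⟨c', p⟩, h5, h6⟩
          have h7 : c' = c := congrArg Prod.fst h6
          subst h7
          have h8 : ι c' p = ω := congrArg Prod.snd h6
          obtain ⟨h9, h10⟩ := mem_filter.1 h5
          refine ⟨⟨⟨(mem_product.1 h9).1, mem_univ _⟩, ?_⟩, fun h11 => h11 p h8⟩
          show c' ∈ U ω x
          rw [← h8]
          exact (hιst c' p x hx).2 h10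
      rw [h4, card_image_of_injective _ hJ, hQ x (Or.inr hx)]
      have h5 : ∑ ω, (S2 ω x).card = Fintype.card Ω' * β := by
        rw [← (hTr x hx).2]
        exact sum_congr rfl fun ω _ => by rw [hS2N ω x hx]
      rw [h5, hP]
      ring
    rw [hR, Nat.add_mul] at h2
    omega
  -- the adversarial extension
  obtain ⟨T, hT1, hT2, hT3⟩ := ext_comp hG hcl hne hCZ h1 hN2 hNZ hNC
    (fun x hx => by
      have h2 : 0 < hn G Z x := by
        rw [hNh x hx]
        omega
      obtain ⟨z, hz⟩ := card_pos.1 h2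
      exact ⟨z, (mem_filter.1 hz).1, (mem_filter.1 hz).2⟩)
    (A := fun v => (Ar v).image enc) (B := R * β)
    (fun v hv => by
      rw [card_image_of_injective _ henc, hAr]
      have h2 := Nat.mul_le_mul_left R (hA v hv)
      calc 5 * (R * β) = R * (5 * β) := by ring
        _ ≤ R * ((A v).card + hn G Z v * β) := h2
        _ = _ := by ring)
    (s := fun x => (F x).image enc)
    (fun x hx => by
      rw [card_image_of_injective _ henc, hF x hx])
  have hTA : ∀ v ∈ C, ∀ c ω, enc (c, ω) ∈ T v → c ∈ A v ∧ ∀ p, ι c p ≠ ω := by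
    intro v hv c ω h
    obtain ⟨z, hz, hz'⟩ := mem_image.1 (hT1.1 v hv h)
    have h2 := henc hz'
    subst h2
    obtain ⟨h3, h4⟩ := mem_filter.1 hz
    exact ⟨(mem_product.1 h3).1, h4⟩
  refine ⟨fun ω v => (A v).filter fun c => (∃ p, ι c p = ω ∧ c ∈ S2 p.1 v) ∨ enc (c, ω) ∈ T v,
    fun ω v _ => filter_subset _ _, fun ω u hu v hv huv => ?_, fun ω v hv x hx hvx => ?_,
    fun v hv => ?_⟩
  · rw [disjoint_left]
    intro c hc hc'
    rcases (mem_filter.1 hc).2 with ⟨p, hp, hcp⟩ | h2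
    · rcases (mem_filter.1 hc').2 with ⟨p', hp', hcp'⟩ | h3
      · have h4 := hι c (hp.trans hp'.symm)
        subst h4
        exact disjoint_left.1 (hS2d p.1 u (Or.inl hu) v (Or.inl hv) huv) hcp hcp'
      · exact (hTA v hv c ω h3).2 p hp
    · rcases (mem_filter.1 hc').2 with ⟨p', hp', hcp'⟩ | h3
      · exact (hTA u hu c ω h2).2 p' hp'
      · exact disjoint_left.1 (hT1.2 u hu v hv huv) h2 h3
  · rw [disjoint_left]
    intro c hc hc'
    rcases (mem_filter.1 hc).2 with ⟨p, hp, hcp⟩ | h2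
    · rw [← hp] at hc'
      exact disjoint_left.1 (hS2d p.1 v (Or.inl hv) x (Or.inr hx) hvx) hcp
        ((hιst c p x hx).1 hc')
    · have h3 := (hTA v hv c ω h2).2
      refine disjoint_left.1 (hT3 v hv x hx hvx) h2 (mem_image_of_mem enc ?_)
      exact mem_filter.2 ⟨mem_filter.2 ⟨mem_product.2 ⟨hU ω x hx hc', mem_univ _⟩, hc'⟩, h3⟩
  · -- counting
    have h2 : ∑ ω, ((A v).filter fun c => (∃ p, ι c p = ω ∧ c ∈ S2 p.1 v) ∨
        enc (c, ω) ∈ T v).card =
        (((A v) ×ˢ (univ : Finset Ω)).filter fun z => (∃ p, ι z.1 p = z.2 ∧ z.1 ∈ S2 p.1 v) ∨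
          enc (z.1, z.2) ∈ T v).card := by
      rw [← card_pairs (A v) _ (fun ω => filter_subset _ _)]
      congr 1
      ext ⟨c, ω⟩
      simp only [mem_filter, mem_product, mem_univ, and_true]
      exact ⟨fun h => ⟨h.1, h.2.2⟩, fun h => ⟨h.1, h.1, h.2⟩⟩
    rw [h2]
    have h3 : ((Q v).image J).card + ((T v).preimage enc henc.injOn).card ≤
        (((A v) ×ˢ (univ : Finset Ω)).filter fun z => (∃ p, ι z.1 p = z.2 ∧ z.1 ∈ S2 p.1 v) ∨
          enc (z.1, z.2) ∈ T v).card := by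
      rw [← card_union_of_disjoint]
      · refine card_le_card ?_
        intro z hz
        rcases mem_union.1 hz with h | h
        · obtain ⟨⟨c, p⟩, hcp, rfl⟩ := mem_image.1 h
          obtain ⟨h4, h5⟩ := mem_filter.1 hcp
          exact mem_filter.2 ⟨mem_product.2 ⟨(mem_product.1 h4).1, mem_univ _⟩,
            Or.inl ⟨p, rfl, h5⟩⟩
        · rw [mem_preimage] at h
          obtain ⟨c, ω⟩ := z
          exact mem_filter.2 ⟨mem_product.2 ⟨(hTA v hv c ω h).1, mem_univ _⟩, Or.inr h⟩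
      · rw [disjoint_left]
        intro z hz hz'
        obtain ⟨⟨c, p⟩, hcp, rfl⟩ := mem_image.1 hz
        rw [mem_preimage] at hz'
        exact (hTA v hv c _ hz').2 p rfl
    refine le_trans ?_ h3
    have h4 : ((T v).preimage enc henc.injOn).card = R * β := by
      rw [← hT2 v hv]
      have h5 : ((T v).preimage enc henc.injOn).image enc = T v := by
        rw [image_preimage]
        rw [filter_eq_self]
        intro c hc
        obtain ⟨z, -, hz⟩ := mem_image.1 (hT1.1 v hv hc)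
        exact ⟨z, hz⟩
      rw [← card_image_of_injective _ henc, h5]
    rw [h4, card_image_of_injective _ hJ, hQ v (Or.inl hv)]
    have h5 : (Fintype.card Ω' + 1) * β ≤ ∑ ω, (S2 ω v).card := by
      refine (hsum' v (Or.inl hv)).trans (le_of_eq ?_)
      exact sum_congr rfl fun ω _ => by rw [hS2C ω v hv]
    have h6 := Nat.mul_le_mul_left M h5
    rw [hR]
    calc (P + R + M) * β = M * ((Fintype.card Ω' + 1) * β) + R * β := by
          rw [hP]
          ring
      _ ≤ _ := Nat.add_le_add_right h6 _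

end Hub

end BDP
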