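import Pool.Agent.Work.MP_0890ba_co.BD.Trans
import Pool.Agent.Work.MP_0890ba_co.BD.Comp
import Pool.Agent.Work.MP_0890ba_co.BD.Lift

/-!
# Two precoloured adjacent vertices: a uniform gain
-/

set_option linter.unusedSectionVars false

namespace BDP

namespace Hub

open Finset Classical Pool.Agent.Work.MP_0890ba_co

variable {V : Type} {G : SimpleGraph V}

/-- The set of a component of `T` contains the chosen vertex. -/
lemma exists_rep [Fintype V] {T : Set V} {x₀ : V} (hx₀ : x₀ ∈ T) : ∃ rep : V → T, ∀ x ∈ T, ∀ y ∈ T,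
    ((rep x = rep y ↔ (res G T).Reachable x y)) := by
  let f : Set V → V := fun s => if h : s.Nonempty then h.some else x₀
  have hf : ∀ x, f (cmp G T x) ∈ cmp G T x := by
    intro x
    have h : (cmp G T x).Nonempty := ⟨x, mem_cmp_self _ _⟩
    show (if h : (cmp G T x).Nonempty then h.some else x₀) ∈ _
    rw [dif_pos h]
    exact h.some_mem
  refine ⟨fun x => if h : x ∈ T then ⟨f (cmp G T x), cmp_subset h (hf x)⟩ else ⟨x₀, hx₀⟩,
    fun x hx y hy => ?_⟩
  simp only [dif_pos hx, dif_pos hy, Subtype.mk.injEq]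
  constructor
  · intro h
    have h1 : (res G T).Reachable x (f (cmp G T x)) := hf x
    have h2 : (res G T).Reachable y (f (cmp G T y)) := hf y
    rw [h] at h1
    exact h1.trans h2.symm
  · intro h
    have h1 : cmp G T x = cmp G T y := by
      ext z
      exact ⟨fun h2 => h.symm.trans h2, fun h2 => h.trans h2⟩
    rw [h1]

/-- The sum over an indexed family of sets which are full or empty. -/
lemma sum_ite_card {Ω : Type} [Fintype Ω] (p : Ω → Prop) [DecidablePred p] (D : Finset ℤ) :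
    ∑ ω, (if p ω then D else ∅).card = (univ.filter fun ω => p ω).card * D.card := by
  have h1 : ∀ ω, (if p ω then D else ∅).card = if p ω then D.card else 0 := by
    intro ω
    split_ifs
    · rfl
    · rfl
  simp only [h1]
  rw [← sum_filter, sum_const, smul_eq_mul]

/-- The number of maps with a prescribed value. -/
lemma card_one {I : Type} [Fintype I] (r : I) (a : Fin 3) :
    (univ.filter fun t : I → Fin 3 => t r = a).card * 3 = 3 ^ Fintype.card I := by
  have : Nonempty I := ⟨r⟩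
  have h1 := Far.card_value (V := I) (B := Fin 3) r {a}
  rw [Fintype.card_fin, card_singleton, one_mul, Fintype.card_fun, Fintype.card_fin] at h1
  rw [← h1]
  congr 2
  ext t
  simp

/-- The matching values. -/
lemma exists_values [Fintype V] (h5 : ¬HasK5Minor G) {p q : V} (hpq : G.Adj p q) {X C : Set V}
    (hX : ∀ x ∈ X, G.Adj p x ∧ G.Adj q x) (hC : Conn G C) (hCX : Disjoint C X) (hp : p ∉ C)
    (hq : q ∉ C) {N : Finset V} (hN2 : N.card ≤ 2) (hNX : ∀ x ∈ N, x ∈ X)
    (hNC : ∀ x ∈ N, ∃ v ∈ C, G.Adj x v) {rep : V → X}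
    (hrep : ∀ x ∈ X, ∀ y ∈ X, ((rep x = rep y ↔ (res G X).Reachable x y)))
    {ψ : V → Fin 3} (hψ : ∀ x ∈ X, ∀ y ∈ X, G.Adj x y → ψ x ≠ ψ y) {A S : V → Finset ℤ}
    (hSA : ∀ x ∈ N, S x ⊆ A x) (hSd : ∀ x ∈ N, ∀ y ∈ N, G.Adj x y → Disjoint (S x) (S y))
    (c : ℤ) (r₀ : X) : ∃ (r r' : X) (a a' : Fin 3), (r = r' → a = a') ∧
      ∀ t : X → Fin 3, t r = a → t r' = a' →
        ∀ x ∈ N, (c ∈ (if t (rep x) = ψ x then A x else ∅) ↔ c ∈ S x) := by
  have key : ∀ (t : X → Fin 3) (x : V), x ∈ N → (c ∈ S x → t (rep x) = ψ x) →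
      (c ∉ S x → t (rep x) ≠ ψ x) → (c ∈ (if t (rep x) = ψ x then A x else ∅) ↔ c ∈ S x) := by
    intro t x hx h1 h2
    by_cases h : c ∈ S x
    · rw [if_pos (h1 h)]
      exact ⟨fun _ => h, fun _ => hSA x hx h⟩
    · rw [if_neg (h2 h)]
      exact ⟨fun h' => absurd h' (notMem_empty c), fun h' => absurd h' h⟩
  have hne : ∀ i : Fin 3, i + 1 ≠ i := by decide
  have h3 : ∀ i j : Fin 3, ∃ k : Fin 3, k ≠ i ∧ k ≠ j := by decide
  rcases Nat.lt_or_ge N.card 2 with h | h
  · rcases Nat.eq_zero_or_pos N.card with h0 | h0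
    · refine ⟨r₀, r₀, 0, 0, fun _ => rfl, fun t _ _ x hx => ?_⟩
      rw [card_eq_zero] at h0
      rw [h0] at hx
      exact absurd hx (notMem_empty x)
    · obtain ⟨x, hx⟩ := card_eq_one.1 (show N.card = 1 by omega)
      refine ⟨rep x, rep x, if c ∈ S x then ψ x else ψ x + 1, if c ∈ S x then ψ x else ψ x + 1,
        fun _ => rfl, fun t ht _ y hy => ?_⟩
      rw [hx, mem_singleton] at hy
      subst hy
      refine key t y (by rw [hx]; exact mem_singleton_self y) (fun h1 => ?_) (fun h1 => ?_)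
      · rw [ht, if_pos h1]
      · rw [ht, if_neg h1]
        exact hne _
  · obtain ⟨x, y, hxy, hN⟩ := card_eq_two.1 (show N.card = 2 by omega)
    have hx : x ∈ N := by rw [hN]; simp
    have hy : y ∈ N := by rw [hN]; simp
    by_cases hr : rep x = rep y
    · have hadj : G.Adj x y := bd_adj h5 hpq hX hC hCX hp hq (hNX x hx) (hNX y hy) hxy
        (hNC x hx) (hNC y hy) ((hrep x (hNX x hx) y (hNX y hy)).1 hr)
      have hψxy := hψ x (hNX x hx) y (hNX y hy) hadj
      have hd := hSd x hx y hy hadj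
      obtain ⟨k, hk1, hk2⟩ := h3 (ψ x) (ψ y)
      by_cases hcx : c ∈ S x
      · have hcy : c ∉ S y := fun h' => disjoint_left.1 hd hcx h'
        refine ⟨rep x, rep x, ψ x, ψ x, fun _ => rfl, fun t ht _ z hz => ?_⟩
        rw [hN, mem_insert, mem_singleton] at hz
        rcases hz with rfl | rfl
        · exact key t z hx (fun _ => ht) (fun h' => absurd hcx h')
        · exact key t z hy (fun h' => absurd h' hcy) (fun _ => by rw [← hr, ht]; exact hψxy)
      · by_cases hcy : c ∈ S y
        · refine ⟨rep x, rep x, ψ y, ψ y, fun _ => rfl, fun t ht _ z hz => ?_⟩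
          rw [hN, mem_insert, mem_singleton] at hz
          rcases hz with rfl | rfl
          · exact key t z hx (fun h' => absurd h' hcx) (fun _ => by rw [ht]; exact hψxy.symm)
          · exact key t z hy (fun _ => by rw [← hr, ht]) (fun h' => absurd hcy h')
        · refine ⟨rep x, rep x, k, k, fun _ => rfl, fun t ht _ z hz => ?_⟩
          rw [hN, mem_insert, mem_singleton] at hz
          rcases hz with rfl | rfl
          · exact key t z hx (fun h' => absurd h' hcx) (fun _ => by rw [ht]; exact hk1)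
          · exact key t z hy (fun h' => absurd h' hcy) (fun _ => by rw [← hr, ht]; exact hk2)
    · refine ⟨rep x, rep y, if c ∈ S x then ψ x else ψ x + 1, if c ∈ S y then ψ y else ψ y + 1,
        fun h' => absurd h' hr, fun t ht ht' z hz => ?_⟩
      rw [hN, mem_insert, mem_singleton] at hz
      rcases hz with rfl | rfl
      · refine key t z hx (fun h1 => ?_) (fun h1 => ?_)
        · rw [ht, if_pos h1]
        · rw [ht, if_neg h1]
          exact hne _
      · refine key t z hy (fun h1 => ?_) (fun h1 => ?_)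
        · rw [ht', if_pos h1]
        · rw [ht', if_neg h1]
          exact hne _

/-- The uniform mixture for a piece. -/
theorem uniform [Fintype V] (h5 : ¬HasK5Minor G) (h3 : ¬HasK3Minor 3 G) {Z : Finset V}
    (hcl : ∀ u ∈ Z, ∀ v ∈ Z, u ≠ v → G.Adj u v) (hZ : Z.card ≤ 2) {K : Set V}
    (hK : ∀ v ∈ K, v ∉ Z) {φ : V → Fin 4} (hφ : ∀ u v, G.Adj u v → u ∉ Z → v ∉ Z → φ u ≠ φ v)
    {A : V → Finset ℤ} {β : ℕ} (hA : ∀ v ∈ K, 5 * β ≤ (A v).card + hn G Z v * β) {n : ℕ}
    (hKn : K.ncard ≤ n) :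
    ∃ S : Fin (19 * (785 * 3 ^ n)) → V → Finset ℤ, (∀ ω, SetCol G K A (S ω)) ∧
      ∀ v ∈ K, 19 * (786 * 3 ^ n) * β ≤ ∑ ω, (S ω v).card := by
  have hG : Five.SepOrGood G := fun Z' W x y hZ' hZn hd hx hy hxy hO =>
    sep_or_good h5 h3 hZ' hZn hd hx hy hxy hO
  set X : Set V := {v | v ∈ K ∧ hn G Z v = 2} with hXdef
  rcases X.eq_empty_or_nonempty with hX0 | ⟨x₀, hx₀⟩
  · -- no common neighbours
    obtain ⟨Ω, hΩ, S, hc, hS, hsum⟩ := tickets_eq hG hcl hZ hK (φ := φ)
      (fun u hu v hv huv => hφ u v huv (hK u hu) (hK v hv)) hA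
    have h0 : (univ.filter fun v => v ∈ K ∧ hn G Z v = 2) = ∅ := by
      rw [filter_eq_empty_iff]
      intro v _ hv
      have h1 : v ∈ X := hv
      rw [hX0] at h1
      exact h1
    rw [h0, card_empty] at hc
    obtain ⟨S', hS', hsum'⟩ := pad S hS (N := 19 * (785 * 3 ^ n)) (k := 785 * 3 ^ n)
      (by rw [hc]; ring) (by positivity)
    refine ⟨S', hS', fun v hv => ?_⟩
    rw [hsum' v]
    have h1 := Nat.mul_le_mul_left (785 * 3 ^ n) (hsum v hv)
    refine le_trans ?_ h1
    rw [hc]
    have h2 : 0 ≤ 3 ^ n * β := Nat.zero_le _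
    nlinarith
  -- the two precoloured vertices
  obtain ⟨hx₀K, hx₀2⟩ := hx₀
  have hZ2 : Z.card = 2 := by
    have h1 : hn G Z x₀ ≤ Z.card := card_filter_le _ _
    omega
  obtain ⟨p, q, hpq', hZpq⟩ := card_eq_two.1 hZ2
  have hp : p ∈ Z := by rw [hZpq]; simp
  have hq : q ∈ Z := by rw [hZpq]; simp
  have hpq : G.Adj p q := hcl p hp q hq hpq'
  have hall : ∀ x, hn G Z x = 2 → ∀ z ∈ Z, G.Adj z x := by
    intro x hx z hz
    have h2 : (Z.filter fun u => G.Adj u x) = Z :=
      eq_of_subset_of_card_le (filter_subset _ _) (by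
        have h3 : (Z.filter fun u => G.Adj u x).card = 2 := hx
        omega)
    rw [← h2] at hz
    exact (mem_filter.1 hz).2
  have hXadj : ∀ x ∈ X, G.Adj p x ∧ G.Adj q x := fun x hx =>
    ⟨hall x hx.2 p hp, hall x hx.2 q hq⟩
  have hXK : X ⊆ K := fun x hx => hx.1
  have hnle : ∀ v, hn G Z v ≤ 2 := fun v => (card_filter_le _ _).trans hZ
  -- colourings with three and with two colours
  have hZc : Conn G (Z : Set V) := by
    intro u hu v hv
    by_cases huv : u = v
    · rw [huv]
    · exact SimpleGraph.Adj.reachable ⟨hcl u hu v hv huv, hu, hv⟩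
  obtain ⟨ψ, hψ⟩ := three hG (W := X) hZc ⟨p, hp⟩ (by
    rw [Set.disjoint_left]
    exact fun u hu hu' => hK u (hXK hu') hu) (fun v hv => ⟨p, hp, (hXadj v hv).1⟩)
  obtain ⟨χ, hχ⟩ := bd_two h5 hpq hXadj
  -- the lists
  have hA3 : ∀ v, ∃ D : Finset ℤ, D ⊆ A v ∧ (v ∈ X → D.card = 3 * β) ∧ (v ∉ X → D = A v) := by
    intro v
    by_cases hv : v ∈ X
    · have h1 := hA v hv.1
      rw [hv.2] at h1
      obtain ⟨D, hD, hDc⟩ := exists_subset_card_eq (show 3 * β ≤ (A v).card by omega)
      exact ⟨D, hD, fun _ => hDc, fun h => absurd hv h⟩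
    · exact ⟨A v, Subset.refl _, fun h => absurd h hv, fun _ => rfl⟩
  choose A' hA'1 hA'2 hA'3 using hA3
  obtain ⟨rep, hrep⟩ := exists_rep (G := G) (T := X) (x₀ := x₀) ⟨hx₀K, hx₀2⟩
  let Ω : Type := (X → Fin 3) × Fin 783
  set m : ℕ := 3 ^ Fintype.card X with hm
  have hΩc : Fintype.card Ω = m * 783 := by
    show Fintype.card ((X → Fin 3) × Fin 783) = m * 783
    rw [Fintype.card_prod, Fintype.card_fun, Fintype.card_fin, Fintype.card_fin]
  let U : Ω → V → Finset ℤ := fun ω x => if ω.1 (rep x) = ψ x then A' x else ∅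
  have hUc : ∀ x ∈ X, ∑ ω, (U ω x).card = Fintype.card Ω * β := by
    intro x hx
    have h1 : ∑ ω : Ω, (U ω x).card =
        (univ.filter fun ω : Ω => ω.1 (rep x) = ψ x).card * (A' x).card :=
      sum_ite_card _ _
    have h2 : (univ.filter fun ω : Ω => ω.1 (rep x) = ψ x).card =
        (univ.filter fun t : X → Fin 3 => t (rep x) = ψ x).card * 783 := by
      have h3 : (univ.filter fun ω : Ω => ω.1 (rep x) = ψ x) =
          (univ.filter fun t : X → Fin 3 => t (rep x) = ψ x) ×ˢ (univ : Finset (Fin 783)) := by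
        ext ⟨t, i⟩
        rw [mem_filter, mem_product, mem_filter]
        exact ⟨fun h => ⟨⟨mem_univ _, h.2⟩, mem_univ _⟩, fun h => ⟨mem_univ _, h.1.2⟩⟩
      rw [h3, card_product, card_univ, Fintype.card_fin]
    have h4 : (univ.filter fun t : X → Fin 3 => t (rep x) = ψ x).card * 3 =
        3 ^ Fintype.card X := by
      rw [← card_one (rep x) (ψ x)]
      congr 2
      ext t
      simp
    rw [h1, h2, hA'2 x hx, hΩc, hm, ← h4]
    ring
  -- the components
  have hcomp : ∀ C : Set V, ∃ S : Ω → V → Finset ℤ, (∃ v ∈ K \ X, C = cmp G (K \ X) v) →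
      (∀ ω, ∀ v ∈ C, S ω v ⊆ A v) ∧
      (∀ ω, ∀ u ∈ C, ∀ v ∈ C, G.Adj u v → Disjoint (S ω u) (S ω v)) ∧
      (∀ ω, ∀ v ∈ C, ∀ x ∈ X, G.Adj v x → Disjoint (S ω v) (U ω x)) ∧
      ∀ v ∈ C, (Fintype.card Ω + 3 * m) * β ≤ ∑ ω, (S ω v).card := by
    intro C
    by_cases hC : ∃ v ∈ K \ X, C = cmp G (K \ X) v
    swap
    · exact ⟨fun _ _ => ∅, fun h => absurd h hC⟩
    obtain ⟨v₀, hv₀, hCv⟩ := hC
    have hCsub : C ⊆ K \ X := by
      rw [hCv]
      exact cmp_subset hv₀
    have hCc : Conn G C := by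
      rw [hCv]
      exact conn_component _ _
    have hCX : Disjoint C X := by
      rw [Set.disjoint_left]
      exact fun v hv hv' => (hCsub hv).2 hv'
    have hpC : p ∉ C := fun h => hK p (hCsub h).1 hp
    have hqC : q ∉ C := fun h => hK q (hCsub h).1 hq
    let N : Finset V := univ.filter fun x => x ∈ X ∧ ∃ v ∈ C, G.Adj x v
    have hN : ∀ x, x ∈ N ↔ x ∈ X ∧ ∃ v ∈ C, G.Adj x v := fun x => by simp [N]
    have hN2 : N.card ≤ 2 := by
      rw [← Set.ncard_coe_finset]
      refine (Set.ncard_le_ncard ?_ (Set.toFinite _)).trans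
        (bd_card h3 hpq' hXadj hCc hCX hpC hqC)
      exact fun x hx => (hN x).1 (mem_coe.1 hx)
    have hAC : ∀ v ∈ C, A' v = A v := fun v hv => hA'3 v (hCsub hv).2
    obtain ⟨S, hS1, hS2, hS3, hS4⟩ := comp_family hG hcl ⟨p, hp⟩ hZ (C := C)
      (fun v hv => hK v (hCsub hv).1)
      (fun v hv => by
        have h1 := hnle v
        have h2 : hn G Z v ≠ 2 := fun h => (hCsub hv).2 ⟨(hCsub hv).1, h⟩
        omega)
      hN2 (fun x hx => hK x (hXK ((hN x).1 hx).1))
      (fun x hx hxC => (hCsub hxC).2 ((hN x).1 hx).1)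
      (fun x hx => ((hN x).1 hx).1.2) hφ (A := A') (β := β)
      (fun v hv => by
        rw [hAC v hv]
        exact hA v (hCsub hv).1)
      (fun x hx => hA'2 x ((hN x).1 hx).1) U
      (fun ω x _ => by
        show (if ω.1 (rep x) = ψ x then A' x else ∅) ⊆ A' x
        split_ifs
        · exact Subset.refl _
        · exact empty_subset _)
      (fun x hx => hUc x ((hN x).1 hx).1) (M := 3 * m)
      (fun S hSA hSd c => by
        obtain ⟨r, r', a, a', haa, hval⟩ := exists_values h5 hpq hXadj hCc hCX hpC hqC hN2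
          (fun x hx => ((hN x).1 hx).1) (fun x hx => ((hN x).1 hx).2) hrep hψ (A := A') hSA hSd
          c (rep x₀)
        have h1 : 3 ^ Fintype.card X ≤
            9 * (univ.filter fun t : X → Fin 3 => t r = a ∧ t r' = a').card := by
          refine le_trans (count_fix r r' a a' haa) (le_of_eq ?_)
          congr 2
          ext t
          simp
        have h2 : ((univ.filter fun t : X → Fin 3 => t r = a ∧ t r' = a') ×ˢ
            (univ : Finset (Fin 783))).card ≤
            (univ.filter fun ω : Ω => ∀ x ∈ N, (c ∈ U ω x ↔ c ∈ S x)).card := by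
          refine card_le_card ?_
          rintro ⟨t, i⟩ ht
          rw [mem_product, mem_filter] at ht
          exact mem_filter.2 ⟨mem_univ _, fun x hx => hval t ht.1.2.1 ht.1.2.2 x hx⟩
        rw [card_product, card_univ, Fintype.card_fin] at h2
        refine le_trans ?_ h2
        rw [hm]
        omega)
    refine ⟨S, fun _ => ⟨fun ω v hv => ?_, hS2, fun ω v hv x hx hvx => ?_, hS4⟩⟩
    · rw [← hAC v hv]
      exact hS1 ω v hv
    · exact hS3 ω v hv x ((hN x).2 ⟨hx, v, hv, hvx.symm⟩) hvx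
  choose SC hSC using hcomp
  have hSC' : ∀ v ∈ K \ X, _ := fun v hv => hSC (cmp G (K \ X) v) ⟨v, hv, rfl⟩
  let S1 : Ω → V → Finset ℤ := fun ω v => if v ∈ X then U ω v else SC (cmp G (K \ X) v) ω v
  let S2 : (X → Fin 3) × Fin 2 → V → Finset ℤ := fun ω v =>
    if v ∈ X ∧ χ v = ω.2 then A' v else ∅
  let S0 : Ω ⊕ ((X → Fin 3) × Fin 2) → V → Finset ℤ := fun ω v => match ω with
    | .inl ω => S1 ω v
    | .inr ω => S2 ω v
  have hc0 : Fintype.card (Ω ⊕ ((X → Fin 3) × Fin 2)) = 785 * m := by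
    rw [Fintype.card_sum, hΩc, Fintype.card_prod, Fintype.card_fun, Fintype.card_fin,
      Fintype.card_fin]
    ring
  have hUA : ∀ ω x, U ω x ⊆ A x := by
    intro ω x
    show (if ω.1 (rep x) = ψ x then A' x else ∅) ⊆ A x
    split_ifs
    · exact hA'1 x
    · exact empty_subset _
  have hS0 : ∀ ω, SetCol G K A (S0 ω) := by
    rintro (ω | ω)
    · refine ⟨fun v hv => ?_, fun u hu v hv huv => ?_⟩
      · show (if v ∈ X then U ω v else SC (cmp G (K \ X) v) ω v) ⊆ A v
        by_cases h : v ∈ X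
        · rw [if_pos h]
          exact hUA ω v
        · rw [if_neg h]
          exact (hSC' v ⟨hv, h⟩).1 ω v (mem_cmp_self _ _)
      · show Disjoint (if u ∈ X then U ω u else SC (cmp G (K \ X) u) ω u)
          (if v ∈ X then U ω v else SC (cmp G (K \ X) v) ω v)
        by_cases h : u ∈ X
        · by_cases h' : v ∈ X
          · rw [if_pos h, if_pos h']
            have e : rep u = rep v := (hrep u h v h').2
              (SimpleGraph.Adj.reachable ⟨huv, h, h'⟩)
            show Disjoint (if ω.1 (rep u) = ψ u then A' u else ∅)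
              (if ω.1 (rep v) = ψ v then A' v else ∅)
            rw [e]
            split_ifs with h6 h7
            · exact absurd (h6.symm.trans h7) (hψ u h v h' huv)
            · exact disjoint_empty_right _
            · exact disjoint_empty_left _
            · exact disjoint_empty_left _
          · rw [if_pos h, if_neg h']
            exact ((hSC' v ⟨hv, h'⟩).2.2.1 ω v (mem_cmp_self _ _) u h huv.symm).symm
        · by_cases h' : v ∈ X
          · rw [if_neg h, if_pos h']
            exact (hSC' u ⟨hu, h⟩).2.2.1 ω u (mem_cmp_self _ _) v h' huv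
          · rw [if_neg h, if_neg h']
            have e : cmp G (K \ X) u = cmp G (K \ X) v :=
              comp_adj (G := G) (T := K \ X) (v := v) (w := u) ⟨hv, h'⟩ ⟨hu, h⟩ huv.symm
            rw [e]
            refine (hSC' v ⟨hv, h'⟩).2.1 ω u ?_ v (mem_cmp_self _ _) huv
            rw [← e]
            exact mem_cmp_self _ _
    · refine ⟨fun v hv => ?_, fun u hu v hv huv => ?_⟩
      · show (if v ∈ X ∧ χ v = ω.2 then A' v else ∅) ⊆ A v
        split_ifs
        · exact hA'1 v
        · exact empty_subset _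
      · show Disjoint (if u ∈ X ∧ χ u = ω.2 then A' u else ∅)
          (if v ∈ X ∧ χ v = ω.2 then A' v else ∅)
        split_ifs with h6 h7
        · exact absurd (h6.2.trans h7.2.symm) (hχ u h6.1 v h7.1 huv)
        · exact disjoint_empty_right _
        · exact disjoint_empty_left _
        · exact disjoint_empty_left _
  have hXn : Fintype.card X ≤ n := by
    rw [← Nat.card_eq_fintype_card, Nat.card_coe_set_eq]
    exact (Set.ncard_le_ncard hXK (Set.toFinite _)).trans hKn
  obtain ⟨d, hd⟩ : ∃ d, n = d + Fintype.card X := ⟨n - Fintype.card X, by omega⟩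
  have h3n : 3 ^ n = 3 ^ d * m := by rw [hd, pow_add]
  obtain ⟨S', hS', hsum'⟩ := pad S0 hS0 (N := 19 * (785 * 3 ^ n)) (k := 19 * 3 ^ d)
    (by rw [hc0, h3n]; ring) (by positivity)
  refine ⟨S', hS', fun v hv => ?_⟩
  have hmain : 786 * m * β ≤ ∑ ω, (S0 ω v).card := by
    rw [Fintype.sum_sum_type]
    show 786 * m * β ≤ ∑ ω : Ω, (if v ∈ X then U ω v else SC (cmp G (K \ X) v) ω v).card +
      ∑ ω : (X → Fin 3) × Fin 2, (if v ∈ X ∧ χ v = ω.2 then A' v else ∅).card
    by_cases h : v ∈ X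
    · simp only [if_pos h]
      rw [hUc v h, hΩc]
      have h4 : ∑ ω : (X → Fin 3) × Fin 2, (if v ∈ X ∧ χ v = ω.2 then A' v else ∅).card =
          m * (3 * β) := by
        rw [sum_ite_card (fun ω : (X → Fin 3) × Fin 2 => v ∈ X ∧ χ v = ω.2), hA'2 v h]
        congr 1
        have h5 : (univ.filter fun ω : (X → Fin 3) × Fin 2 => v ∈ X ∧ χ v = ω.2) =
            (univ : Finset (X → Fin 3)) ×ˢ ({χ v} : Finset (Fin 2)) := by
          ext ⟨t, i⟩
          rw [mem_filter, mem_product, mem_singleton]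
          exact ⟨fun h => ⟨mem_univ _, h.2.2.symm⟩, fun h' => ⟨mem_univ _, h, h'.2.symm⟩⟩
        rw [h5, card_product, card_singleton, card_univ, Fintype.card_fun, Fintype.card_fin]
        exact Nat.mul_one _
      rw [h4]
      exact le_of_eq (by ring)
    · simp only [if_neg h]
      have h4 := (hSC' v ⟨hv, h⟩).2.2.2 v (mem_cmp_self _ _)
      rw [hΩc] at h4
      refine le_trans (le_trans (le_of_eq (by ring)) h4) (Nat.le_add_right _ _)
  rw [hsum' v, h3n]
  calc 19 * (786 * (3 ^ d * m)) * β = 19 * 3 ^ d * (786 * m * β) := by ring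
    _ ≤ _ := Nat.mul_le_mul_left _ hmain

end Hub

end BDP
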